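import Pool.Agent.Helper54.EVL.StL
import Pool.Agent.Helper54.HQ.Base
import Pool.Agent.Helper54.HQ.M_Q3

/-!
# EV module Eat: the places where `f` has type `(1)(2g+1)`
-/

set_option autoImplicit false

namespace Pool.Agent.Helper54.EVL

open Polynomial Finset IsDedekindDomain
open Pool.Agent.Helper3.HY (co tau baseChange descentGroup IsPointValue IsTwPoint twGroup)
open Pool.Agent.Helper54.HL (tk IrrInt IrrBig Nr Rep RepA RepB pr pr_mk IsTwIrr RootLift
  unit_of_rho_LC)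
open Pool.Agent.Helper54.HQ (Prm pz factPrm fK RR LL algRL th kp red Bf NearOne LocSq TwAt EvenAt om ep
  Over IsQ LD At2 red_surj red_eq_zero)
open Pool.Agent.Helper54.HQ.Q3 (bc_mk isSquare_exp)
open Pool.Agent.Helper3.EV (Jx TType AType IType)

private theorem core_Eat (h1 : Pool.Agent.Helper54.HL.StRA) (h2 : Pool.Agent.Helper54.HL.StRB)
    (h3 : Pool.Agent.Helper54.HQ.StCV) (h5 : Pool.Agent.Helper54.HL.StNB)
    (h5' : Pool.Agent.Helper54.HL.StNM)
    {g : ℕ} (hg : 1 ≤ g) {f : ℤ[X]}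
    (hf : f.Monic) [Fact (Irreducible (fK f))] [IsDedekindDomain (RR f)]
    [IsFractionRing (RR f) (LL f)] {P : Prm} {O k : Type} [CommRing O] [IsDomain O]
    [IsDiscreteValuationRing O] [Field k] [Algebra O k] [IsFractionRing O k] {i : ℤ →+* O}
    {j : ℚ →+* k} {ρ : O →+* kp P} (hLD : LD P i j ρ) {θ : O} {g₂ : O[X]}
    (hg₂ : g₂.Monic) (hf₀ : f.map i = (X - C θ) * g₂) (hirr : Irreducible (g₂.map ρ))
    (hdegρ : (g₂.map ρ).natDegree = 2 * g + 1)
    (z : LL f) (hz : z ≠ 0) (hzN : IsSquare (Algebra.norm ℚ z)) : EvenUp P z := by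
  have hπ : Irreducible (i (pz P)) := hLD.unif
  have hsurj := hLD.surj
  have hker := hLD.ker
  have hfin : Finite (kp P) := inferInstance
  set π := i (pz P) with hπdef
  have hg₂ρ : (g₂.map ρ).Monic := hg₂.map ρ
  have hXρ : (X - C θ).map ρ = X - C (ρ θ) := by simp
  have hXm : (X - C θ : O[X]).Monic := monic_X_sub_C θ
  have hXirr : Irreducible ((X - C θ).map ρ) := by rw [hXρ]; exact irreducible_X_sub_C _
  have hh : (fK f).map j = tk k ((X - C θ) * g₂) := by rw [hLD.map, hf₀]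
  have hd1 : tk k (X - C θ) ∣ (fK f).map j := by
    rw [hh]; exact Polynomial.map_dvd _ (dvd_mul_right _ _)
  have hd2 : tk k g₂ ∣ (fK f).map j := by
    rw [hh]; exact Polynomial.map_dvd _ (dvd_mul_left _ _)
  have hA1 := h1 O k (kp P) π ρ hπ hsurj hker (X - C θ) hXm hXirr
  have hA2 := h1 O k (kp P) π ρ hπ hsurj hker g₂ hg₂ hirr
  have hB1 := h2 O k (kp P) π ρ hπ hsurj hker (X - C θ) hXm hXirr
  have hB2 := h2 O k (kp P) π ρ hπ hsurj hker g₂ hg₂ hirr
  have : Fact (Irreducible (tk k (X - C θ))) := ⟨hA1.irr⟩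
  have : Fact (Irreducible (tk k g₂)) := ⟨hA2.irr⟩
  have : Fact (Irreducible ((X - C θ).map ρ)) := ⟨hXirr⟩
  have : Fact (Irreducible (g₂.map ρ)) := ⟨hirr⟩
  let ev1 : LL f →+* AdjoinRoot (tk k (X - C θ)) := (pr hd1).comp (baseChange j (fK f))
  let ev2 : LL f →+* AdjoinRoot (tk k g₂) := (pr hd2).comp (baseChange j (fK f))
  have hev1 : ∀ x : LL f, ev1 x = pr hd1 (baseChange j (fK f) x) := fun x => rfl
  have hev2 : ∀ x : LL f, ev2 x = pr hd2 (baseChange j (fK f) x) := fun x => rfl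
  obtain ⟨e1, s1, hs1⟩ := hA1.ex (ev1 z) ((map_ne_zero ev1).2 hz)
  obtain ⟨e2, s2, hs2⟩ := hA2.ex (ev2 z) ((map_ne_zero ev2).2 hz)
  obtain ⟨c1, hc1, hc1'⟩ := hB1.norm _ _ _ hs1
  obtain ⟨c2, hc2, hc2'⟩ := hB2.norm _ _ _ hs2
  have hfin1 : FiniteDimensional (kp P) (AdjoinRoot ((X - C θ).map ρ)) :=
    (hXm.map ρ).finite_adjoinRoot
  have hfin2 : FiniteDimensional (kp P) (AdjoinRoot (g₂.map ρ)) := hg₂ρ.finite_adjoinRoot
  have hc10 : ρ c1 ≠ 0 := by rw [hc1]; exact Algebra.norm_ne_zero_iff.2 hs1.1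
  have hc20 : ρ c2 ≠ 0 := by rw [hc2]; exact Algebra.norm_ne_zero_iff.2 hs2.1
  have hprod : (fK f).map j = tk k (X - C θ) * tk k g₂ := by
    rw [hh]; simp only [tk, Polynomial.map_mul]
  have hnorm : Even (e1 + e2 * (2 * g + 1 : ℕ)) ∧ IsSquare (c1 * c2) := by
    apply Pool.Agent.Helper54.HL.H94.sq_lemma (k := k) hπ
    · rw [← hker, map_mul]; exact mul_ne_zero hc10 hc20
    · obtain ⟨pz, hpz⟩ := AdjoinRoot.mk_surjective z
      have h11 : IsSquare (Algebra.norm k (baseChange j (fK f) z)) := by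
        rw [← hpz, bc_mk, ← h5 ℚ k j (fK f) pz (hf.map _), hpz]
        exact hzN.map j
      have h12 : ∀ h' : k[X], h' = tk k (X - C θ) * tk k g₂ → ∀ (e1 : tk k (X - C θ) ∣ h')
          (e2 : tk k g₂ ∣ h') (x : AdjoinRoot h'), Algebra.norm k x =
            Algebra.norm k (pr e1 x) * Algebra.norm k (pr e2 x) := by
        rintro _ rfl e1 e2 x
        obtain ⟨px, rfl⟩ := AdjoinRoot.mk_surjective x
        rw [h5' k _ _ px (hXm.map _) (hg₂.map _), pr_mk, pr_mk]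
      rw [h12 _ hprod hd1 hd2, ← hev1, ← hev2, hc1', hc2'] at h11
      convert h11 using 1
      have hdg : g₂.natDegree = 2 * g + 1 := by rw [← hdegρ, hg₂.natDegree_map]
      rw [hdg, natDegree_X_sub_C, map_mul,
        zpow_add₀ (Pool.Agent.Helper54.HL.H94.am_ne hπ)]
      push_cast
      rw [mul_one]
      ring
  obtain ⟨hev, -⟩ := hnorm
  have he12 : Even (e1 + e2) := by
    have h11 : Even (e2 * (2 * g : ℕ)) := ⟨e2 * g, by push_cast; ring⟩
    have h12 := hev.sub h11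
    have h13 : e1 + e2 * ((2 * g + 1 : ℕ) : ℤ) - e2 * ((2 * g : ℕ) : ℤ) = e1 + e2 := by
      push_cast; ring
    rwa [h13] at h12
  have hj1 : Even ((e1.natAbs : ℤ) + e1) := by
    rw [Int.even_add, Int.even_coe_nat, Int.natAbs_even]
  have hj2 : Even ((e1.natAbs : ℤ) + e2) := by
    rw [Int.even_add, Int.even_coe_nat, Int.natAbs_even]
    exact Int.even_add.1 he12
  -- lifts
  have hredsurj : Function.Surjective (red P) := red_surj P
  obtain ⟨a0, ha0⟩ := hredsurj (ρ θ)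
  obtain ⟨H0, hH0⟩ := Polynomial.map_surjective (red P) hredsurj (g₂.map ρ)
  have hfred : f.map (red P) = (X - C (ρ θ)) * g₂.map ρ := by
    rw [← hLD.map_red, hf₀, Polynomial.map_mul, hXρ]
  have hbcϖ : baseChange j (fK f) ((pz P : ℤ) : LL f) =
      AdjoinRoot.mk ((fK f).map j) (C (algebraMap O k π ^ (1 : ℤ))) := by
    have h20 : ((pz P : ℤ) : LL f) = AdjoinRoot.mk (fK f) (C (Int.castRingHom ℚ (pz P))) := by
      rw [AdjoinRoot.mk_C, eq_intCast, map_intCast]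
    rw [h20, bc_mk, zpow_one, map_C, hπdef, hLD.comp]
  refine ⟨e1.natAbs, ?_⟩
  intro q' hq'
  have hmem : AdjoinRoot.mk f (X - C a0) * AdjoinRoot.mk f H0 ∈ q'.asIdeal := by
    have h11 : C (pz P) ∣ (X - C a0) * H0 - f := by
      rw [C_dvd_iff_dvd_coeff]
      intro n
      have h12 : ((X - C a0) * H0 - f).map (red P) = 0 := by
        rw [Polynomial.map_sub, Polynomial.map_mul, hH0, hfred, Polynomial.map_sub, map_X, map_C,
          ha0, sub_self]
      have h13 := congrArg (fun r => coeff r n) h12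
      simp only [coeff_map, coeff_zero] at h13
      exact red_eq_zero.1 h13
    obtain ⟨r, hr⟩ := h11
    have h14 : (X - C a0) * H0 = f + C (pz P) * r := by rw [← hr]; ring
    rw [← map_mul, h14, map_add, AdjoinRoot.mk_self, zero_add, map_mul]
    exact Ideal.mul_mem_right _ _ hq'
  rcases q'.isPrime.mem_or_mem hmem with h11 | h11
  · have hR := hA1.mul _ _ _ _ _ _
      (Pool.Agent.Helper54.HL.H94.rep_pow hA1 (z := ev1 ((pz P : ℤ) : LL f)) (e := 1) (s := 1)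
        (by rw [hev1, hbcϖ, pr_mk]; exact hA1.pow 1) e1.natAbs) hs1
    rw [← map_pow, ← map_mul, mul_one, hev1] at hR
    have h12 := h3 f hf P O k i j ρ hLD (X - C θ) hXm hXirr
      (by rw [hf₀]; exact dvd_mul_right _ _) hd1 (X - C a0)
      (by rw [hXρ, Polynomial.map_sub, map_X, map_C, ha0]) q' hq' h11 _ _ _ hR
    change IsSquare _
    rw [h12]
    exact isSquare_exp hj1.neg
  · have hR := hA2.mul _ _ _ _ _ _
      (Pool.Agent.Helper54.HL.H94.rep_pow hA2 (z := ev2 ((pz P : ℤ) : LL f)) (e := 1) (s := 1)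
        (by rw [hev2, hbcϖ, pr_mk]; exact hA2.pow 1) e1.natAbs) hs2
    rw [← map_pow, ← map_mul, mul_one, hev2] at hR
    have h12 := h3 f hf P O k i j ρ hLD g₂ hg₂ hirr
      (by rw [hf₀]; exact dvd_mul_left _ _) hd2 H0 hH0 q' hq' h11 _ _ _ hR
    change IsSquare _
    rw [h12]
    exact isSquare_exp hj2.neg

theorem hEat (h1 : Pool.Agent.Helper54.HL.StRA) (h2 : Pool.Agent.Helper54.HL.StRB)
    (h3 : Pool.Agent.Helper54.HQ.StCV) (h4 : Pool.Agent.Helper54.HQ.StLD)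
    (h5 : Pool.Agent.Helper54.HL.StNB) (h6 : Pool.Agent.Helper54.HL.StNM)
    (h7 : Pool.Agent.Helper54.HL.StFA) : StEat := by
  intro g hg f hf _ _ _ P hT z hz hzN
  obtain ⟨a, p, hp, hpirr, hpdeg, hfp⟩ := hT
  obtain ⟨i, ρ, hLD, hRL, -⟩ := h4 P
  have hpa : p.eval a ≠ 0 := by
    intro h0
    have h11 : p.natDegree = 1 := natDegree_eq_of_degree_eq_some
      (degree_eq_one_of_irreducible_of_root hpirr (x := a) h0)
    rw [hpdeg] at h11
    omega
  obtain ⟨θ, g₂, hg₂, hθ, hf₀, hg₂ρ⟩ := h7 ℤ_[(P : ℕ)] (kp P) ρ hLD.surj hRL (f.map i) a p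
    (hf.map i) hp hpa (by rw [hLD.map_red, hfp])
  subst hg₂ρ
  exact core_Eat h1 h2 h3 h5 h6 hg hf hLD hg₂ hf₀ hpirr hpdeg z hz hzN

end Pool.Agent.Helper54.EVL
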