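import Pool.Agent.Helper54.EVL.StL

/-!
# EV module Eco: constants in the full twist group
-/

set_option autoImplicit false

namespace Pool.Agent.Helper54.EVL

open Polynomial Finset IsDedekindDomain
open Pool.Agent.Helper3.HY (co tau baseChange descentGroup IsPointValue IsTwPoint twGroup)
open Pool.Agent.Helper54.HQ (Prm pz factPrm fK RR LL algRL th kp red Bf NearOne LocSq TwAt EvenAt om ep
  Over IsQ LD At2)

/-- constants as units -/
noncomputable def cu_Eco {k : Type} [Field k] (h : k[X]) : kˣ →* (AdjoinRoot h)ˣ :=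
  Units.map (algebraMap k (AdjoinRoot h) : k →* AdjoinRoot h)

theorem coe_cu_Eco {k : Type} [Field k] (h : k[X]) (c : kˣ) :
    ((cu_Eco h c : (AdjoinRoot h)ˣ) : AdjoinRoot h) = algebraMap k (AdjoinRoot h) (c : k) := rfl

theorem sq_mem_Eco {k : Type} [Field k] (h : k[X]) (D : k) (z : (AdjoinRoot h)ˣ) :
    z ^ 2 ∈ twGroup h D := Subgroup.subset_closure (Or.inr ⟨z, rfl⟩)

theorem twG_Eco {k : Type} [Field k] (h : k[X]) (D : k) (z : (AdjoinRoot h)ˣ)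
    (hz : z ∈ twG h D) : ∃ c : kˣ, cu_Eco h c * z ∈ twGroup h D := by
  induction hz using Subgroup.closure_induction with
  | mem x hx =>
    rcases hx with (hx | ⟨c, hc⟩) | ⟨w, rfl⟩
    · refine ⟨1, ?_⟩
      rw [map_one, one_mul]
      exact Subgroup.subset_closure (Or.inl hx)
    · by_cases h0 : c = 0
      · rw [h0, map_zero] at hc
        have h1 : (1 : AdjoinRoot h) = 0 := by
          rw [← Units.mul_inv x, hc, zero_mul]
        have : Subsingleton (AdjoinRoot h) := ⟨fun a b => by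
          rw [← one_mul a, ← one_mul b, h1, zero_mul, zero_mul]⟩
        refine ⟨1, ?_⟩
        have hx : x = 1 := Units.ext (Subsingleton.elim _ _)
        rw [hx, map_one, one_mul]
        exact one_mem _
      · refine ⟨(Units.mk0 c h0)⁻¹, ?_⟩
        have : x = cu_Eco h (Units.mk0 c h0) := Units.ext hc
        rw [this, map_inv, inv_mul_cancel]
        exact one_mem _
    · refine ⟨1, ?_⟩
      rw [map_one, one_mul]
      exact sq_mem_Eco h D w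
  | one => exact ⟨1, by rw [map_one, one_mul]; exact one_mem _⟩
  | mul x y _ _ hx hy =>
    obtain ⟨c, hc⟩ := hx
    obtain ⟨d, hd⟩ := hy
    refine ⟨c * d, ?_⟩
    rw [map_mul, mul_mul_mul_comm]
    exact mul_mem hc hd
  | inv x _ hx =>
    obtain ⟨c, hc⟩ := hx
    refine ⟨c⁻¹, ?_⟩
    rw [map_inv, ← mul_inv]
    exact inv_mem hc

/-- units of `ℤ_p` near `1` are squares -/
theorem sq_near_Eco (p : ℕ) [Fact p.Prime] (u : ℤ_[p]) (hu : ‖u - 1‖ < ‖(2 : ℤ_[p])‖ ^ 2) :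
    ∃ s : ℤ_[p], s ^ 2 = u := by
  obtain ⟨z, hz, -⟩ := hensels_lemma (p := p) (F := (X ^ 2 - C u : ℤ_[p][X]))
    (a := (1 : ℤ_[p])) (by
      have e1 : aeval (1 : ℤ_[p]) (X ^ 2 - C u : ℤ_[p][X]) = -(u - 1) := by
        simp only [map_sub, map_pow, aeval_X, aeval_C]
        rw [one_pow, show algebraMap ℤ_[p] ℤ_[p] u = u from rfl]
        ring
      have e2 : aeval (1 : ℤ_[p]) (derivative (X ^ 2 - C u : ℤ_[p][X])) = 2 := by
        simp
        norm_num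
      rw [e1, e2, norm_neg]
      exact hu)
  refine ⟨z, ?_⟩
  simp only [map_sub, map_pow, aeval_X, aeval_C] at hz
  exact sub_eq_zero.1 hz

theorem exists_int_Eco (p : ℕ) [Fact p.Prime] (c : ℚ_[p]) (hc : c ≠ 0) :
    ∃ (a : ℤ) (t : ℚ_[p]), a ≠ 0 ∧ t ≠ 0 ∧ (a : ℚ_[p]) = c * t ^ 2 := by
  obtain ⟨x, y, hy, hxy⟩ := IsFractionRing.div_surjective (A := ℤ_[p]) c
  have hy0 : (y : ℚ_[p]) ≠ 0 := by
    have h1 : y ≠ 0 := nonZeroDivisors.ne_zero hy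
    exact fun h => h1 (PadicInt.coe_eq_zero.1 h)
  have hxy' : (x : ℚ_[p]) / (y : ℚ_[p]) = c := hxy
  have hx0 : (x : ℚ_[p]) ≠ 0 := by
    intro h
    rw [h, zero_div] at hxy'
    exact hc hxy'.symm
  have hw0 : x * y ≠ 0 := by
    intro h
    have : ((x * y : ℤ_[p]) : ℚ_[p]) = 0 := by rw [h]; rfl
    rw [PadicInt.coe_mul] at this
    exact mul_ne_zero hx0 hy0 this
  have h2 : (2 : ℤ_[p]) ≠ 0 := two_ne_zero
  have hε : 0 < ‖x * y‖ * ‖(2 : ℤ_[p])‖ ^ 2 :=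
    mul_pos (norm_pos_iff.2 hw0) (pow_pos (norm_pos_iff.2 h2) 2)
  obtain ⟨a, ha⟩ := (PadicInt.denseRange_intCast (p := p)).exists_dist_lt (x * y) hε
  rw [dist_eq_norm] at ha
  have h21 : ‖(2 : ℤ_[p])‖ ^ 2 ≤ 1 := pow_le_one₀ (norm_nonneg _) (PadicInt.norm_le_one _)
  -- u = a / (x y)
  have hwn : 0 < ‖x * y‖ := norm_pos_iff.2 hw0
  have hlt : ‖((a : ℤ_[p]) - x * y : ℤ_[p])‖ < ‖x * y‖ * ‖(2 : ℤ_[p])‖ ^ 2 := by
    rw [norm_sub_rev]; exact ha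
  have hdn : ‖(((a : ℤ_[p]) - x * y : ℤ_[p]) : ℚ_[p]) / ((x * y : ℤ_[p]) : ℚ_[p])‖
      < ‖(2 : ℤ_[p])‖ ^ 2 := by
    rw [norm_div, ← PadicInt.norm_def, ← PadicInt.norm_def, div_lt_iff₀ hwn]
    linarith [hlt]
  obtain ⟨δ, hδ⟩ : ∃ δ : ℤ_[p], (δ : ℚ_[p]) =
      (((a : ℤ_[p]) - x * y : ℤ_[p]) : ℚ_[p]) / ((x * y : ℤ_[p]) : ℚ_[p]) :=
    ⟨⟨_, hdn.le.trans h21⟩, rfl⟩
  have hδn : ‖δ‖ < ‖(2 : ℤ_[p])‖ ^ 2 := by
    rw [PadicInt.norm_def, hδ]; exact hdn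
  obtain ⟨s, hs⟩ := sq_near_Eco p (1 + δ) (by rw [add_sub_cancel_left]; exact hδn)
  have hwQ : ((x * y : ℤ_[p]) : ℚ_[p]) ≠ 0 := by
    rw [PadicInt.coe_mul]; exact mul_ne_zero hx0 hy0
  have hs' : (s : ℚ_[p]) ^ 2 = 1 + (δ : ℚ_[p]) := by
    have := congrArg (fun t : ℤ_[p] => (t : ℚ_[p])) hs
    simpa using this
  have ha2 : (a : ℚ_[p]) = ((x * y : ℤ_[p]) : ℚ_[p]) * (s : ℚ_[p]) ^ 2 := by
    rw [hs', hδ, mul_add, mul_one, mul_div_cancel₀ _ hwQ]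
    push_cast
    ring
  have ha0 : a ≠ 0 := by
    rintro rfl
    rw [Int.cast_zero, zero_sub, norm_neg] at hlt
    have : ‖x * y‖ * ‖(2 : ℤ_[p])‖ ^ 2 ≤ ‖x * y‖ := by
      exact mul_le_of_le_one_right hwn.le h21
    exact absurd (hlt.trans_le this) (lt_irrefl _)
  have ha0' : (a : ℚ_[p]) ≠ 0 := by exact_mod_cast ha0
  have hs0 : (s : ℚ_[p]) ≠ 0 := by
    intro h
    rw [h] at ha2
    apply ha0'
    rw [ha2]
    ring
  refine ⟨a, y * s, ha0, mul_ne_zero hy0 hs0, ?_⟩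
  rw [ha2, ← hxy', PadicInt.coe_mul]
  field_simp

theorem hEco : StEco := by
  intro f _ _ D p _ z hz
  obtain ⟨c, hc⟩ := twG_Eco _ _ _ hz
  obtain ⟨a, t, ha, ht, hat⟩ := exists_int_Eco p (c : ℚ_[p]) c.ne_zero
  have haQ : (a : ℚ) ≠ 0 := by exact_mod_cast ha
  refine ⟨a, cu_Eco (fK f) (Units.mk0 (a : ℚ) haQ) * z, ha, ?_, ?_⟩
  · rw [Units.val_mul, coe_cu_Eco, Units.val_mk0, map_intCast]
  · unfold TwAt
    have e : Units.map (baseChange (algebraMap ℚ ℚ_[p]) (fK f) : LL f →* _)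
        (cu_Eco (fK f) (Units.mk0 (a : ℚ) haQ) * z) =
        (cu_Eco ((fK f).map (algebraMap ℚ ℚ_[p])) c *
          Units.map (baseChange (algebraMap ℚ ℚ_[p]) (fK f) : LL f →* _) z) *
        (cu_Eco ((fK f).map (algebraMap ℚ ℚ_[p])) (Units.mk0 t ht)) ^ 2 := by
      rw [map_mul, mul_right_comm]
      congr 1
      apply Units.ext
      rw [Units.val_mul, Units.val_pow_eq_pow_val, coe_cu_Eco, coe_cu_Eco, Units.val_mk0,
        ← map_pow, ← map_mul, ← hat]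
      change AdjoinRoot.map (algebraMap ℚ ℚ_[p]) (fK f) ((fK f).map (algebraMap ℚ ℚ_[p])) dvd_rfl
        (AdjoinRoot.of _ _) = AdjoinRoot.of _ _
      rw [AdjoinRoot.map_of, Units.val_mk0]
      congr 1
    rw [e]
    exact mul_mem hc (sq_mem_Eco _ _ _)

end Pool.Agent.Helper54.EVL
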