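import Pool.Agent.Helper54.EVL.StL
import Pool.Agent.Helper54.HQ.Base

/-!
# EV module Ecz: multiplication by integers
-/

set_option autoImplicit false

namespace Pool.Agent.Helper54.EVL

open Polynomial Finset IsDedekindDomain
open Pool.Agent.Helper54.HQ (Prm pz factPrm fK RR LL algRL th kp red Bf NearOne LocSq TwAt EvenAt om ep
  Over IsQ LD At2 pz_prime pz_ne_zero)

private lemma even_mul_Ecz {f : ℤ[X]} [Fact (Irreducible (fK f))] [IsDedekindDomain (RR f)]
    [IsFractionRing (RR f) (LL f)] (q : HeightOneSpectrum (RR f)) (x y : LL f)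
    (hy : q.valuation (LL f) y = 1) : EvenAt q (y * x) ↔ EvenAt q x := by
  unfold EvenAt
  rw [map_mul, hy, one_mul]

/-- `c'` is a unit at the primes above `P` if `P ∤ c'`. -/
private lemma val_unit_Ecz {f : ℤ[X]} [Fact (Irreducible (fK f))] [IsDedekindDomain (RR f)]
    [IsFractionRing (RR f) (LL f)] (P : Prm) (q : HeightOneSpectrum (RR f)) (hq : Over P q)
    (c : ℤ) (hc : ¬ pz P ∣ c) : q.valuation (LL f) (c : LL f) = 1 := by
  have h1 : (c : LL f) = algebraMap (RR f) (LL f) (c : RR f) := (map_intCast _ c).symm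
  rw [h1]
  have h2 : q.valuation (LL f) (algebraMap (RR f) (LL f) (c : RR f)) ≤ 1 :=
    q.valuation_le_one _
  refine le_antisymm h2 (not_lt.1 fun h3 => ?_)
  rw [HeightOneSpectrum.valuation_lt_one_iff_mem] at h3
  -- `c` and `P` are coprime
  have h4 : IsCoprime (pz P) c := (Prime.coprime_iff_not_dvd (pz_prime P)).2 hc
  obtain ⟨u, v, huv⟩ := h4
  have h5 : (1 : RR f) ∈ q.asIdeal := by
    have h6 : (1 : RR f) = (u : RR f) * Int.castRingHom (RR f) (pz P) + (v : RR f) * (c : RR f) := by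
      have := congrArg (Int.cast : ℤ → RR f) huv
      push_cast at this
      rw [← this, eq_intCast]
      push_cast
      ring
    rw [h6]
    exact q.asIdeal.add_mem (q.asIdeal.mul_mem_left _ hq) (q.asIdeal.mul_mem_left _ h3)
  exact q.isPrime.ne_top ((Ideal.eq_top_iff_one _).2 h5)

theorem hEcz : StEcz := by
  intro f hf _ _ _ P z c hz hc
  -- `c = P ^ j * c'`
  obtain ⟨j, c', hc', hcj⟩ : ∃ (j : ℕ) (c' : ℤ), ¬ pz P ∣ c' ∧ c = pz P ^ j * c' := by
    have hfin : FiniteMultiplicity (pz P) c :=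
      Int.finiteMultiplicity_iff.2 ⟨by
        have := P.2.one_lt
        intro h
        rw [Int.natAbs_natCast] at h
        omega, hc⟩
    obtain ⟨c', h1, h2⟩ := hfin.exists_eq_pow_mul_and_not_dvd
    exact ⟨_, c', h2, h1⟩
  have hcast : (c : LL f) = ((pz P : ℤ) : LL f) ^ j * (c' : LL f) := by
    rw [hcj]; push_cast; ring
  constructor
  · rintro ⟨k, hk⟩
    refine ⟨k + j, fun q hq => ?_⟩
    have h1 := hk q hq
    rw [hcast] at h1
    rw [← even_mul_Ecz q _ (c' : LL f) (val_unit_Ecz P q hq c' hc')]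
    convert h1 using 1
    ring
  · rintro ⟨k, hk⟩
    refine ⟨k + j, fun q hq => ?_⟩
    have h1 := hk q hq
    have h2 : ((pz P : ℤ) : LL f) ^ (k + j) * ((c : LL f) * z) =
        (c' : LL f) * ((((pz P : ℤ) : LL f) ^ j) ^ 2 * (((pz P : ℤ) : LL f) ^ k * z)) := by
      rw [hcast]; ring
    rw [h2, even_mul_Ecz q _ (c' : LL f) (val_unit_Ecz P q hq c' hc')]
    unfold EvenAt at h1 ⊢
    rw [map_mul, map_pow]
    exact (IsSquare.sq _).mul h1

end Pool.Agent.Helper54.EVL
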