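import Pool.Agent.Helper54.EVL.StL
import Pool.Agent.Helper54.HQ.Base

/-!
# EV, local part, module Eev: even valuations up to a power of `P` at the regular places
-/

set_option autoImplicit false

namespace Pool.Agent.Helper54.EVL

open Polynomial IsDedekindDomain
open Pool.Agent.Helper3.HY (co tau baseChange descentGroup IsPointValue IsTwPoint twGroup)
open Pool.Agent.Helper54.HL (tk IrrInt IrrBig Nr Rep RepA RepB pr pr_mk IsTwIrr RootLift)
open Pool.Agent.Helper54.HQ (Prm pz factPrm fK RR LL algRL th kp red Bf NearOne LocSq TwAt EvenAt om ep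
  Over IsQ LD At2 red_eq_zero algebraMap_intCast pz_ne_zero pz_prime)

section

variable {f : ℤ[X]} [Fact (Irreducible (fK f))] [IsDedekindDomain (RR f)]
  [IsFractionRing (RR f) (LL f)]

private lemma sq_Eev {q : HeightOneSpectrum (RR f)} (z : LL f) : EvenAt q (z * z) := by
  unfold EvenAt
  rw [map_mul]
  exact ⟨_, rfl⟩

private lemma mul_Eev {q : HeightOneSpectrum (RR f)} {z w : LL f} (hz : EvenAt q z)
    (hw : EvenAt q w) : EvenAt q (z * w) := by
  unfold EvenAt at hz hw ⊢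
  rw [map_mul]
  exact hz.mul hw

private lemma inv_Eev {q : HeightOneSpectrum (RR f)} {z : LL f} (hz : EvenAt q z) :
    EvenAt q z⁻¹ := by
  unfold EvenAt at hz ⊢
  rw [map_inv₀]
  exact hz.inv

private lemma cast_ne_Eev (f : ℤ[X]) [Fact (Irreducible (fK f))] (a : ℤ) (ha : a ≠ 0) :
    ((a : ℤ) : LL f) ≠ 0 := by
  have h1 : ((a : ℤ) : LL f) = algebraMap ℚ (LL f) (a : ℚ) := by rw [map_intCast]
  rw [h1, Ne, map_eq_zero]
  exact_mod_cast ha

/-- The units which have even valuation up to a power of `P`. -/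
private noncomputable def Cl_Eev (P : Prm) (f : ℤ[X]) [Fact (Irreducible (fK f))]
    [IsDedekindDomain (RR f)] [IsFractionRing (RR f) (LL f)] : Subgroup (LL f)ˣ where
  carrier := {z | EvenUp P (z : LL f)}
  mul_mem' := by
    rintro a b ⟨i, ha⟩ ⟨j, hb⟩
    refine ⟨i + j, fun q hq => ?_⟩
    have h1 := mul_Eev (ha q hq) (hb q hq)
    have h2 : ((pz P : ℤ) : LL f) ^ i * (a : LL f) * (((pz P : ℤ) : LL f) ^ j * (b : LL f)) =
        ((pz P : ℤ) : LL f) ^ (i + j) * ((a * b : (LL f)ˣ) : LL f) := by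
      rw [Units.val_mul, pow_add]
      ring
    rw [← h2]
    exact h1
  one_mem' := by
    refine ⟨0, fun q _ => ?_⟩
    rw [pow_zero, one_mul, Units.val_one, ← one_mul (1 : LL f)]
    exact sq_Eev _
  inv_mem' := by
    rintro a ⟨i, ha⟩
    refine ⟨i, fun q hq => ?_⟩
    have h1 := mul_Eev (sq_Eev (q := q) (((pz P : ℤ) : LL f) ^ i)) (inv_Eev (ha q hq))
    have hP : ((pz P : ℤ) : LL f) ≠ 0 := cast_ne_Eev f _ (pz_ne_zero P)
    have h2 : ((pz P : ℤ) : LL f) ^ i * ((pz P : ℤ) : LL f) ^ i *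
        (((pz P : ℤ) : LL f) ^ i * (a : LL f))⁻¹ =
        ((pz P : ℤ) : LL f) ^ i * ((a⁻¹ : (LL f)ˣ) : LL f) := by
      rw [Units.val_inv_eq_inv_val, mul_inv]
      have hi : ((pz P : ℤ) : LL f) ^ i ≠ 0 := pow_ne_zero _ hP
      rw [mul_assoc, ← mul_assoc (((pz P : ℤ) : LL f) ^ i) (((pz P : ℤ) : LL f) ^ i)⁻¹,
        mul_inv_cancel₀ hi, one_mul]
    rw [← h2]
    exact h1

private lemma mem_Cl_Eev {P : Prm} {z : (LL f)ˣ} : z ∈ Cl_Eev P f ↔ EvenUp P (z : LL f) := Iff.rfl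

private lemma unit_Eev {P : Prm} {q : HeightOneSpectrum (RR f)} (hq : Over P q) {a : ℤ}
    (ha : ¬ pz P ∣ a) : q.valuation (LL f) ((a : ℤ) : LL f) = 1 := by
  rw [← algebraMap_intCast]
  refine le_antisymm (q.valuation_le_one _) (not_lt.1 fun h => ?_)
  rw [HeightOneSpectrum.valuation_lt_one_iff_mem] at h
  have hcop : IsCoprime (pz P) a := (Prime.coprime_iff_not_dvd (pz_prime P)).2 ha
  obtain ⟨u, v, huv⟩ := hcop
  have h1 : (1 : RR f) ∈ q.asIdeal := by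
    have h2 : (1 : RR f) = (u : RR f) * Int.castRingHom (RR f) (pz P) + (v : RR f) * (a : RR f) := by
      rw [eq_intCast, ← Int.cast_mul, ← Int.cast_mul, ← Int.cast_add, huv, Int.cast_one]
    rw [h2]
    exact Ideal.add_mem _ (Ideal.mul_mem_left _ _ hq) (Ideal.mul_mem_left _ _ h)
  exact q.isPrime.ne_top ((Ideal.eq_top_iff_one _).2 h1)

private lemma big_Eev {P : Prm} (e a : ℤ) (ha : ¬ pz P ∣ a) :
    EvenUp P (((pz P : ℤ) : LL f) ^ e * ((a : ℤ) : LL f)) := by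
  have hP : ((pz P : ℤ) : LL f) ≠ 0 := cast_ne_Eev f _ (pz_ne_zero P)
  refine ⟨e.natAbs, fun q hq => ?_⟩
  obtain ⟨m, hm⟩ : ∃ m : ℤ, (e.natAbs : ℤ) + e = m + m := by
    rcases le_total 0 e with h | h
    · exact ⟨e, by omega⟩
    · exact ⟨0, by omega⟩
  have h1 : ((pz P : ℤ) : LL f) ^ e.natAbs * (((pz P : ℤ) : LL f) ^ e * ((a : ℤ) : LL f)) =
      (((pz P : ℤ) : LL f) ^ m * ((pz P : ℤ) : LL f) ^ m) * ((a : ℤ) : LL f) := by
    rw [← mul_assoc, ← zpow_natCast, ← zpow_add₀ hP, hm, zpow_add₀ hP]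
  rw [h1]
  refine mul_Eev (sq_Eev _) ?_
  unfold EvenAt
  rw [unit_Eev hq ha]
  exact IsSquare.one

end

theorem hEev (h1 : HQ.StLD) (h2 : HQ.StIN) (h3 : HQ.StEI) (h5 : HQ.StNV) (h7 : HL.StNG)
    (h8 : StEbig) : StEev := by
  intro f hf _ _ _ P D hP2 hPD z hz
  obtain ⟨i, ρ, hLD, _, hirr⟩ := h1 P
  have hTw : Units.map (baseChange (algebraMap ℚ ℚ_[(P : ℕ)]) (fK f) : LL f →* _) z ∈
      twGroup ((fK f).map (algebraMap ℚ ℚ_[(P : ℕ)]))
        (algebraMap ℚ ℚ_[(P : ℕ)] (Int.castRingHom ℚ D)) := hz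
  generalize hj : algebraMap ℚ ℚ_[(P : ℕ)] = j at hLD hTw
  have hD0 : D ≠ 0 := by rintro rfl; exact hPD (dvd_zero _)
  have hDk0 : j (Int.castRingHom ℚ D) ≠ 0 := by
    rw [Ne, map_eq_zero, eq_intCast, Int.cast_eq_zero]
    exact hD0
  have hmem : z ∈ Cl_Eev P f := by
    refine h2 f hf P ℤ_[(P : ℕ)] ℚ_[(P : ℕ)] i j ρ hLD (j (Int.castRingHom ℚ D)) hDk0
      (Cl_Eev P f) ?_ ?_ ?_ z hTw
    · intro z hz
      refine ⟨0, fun q hq => ?_⟩
      have := (h5 f hf P q hq (z : LL f) hz).2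
      unfold EvenAt
      rw [pow_zero, one_mul, this]
      exact IsSquare.one
    · intro z
      refine ⟨0, fun q _ => ?_⟩
      rw [pow_zero, one_mul, Units.val_pow_eq_pow_val, pow_two]
      exact sq_Eev _
    · rintro y y' hyy ⟨U, V, hU, hUirr, hcop, hdiv, hy⟩
      have e : AdjoinRoot.mk ((fK f).map j)
          (C (-j (Int.castRingHom ℚ D)) ^ U.natDegree * U) * y' = 1 := by
        rw [← hy]; exact hyy
      rcases hirr U hU hUirr with hI | hB
      · obtain ⟨z, hz1, hz2⟩ := h3 f hf P ℤ_[(P : ℕ)] ℚ_[(P : ℕ)] i j ρ hP2 hLD D hPD U V hUirr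
          hcop hdiv hI y' e
        refine ⟨z, ⟨0, fun q hq => ?_⟩, hz2⟩
        rw [pow_zero, one_mul]
        exact hz1 q hq
      · obtain ⟨m, a, ha, hN⟩ := h8 f hf P ℤ_[(P : ℕ)] ℚ_[(P : ℕ)] i j ρ hLD
          (j (Int.castRingHom ℚ D)) hDk0 U hU hB y' e
        have ha0 : a ≠ 0 := by rintro rfl; exact ha (dvd_zero _)
        have hne : ((pz P : ℤ) : LL f) ^ m * ((a : ℤ) : LL f) ≠ 0 :=
          mul_ne_zero (zpow_ne_zero _ (cast_ne_Eev f _ (pz_ne_zero P))) (cast_ne_Eev f _ ha0)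
        exact ⟨Units.mk0 _ hne, big_Eev m a ha, hN⟩
  exact mem_Cl_Eev.1 hmem

end Pool.Agent.Helper54.EVL
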