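import Pool.Agent.Helper54.EVL.StL

/-!
# EV module Efa: factorisation over `O`
-/

set_option autoImplicit false

namespace Pool.Agent.Helper54.EVL

open Polynomial Finset IsDedekindDomain
open Pool.Agent.Helper54.HL (tk IrrInt IrrBig Nr Rep RepA RepB pr pr_mk IsTwIrr RootLift)

theorem hEfa (h : Pool.Agent.Helper54.HL.StFA) : StEfa := by
  intro O κ _ _ _ _ ρ hρ hRL f₀ a b p hf₀ hp hab hpa hpb hfac
  obtain ⟨θ₁, g₁, hg1, h1, h2, h3⟩ := h O κ ρ hρ hRL f₀ a ((X - C b) * p) hf₀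
    ((monic_X_sub_C b).mul hp)
    (by
      rw [eval_mul, eval_sub, eval_X, eval_C]
      exact mul_ne_zero (sub_ne_zero.2 hab) hpa)
    (by rw [hfac, mul_assoc])
  obtain ⟨θ₂, g₂, hg2, h4, h5, h6⟩ := h O κ ρ hρ hRL g₁ b p hg1 hp hpb h3
  exact ⟨θ₁, θ₂, g₂, hg2, h1, h4, by rw [h2, h5, mul_assoc], h6⟩

end Pool.Agent.Helper54.EVL
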