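import Pool.Agent.Helper54.EVL.StL
import Pool.Agent.Helper54.HQ.M_Hom

/-!
# EV module Ehom: `om` and `ep` at the primes above a place of `T`
-/

set_option autoImplicit false

namespace Pool.Agent.Helper54.EVL

open Polynomial Finset IsDedekindDomain
open Pool.Agent.Helper3.HY (co tau baseChange descentGroup IsPointValue IsTwPoint twGroup)
open Pool.Agent.Helper54.HL (tk IrrInt IrrBig Nr Rep RepA RepB pr pr_mk IsTwIrr RootLift)
open Pool.Agent.Helper54.HQ (Prm pz factPrm fK RR LL algRL th kp red Bf NearOne LocSq TwAt EvenAt om ep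
  Over IsQ LD At2)
open Pool.Agent.Helper3.EV (Jx TType AType IType)
open Pool.Agent.Helper54

/-- The parity of the valuation from the exponent. -/
theorem om_iff_Ehom {f : ℤ[X]} [Fact (Irreducible (fK f))] [IsDedekindDomain (RR f)]
    [IsFractionRing (RR f) (LL f)] {q : HeightOneSpectrum (RR f)} {x : LL f} {e : ℤ}
    (h : q.valuation (LL f) x = WithZero.exp (-e)) : om q x = 0 ↔ Even e := by
  have h8 : EvenAt q x ↔ Even e := by
    unfold EvenAt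
    rw [h, HQ.isSquare_exp_Hom, even_neg]
  rw [← h8]
  unfold om
  split_ifs with h9 <;> simp [h9]

/-- `Rep` of an integer. -/
theorem rep_int_Ehom {f : ℤ[X]} {P : Prm} {O k : Type} [CommRing O] [Field k] [Algebra O k]
    {i : ℤ →+* O} {j : ℚ →+* k} {ρ : O →+* kp P} (hL : LD P i j ρ) {g₀ : O[X]}
    (hirr : Irreducible (g₀.map ρ)) (hd : tk k g₀ ∣ (fK f).map j) {c c' : ℤ} {n : ℕ}
    (hc : c = pz P ^ n * c') (hc' : ¬ pz P ∣ c') :
    Rep (i (pz P)) ρ g₀ (pr hd (baseChange j (fK f) (c : LL f))) (n : ℤ)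
      (AdjoinRoot.mk (g₀.map ρ) (C (red P c'))) := by
  refine ⟨?_, C (i c'), ?_, ?_⟩
  · intro h
    rw [AdjoinRoot.mk_eq_zero] at h
    have hr : red P c' ≠ 0 := fun h0 => hc' (HQ.red_eq_zero.1 h0)
    have hu : IsUnit (C (red P c') : (kp P)[X]) := isUnit_C.2 (isUnit_iff_ne_zero.2 hr)
    exact hirr.not_isUnit (isUnit_of_dvd_unit h hu)
  · rw [Polynomial.map_C, hL.rho]
  · have h0 : tk k (C (i c')) = C (algebraMap O k (i c')) := Polynomial.map_C _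
    rw [map_intCast, map_intCast, h0, ← C_mul, zpow_natCast, ← map_pow, ← map_mul,
      ← map_pow, ← map_mul, ← hc, eq_intCast i c, map_intCast, map_intCast, map_intCast]

theorem hEhom (h1 : Pool.Agent.Helper54.HL.StRA) (h2 : Pool.Agent.Helper54.HQ.StCM)
    (h3 : Pool.Agent.Helper54.HQ.StLD) (h4 : StEfa) (h5 : Pool.Agent.Helper54.HQ.StCV)
    (h6 : Pool.Agent.Helper54.HL.StFS) (_h7 : StEom) : StEhom := by
  intro g hg f hf _ _ _ P hP2 a b p qa qb q hT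
  obtain ⟨i, ρ, hLD, hroot, -⟩ := h3 P
  have hev : ∀ x : kp P, p.eval x ≠ 0 := by
    intro x h0
    have h6 := Polynomial.degree_eq_one_of_irreducible_of_root hT.pirr h0
    have h7 : p.natDegree = 1 := Polynomial.natDegree_eq_of_degree_eq_some (by rw [h6]; rfl)
    have h8 := hT.pdeg
    omega
  have hfρ : (f.map i).map ρ = (X - C a) * (X - C b) * p := by rw [hLD.map_red, hT.fac]
  obtain ⟨θ₁, θ₂, g₂, hg₂, hθ₁, hθ₂, hfac, hg₂ρ⟩ := h4 ℤ_[(P : ℕ)] (kp P) ρ hLD.surj hroot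
    (f.map i) a b p (hf.map i) hT.pm hT.hab (hev a) (hev b) hfρ
  have hirr : Irreducible (g₂.map ρ) := by rw [hg₂ρ]; exact hT.pirr
  have hdvd : g₂ ∣ f.map i := ⟨(X - C θ₁) * (X - C θ₂), by rw [hfac, mul_comm]⟩
  have hdvd1 : (X - C θ₁) ∣ f.map i := ⟨(X - C θ₂) * g₂, by rw [hfac, mul_assoc]⟩
  have hdvd2 : (X - C θ₂) ∣ f.map i := ⟨(X - C θ₁) * g₂, by rw [hfac]; ring⟩
  have hdk : ∀ g₀ : ℤ_[(P : ℕ)][X], g₀ ∣ f.map i →
      tk ℚ_[(P : ℕ)] g₀ ∣ (fK f).map (algebraMap ℚ ℚ_[(P : ℕ)]) := by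
    intro g₀ h
    rw [hLD.map f]
    exact Polynomial.map_dvd _ h
  have hd := hdk g₂ hdvd
  obtain ⟨p₀, hp₀⟩ := Polynomial.map_surjective (red P) (HQ.red_surj P) (g₂.map ρ)
  have hp₀q : AdjoinRoot.mk f p₀ ∈ q.asIdeal := hT.mq p₀ (hp₀.trans hg₂ρ)
  have hRA := h1 ℤ_[(P : ℕ)] ℚ_[(P : ℕ)] (kp P) (i (pz P)) ρ hLD.unif hLD.surj hLD.ker g₂ hg₂ hirr
  have _ : Fact (Irreducible (tk ℚ_[(P : ℕ)] g₂)) := ⟨hRA.irr⟩
  have _ : Fact (Irreducible (g₂.map ρ)) := ⟨hirr⟩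
  have _ : Finite (AdjoinRoot (g₂.map ρ)) := by
    have : Module.Finite (kp P) (AdjoinRoot (g₂.map ρ)) :=
      (AdjoinRoot.powerBasis hirr.ne_zero).finite
    exact Module.finite_of_finite (kp P)
  have key : ∀ (x : LL f) (e : ℤ) (s : AdjoinRoot (g₂.map ρ)),
      Rep (i (pz P)) ρ g₂ (pr hd (baseChange (algebraMap ℚ ℚ_[(P : ℕ)]) (fK f) x)) e s →
      (om q x = 0 ↔ Even e) ∧ (ep P q x = 0 ↔ IsSquare s) := by
    intro x e s hs
    obtain ⟨h6, h7⟩ := h2 f hf P ℤ_[(P : ℕ)] ℚ_[(P : ℕ)] i (algebraMap ℚ ℚ_[(P : ℕ)]) ρ hP2 hLD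
      g₂ hg₂ hirr hdvd hd p₀ hp₀ q hT.isQ.1 hp₀q x e s hs
    exact ⟨om_iff_Ehom h6, h7⟩
  have hex : ∀ x : LL f, x ≠ 0 → ∃ (e : ℤ) (s : AdjoinRoot (g₂.map ρ)),
      Rep (i (pz P)) ρ g₂ (pr hd (baseChange (algebraMap ℚ ℚ_[(P : ℕ)]) (fK f) x)) e s := by
    intro x hx
    refine hRA.ex _ ?_
    exact (_root_.map_ne_zero ((pr hd).comp
      (baseChange (algebraMap ℚ ℚ_[(P : ℕ)]) (fK f)))).2 hx
  -- the linear factors
  have lin : ∀ (θ : ℤ_[(P : ℕ)]) (q' : HeightOneSpectrum (RR f)), (X - C θ) ∣ f.map i →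
      Over P q' → (∀ p₀ : ℤ[X], p₀.map (red P) = X - C (ρ θ) → AdjoinRoot.mk f p₀ ∈ q'.asIdeal) →
      ∀ (c c' : ℤ) (n : ℕ), c = pz P ^ n * c' → ¬ pz P ∣ c' →
      (om q' (c : LL f) = 0 ↔ Even (n : ℤ)) := by
    intro θ q' hθ hq' hm c c' n hc hc'
    have hmap : (X - C θ : ℤ_[(P : ℕ)][X]).map ρ = X - C (ρ θ) := by
      rw [Polynomial.map_sub, Polynomial.map_X, Polynomial.map_C]
    have hirr' : Irreducible ((X - C θ : ℤ_[(P : ℕ)][X]).map ρ) := by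
      rw [hmap]; exact irreducible_X_sub_C _
    obtain ⟨p₁, hp₁⟩ := Polynomial.map_surjective (red P) (HQ.red_surj P)
      ((X - C θ : ℤ_[(P : ℕ)][X]).map ρ)
    exact om_iff_Ehom (h5 f hf P ℤ_[(P : ℕ)] ℚ_[(P : ℕ)] i (algebraMap ℚ ℚ_[(P : ℕ)]) ρ hLD
      (X - C θ) (monic_X_sub_C θ) hirr' hθ (hdk _ hθ) p₁ hp₁ q' hq' (hm p₁ (hp₁.trans hmap))
      (c : LL f) n _ (rep_int_Ehom hLD hirr' (hdk _ hθ) hc hc'))
  have fact : ∀ c : ℤ, c ≠ 0 → ∃ (n : ℕ) (c' : ℤ), c = pz P ^ n * c' ∧ ¬ pz P ∣ c' := by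
    intro c hc
    have hfin : FiniteMultiplicity (pz P) c := by
      rw [Int.finiteMultiplicity_iff]
      refine ⟨?_, hc⟩
      rw [Int.natAbs_natCast]
      exact P.2.one_lt.ne'
    obtain ⟨c', h, h'⟩ := hfin.exists_eq_pow_mul_and_not_dvd
    exact ⟨_, c', h, h'⟩
  have hz2 : ∀ x y : ZMod 2, (x = 0 ↔ y = 0) → x = y := by decide
  refine ⟨?_, ?_, ?_⟩
  · intro z w hz hw
    obtain ⟨e, s, hs⟩ := hex z hz
    obtain ⟨e', s', hs'⟩ := hex w hw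
    have hm := hRA.mul _ _ _ _ _ _ hs hs'
    rw [← map_mul, ← map_mul] at hm
    obtain ⟨-, k2⟩ := key _ _ _ hs
    obtain ⟨-, k4⟩ := key _ _ _ hs'
    obtain ⟨-, k6⟩ := key _ _ _ hm
    refine HQ.zmod2_Hom ?_
    rw [k6, k2, k4, HQ.isSquare_mul_Hom hs.1 hs'.1]
  · have h := (key _ _ _ (rep_int_Ehom (f := f) hLD hirr hd (c := pz P) (c' := 1) (n := 1)
      (by rw [pow_one, mul_one]) (by
        intro h
        have h9 := Int.isUnit_iff.1 (isUnit_of_dvd_one h)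
        have h10 : (1 : ℤ) < pz P := by exact_mod_cast P.2.one_lt
        rcases h9 with h9 | h9 <;> rw [h9] at h10 <;> norm_num at h10))).1
    have h11 : ¬ om q ((pz P : ℤ) : LL f) = 0 := by
      rw [h]
      norm_num
    revert h11
    generalize om q ((pz P : ℤ) : LL f) = x
    revert x
    decide
  · intro c hc
    obtain ⟨n, c', hc1, hc2⟩ := fact c hc
    obtain ⟨k1, k2⟩ := key _ _ _ (rep_int_Ehom (f := f) hLD hirr hd hc1 hc2)
    refine ⟨?_, ?_, ?_⟩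
    · rw [k2]
      have h2' : (2 : kp P) ≠ 0 := by
        intro h0
        have h9 : red P 2 = 0 := by
          rw [map_ofNat]; exact h0
        have h10 := HQ.red_eq_zero.1 h9
        have h11 : (P : ℕ) ∣ 2 := by exact_mod_cast h10
        have h12 := (Nat.prime_dvd_prime_iff_eq P.2 Nat.prime_two).1 h11
        exact hP2 h12
      have h9 := (h6 (kp P) h2' (g₂.map ρ) (hg₂.map ρ) hirr).2 (by
        rw [hg₂ρ, hT.pdeg]; exact even_two_mul g) (red P c')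
      exact h9
    · exact hz2 _ _ (by rw [k1, lin θ₁ qa hdvd1 hT.oa (by rw [hθ₁]; exact hT.ma) c c' n hc1 hc2])
    · exact hz2 _ _ (by rw [k1, lin θ₂ qb hdvd2 hT.ob (by rw [hθ₂]; exact hT.mb) c c' n hc1 hc2])

end Pool.Agent.Helper54.EVL
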