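import Pool.Agent.Helper54.EVL.StL
import Pool.Agent.Helper54.HQ.Base

/-!
# EV module Ei: the interface of the local part
-/

set_option autoImplicit false

namespace Pool.Agent.Helper54.EVL

open Polynomial IsDedekindDomain
open Pool.Agent.Helper54.HQ (Prm pz fK RR LL kp red EvenAt om ep Over IsQ TwAt pz_ne_zero)
open Pool.Agent.Helper3.EV (TType)

section

variable {f : ℤ[X]} [Fact (Irreducible (fK f))] [IsDedekindDomain (RR f)]
  [IsFractionRing (RR f) (LL f)]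

theorem om_eq_zero_Ei {q : HeightOneSpectrum (RR f)} {z : LL f} : om q z = 0 ↔ EvenAt q z := by
  unfold om
  split_ifs with h
  · exact ⟨fun _ => h, fun _ => rfl⟩
  · exact ⟨fun h1 => absurd h1 one_ne_zero, fun h1 => absurd h1 h⟩

omit [IsDedekindDomain (RR f)] [IsFractionRing (RR f) (LL f)] in
theorem cast_ne_Ei {c : ℤ} (hc : c ≠ 0) : ((c : ℤ) : LL f) ≠ 0 := by
  have : CharZero (LL f) := algebraRat.charZero _
  exact_mod_cast hc

theorem om_one_Ei (h1 : StEom) (hf : f.Monic) (q : HeightOneSpectrum (RR f)) :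
    om q (1 : LL f) = 0 := by
  have := h1 f hf q 1 1 one_ne_zero one_ne_zero
  rw [mul_one] at this
  have h2 : ∀ a : ZMod 2, a = a + a → a = 0 := by decide
  exact h2 _ this

theorem om_pow_Ei (h1 : StEom) (hf : f.Monic) (q : HeightOneSpectrum (RR f)) (x : LL f)
    (hx : x ≠ 0) (j : ℕ) : om q (x ^ j) = (j : ZMod 2) * om q x := by
  induction j with
  | zero => rw [pow_zero, om_one_Ei h1 hf]; simp
  | succ n ih =>
    rw [pow_succ, h1 f hf q _ _ (pow_ne_zero _ hx) hx, ih]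
    push_cast
    ring

end

theorem hEi1 (h1 : StEtri) (h2 : StEn3) (h3 : StEhom) (h4 : StEom) : StEi1 := by
  intro g hg f hf _ _ _ P hP2 hT q hq z hz hzN
  obtain ⟨a, b, p, qa, qb, ht⟩ := (h1 g hg f hf P hT).2 q hq
  have hn := h2 g hg f hf P hP2 a b p qa qb q ht z hz hzN
  obtain ⟨-, hP1, hc⟩ := h3 g hg f hf P hP2 a b p qa qb q ht
  have hPne : ((pz P : ℤ) : LL f) ≠ 0 := cast_ne_Ei (pz_ne_zero P)
  obtain ⟨-, hPa, hPb⟩ := hc (pz P) (pz_ne_zero P)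
  rw [hP1] at hPa hPb
  obtain ⟨j, hj⟩ : ∃ j : ℕ, (j : ZMod 2) = om qa z := by
    rcases (show ∀ x : ZMod 2, x = 0 ∨ x = 1 by decide) (om qa z) with h | h
    · exact ⟨0, by rw [h]; rfl⟩
    · exact ⟨1, by rw [h]; rfl⟩
  have hadd : ∀ x : ZMod 2, x * 1 + x = 0 := by decide
  refine ⟨j, fun v hv hvq => ?_⟩
  rw [← om_eq_zero_Ei, h4 f hf v _ _ (pow_ne_zero _ hPne) hz, om_pow_Ei h4 hf v _ hPne]
  rcases ht.all v hv with rfl | rfl | rfl
  · rw [hPa, hj]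
    exact hadd _
  · rw [hPb, hj, hn]
    exact hadd _
  · exact absurd rfl hvq

theorem hEi2 (h1 : StEco) (h2 : StEev) (h3 : StEcz) : StEi2 := by
  intro f hf _ _ _ P D hP2 hPD z hz
  obtain ⟨c, u, hc, hu, hT⟩ := h1 f hf D (P : ℕ) z hz
  have h4 := h2 f hf P D hP2 hPD u hT
  rw [hu] at h4
  exact (h3 f hf P (z : LL f) c z.ne_zero hc).1 h4

theorem hEi3 (h1 : StEtri) (h2 : StEhom) (h3 : StEom) : StEi3 := by
  intro g hg f hf _ _ _ P hP2 hT q hq z hz hev hup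
  obtain ⟨a, b, p, qa, qb, ht⟩ := (h1 g hg f hf P hT).2 q hq
  obtain ⟨-, hP1, hc⟩ := h2 g hg f hf P hP2 a b p qa qb q ht
  have hPne : ((pz P : ℤ) : LL f) ≠ 0 := cast_ne_Ei (pz_ne_zero P)
  obtain ⟨-, hPa, -⟩ := hc (pz P) (pz_ne_zero P)
  rw [hP1] at hPa
  obtain ⟨j, hj⟩ := hup
  have ha := hj qa ht.oa
  have hq' := hj q hq.1
  rw [← om_eq_zero_Ei, h3 f hf _ _ _ (pow_ne_zero _ hPne) hz, om_pow_Ei h3 hf _ _ hPne] at ha hq'
  have hza : om qa z = 0 := om_eq_zero_Ei.2 (hev qa ht.oa ht.naq)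
  rw [hPa, hza, add_zero, mul_one] at ha
  rw [hP1, ha, zero_mul, zero_add] at hq'
  exact om_eq_zero_Ei.1 hq'

theorem hEi4 (h1 : StEco) (h2 : StEli) (h3 : StEtri) (h4 : StEhom) (h5 : StEom) : StEi4 := by
  intro g hg f hf _ _ _ P hP2 hT q hq
  obtain ⟨a, b, p, qa, qb, ht⟩ := (h3 g hg f hf P hT).2 q hq
  obtain ⟨ηa, ηb, hη⟩ := h2 g hg f hf P hP2 a b p qa qb q ht
  obtain ⟨hmul, hP1, hc⟩ := h4 g hg f hf P hP2 a b p qa qb q ht
  refine ⟨ηa + ηb, fun D hD z hz hev => ?_⟩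
  obtain ⟨c, u, hc0, hu, hTu⟩ := h1 f hf (pz P * D) (P : ℕ) z hz
  have h6 := hη D hD u hTu
  have hcne : ((c : ℤ) : LL f) ≠ 0 := cast_ne_Ei hc0
  obtain ⟨k1, k2, k3⟩ := hc c hc0
  have hza : om qa (z : LL f) = 0 := om_eq_zero_Ei.2 (hev qa ht.oa ht.naq)
  have hzb : om qb (z : LL f) = 0 := om_eq_zero_Ei.2 (hev qb ht.ob ht.nbq)
  rw [hu, hmul _ _ hcne z.ne_zero, h5 f hf qa _ _ hcne z.ne_zero, h5 f hf qb _ _ hcne z.ne_zero,
    h5 f hf q _ _ hcne z.ne_zero, k1, k2, k3, hza, hzb] at h6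
  have key : ∀ x y w α β : ZMod 2, 0 + w = (x + 0 + (x + y)) * α + (x + 0 + (x + y)) * β →
      (y = 0 ∧ w = 0) ∨ (y = 1 ∧ w = α + β) := by decide
  exact key _ _ _ _ _ h6

theorem hEi5 (h1 : StEtri) (h2 : StEhom) (h3 : StEom) : StEi5 := by
  intro g hg f hf _ _ _ P hP2 hT q hq z w hz hw
  obtain ⟨a, b, p, qa, qb, ht⟩ := (h1 g hg f hf P hT).2 q hq
  obtain ⟨hmul, -, -⟩ := h2 g hg f hf P hP2 a b p qa qb q ht
  exact ⟨h3 f hf q z w hz hw, hmul z w hz hw⟩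

end Pool.Agent.Helper54.EVL
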