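import Pool.Agent.Helper54.EVL.StL
import Pool.Agent.Helper54.HQ.Base
import Pool.Agent.Helper54.HL.St

/-!
# EV module Eit: the places where `f` is irreducible (helper57)
-/

set_option autoImplicit false

namespace Pool.Agent.Helper54.EVL

open Polynomial Finset IsDedekindDomain
open Pool.Agent.Helper3.HY (baseChange)
open Pool.Agent.Helper54.HL (tk Rep RepA pr pr_mk RootLift)
open Pool.Agent.Helper54.HQ (Prm pz fK RR LL kp red EvenAt Over LD)
open Pool.Agent.Helper3.EV (IType)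

theorem hEit (h1 : Pool.Agent.Helper54.HL.StRA) (h3 : Pool.Agent.Helper54.HQ.StCV)
    (h4 : Pool.Agent.Helper54.HQ.StLD) : StEit := by
  intro g hg f hf _ _ _ P hI z hz
  obtain ⟨i, ρ, hLD, hroot, -⟩ := h4 P
  obtain ⟨hIm, hIi, hId⟩ := hI
  have hirr : Irreducible ((f.map i).map ρ) := by rw [hLD.map_red]; exact hIi
  have hg₀ : (f.map i).Monic := hf.map i
  have hd : tk ℚ_[(P : ℕ)] (f.map i) ∣ (fK f).map (algebraMap ℚ ℚ_[(P : ℕ)]) := by
    rw [hLD.map f]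
  have hRA := h1 ℤ_[(P : ℕ)] ℚ_[(P : ℕ)] (kp P) (i (pz P)) ρ hLD.unif hLD.surj hLD.ker
    (f.map i) hg₀ hirr
  have _ : Fact (Irreducible (tk ℚ_[(P : ℕ)] (f.map i))) := ⟨hRA.irr⟩
  set j := algebraMap ℚ ℚ_[(P : ℕ)] with hj
  have hw0 : pr hd (baseChange j (fK f) z) ≠ 0 :=
    (_root_.map_ne_zero ((pr hd).comp (baseChange j (fK f)))).2 hz
  obtain ⟨e, s, hs⟩ := hRA.ex _ hw0
  refine ⟨e.natAbs, fun q hq => ?_⟩
  have hpow := hRA.pow (e.natAbs : ℤ)
  have hmul := hRA.mul _ _ _ _ _ _ hpow hs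
  have hkey : AdjoinRoot.mk (tk ℚ_[(P : ℕ)] (f.map i))
      (C (algebraMap ℤ_[(P : ℕ)] ℚ_[(P : ℕ)] (i (pz P)) ^ (e.natAbs : ℤ))) *
      pr hd (baseChange j (fK f) z) =
      pr hd (baseChange j (fK f) (((pz P : ℤ) : LL f) ^ e.natAbs * z)) := by
    rw [map_mul, map_mul, map_pow, map_pow, map_intCast, map_intCast]
    congr 1
    rw [zpow_natCast, C_pow, map_pow, eq_intCast i (pz P), map_intCast,
      show (C ((pz P : ℤ) : ℚ_[(P : ℕ)]) : ℚ_[(P : ℕ)][X]) = ((pz P : ℤ) : ℚ_[(P : ℕ)][X]) from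
        map_intCast C _, map_intCast]
  rw [hkey] at hmul
  have h8 := h3 f hf P ℤ_[(P : ℕ)] ℚ_[(P : ℕ)] i j ρ hLD (f.map i) hg₀ hirr dvd_rfl hd f
    (hLD.map_red f).symm q hq (by rw [AdjoinRoot.mk_self]; exact q.asIdeal.zero_mem)
    (((pz P : ℤ) : LL f) ^ e.natAbs * z) _ _ hmul
  unfold EvenAt
  rw [h8]
  have heven : Even ((e.natAbs : ℤ) + e) := by
    rw [Int.even_add, Int.natCast_natAbs]
    rcases abs_choice e with h | h <;> rw [h]
    exact even_neg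
  obtain ⟨m, hm⟩ := heven
  exact ⟨WithZero.exp (-m), by rw [← WithZero.exp_add]; congr 1; omega⟩

end Pool.Agent.Helper54.EVL
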