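import Pool.Agent.Helper54.EVL.StL
import Pool.Agent.Helper54.HL.M_LA

/-!
# EVL module Ela: points at a ramified twist, case A
-/

set_option autoImplicit false

namespace Pool.Agent.Helper54.EVL

open Polynomial Finset IsDedekindDomain
open Pool.Agent.Helper54.HL (tk IrrInt IrrBig Nr Rep RepA RepB pr pr_mk IsTwIrr RootLift
  unit_of_coprime_LA rep_pt_LA)

theorem hEla (h1 : Pool.Agent.Helper54.HL.StRA) (h2 : Pool.Agent.Helper54.HL.StOP) : StEla := by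
  intro O k κ _ _ _ _ _ _ _ _ π ρ hπ hρ hk h2κ g θ₁ θ₂ g₂ hg1 hg2 hgirr hgdeg hθ h hh hd₁ hd₂ hd
    D' hD' U₀ V ψ n hU hUirr hcop hdvd hψ hψirr hn hUψ hgood
  obtain ⟨hne1, hne2, hne3⟩ := hgood
  have hmap : ∀ θ : O, (X - C θ : O[X]).map ρ = X - C (ρ θ) := fun θ => by
    rw [Polynomial.map_sub, map_X, map_C]
  have hirr : ∀ θ : O, Irreducible ((X - C θ : O[X]).map ρ) := fun θ => by
    rw [hmap]; exact irreducible_X_sub_C _
  have hA := h1 O k κ π ρ hπ hρ hk g₂ hg2 hgirr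
  have hA₁ := h1 O k κ π ρ hπ hρ hk (X - C θ₁) (monic_X_sub_C θ₁) (hirr θ₁)
  have hA₂ := h1 O k κ π ρ hπ hρ hk (X - C θ₂) (monic_X_sub_C θ₂) (hirr θ₂)
  have hf : ((X - C θ₁) * (X - C θ₂) * g₂).Monic :=
    ((monic_X_sub_C θ₁).mul (monic_X_sub_C θ₂)).mul hg2
  have hgm : (g₂.map ρ).Monic := hg2.map ρ
  have hDne : ρ D' ≠ 0 := (hD'.map ρ).ne_zero
  -- coprimality
  have hcx : ∀ a : κ, ψ ≠ X - C a → IsCoprime ψ (X - C a) := by
    intro a hne
    rw [hψirr.coprime_iff_not_dvd]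
    intro hdv
    exact hne (eq_of_monic_of_associated hψ (monic_X_sub_C _)
      ((hψirr.dvd_irreducible_iff_associated (irreducible_X_sub_C _)).1 hdv))
  have hc1 := hcx _ hne1
  have hc2 := hcx _ hne2
  have hc3 : IsCoprime ψ (g₂.map ρ) := by
    rw [hψirr.coprime_iff_not_dvd]
    intro hdv
    exact hne3 (eq_of_monic_of_associated hψ hgm
      ((hψirr.dvd_irreducible_iff_associated hgirr).1 hdv))
  have hunit : IsUnit (AdjoinRoot.mk ((X - C θ₁) * (X - C θ₂) * g₂) U₀) := by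
    apply unit_of_coprime_LA hπ hρ hk hf
    rw [hUψ, Polynomial.map_mul, Polynomial.map_mul, hmap, hmap]
    exact IsCoprime.mul_right (IsCoprime.mul_right hc1.pow_left hc2.pow_left) hc3.pow_left
  obtain ⟨m, hm, hev⟩ := h2 O k κ π ρ hπ hρ hk ((X - C θ₁) * (X - C θ₂) * g₂) U₀ hf hU hUirr
    (by rw [← hh]; exact hcop) ψ n hψirr hUψ (π * D') D' 1 hD' (by rw [pow_one]) V
    (by rw [← hh]; exact hdvd)
  rw [Ring.ord_of_isUnit hunit] at hm
  have hm0 : m = 0 := by exact_mod_cast hm.symm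
  rw [hm0, zero_add, one_mul] at hev
  -- the degree
  have hdegU : (tk k U₀).natDegree = n * ψ.natDegree := by
    rw [tk, hU.natDegree_map, ← hU.natDegree_map ρ, hUψ, natDegree_pow]
  have hnd : ∀ q : κ[X], Irreducible q → IsCoprime ψ q → ¬ q ∣ U₀.map ρ := by
    intro q hq hcq
    rw [hUψ]
    intro hdv
    exact hq.not_isUnit (hcq.isUnit_of_dvd' (hq.prime.dvd_of_dvd_pow hdv) dvd_rfl)
  have hr1 : Rep π ρ (X - C θ₁) (pr hd₁ (AdjoinRoot.mk h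
      (C (-algebraMap O k (π * D')) ^ (tk k U₀).natDegree * tk k U₀))) (tk k U₀).natDegree
      (AdjoinRoot.mk ((X - C θ₁ : O[X]).map ρ)
        (C (-ρ D') ^ (tk k U₀).natDegree * U₀.map ρ)) := by
    rw [pr_mk]
    exact rep_pt_LA hA₁ (hirr θ₁) hDne U₀ (hnd _ (hirr θ₁) (by rw [hmap]; exact hc1)) _
  have hr2 : Rep π ρ (X - C θ₂) (pr hd₂ (AdjoinRoot.mk h
      (C (-algebraMap O k (π * D')) ^ (tk k U₀).natDegree * tk k U₀))) (tk k U₀).natDegree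
      (AdjoinRoot.mk ((X - C θ₂ : O[X]).map ρ)
        (C (-ρ D') ^ (tk k U₀).natDegree * U₀.map ρ)) := by
    rw [pr_mk]
    exact rep_pt_LA hA₂ (hirr θ₂) hDne U₀ (hnd _ (hirr θ₂) (by rw [hmap]; exact hc2)) _
  have hr3 : Rep π ρ g₂ (pr hd (AdjoinRoot.mk h
      (C (-algebraMap O k (π * D')) ^ (tk k U₀).natDegree * tk k U₀))) (tk k U₀).natDegree
      (AdjoinRoot.mk (g₂.map ρ)
        (C (-ρ D') ^ (tk k U₀).natDegree * U₀.map ρ)) := by
    rw [pr_mk]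
    exact rep_pt_LA hA hgirr hDne U₀ (hnd _ hgirr hc3) _
  refine ⟨_, _, _, _, _, _, hr1, hr2, hr3, ?_⟩
  obtain ⟨r, hr⟩ := hev
  have hab : ((((tk k U₀).natDegree : ℕ) : ℤ) + (((tk k U₀).natDegree : ℕ) : ℤ)).natAbs =
      (tk k U₀).natDegree + (tk k U₀).natDegree := by
    rw [← Int.natCast_add, Int.natAbs_natCast]
  rw [hab]
  refine ⟨AdjoinRoot.mk (g₂.map ρ) (C (-ρ D') ^ (r * ψ.natDegree) * ψ ^ r *
    (X - C (ρ θ₁)) ^ (tk k U₀).natDegree * (X - C (ρ θ₂)) ^ (tk k U₀).natDegree), ?_⟩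
  rw [← map_mul, ← map_mul]
  congr 1
  rw [hUψ]
  have h5 : C (-ρ D') ^ (tk k U₀).natDegree = C (-ρ D') ^ (r * ψ.natDegree) *
      (C (-ρ D') ^ (r * ψ.natDegree) : κ[X]) := by
    rw [← pow_add, hdegU, hr]
    congr 1
    ring
  have h6 : ψ ^ n = ψ ^ r * ψ ^ r := by rw [hr, pow_add]
  rw [h5, h6, pow_add, pow_add]
  ring

end Pool.Agent.Helper54.EVL
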