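import Pool.Agent.Helper54.EVL.StL
import Pool.Agent.Helper54.HL.M_LA
import Pool.Agent.Helper54.HL.M_LC

/-!
# EVL module Elb: points at a ramified twist, the reduction of the point is the root `a`
-/

set_option autoImplicit false

namespace Pool.Agent.Helper54.EVL

open Polynomial
open Pool.Agent.Helper54.HL (tk Rep RepA RepB pr pr_mk unit_of_coprime_LA rep_pt_LA ord_unit_mul_LC)

theorem hElb (h1 : HL.StRA) (h2 : HL.StRB) (h3 : HL.StOP) (h4 : HL.StOS) (h5 : HL.StFS) :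
    StElb := by
  intro O k κ _ _ _ _ _ _ _ _ π ρ hπ hρ hk h2κ g θ₁ θ₂ g₂ hg hg₂ hirr hdeg hab h hh hd₁ hd₂ hd D'
    hD' U₀ V ψ n hU hUirr hcop hdvd hψ hψirr hn hUψ hgood
  have hgood : ψ = X - C (ρ θ₁) := hgood
  subst hgood
  subst hh
  have hm₁ : (X - C θ₁ : O[X]).Monic := monic_X_sub_C θ₁
  have hm₂ : (X - C θ₂ : O[X]).Monic := monic_X_sub_C θ₂
  have hr₁ : (X - C θ₁ : O[X]).map ρ = X - C (ρ θ₁) := by
    rw [Polynomial.map_sub, map_X, map_C]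
  have hr₂ : (X - C θ₂ : O[X]).map ρ = X - C (ρ θ₂) := by
    rw [Polynomial.map_sub, map_X, map_C]
  have hi₁ : Irreducible ((X - C θ₁ : O[X]).map ρ) := by rw [hr₁]; exact irreducible_X_sub_C _
  have hi₂ : Irreducible ((X - C θ₂ : O[X]).map ρ) := by rw [hr₂]; exact irreducible_X_sub_C _
  have hA := h1 O k κ π ρ hπ hρ hk g₂ hg₂ hirr
  have hA₁ := h1 O k κ π ρ hπ hρ hk (X - C θ₁) hm₁ hi₁
  have hA₂ := h1 O k κ π ρ hπ hρ hk (X - C θ₂) hm₂ hi₂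
  have hB₁ := h2 O k κ π ρ hπ hρ hk (X - C θ₁) hm₁ hi₁
  have hf₀ : ((X - C θ₁) * (X - C θ₂) * g₂).Monic := (hm₁.mul hm₂).mul hg₂
  have hDne : ρ D' ≠ 0 := (hD'.map ρ).ne_zero
  have hgm : (g₂.map ρ).Monic := hg₂.map ρ
  have hgd : (g₂.map ρ).natDegree = 2 * g := by rw [hg₂.natDegree_map, hdeg]
  have _ : Fact (Irreducible (g₂.map ρ)) := ⟨hirr⟩
  have hdegU : (tk k U₀).natDegree = n := by
    rw [tk, hU.natDegree_map, ← hU.natDegree_map ρ, hUψ, natDegree_pow, natDegree_X_sub_C, mul_one]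
  -- coprimality
  have hnd : ∀ a : κ, ¬ g₂.map ρ ∣ X - C a := by
    intro a hdv
    have h3 := natDegree_le_of_dvd hdv (X_sub_C_ne_zero _)
    rw [natDegree_X_sub_C, hgd] at h3
    omega
  have hUnd : ¬ g₂.map ρ ∣ U₀.map ρ := by
    rw [hUψ]
    intro hdv
    exact hnd _ (hirr.prime.dvd_of_dvd_pow hdv)
  have hUnd₂ : ¬ (X - C θ₂ : O[X]).map ρ ∣ U₀.map ρ := by
    rw [hUψ, hr₂, dvd_iff_isRoot, IsRoot.def, eval_pow, eval_sub, eval_X, eval_C]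
    exact pow_ne_zero _ (sub_ne_zero.2 (Ne.symm hab))
  have hc₂ : IsCoprime ((X - C θ₂ : O[X]).map ρ) (U₀.map ρ) :=
    (hi₂.coprime_iff_not_dvd).2 hUnd₂
  have hc₃ : IsCoprime (g₂.map ρ) (U₀.map ρ) := (hirr.coprime_iff_not_dvd).2 hUnd
  have hu₂ : IsUnit (AdjoinRoot.mk U₀ (X - C θ₂)) := unit_of_coprime_LA hπ hρ hk hU hc₂
  have hu₃ : IsUnit (AdjoinRoot.mk U₀ g₂) := unit_of_coprime_LA hπ hρ hk hU hc₃
  -- orders
  have hord : Ring.ord (AdjoinRoot ((X - C θ₁) * (X - C θ₂) * g₂))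
      (AdjoinRoot.mk ((X - C θ₁) * (X - C θ₂) * g₂) U₀) =
      Ring.ord (AdjoinRoot (X - C θ₁)) (AdjoinRoot.mk (X - C θ₁) U₀) := by
    rw [h4 O ((X - C θ₁) * (X - C θ₂) * g₂) U₀, h4 O (X - C θ₁) U₀, map_mul, map_mul,
      mul_comm _ (AdjoinRoot.mk U₀ g₂), ord_unit_mul_LC hu₃,
      mul_comm _ (AdjoinRoot.mk U₀ (X - C θ₂)), ord_unit_mul_LC hu₂]
  set z := AdjoinRoot.mk (tk k (X - C θ₁)) (tk k U₀) with hz
  have hz0 : z ≠ 0 := by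
    rw [hz, Ne, AdjoinRoot.mk_eq_zero]
    intro h0
    have h10 : IsCoprime (tk k U₀) (tk k (X - C θ₁)) := hcop.of_isCoprime_of_dvd_right hd₁
    exact hA₁.irr.not_isUnit (h10.symm.isUnit_of_dvd' dvd_rfl h0)
  obtain ⟨e0, s₀, hs⟩ := hA₁.ex z hz0
  obtain ⟨m, hm0, hord0⟩ := hB₁.ord U₀ e0 s₀ hs
  obtain ⟨m1, hord1, hev⟩ := h3 O k κ π ρ hπ hρ hk ((X - C θ₁) * (X - C θ₂) * g₂) U₀ hf₀ hU hUirr
    hcop (X - C (ρ θ₁)) n hψirr hUψ (π * D') D' 1 hD' (by rw [pow_one]) V hdvd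
  have hm01 : m1 = m := by
    rw [hord, hord0] at hord1
    exact_mod_cast hord1.symm
  subst hm01
  rw [one_mul] at hev
  -- the representation at the first factor
  have hu0 : ρ ((-D') ^ n) ≠ 0 := by
    rw [map_pow, map_neg]
    exact pow_ne_zero _ (neg_ne_zero.2 hDne)
  have hrep₁ := hA₁.mul _ _ _ _ _ _ (hA₁.mul _ _ _ _ _ _ (hA₁.pow (n : ℤ))
    (HL.H94.rep_const hA₁ hi₁ hu0)) hs
  rw [add_zero, one_mul] at hrep₁
  have hval : pr hd₁ (AdjoinRoot.mk (tk k ((X - C θ₁) * (X - C θ₂) * g₂))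
      (C (-algebraMap O k (π * D')) ^ (tk k U₀).natDegree * tk k U₀)) =
      AdjoinRoot.mk (tk k (X - C θ₁)) (C (algebraMap O k π ^ (n : ℤ))) *
        AdjoinRoot.mk (tk k (X - C θ₁)) (C (algebraMap O k ((-D') ^ n))) * z := by
    rw [pr_mk, hz, hdegU, ← map_mul, ← map_mul, ← C_mul]
    congr 2
    rw [← C_pow]
    congr 1
    rw [zpow_natCast, map_pow, ← mul_pow, map_neg, map_mul]
    ring
  rw [← hval, hm0] at hrep₁
  have hrep₂ := rep_pt_LA hA₂ hi₂ hDne U₀ hUnd₂ (tk k U₀).natDegree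
  have hrep₃ := rep_pt_LA hA hirr hDne U₀ hUnd (tk k U₀).natDegree
  rw [← pr_mk hd₂] at hrep₂
  rw [← pr_mk hd] at hrep₃
  refine ⟨_, _, _, _, _, _, hrep₁, hrep₂, hrep₃, ?_⟩
  have e1 : ((n : ℤ) + (m1 : ℤ) + ((tk k U₀).natDegree : ℤ)).natAbs = n + m1 + n := by
    rw [hdegU]
    omega
  have e2 : (((tk k U₀).natDegree : ℤ) + ((tk k U₀).natDegree : ℤ)).natAbs = n + n := by
    rw [hdegU]
    omega
  rw [e1, e2, hdegU, hUψ]
  obtain ⟨r, hr⟩ := (h5 κ h2κ (g₂.map ρ) hgm hirr).2 (by rw [hgd]; exact even_two_mul g) (-ρ D')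
  have hcr : AdjoinRoot.mk (g₂.map ρ) (C (-ρ D')) = r * r := by rw [← hr]; rfl
  obtain ⟨j, hj⟩ := hev
  refine ⟨r ^ n * AdjoinRoot.mk (g₂.map ρ) ((X - C (ρ θ₁)) ^ (n + j) * (X - C (ρ θ₂)) ^ n), ?_⟩
  have e3 : n + (n + m1 + n) = (n + j) + (n + j) := by omega
  have e4 : C (-ρ D') ^ n * (X - C (ρ θ₁)) ^ n *
      ((X - C (ρ θ₁)) ^ (n + m1 + n) * (X - C (ρ θ₂)) ^ (n + n)) =
      C (-ρ D') ^ n * (((X - C (ρ θ₁)) ^ (n + j) * (X - C (ρ θ₂)) ^ n) *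
        ((X - C (ρ θ₁)) ^ (n + j) * (X - C (ρ θ₂)) ^ n)) := by
    calc _ = C (-ρ D') ^ n * ((X - C (ρ θ₁)) ^ (n + (n + m1 + n)) * (X - C (ρ θ₂)) ^ (n + n)) := by
          rw [pow_add _ n (n + m1 + n)]
          ring
      _ = _ := by
          rw [e3, pow_add, pow_add]
          ring
  rw [← map_mul, e4, map_mul, map_mul, map_pow, hcr, mul_pow]
  ring

end Pool.Agent.Helper54.EVL
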