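import Pool.Agent.Helper54.EVL.StL

/-!
# EV module Elb2: symmetry
-/

set_option autoImplicit false

namespace Pool.Agent.Helper54.EVL

open Polynomial
open Pool.Agent.Helper54.HL (tk Rep pr)

theorem hElb' (h : StElb) : StElb' := by
  intro O k κ _ _ _ _ _ _ _ _ π ρ hπ hsurj hker h2 g θ₁ θ₂ g₂ hg hg₂ hirr hdeg hne h' hh hd₁ hd₂ hd
    D' hD' U₀ V ψ n hU hUirr hcop hdvd hψ hψirr hn hUψ hgood
  obtain ⟨e₁, e₂, e, s₁, s₂, s, r1, r2, r3, hsq⟩ := h O k κ π ρ hπ hsurj hker h2 g θ₂ θ₁ g₂ hg hg₂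
    hirr hdeg hne.symm h' (by rw [hh, mul_comm (X - C θ₂) (X - C θ₁)]) hd₂ hd₁ hd D' hD' U₀ V ψ n hU
    hUirr hcop hdvd hψ hψirr hn hUψ hgood
  exact ⟨e₂, e₁, e, s₂, s₁, s, r2, r1, r3, by rw [mul_comm ((X - C (ρ θ₁)) ^ _)]; exact hsq⟩

end Pool.Agent.Helper54.EVL
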