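import Pool.Agent.Helper54.EVL.StL
import Pool.Agent.Helper54.HL.M_LA
import Pool.Agent.Helper54.HL.M_LC

/-!
# EV, module Elc: points of a ramified twist which reduce to the factor of degree `2 g`
-/

set_option autoImplicit false

namespace Pool.Agent.Helper54.EVL

open Polynomial Finset IsDedekindDomain
open Pool.Agent.Helper54.HL (tk IrrInt IrrBig Nr Rep RepA RepB pr pr_mk ord_unit_mul_LC
  unit_of_rho_LC norm_linear_LC norm_const_LC unit_linear_LC rep_pt_LA)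

private theorem eval_ne_Elc {κ : Type} [Field κ] {q : κ[X]} (hirr : Irreducible q) {g : ℕ}
    (_hg : 1 ≤ g) (hdeg : q.natDegree = 2 * g) (a : κ) : q.eval a ≠ 0 := by
  intro h0
  have h10 := degree_eq_one_of_irreducible_of_root hirr (x := a) h0
  have h11 : q.natDegree = 1 := natDegree_eq_of_degree_eq_some h10
  omega

private theorem map_lin_Elc {O κ : Type} [CommRing O] [Field κ] (ρ : O →+* κ) (θ : O) :
    (X - C θ : O[X]).map ρ = X - C (ρ θ) := by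
  rw [Polynomial.map_sub, map_X, map_C]

/-- the representation at a linear factor -/
private theorem rep_lin_Elc (h1 : Pool.Agent.Helper54.HL.StRA) {O k κ : Type} [CommRing O]
    [IsDomain O] [IsDiscreteValuationRing O] [Field k] [Algebra O k] [IsFractionRing O k]
    [Field κ] {π : O} {ρ : O →+* κ} (hπ : Irreducible π) (hsurj : Function.Surjective ρ)
    (hker : ∀ c, ρ c = 0 ↔ π ∣ c) {D' : O} (hD : ρ D' ≠ 0) {U₀ : O[X]} {θ : O}
    (hU : (U₀.map ρ).eval (ρ θ) ≠ 0) (m : ℕ) {h : k[X]} (hd : tk k (X - C θ) ∣ h) :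
    ∃ s, Rep π ρ (X - C θ) (pr hd (AdjoinRoot.mk h
      (C (-algebraMap O k (π * D')) ^ m * tk k U₀))) m s := by
  have hirr : Irreducible ((X - C θ : O[X]).map ρ) := by
    rw [map_lin_Elc]
    exact irreducible_X_sub_C _
  have hA := h1 O k κ π ρ hπ hsurj hker (X - C θ) (monic_X_sub_C θ) hirr
  have hdv : ¬ (X - C θ : O[X]).map ρ ∣ U₀.map ρ := by
    rw [map_lin_Elc, dvd_iff_isRoot]
    exact hU
  have h2 := rep_pt_LA hA hirr hD U₀ hdv m
  rw [← pr_mk hd] at h2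
  exact ⟨_, h2⟩

/-- the norm of `x - a` -/
private theorem norm_lin_Elc (h6 : Pool.Agent.Helper54.HL.StNR) (h9 : Pool.Agent.Helper54.HL.StNS)
    {κ : Type} [Field κ] {q : κ[X]} (hq : q.Monic) {g : ℕ} (hdeg : q.natDegree = 2 * g) (a : κ) :
    Algebra.norm κ (AdjoinRoot.mk q (X - C a)) = q.eval a := by
  rw [h9 κ _ _ hq (monic_X_sub_C _), norm_linear_LC h6, natDegree_X_sub_C, hdeg,
    mul_one, pow_mul, neg_one_sq, one_pow, one_mul]

theorem hElc (h1 : Pool.Agent.Helper54.HL.StRA) (h2 : Pool.Agent.Helper54.HL.StRB)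
    (h3 : Pool.Agent.Helper54.HL.StOP) (h4 : Pool.Agent.Helper54.HL.StOS)
    (h5 : Pool.Agent.Helper54.HL.StFS) (h6 : Pool.Agent.Helper54.HL.StNR)
    (h7 : Pool.Agent.Helper54.HL.StNM) (h9 : Pool.Agent.Helper54.HL.StNS) : StElc := by
  intro O k κ _ _ _ _ _ _ _ _ π ρ hπ hsurj hker h2κ g θ₁ θ₂ g₂ hg hg₂ hirr hdeg hθ h hh hd₁ hd₂
    hd D' hD' U₀ V ψ n hU₀ hUirr hcop hdvd hψ hψirr hn hU₀ρ hgood
  change ψ = g₂.map ρ at hgood
  subst hgood
  subst hh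
  have hA := h1 O k κ π ρ hπ hsurj hker g₂ hg₂ hirr
  have hB := h2 O k κ π ρ hπ hsurj hker g₂ hg₂ hirr
  have hlin : ((X - C θ₁) * (X - C θ₂) : O[X]).Monic := (monic_X_sub_C θ₁).mul (monic_X_sub_C θ₂)
  have hf₀ : ((X - C θ₁) * (X - C θ₂) * g₂).Monic := hlin.mul hg₂
  have hdegρ : (g₂.map ρ).natDegree = 2 * g := by rw [hg₂.natDegree_map, hdeg]
  have : Fact (Irreducible (g₂.map ρ)) := ⟨hirr⟩
  have : Fact (Irreducible (tk k g₂)) := ⟨hA.irr⟩
  have hga : ∀ a, (g₂.map ρ).eval a ≠ 0 := eval_ne_Elc hirr hg hdegρ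
  have hUθ : ∀ θ : O, ρ (U₀.eval θ) = (g₂.map ρ).eval (ρ θ) ^ n := by
    intro θ
    rw [← eval_pow, ← hU₀ρ, eval_map, eval₂_hom]
  have hUθ0 : ∀ θ : O, ρ (U₀.eval θ) ≠ 0 := by
    intro θ
    rw [hUθ]; exact pow_ne_zero _ (hga _)
  have hUθu : ∀ θ : O, IsUnit (U₀.eval θ) := fun θ => unit_of_rho_LC hπ hker (hUθ0 θ)
  have hm : U₀.natDegree = n * (2 * g) := by
    rw [← hU₀.natDegree_map ρ, hU₀ρ, natDegree_pow, hdegρ]
  have hmk : (tk k U₀).natDegree = n * (2 * g) := by rw [tk, hU₀.natDegree_map, hm]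
  -- orders
  have hord : Ring.ord (AdjoinRoot ((X - C θ₁) * (X - C θ₂) * g₂))
      (AdjoinRoot.mk ((X - C θ₁) * (X - C θ₂) * g₂) U₀) =
      Ring.ord (AdjoinRoot g₂) (AdjoinRoot.mk g₂ U₀) := by
    rw [h4 O ((X - C θ₁) * (X - C θ₂) * g₂) U₀, h4 O g₂ U₀, map_mul,
      ord_unit_mul_LC (by
        rw [map_mul]
        exact (unit_linear_LC (hUθu θ₁)).mul (unit_linear_LC (hUθu θ₂)))]
  set z := AdjoinRoot.mk (tk k g₂) (tk k U₀) with hz
  have hz0 : z ≠ 0 := by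
    rw [hz, Ne, AdjoinRoot.mk_eq_zero]
    intro h0
    have h10 : IsCoprime (tk k U₀) (tk k g₂) := hcop.of_isCoprime_of_dvd_right hd
    exact hA.irr.not_isUnit (h10.symm.isUnit_of_dvd' dvd_rfl h0)
  obtain ⟨e0, s, hs⟩ := hA.ex z hz0
  obtain ⟨m0, hm0, hord0⟩ := hB.ord U₀ e0 s hs
  obtain ⟨m1, hord1, hev⟩ := h3 O k κ π ρ hπ hsurj hker ((X - C θ₁) * (X - C θ₂) * g₂) U₀ hf₀ hU₀
    hUirr hcop (g₂.map ρ) n hirr hU₀ρ (π * D') D' 1 hD' (by rw [pow_one]) V hdvd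
  have hm01 : m1 = m0 := by
    rw [hord, hord0] at hord1
    exact_mod_cast hord1.symm
  subst hm01
  rw [one_mul] at hev
  -- norms
  have hU : (tk k U₀).Monic := hU₀.map _
  have hG : (tk k g₂).Monic := hg₂.map _
  have hDk : algebraMap O k (π * D') ≠ 0 := by
    rw [map_mul]
    exact mul_ne_zero (Pool.Agent.Helper54.HL.H94.am_ne hπ)
      ((hD'.map (algebraMap O k)).ne_zero)
  have hprod : tk k ((X - C θ₁) * (X - C θ₂) * g₂) =
      (X - C (algebraMap O k θ₁)) * (X - C (algebraMap O k θ₂)) * tk k g₂ := by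
    simp [tk, Polynomial.map_mul]
  have hN1 : ∀ h' : k[X], h' = (X - C (algebraMap O k θ₁)) * (X - C (algebraMap O k θ₂)) * tk k g₂ →
      Algebra.norm k (AdjoinRoot.mk h' (tk k U₀)) =
        algebraMap O k (U₀.eval θ₁) * algebraMap O k (U₀.eval θ₂) * Algebra.norm k z := by
    rintro _ rfl
    rw [h7 k _ _ _ ((monic_X_sub_C _).mul (monic_X_sub_C _)) hG,
      h7 k _ _ _ (monic_X_sub_C _) (monic_X_sub_C _), norm_linear_LC h6, norm_linear_LC h6, hz]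
    congr 2
    · rw [tk, eval_map, eval₂_hom]
    · rw [tk, eval_map, eval₂_hom]
  obtain ⟨c, hc1, hc2⟩ := hB.norm z e0 s hs
  have hsq1 : IsSquare (Algebra.norm k (AdjoinRoot.mk (tk k U₀)
      (tk k ((X - C θ₁) * (X - C θ₂) * g₂)))) := by
    obtain ⟨r, hr⟩ := hdvd
    generalize algebraMap O k (π * D') = Dk at hr hDk ⊢
    generalize tk k ((X - C θ₁) * (X - C θ₂) * g₂) = hh at hr ⊢
    have h10 : C Dk * hh = V ^ 2 + tk k U₀ * r := by
      rw [← hr]; ring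
    have h11 := congrArg (fun p => Algebra.norm k (AdjoinRoot.mk (tk k U₀) p)) h10
    simp only [map_mul, map_add, AdjoinRoot.mk_self, zero_mul, add_zero, map_pow] at h11
    rw [norm_const_LC hU, hmk, show n * (2 * g) = 2 * (n * g) by ring, mul_comm 2,
      pow_mul] at h11
    refine ⟨Algebra.norm k (AdjoinRoot.mk (tk k U₀) V) / Dk ^ (n * g), ?_⟩
    rw [div_mul_div_comm, ← pow_two, ← pow_two, ← h11]
    rw [mul_div_cancel_left₀ _ (pow_ne_zero _ (pow_ne_zero _ hDk))]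
  have hsq2 : IsSquare (algebraMap O k π ^ (e0 * g₂.natDegree) *
      algebraMap O k (U₀.eval θ₁ * U₀.eval θ₂ * c)) := by
    have h10 := h9 k (tk k ((X - C θ₁) * (X - C θ₂) * g₂)) (tk k U₀) (hf₀.map _) hU
    rw [hN1 _ hprod, hc2, hmk, show (tk k ((X - C θ₁) * (X - C θ₂) * g₂)).natDegree *
      (n * (2 * g)) = 2 * ((tk k ((X - C θ₁) * (X - C θ₂) * g₂)).natDegree * (n * g)) by ring,
      pow_mul, neg_one_sq, one_pow, one_mul] at h10
    rw [← h10] at hsq1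
    convert hsq1 using 1
    rw [map_mul, map_mul]
    ring
  have hs0 : s ≠ 0 := hs.1
  have hnf : FiniteDimensional κ (AdjoinRoot (g₂.map ρ)) :=
    (hg₂.map ρ).finite_adjoinRoot
  have hcs : ρ c ≠ 0 := by
    rw [hc1]
    exact Algebra.norm_ne_zero_iff.2 hs0
  have hsq3 : IsSquare (ρ (U₀.eval θ₁ * U₀.eval θ₂ * c)) := by
    refine ((Pool.Agent.Helper54.HL.H94.sq_lemma (k := k) hπ ?_ hsq2).2).map ρ
    rw [← hker, map_mul, map_mul]
    exact mul_ne_zero (mul_ne_zero (hUθ0 θ₁) (hUθ0 θ₂)) hcs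
  set t := AdjoinRoot.mk (g₂.map ρ) ((X - C (ρ θ₁)) * (X - C (ρ θ₂))) with ht
  have hnt : Algebra.norm κ t = (g₂.map ρ).eval (ρ θ₁) * (g₂.map ρ).eval (ρ θ₂) := by
    rw [ht, map_mul, map_mul, norm_lin_Elc h6 h9 (hg₂.map ρ) hdegρ,
      norm_lin_Elc h6 h9 (hg₂.map ρ) hdegρ]
  have ht0 : t ≠ 0 := by
    intro h0
    rw [h0, Algebra.norm_zero] at hnt
    exact mul_ne_zero (hga _) (hga _) hnt.symm
  have hst : IsSquare (s * t ^ n) := by
    rw [← ((h5 κ h2κ (g₂.map ρ) (hg₂.map ρ) hirr).1 _), map_mul, map_pow, hnt, ← hc1, mul_pow,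
      ← hUθ, ← hUθ, ← map_mul, ← map_mul, mul_comm]
    exact hsq3
  -- the representation
  have hu0 : ρ ((-D') ^ (n * (2 * g))) ≠ 0 := by
    rw [map_pow, map_neg]
    exact pow_ne_zero _ (neg_ne_zero.2 (hD'.map ρ).ne_zero)
  have hrep := hA.mul _ _ _ _ _ _ (hA.mul _ _ _ _ _ _ (hA.pow ((n * (2 * g) : ℕ) : ℤ))
    (Pool.Agent.Helper54.HL.H94.rep_const hA hirr hu0)) hs
  rw [add_zero, one_mul] at hrep
  have hval : pr hd (AdjoinRoot.mk (tk k ((X - C θ₁) * (X - C θ₂) * g₂))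
      (C (-algebraMap O k (π * D')) ^ (tk k U₀).natDegree * tk k U₀)) =
      AdjoinRoot.mk (tk k g₂) (C (algebraMap O k π ^ ((n * (2 * g) : ℕ) : ℤ))) *
        AdjoinRoot.mk (tk k g₂) (C (algebraMap O k ((-D') ^ (n * (2 * g))))) * z := by
    rw [pr_mk, hz, hmk, ← map_mul, ← map_mul, ← C_mul]
    congr 2
    rw [← C_pow]
    congr 1
    rw [zpow_natCast, map_pow, ← mul_pow, map_neg, map_mul]
    ring
  rw [← hval] at hrep
  have hDρ : ρ D' ≠ 0 := (hD'.map ρ).ne_zero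
  have hUe : ∀ θ : O, (U₀.map ρ).eval (ρ θ) ≠ 0 := by
    intro θ
    rw [hU₀ρ, eval_pow]
    exact pow_ne_zero _ (hga _)
  obtain ⟨s₁, hs₁⟩ := rep_lin_Elc h1 hπ hsurj hker hDρ (hUe θ₁) (tk k U₀).natDegree hd₁
  obtain ⟨s₂, hs₂⟩ := rep_lin_Elc h1 hπ hsurj hker hDρ (hUe θ₂) (tk k U₀).natDegree hd₂
  refine ⟨_, _, _, s₁, s₂, _, hs₁, hs₂, hrep, ?_⟩
  set u := AdjoinRoot.mk (g₂.map ρ) (C (ρ ((-D') ^ (n * (2 * g))))) with hu
  have huS : IsSquare u := by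
    refine ⟨AdjoinRoot.mk (g₂.map ρ) (C (ρ ((-D') ^ (n * g)))), ?_⟩
    rw [hu, ← map_mul, ← C_mul, ← map_mul, ← pow_add]
    congr 5
    ring
  have hN : (((tk k U₀).natDegree : ℤ) + (((n * (2 * g) : ℕ) : ℤ) + e0)).natAbs =
      n * (2 * g) + (n * (2 * g) + m1) := by
    rw [hmk, hm0]
    omega
  rw [hN, ← mul_pow, map_pow, ← ht]
  have hpar : Even (n * (2 * g) + (n * (2 * g) + m1) + n) := by
    have h10 : n * (2 * g) + (n * (2 * g) + m1) + n = 2 * (n * (2 * g)) + (m1 + n) := by ring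
    rw [h10]
    exact (even_two_mul _).add hev
  obtain ⟨r, hr⟩ := hpar
  have h11 : IsSquare (u * (s * t ^ n) * t ^ (n * (2 * g) + (n * (2 * g) + m1) + n)) :=
    (huS.mul hst).mul ⟨t ^ r, by rw [hr, pow_add]⟩
  have h12 : u * (s * t ^ n) * t ^ (n * (2 * g) + (n * (2 * g) + m1) + n) =
      (u * s * t ^ (n * (2 * g) + (n * (2 * g) + m1))) * t ^ (2 * n) := by
    ring
  rw [h12] at h11
  exact (Pool.Agent.Helper54.HL.H94.isSquare_mul_iff (pow_ne_zero _ ht0)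
    ⟨t ^ n, by rw [two_mul, pow_add]⟩).1 h11

end Pool.Agent.Helper54.EVL
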