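import Pool.Agent.Helper54.EVL.StL
import Pool.Agent.Helper54.HL.St

/-!
# EV module Elp: all points of the twist by a uniformizer
-/

set_option autoImplicit false

namespace Pool.Agent.Helper54.EVL

open Polynomial IsDedekindDomain
open Pool.Agent.Helper54.HL (tk IrrInt IrrBig Nr Rep RepA RepB pr pr_mk IsTwIrr RootLift)

theorem big_form_Elp {O k : Type} [CommRing O] [Field k] [Algebra O k] (π : O) (U : k[X])
    (h : ∀ l : ℕ, 1 ≤ l → ∃ c : O, U.coeff l = U.coeff 0 * algebraMap O k (π * c)) :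
    ∃ p : O[X], U = C (U.coeff 0) * tk k (1 + C π * p) := by
  choose! c hc using h
  refine ⟨∑ l ∈ Finset.Icc 1 U.natDegree, C (c l) * X ^ l, ?_⟩
  ext l
  rw [coeff_C_mul, tk, coeff_map, coeff_add, coeff_C_mul, finsetSum_coeff]
  simp only [coeff_C_mul_X_pow]
  rw [Finset.sum_ite_eq (Finset.Icc 1 U.natDegree) l (fun i => c i), coeff_one]
  by_cases hl : l = 0
  · subst hl; simp
  · rw [if_neg hl, zero_add]
    by_cases hl2 : l ≤ U.natDegree
    · rw [if_pos (Finset.mem_Icc.2 ⟨by omega, hl2⟩), hc l (by omega)]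
    · rw [if_neg (fun h => hl2 (Finset.mem_Icc.1 h).2), mul_zero, map_zero, mul_zero,
        coeff_eq_zero_of_natDegree_lt (by omega)]

/-- Elements of the fraction field of a discrete valuation ring. -/
theorem exists_unit_Elp {O k : Type} [CommRing O] [IsDomain O] [IsDiscreteValuationRing O] [Field k]
    [Algebra O k] [IsFractionRing O k] {π : O} (hπ : Irreducible π) {c : k} (hc : c ≠ 0) :
    ∃ (e : ℤ) (u : O), IsUnit u ∧ c = algebraMap O k π ^ e * algebraMap O k u := by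
  have hπk : algebraMap O k π ≠ 0 := by
    rw [Ne, FaithfulSMul.algebraMap_eq_zero_iff]
    exact hπ.ne_zero
  obtain ⟨a, b, hb, rfl⟩ := IsFractionRing.div_surjective (A := O) c
  have hb0 : b ≠ 0 := nonZeroDivisors.ne_zero hb
  have ha0 : a ≠ 0 := by
    rintro rfl
    exact hc (by rw [map_zero, zero_div])
  obtain ⟨m, u, hu⟩ := IsDiscreteValuationRing.eq_unit_mul_pow_irreducible ha0 hπ
  obtain ⟨n, v, hv⟩ := IsDiscreteValuationRing.eq_unit_mul_pow_irreducible hb0 hπ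
  refine ⟨(m : ℤ) - n, (u * v⁻¹ : Oˣ), Units.isUnit _, ?_⟩
  have hv1 : algebraMap O k (v : O) * algebraMap O k ((v⁻¹ : Oˣ) : O) = 1 := by
    rw [← map_mul, Units.mul_inv, map_one]
  have hv0 : algebraMap O k (v : O) ≠ 0 := left_ne_zero_of_mul_eq_one hv1
  rw [hu, hv, zpow_sub₀ hπk, zpow_natCast, zpow_natCast, Units.val_mul]
  simp only [map_mul, map_pow]
  rw [div_mul_eq_mul_div, div_eq_div_iff (mul_ne_zero hv0 (pow_ne_zero _ hπk)) (pow_ne_zero _ hπk)]
  linear_combination (-(algebraMap O k (u : O)) * (algebraMap O k π) ^ m * (algebraMap O k π) ^ n) *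
    hv1

/-- The value at a point with a pole. -/
theorem rep_Elp {O k κ : Type} [CommRing O] [Field k] [Algebra O k] [Field κ] {π : O}
    {ρ : O →+* κ} (hρ : ρ π = 0) {g₀ : O[X]} (hirr : Irreducible (g₀.map ρ))
    {h : k[X]} (hd : tk k g₀ ∣ h) {e : ℤ} {u : O} (hu : ρ u ≠ 0) (p : O[X]) :
    Rep π ρ g₀ (pr hd (AdjoinRoot.mk h (C (algebraMap O k π ^ e * algebraMap O k u) *
      tk k (1 + C π * p)))) e (algebraMap κ (AdjoinRoot (g₀.map ρ)) (ρ u)) := by
  have := Fact.mk hirr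
  refine ⟨?_, C u * (1 + C π * p), ?_, ?_⟩
  · rw [Ne, map_eq_zero]
    exact hu
  · rw [Polynomial.map_mul, Polynomial.map_add, Polynomial.map_one, Polynomial.map_mul,
      Polynomial.map_C, Polynomial.map_C, hρ, C_0, zero_mul, add_zero, mul_one]
    rfl
  · rw [pr_mk]
    congr 1
    rw [tk, tk, Polynomial.map_mul, Polynomial.map_C, C_mul, mul_assoc]

theorem hElp (h1 : StEla) (h2 : StElb) (h3 : StElb') (h4 : StElc)
    (h6 : Pool.Agent.Helper54.HL.StFS) : StElp := by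
  intro O k κ _ _ _ _ _ _ _ _ π ρ hπ hsurj hker h20 hUV g θ₁ θ₂ g₂ hg hg₂ hirr hdeg hθ h hh
    hd₁ hd₂ hd D' hD' y hy
  obtain ⟨U, V, hU, hUirr, hcop, hdvd, rfl⟩ := hy
  rcases hUV U hU hUirr with hint | hbig
  · obtain ⟨U₀, hU₀, rfl, ψ, n, hψ, hψirr, hn, hmap⟩ := hint
    by_cases ha : ψ = X - C (ρ θ₁)
    · exact h2 O k κ π ρ hπ hsurj hker h20 g θ₁ θ₂ g₂ hg hg₂ hirr hdeg hθ h hh hd₁ hd₂ hd D' hD'
        U₀ V ψ n hU₀ hUirr hcop hdvd hψ hψirr hn hmap ha
    · by_cases hb : ψ = X - C (ρ θ₂)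
      · exact h3 O k κ π ρ hπ hsurj hker h20 g θ₁ θ₂ g₂ hg hg₂ hirr hdeg hθ h hh hd₁ hd₂ hd D' hD'
          U₀ V ψ n hU₀ hUirr hcop hdvd hψ hψirr hn hmap hb
      · by_cases hc : ψ = g₂.map ρ
        · exact h4 O k κ π ρ hπ hsurj hker h20 g θ₁ θ₂ g₂ hg hg₂ hirr hdeg hθ h hh hd₁ hd₂ hd D'
            hD' U₀ V ψ n hU₀ hUirr hcop hdvd hψ hψirr hn hmap hc
        · exact h1 O k κ π ρ hπ hsurj hker h20 g θ₁ θ₂ g₂ hg hg₂ hirr hdeg hθ h hh hd₁ hd₂ hd D'
            hD' U₀ V ψ n hU₀ hUirr hcop hdvd hψ hψirr hn hmap ⟨ha, hb, hc⟩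
  · have hD0 : algebraMap O k (π * D') ≠ 0 := by
      have : π * D' ≠ 0 := mul_ne_zero hπ.ne_zero hD'.ne_zero
      rwa [Ne, FaithfulSMul.algebraMap_eq_zero_iff]
    obtain ⟨hU0, hbig⟩ := hbig
    obtain ⟨p, hp⟩ := big_form_Elp π U hbig
    obtain ⟨e, u, hu, hc⟩ := exists_unit_Elp (k := k) hπ
      (c := (-algebraMap O k (π * D')) ^ U.natDegree * U.coeff 0)
      (mul_ne_zero (pow_ne_zero _ (neg_ne_zero.2 hD0)) hU0)
    have hρu : ρ u ≠ 0 := (hu.map ρ).ne_zero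
    have hρ : ρ π = 0 := (hker π).2 dvd_rfl
    have hv : C (-algebraMap O k (π * D')) ^ U.natDegree * U =
        C (algebraMap O k π ^ e * algebraMap O k u) * tk k (1 + C π * p) := by
      conv_lhs => rw [hp]
      rw [← mul_assoc, ← C_pow, ← C_mul, ← hp, hc]
    have hlin : ∀ θ : O, Irreducible ((X - C θ : O[X]).map ρ) := by
      intro θ
      rw [Polynomial.map_sub, Polynomial.map_X, Polynomial.map_C]
      exact irreducible_X_sub_C _
    rw [hv]
    refine ⟨e, e, e, _, _, _, rep_Elp hρ (hlin θ₁) hd₁ hρu p, rep_Elp hρ (hlin θ₂) hd₂ hρu p,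
      rep_Elp hρ hirr hd hρu p, ?_⟩
    have hev : Even (g₂.map ρ).natDegree := by
      rw [hg₂.natDegree_map, hdeg]
      exact even_two_mul g
    have hsq := (h6 κ h20 (g₂.map ρ) (hg₂.map ρ) hirr).2 hev (ρ u)
    refine hsq.mul ?_
    have hee : (e + e).natAbs = 2 * e.natAbs := by
      rw [← two_mul, Int.natAbs_mul]
      rfl
    rw [hee, pow_mul', pow_mul', ← mul_pow, map_pow]
    exact ⟨_, pow_two _⟩

end Pool.Agent.Helper54.EVL
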