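import Pool.Agent.Helper54.EVL.StL
import Pool.Agent.Helper54.HQ.M_Q3
import Pool.Agent.Helper54.HQ.M_DE
import Pool.Agent.Helper54.HL.M_NG

set_option autoImplicit false

namespace Pool.Agent.Helper54.EVL

open Polynomial IsDedekindDomain
open Pool.Agent.Helper3.HY (co tau baseChange descentGroup IsPointValue IsTwPoint twGroup)
open Pool.Agent.Helper54.HL (tk IrrInt IrrBig Nr Rep RepA RepB pr pr_mk IsTwIrr RootLift)
open Pool.Agent.Helper54.HQ (Prm pz factPrm fK RR LL algRL th kp red Bf NearOne LocSq TwAt EvenAt om ep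
  Over IsQ LD At2)
open Pool.Agent.Helper3.EV (Jx TType AType IType)

section

variable {O k κ : Type} [CommRing O] [Field k] [Algebra O k] [Field κ] {π : O} {ρ : O →+* κ}

/-- projections of elements near one -/
private theorem pr_Nr_Els {h g : k[X]} (hd : g ∣ h) {w : AdjoinRoot h} (hw : Nr π w) :
    Nr π (pr hd w) := by
  obtain ⟨p, rfl⟩ := hw
  exact ⟨p, by rw [map_add, map_one, pr_mk]⟩

/-- one factor -/
private theorem one_Els [IsDomain O] {g₀ : O[X]} (hirr : Irreducible (g₀.map ρ))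
    (hA : RepA k π ρ g₀) (hker : ∀ c, ρ c = 0 ↔ π ∣ c) (hsurj : Function.Surjective ρ)
    {z : AdjoinRoot (tk k g₀)} {e : ℤ} {s : AdjoinRoot (g₀.map ρ)} (hz : Rep π ρ g₀ z e s)
    (he : Even e) (hs : IsSquare s) :
    ∃ y y' : AdjoinRoot (tk k g₀), y * y' = 1 ∧ ∀ x, Nr π (x * y') → Nr π (z * x ^ 2) := by
  have : Fact (Irreducible (tk k g₀)) := ⟨hA.irr⟩
  have : Fact (Irreducible (g₀.map ρ)) := ⟨hirr⟩
  obtain ⟨r, rfl⟩ := he
  obtain ⟨t, rfl⟩ := hs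
  have ht : t ≠ 0 := by
    rintro rfl
    exact hz.1 (mul_zero _)
  obtain ⟨p', hp'⟩ := AdjoinRoot.mk_surjective t⁻¹
  obtain ⟨p, rfl⟩ := Polynomial.map_surjective ρ hsurj p'
  have hy : Rep π ρ g₀ (AdjoinRoot.mk (tk k g₀) (C (algebraMap O k π ^ (-r)) * tk k p)) (-r) t⁻¹ :=
    ⟨inv_ne_zero ht, p, hp', rfl⟩
  have hy0 := HL.H94.rep_ne hA hy
  refine ⟨_, _, mul_inv_cancel₀ hy0, ?_⟩
  intro x hx
  generalize AdjoinRoot.mk (tk k g₀) (C (algebraMap O k π ^ (-r)) * tk k p) = y at hy hy0 hx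
  have hρπ : ρ π = 0 := (hker π).2 dvd_rfl
  have h1 : Rep π ρ g₀ (x * y⁻¹) 0 1 := by
    obtain ⟨q, hq⟩ := hx
    have h2 : (1 + C π * q).map ρ = 1 := by
      rw [Polynomial.map_add, Polynomial.map_mul, map_C, hρπ, C_0, zero_mul, Polynomial.map_one,
        add_zero]
    have h3 := hA.int (1 + C π * q) (by rw [h2, map_one]; exact one_ne_zero)
    rw [h2, map_one] at h3
    rw [hq]
    simpa only [tk, Polynomial.map_add, Polynomial.map_mul, map_C, Polynomial.map_one, map_add,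
      map_one] using h3
  have h4 := hA.mul _ _ _ _ _ _ h1 hy
  rw [inv_mul_cancel_right₀ hy0, zero_add, one_mul] at h4
  have h5 := hA.mul _ _ _ _ _ _ hz (HL.H94.rep_pow hA h4 2)
  have h6 : r + r + ((2 : ℕ) : ℤ) * -r = 0 := by push_cast; ring
  have h7 : t * t * t⁻¹ ^ 2 = 1 := by field_simp
  rw [h6, h7] at h5
  exact HL.H94.rep_one_near hker hsurj h5

/-- gluing for coprime factors -/
private theorem glue_Els {G₁ G₂ : O[X]} (hc : IsCoprime G₁ G₂) {h : k[X]}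
    (hh : h = tk k G₁ * tk k G₂) (hd1 : tk k G₁ ∣ h) (hd2 : tk k G₂ ∣ h) {w : AdjoinRoot h}
    (h1 : Nr π (pr hd1 w)) (h2 : Nr π (pr hd2 w)) : Nr π w := by
  obtain ⟨y1, hy1⟩ := h1
  obtain ⟨y2, hy2⟩ := h2
  obtain ⟨W, rfl⟩ := AdjoinRoot.mk_surjective w
  obtain ⟨u, v, huv⟩ := hc
  rw [pr_mk, ← map_one (AdjoinRoot.mk (tk k G₁)), ← map_add, AdjoinRoot.mk_eq_mk] at hy1
  rw [pr_mk, ← map_one (AdjoinRoot.mk (tk k G₂)), ← map_add, AdjoinRoot.mk_eq_mk] at hy2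
  have hB : tk k u * tk k G₁ + tk k v * tk k G₂ = 1 := by
    have := congrArg (tk k) huv
    simpa only [tk, Polynomial.map_add, Polynomial.map_mul, Polynomial.map_one] using this
  have hyk : tk k (v * G₂ * y1 + u * G₁ * y2) =
      tk k v * tk k G₂ * tk k y1 + tk k u * tk k G₁ * tk k y2 := by
    simp only [tk, Polynomial.map_add, Polynomial.map_mul]
  refine ⟨v * G₂ * y1 + u * G₁ * y2, ?_⟩
  rw [← map_one (AdjoinRoot.mk h), ← map_add, AdjoinRoot.mk_eq_mk, hyk]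
  have h3 := HQ.Q3.glue_aux hB hy1 hy2
  rwa [← hh] at h3

/-- Chinese remainder theorem -/
private theorem crt_Els {G₁ G₂ : k[X]} (hc : IsCoprime G₁ G₂) {h : k[X]} (hd1 : G₁ ∣ h)
    (hd2 : G₂ ∣ h) (x₁ : AdjoinRoot G₁) (x₂ : AdjoinRoot G₂) :
    ∃ x : AdjoinRoot h, pr hd1 x = x₁ ∧ pr hd2 x = x₂ := by
  obtain ⟨p₁, rfl⟩ := AdjoinRoot.mk_surjective x₁
  obtain ⟨p₂, rfl⟩ := AdjoinRoot.mk_surjective x₂
  obtain ⟨u, v, huv⟩ := hc
  refine ⟨AdjoinRoot.mk h (p₁ * (v * G₂) + p₂ * (u * G₁)), ?_, ?_⟩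
  · rw [pr_mk, AdjoinRoot.mk_eq_mk]
    refine ⟨(p₂ - p₁) * u, ?_⟩
    have : v * G₂ = 1 - u * G₁ := by rw [← huv]; ring
    rw [this]; ring
  · rw [pr_mk, AdjoinRoot.mk_eq_mk]
    refine ⟨(p₁ - p₂) * v, ?_⟩
    have : u * G₁ = 1 - v * G₂ := by rw [← huv]; ring
    rw [this]; ring

private theorem inj_Els {G₁ G₂ : k[X]} (hc : IsCoprime G₁ G₂) {h : k[X]} (hh : h = G₁ * G₂)
    (hd1 : G₁ ∣ h) (hd2 : G₂ ∣ h) {x : AdjoinRoot h} (h1 : pr hd1 x = 1) (h2 : pr hd2 x = 1) :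
    x = 1 := by
  obtain ⟨p, rfl⟩ := AdjoinRoot.mk_surjective x
  rw [pr_mk, ← map_one (AdjoinRoot.mk _), AdjoinRoot.mk_eq_mk] at h1 h2
  rw [← map_one (AdjoinRoot.mk h), AdjoinRoot.mk_eq_mk, hh]
  exact hc.mul_dvd h1 h2

private theorem pr_pr_Els {h g g' : k[X]} (hd : g ∣ h) (hd' : g' ∣ g) (hd'' : g' ∣ h)
    (x : AdjoinRoot h) : pr hd' (pr hd x) = pr hd'' x := by
  obtain ⟨p, rfl⟩ := AdjoinRoot.mk_surjective x
  rw [pr_mk, pr_mk, pr_mk]

/-- polynomials with coprime reductions over a local ring: linear and coprime by values -/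
private theorem cop_lin_Els {B : Type} [CommRing B] {G : B[X]} {θ : B} (hu : IsUnit (G.eval θ)) :
    IsCoprime (X - C θ) G := by
  obtain ⟨q, hq⟩ := HL.H94.div_linear G θ
  obtain ⟨v, hv⟩ := hu.exists_right_inv
  refine ⟨-(q * C v), C v, ?_⟩
  have h2 : C (G.eval θ) * C v = (1 : B[X]) := by rw [← C_mul, hv, C_1]
  calc -(q * C v) * (X - C θ) + C v * G
      = -(q * C v) * (X - C θ) + C v * ((X - C θ) * q + C (G.eval θ)) := by rw [← hq]
    _ = C (G.eval θ) * C v := by ring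
    _ = 1 := h2

/-- three factors -/
private theorem three_Els [IsDomain O] {g₁ g₂ g₃ : O[X]} (hi1 : Irreducible (g₁.map ρ))
    (hi2 : Irreducible (g₂.map ρ)) (hi3 : Irreducible (g₃.map ρ))
    (hA1 : RepA k π ρ g₁) (hA2 : RepA k π ρ g₂) (hA3 : RepA k π ρ g₃)
    (hker : ∀ c, ρ c = 0 ↔ π ∣ c) (hsurj : Function.Surjective ρ)
    (hc12 : IsCoprime g₁ g₂) (hc : IsCoprime (g₁ * g₂) g₃) {h : k[X]}
    (hh : h = tk k (g₁ * g₂) * tk k g₃) (hd1 : tk k g₁ ∣ h) (hd2 : tk k g₂ ∣ h)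
    (hd3 : tk k g₃ ∣ h) {w : AdjoinRoot h} {e1 e2 e3 : ℤ} {s1 : AdjoinRoot (g₁.map ρ)}
    {s2 : AdjoinRoot (g₂.map ρ)} {s3 : AdjoinRoot (g₃.map ρ)} (hs1 : Rep π ρ g₁ (pr hd1 w) e1 s1)
    (hs2 : Rep π ρ g₂ (pr hd2 w) e2 s2) (hs3 : Rep π ρ g₃ (pr hd3 w) e3 s3)
    (he1 : Even e1) (he2 : Even e2) (he3 : Even e3) (hS1 : IsSquare s1) (hS2 : IsSquare s2)
    (hS3 : IsSquare s3) :
    ∃ y y' : AdjoinRoot h, y * y' = 1 ∧ ∀ x, Nr π (x * y') → Nr π (w * x ^ 2) := by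
  have hd12 : tk k (g₁ * g₂) ∣ h := ⟨_, hh⟩
  have hm12 : tk k (g₁ * g₂) = tk k g₁ * tk k g₂ := by simp only [tk, Polynomial.map_mul]
  have hd1' : tk k g₁ ∣ tk k (g₁ * g₂) := ⟨_, hm12⟩
  have hd2' : tk k g₂ ∣ tk k (g₁ * g₂) := ⟨tk k g₁, by rw [hm12, mul_comm]⟩
  have hk12 : IsCoprime (tk k g₁) (tk k g₂) := hc12.map (mapRingHom (algebraMap O k))
  have hk : IsCoprime (tk k (g₁ * g₂)) (tk k g₃) := hc.map (mapRingHom (algebraMap O k))
  obtain ⟨y1, y1', hy1, hx1⟩ := one_Els hi1 hA1 hker hsurj hs1 he1 hS1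
  obtain ⟨y2, y2', hy2, hx2⟩ := one_Els hi2 hA2 hker hsurj hs2 he2 hS2
  obtain ⟨y3, y3', hy3, hx3⟩ := one_Els hi3 hA3 hker hsurj hs3 he3 hS3
  obtain ⟨y12, ha1, ha2⟩ := crt_Els hk12 hd1' hd2' y1 y2
  obtain ⟨y12', hb1, hb2⟩ := crt_Els hk12 hd1' hd2' y1' y2'
  obtain ⟨y, hc1, hc2⟩ := crt_Els hk hd12 hd3 y12 y3
  obtain ⟨y', hc1', hc2'⟩ := crt_Els hk hd12 hd3 y12' y3'
  refine ⟨y, y', ?_, ?_⟩
  · refine inj_Els hk hh hd12 hd3 ?_ ?_
    · rw [map_mul, hc1, hc1']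
      refine inj_Els hk12 hm12 hd1' hd2' ?_ ?_
      · rw [map_mul, ha1, hb1, hy1]
      · rw [map_mul, ha2, hb2, hy2]
    · rw [map_mul, hc2, hc2', hy3]
  · intro x hx
    refine glue_Els hc hh hd12 hd3 (glue_Els hc12 hm12 hd1' hd2' ?_ ?_) ?_
    · rw [pr_pr_Els hd12 hd1' hd1, map_mul, map_pow]
      refine hx1 _ ?_
      have h1 := pr_Nr_Els hd1 hx
      rwa [map_mul, ← pr_pr_Els hd12 hd1' hd1 y', hc1', hb1] at h1
    · rw [pr_pr_Els hd12 hd2' hd2, map_mul, map_pow]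
      refine hx2 _ ?_
      have h1 := pr_Nr_Els hd2 hx
      rwa [map_mul, ← pr_pr_Els hd12 hd2' hd2 y', hc1', hb2] at h1
    · rw [map_mul, map_pow]
      refine hx3 _ ?_
      have h1 := pr_Nr_Els hd3 hx
      rwa [map_mul, hc2'] at h1

end

private theorem even_Els {f : ℤ[X]} [Fact (Irreducible (fK f))] [IsDedekindDomain (RR f)]
    [IsFractionRing (RR f) (LL f)] {v : HeightOneSpectrum (RR f)} {z : LL f} {e : ℤ}
    (h : EvenAt v z) (hv : v.valuation (LL f) z = WithZero.exp (-e)) : Even e := by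
  have h11 : IsSquare (v.valuation (LL f) z) := h
  rw [hv] at h11
  simpa using (HQ.Q3.even_of_isSquare_exp h11).neg

private theorem core_Els (h1 : Pool.Agent.Helper54.HL.StRA) (h2 : Pool.Agent.Helper54.HL.StRB)
    (h3 : Pool.Agent.Helper54.HQ.StCV) (h3' : Pool.Agent.Helper54.HQ.StCM)
    (h5 : Pool.Agent.Helper54.HL.StNB) (h5' : Pool.Agent.Helper54.HL.StNM)
    (h6 : Pool.Agent.Helper54.HL.StFS) (h7 : Pool.Agent.Helper54.HQ.StNO)
    {g : ℕ} {f : ℤ[X]} (hf : f.Monic) [Fact (Irreducible (fK f))] [IsDedekindDomain (RR f)]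
    [IsFractionRing (RR f) (LL f)] {P : Prm} (h2F : P.1 ≠ 2) {O k : Type} [CommRing O] [IsDomain O]
    [IsDiscreteValuationRing O] [Field k] [Algebra O k] [IsFractionRing O k] {i : ℤ →+* O}
    {j : ℚ →+* k} {ρ : O →+* kp P} (hLD : LD P i j ρ) {θ₁ θ₂ : O} {g₂ : O[X]}
    (hg₂ : g₂.Monic) (hf₀ : f.map i = (X - C θ₁) * (X - C θ₂) * g₂)
    {qa qb q : HeightOneSpectrum (RR f)} (tri : Tri g P (ρ θ₁) (ρ θ₂) (g₂.map ρ) qa qb q)
    (z : LL f) (hz : z ≠ 0) (hzN : IsSquare (Algebra.norm ℚ z)) (hev : ∀ v, Over P v → EvenAt v z)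
    (hep : ep P q z = 0) : LocSqC P z := by
  have hπ : Irreducible (i (pz P)) := hLD.unif
  have hsurj := hLD.surj
  have hker := hLD.ker
  have hfin : Finite (kp P) := inferInstance
  have h2κ : (2 : kp P) ≠ 0 := HQ.two_ne_zero_kp h2F
  set π := i (pz P) with hπdef
  have hirr := tri.pirr
  have hdegρ := tri.pdeg
  have hg₂ρ : (g₂.map ρ).Monic := hg₂.map ρ
  have hXρ : ∀ θ : O, (X - C θ).map ρ = X - C (ρ θ) := fun θ => by simp
  have hXm : ∀ θ : O, (X - C θ : O[X]).Monic := fun θ => monic_X_sub_C θ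
  have hXirr : ∀ θ : O, Irreducible ((X - C θ).map ρ) := fun θ => by
    rw [hXρ]; exact irreducible_X_sub_C _
  have hga : ∀ θ : O, IsUnit (g₂.eval θ) := by
    intro θ
    apply HL.unit_of_rho_LC hπ hker
    intro h0
    have h0' : (g₂.map ρ).eval (ρ θ) = 0 := by rw [eval_map, eval₂_hom, h0]
    have h11 : (g₂.map ρ).natDegree = 1 := natDegree_eq_of_degree_eq_some
      (degree_eq_one_of_irreducible_of_root hirr (x := ρ θ) h0')
    rw [hdegρ] at h11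
    omega
  have hθ12 : IsUnit (θ₁ - θ₂) := by
    apply HL.unit_of_rho_LC hπ hker
    rw [map_sub, sub_ne_zero]
    exact tri.hab
  have hc12 : IsCoprime (X - C θ₁ : O[X]) (X - C θ₂) := cop_lin_Els (by simpa using hθ12)
  have hc : IsCoprime ((X - C θ₁ : O[X]) * (X - C θ₂)) g₂ :=
    (cop_lin_Els (hga θ₁)).mul_left (cop_lin_Els (hga θ₂))
  have hh : (fK f).map j = tk k ((X - C θ₁) * (X - C θ₂) * g₂) := by rw [hLD.map, hf₀]
  have hh' : (fK f).map j = tk k ((X - C θ₁) * (X - C θ₂)) * tk k g₂ := by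
    rw [hh]; simp only [tk, Polynomial.map_mul]
  have hd1 : tk k (X - C θ₁) ∣ (fK f).map j := by
    rw [hh, mul_assoc]; exact Polynomial.map_dvd _ (dvd_mul_right _ _)
  have hd2 : tk k (X - C θ₂) ∣ (fK f).map j := by
    rw [hh]; exact Polynomial.map_dvd _ ((dvd_mul_left _ _).mul_right _)
  have hd3 : tk k g₂ ∣ (fK f).map j := by
    rw [hh]; exact Polynomial.map_dvd _ (dvd_mul_left _ _)
  have hA1 := h1 O k (kp P) π ρ hπ hsurj hker (X - C θ₁) (hXm _) (hXirr _)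
  have hA2 := h1 O k (kp P) π ρ hπ hsurj hker (X - C θ₂) (hXm _) (hXirr _)
  have hA3 := h1 O k (kp P) π ρ hπ hsurj hker g₂ hg₂ hirr
  have hB1 := h2 O k (kp P) π ρ hπ hsurj hker (X - C θ₁) (hXm _) (hXirr _)
  have hB2 := h2 O k (kp P) π ρ hπ hsurj hker (X - C θ₂) (hXm _) (hXirr _)
  have hB3 := h2 O k (kp P) π ρ hπ hsurj hker g₂ hg₂ hirr
  have : Fact (Irreducible (tk k (X - C θ₁))) := ⟨hA1.irr⟩
  have : Fact (Irreducible (tk k (X - C θ₂))) := ⟨hA2.irr⟩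
  have : Fact (Irreducible (tk k g₂)) := ⟨hA3.irr⟩
  have : Fact (Irreducible ((X - C θ₁).map ρ)) := ⟨hXirr _⟩
  have : Fact (Irreducible ((X - C θ₂).map ρ)) := ⟨hXirr _⟩
  have : Fact (Irreducible (g₂.map ρ)) := ⟨hirr⟩
  let ev1 : LL f →+* AdjoinRoot (tk k (X - C θ₁)) := (pr hd1).comp (baseChange j (fK f))
  let ev2 : LL f →+* AdjoinRoot (tk k (X - C θ₂)) := (pr hd2).comp (baseChange j (fK f))
  let ev3 : LL f →+* AdjoinRoot (tk k g₂) := (pr hd3).comp (baseChange j (fK f))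
  have hev1 : ∀ x : LL f, ev1 x = pr hd1 (baseChange j (fK f) x) := fun x => rfl
  have hev2 : ∀ x : LL f, ev2 x = pr hd2 (baseChange j (fK f) x) := fun x => rfl
  have hev3 : ∀ x : LL f, ev3 x = pr hd3 (baseChange j (fK f) x) := fun x => rfl
  obtain ⟨e1, s1, hs1⟩ := hA1.ex (ev1 z) ((map_ne_zero ev1).2 hz)
  obtain ⟨e2, s2, hs2⟩ := hA2.ex (ev2 z) ((map_ne_zero ev2).2 hz)
  obtain ⟨e3, s3, hs3⟩ := hA3.ex (ev3 z) ((map_ne_zero ev3).2 hz)
  -- lifts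
  have hredsurj : Function.Surjective (red P) := HQ.red_surj P
  obtain ⟨a0, ha0⟩ := hredsurj (ρ θ₁)
  obtain ⟨b0, hb0⟩ := hredsurj (ρ θ₂)
  obtain ⟨H0, hH0⟩ := Polynomial.map_surjective (red P) hredsurj (g₂.map ρ)
  have hla : (X - C a0).map (red P) = X - C (ρ θ₁) := by
    rw [Polynomial.map_sub, map_X, map_C, ha0]
  have hlb : (X - C b0).map (red P) = X - C (ρ θ₂) := by
    rw [Polynomial.map_sub, map_X, map_C, hb0]
  have hf1 : (X - C θ₁) ∣ f.map i := by rw [hf₀, mul_assoc]; exact dvd_mul_right _ _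
  have hf2 : (X - C θ₂) ∣ f.map i := by rw [hf₀]; exact (dvd_mul_left _ _).mul_right _
  have hf3 : g₂ ∣ f.map i := by rw [hf₀]; exact dvd_mul_left _ _
  have he1 : Even e1 := even_Els (hev qa tri.oa) (h3 f hf P O k i j ρ hLD (X - C θ₁) (hXm _)
    (hXirr _) hf1 hd1 (X - C a0) (by rw [hla, hXρ]) qa tri.oa (tri.ma _ hla) z e1 s1 hs1)
  have he2 : Even e2 := even_Els (hev qb tri.ob) (h3 f hf P O k i j ρ hLD (X - C θ₂) (hXm _)
    (hXirr _) hf2 hd2 (X - C b0) (by rw [hlb, hXρ]) qb tri.ob (tri.mb _ hlb) z e2 s2 hs2)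
  obtain ⟨hval, hep'⟩ := h3' f hf P O k i j ρ h2F hLD g₂ hg₂ hirr hf3 hd3 H0 hH0 q tri.isQ.1
    (tri.mq _ hH0) z e3 s3 hs3
  have he3 : Even e3 := even_Els (hev q tri.isQ.1) hval
  have hS3 : IsSquare s3 := hep'.1 hep
  -- the norm
  obtain ⟨c1, hc1, hc1'⟩ := hB1.norm _ _ _ hs1
  obtain ⟨c2, hc2, hc2'⟩ := hB2.norm _ _ _ hs2
  obtain ⟨c3, hc3, hc3'⟩ := hB3.norm _ _ _ hs3
  have hfin1 : FiniteDimensional (kp P) (AdjoinRoot ((X - C θ₁).map ρ)) :=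
    ((hXm _).map ρ).finite_adjoinRoot
  have hfin2 : FiniteDimensional (kp P) (AdjoinRoot ((X - C θ₂).map ρ)) :=
    ((hXm _).map ρ).finite_adjoinRoot
  have hfin3 : FiniteDimensional (kp P) (AdjoinRoot (g₂.map ρ)) := hg₂ρ.finite_adjoinRoot
  have hc10 : ρ c1 ≠ 0 := by rw [hc1]; exact Algebra.norm_ne_zero_iff.2 hs1.1
  have hc20 : ρ c2 ≠ 0 := by rw [hc2]; exact Algebra.norm_ne_zero_iff.2 hs2.1
  have hc30 : ρ c3 ≠ 0 := by rw [hc3]; exact Algebra.norm_ne_zero_iff.2 hs3.1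
  have hprod : (fK f).map j = tk k (X - C θ₁) * tk k (X - C θ₂) * tk k g₂ := by
    rw [hh]; simp only [tk, Polynomial.map_mul]
  have hnorm : IsSquare (c1 * c2 * c3) := by
    refine (HL.H94.sq_lemma (k := k) hπ (n := e1 + e2 + e3 * (2 * g : ℕ)) ?_ ?_).2
    · rw [← hker, map_mul, map_mul]; exact mul_ne_zero (mul_ne_zero hc10 hc20) hc30
    · obtain ⟨pz, hpz⟩ := AdjoinRoot.mk_surjective z
      have h11 : IsSquare (Algebra.norm k (baseChange j (fK f) z)) := by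
        rw [← hpz, HQ.Q3.bc_mk, ← h5 ℚ k j (fK f) pz (hf.map _), hpz]
        exact hzN.map j
      have h12 : ∀ h' : k[X], h' = tk k (X - C θ₁) * tk k (X - C θ₂) * tk k g₂ →
          ∀ (e1 : tk k (X - C θ₁) ∣ h') (e2 : tk k (X - C θ₂) ∣ h')
          (e3 : tk k g₂ ∣ h') (x : AdjoinRoot h'), Algebra.norm k x =
            Algebra.norm k (pr e1 x) * Algebra.norm k (pr e2 x) * Algebra.norm k (pr e3 x) := by
        rintro _ rfl e1 e2 e3 x
        obtain ⟨px, rfl⟩ := AdjoinRoot.mk_surjective x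
        rw [h5' k _ _ px (((hXm _).map _).mul ((hXm _).map _)) (hg₂.map _),
          h5' k _ _ px ((hXm _).map _) ((hXm _).map _), pr_mk, pr_mk, pr_mk]
      rw [h12 _ hprod hd1 hd2 hd3, ← hev1, ← hev2, ← hev3, hc1', hc2', hc3'] at h11
      convert h11 using 1
      have hdg : g₂.natDegree = 2 * g := by rw [← hdegρ, hg₂.natDegree_map]
      rw [hdg, natDegree_X_sub_C, natDegree_X_sub_C, map_mul, map_mul,
        zpow_add₀ (HL.H94.am_ne hπ), zpow_add₀ (HL.H94.am_ne hπ)]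
      push_cast
      rw [mul_one, mul_one]
      ring
  have hcc : IsSquare (ρ c1 * ρ c2) := by
    have h11 : IsSquare (ρ c3) := by rw [hc3]; exact hS3.map _
    have h12 : IsSquare (ρ c1 * ρ c2 * ρ c3) := by
      rw [← map_mul, ← map_mul]; exact hnorm.map ρ
    exact (HL.H94.isSquare_mul_iff hc30 h11).1 h12
  -- the constant
  obtain ⟨c, hcc1⟩ := hredsurj (ρ c1)
  have hρc : ρ (i c) = ρ c1 := by rw [hLD.rho, hcc1]
  have hPc : ¬ pz P ∣ c := by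
    rw [← HQ.red_eq_zero, hcc1]
    exact hc10
  have hρc0 : ρ (i c) ≠ 0 := by rw [hρc]; exact hc10
  have hcR : ∀ (G : O[X]) (hG : Irreducible (G.map ρ)) (hA : RepA k π ρ G)
      (hd : tk k G ∣ (fK f).map j), Rep π ρ G (pr hd (baseChange j (fK f) (c : LL f))) 0
        (AdjoinRoot.mk (G.map ρ) (C (ρ (i c)))) := by
    intro G hG hA hd
    have h11 : baseChange j (fK f) (c : LL f) =
        AdjoinRoot.mk ((fK f).map j) (C (algebraMap O k (i c))) := by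
      have h12 : (c : LL f) = AdjoinRoot.mk (fK f) (C (Int.castRingHom ℚ c)) := by
        rw [AdjoinRoot.mk_C, HQ.of_eq_castRingHom', eq_intCast]
      rw [h12, HQ.Q3.bc_mk, map_C, hLD.comp]
    rw [h11, pr_mk]
    exact HL.H94.rep_const hA hG hρc0
  have hw1 := hA1.mul _ _ _ _ _ _ (hcR _ (hXirr _) hA1 hd1) hs1
  have hw2 := hA2.mul _ _ _ _ _ _ (hcR _ (hXirr _) hA2 hd2) hs2
  have hw3 := hA3.mul _ _ _ _ _ _ (hcR _ hirr hA3 hd3) hs3
  rw [hev1, ← map_mul, ← map_mul, zero_add] at hw1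
  rw [hev2, ← map_mul, ← map_mul, zero_add] at hw2
  rw [hev3, ← map_mul, ← map_mul, zero_add] at hw3
  have hnc : ∀ θ : O, Algebra.norm (kp P) (AdjoinRoot.mk ((X - C θ).map ρ) (C (ρ (i c)))) = ρ c1 := by
    intro θ
    rw [AdjoinRoot.mk_C, ← AdjoinRoot.algebraMap_eq, Algebra.norm_algebraMap,
      (AdjoinRoot.powerBasis' ((hXm θ).map ρ)).finrank, AdjoinRoot.powerBasis'_dim,
      (hXm θ).natDegree_map, natDegree_X_sub_C, pow_one, hρc]
  have hS1 : IsSquare (AdjoinRoot.mk ((X - C θ₁).map ρ) (C (ρ (i c))) * s1) := by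
    refine ((h6 (kp P) h2κ _ ((hXm _).map ρ) (hXirr _)).1 _).1 ?_
    rw [map_mul, hnc, ← hc1]
    exact ⟨_, rfl⟩
  have hS2 : IsSquare (AdjoinRoot.mk ((X - C θ₂).map ρ) (C (ρ (i c))) * s2) := by
    refine ((h6 (kp P) h2κ _ ((hXm _).map ρ) (hXirr _)).1 _).1 ?_
    rw [map_mul, hnc, ← hc2]
    exact hcc
  have hS3' : IsSquare (AdjoinRoot.mk (g₂.map ρ) (C (ρ (i c))) * s3) :=
    ((h6 (kp P) h2κ _ hg₂ρ hirr).2 (by rw [hdegρ]; exact even_two_mul g) _).mul hS3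
  obtain ⟨y, y', hyy, hx⟩ := three_Els (hXirr _) (hXirr _) hirr hA1 hA2 hA3 hker hsurj hc12 hc hh'
    hd1 hd2 hd3 hw1 hw2 hw3 he1 he2 he3 hS1 hS2 hS3'
  obtain ⟨β, hβ, hβN⟩ := HQ.hDE (HL.hNG h5) f hf P O k i j ρ hLD y y' hyy
  refine ⟨c, β, hPc, hβ, (h7 f hf P O k i j ρ hLD _).2 ?_⟩
  rw [map_mul, map_pow]
  exact hx _ hβN

/-- (Els) Local squares up to units. -/
theorem hEls (h1 : Pool.Agent.Helper54.HL.StRA) (h2 : Pool.Agent.Helper54.HL.StRB)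
    (h3 : Pool.Agent.Helper54.HQ.StCV) (h3' : Pool.Agent.Helper54.HQ.StCM)
    (h4 : Pool.Agent.Helper54.HQ.StLD) (h5 : Pool.Agent.Helper54.HL.StNB)
    (h5' : Pool.Agent.Helper54.HL.StNM) (h6 : Pool.Agent.Helper54.HL.StFS)
    (h7 : Pool.Agent.Helper54.HQ.StNO) (h8 : StEfa) (h9 : StEtri) : StEls := by
  intro g hg f hf _ _ _ P h2F hT q hq z hz hzN hev hep
  obtain ⟨a, b, p, qa, qb, tri⟩ := (h9 g hg f hf P hT).2 q hq
  obtain ⟨i, ρ, hLD, hRL, -⟩ := h4 P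
  have hpe : ∀ x : kp P, p.eval x ≠ 0 := by
    intro x h0
    have h11 : p.natDegree = 1 := natDegree_eq_of_degree_eq_some
      (degree_eq_one_of_irreducible_of_root tri.pirr (x := x) h0)
    rw [tri.pdeg] at h11
    omega
  obtain ⟨θ₁, θ₂, g₂, hg₂, rfl, rfl, hf₀, rfl⟩ := h8 ℤ_[(P : ℕ)] (kp P) ρ hLD.surj hRL (f.map i)
    a b p (hf.map i) tri.pm tri.hab (hpe a) (hpe b) (by rw [hLD.map_red, tri.fac])
  exact core_Els h1 h2 h3 h3' h5 h5' h6 h7 hf h2F hLD hg₂ hf₀ tri z hz hzN hev hep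

end Pool.Agent.Helper54.EVL
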