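import Pool.Agent.Helper54.EVL.StL
import Pool.Agent.Helper54.HQ.StL
import Pool.Agent.Helper54.HL.St
import Pool.Agent.Helper54.HL.M_LC
import Pool.Agent.Helper54.HL.Hlp94
import Pool.Agent.Helper54.HQ.M_Q3

/-!
# EVL module En3: the norm and the valuations at the two rational primes
-/

set_option autoImplicit false

namespace Pool.Agent.Helper54.EVL

open Polynomial Finset IsDedekindDomain
open Pool.Agent.Helper3.HY (co tau baseChange descentGroup IsPointValue IsTwPoint twGroup)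
open Pool.Agent.Helper54.HL (tk IrrInt IrrBig Nr Rep RepA RepB pr pr_mk IsTwIrr RootLift)
open Pool.Agent.Helper54.HQ (Prm pz factPrm fK RR LL algRL th kp red Bf NearOne LocSq TwAt EvenAt om ep
  Over IsQ LD At2)

/-- the norm of a product of three factors -/
private theorem norm3_En3 (h6 : Pool.Agent.Helper54.HL.StNM) {k : Type} [Field k] {a b c : k[X]}
    (ha : a.Monic) (hb : b.Monic) (hc : c.Monic) {h : k[X]} (hh : h = a * b * c)
    (hda : a ∣ h) (hdb : b ∣ h) (hdc : c ∣ h) (x : AdjoinRoot h) :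
    Algebra.norm k x = Algebra.norm k (pr hda x) * Algebra.norm k (pr hdb x) *
      Algebra.norm k (pr hdc x) := by
  subst hh
  obtain ⟨p, rfl⟩ := AdjoinRoot.mk_surjective x
  rw [h6 k (a * b) c p (ha.mul hb) hc, h6 k a b p ha hb, pr_mk, pr_mk, pr_mk]

private theorem core_En3 (h1 : Pool.Agent.Helper54.HL.StRA) (h2 : Pool.Agent.Helper54.HL.StRB)
    (h3 : Pool.Agent.Helper54.HQ.StCV)
    (h5 : Pool.Agent.Helper54.HL.StNB) (h6 : Pool.Agent.Helper54.HL.StNM)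
    {g : ℕ} {f : ℤ[X]}
    (hf : f.Monic) [Fact (Irreducible (fK f))] [IsDedekindDomain (RR f)]
    [IsFractionRing (RR f) (LL f)] {P : Prm} {O k : Type} [CommRing O] [IsDomain O]
    [IsDiscreteValuationRing O] [Field k] [Algebra O k] [IsFractionRing O k] {i : ℤ →+* O}
    {j : ℚ →+* k} {ρ : O →+* kp P} (hLD : LD P i j ρ) {a b : kp P} {p : (kp P)[X]}
    {qa qb q : HeightOneSpectrum (RR f)} (hT : Tri g P a b p qa qb q) {θ₁ θ₂ : O} {g₂ : O[X]}
    (hg₂ : g₂.Monic) (hθ₁ : ρ θ₁ = a) (hθ₂ : ρ θ₂ = b)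
    (hf₀ : f.map i = (X - C θ₁) * (X - C θ₂) * g₂) (hg₂ρ : g₂.map ρ = p)
    (z : LL f) (hz : z ≠ 0) (hzN : IsSquare (Algebra.norm ℚ z)) : om qa z = om qb z := by
  have hπ : Irreducible (i (pz P)) := hLD.unif
  have hsurj := hLD.surj
  have hker := hLD.ker
  set π := i (pz P) with hπdef
  have hirr : Irreducible (g₂.map ρ) := by rw [hg₂ρ]; exact hT.pirr
  have hmap : ∀ θ : O, (X - C θ : O[X]).map ρ = X - C (ρ θ) := fun θ => by
    rw [Polynomial.map_sub, map_X, map_C]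
  have hXm : ∀ θ : O, (X - C θ : O[X]).Monic := fun θ => monic_X_sub_C θ
  have hXirr : ∀ θ : O, Irreducible ((X - C θ : O[X]).map ρ) := fun θ => by
    rw [hmap]; exact irreducible_X_sub_C _
  have hprod : (fK f).map j = tk k (X - C θ₁) * tk k (X - C θ₂) * tk k g₂ := by
    rw [hLD.map, hf₀]
    simp only [tk, Polynomial.map_mul]
  have hd1 : tk k (X - C θ₁) ∣ (fK f).map j := by
    rw [hprod, mul_assoc]; exact dvd_mul_right _ _
  have hd2 : tk k (X - C θ₂) ∣ (fK f).map j := by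
    rw [hprod]; exact dvd_mul_of_dvd_left (dvd_mul_left _ _) _
  have hd3 : tk k g₂ ∣ (fK f).map j := by
    rw [hprod]; exact dvd_mul_left _ _
  have hA1 := h1 O k (kp P) π ρ hπ hsurj hker (X - C θ₁) (hXm θ₁) (hXirr θ₁)
  have hA2 := h1 O k (kp P) π ρ hπ hsurj hker (X - C θ₂) (hXm θ₂) (hXirr θ₂)
  have hA3 := h1 O k (kp P) π ρ hπ hsurj hker g₂ hg₂ hirr
  have hB1 := h2 O k (kp P) π ρ hπ hsurj hker (X - C θ₁) (hXm θ₁) (hXirr θ₁)
  have hB2 := h2 O k (kp P) π ρ hπ hsurj hker (X - C θ₂) (hXm θ₂) (hXirr θ₂)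
  have hB3 := h2 O k (kp P) π ρ hπ hsurj hker g₂ hg₂ hirr
  have : Fact (Irreducible (tk k (X - C θ₁))) := ⟨hA1.irr⟩
  have : Fact (Irreducible (tk k (X - C θ₂))) := ⟨hA2.irr⟩
  have : Fact (Irreducible (tk k g₂)) := ⟨hA3.irr⟩
  have : Fact (Irreducible ((X - C θ₁ : O[X]).map ρ)) := ⟨hXirr θ₁⟩
  have : Fact (Irreducible ((X - C θ₂ : O[X]).map ρ)) := ⟨hXirr θ₂⟩
  have : Fact (Irreducible (g₂.map ρ)) := ⟨hirr⟩
  let ev1 : LL f →+* AdjoinRoot (tk k (X - C θ₁)) := (pr hd1).comp (baseChange j (fK f))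
  let ev2 : LL f →+* AdjoinRoot (tk k (X - C θ₂)) := (pr hd2).comp (baseChange j (fK f))
  let ev3 : LL f →+* AdjoinRoot (tk k g₂) := (pr hd3).comp (baseChange j (fK f))
  obtain ⟨e1, s1, hs1⟩ := hA1.ex (ev1 z) ((map_ne_zero ev1).2 hz)
  obtain ⟨e2, s2, hs2⟩ := hA2.ex (ev2 z) ((map_ne_zero ev2).2 hz)
  obtain ⟨e3, s3, hs3⟩ := hA3.ex (ev3 z) ((map_ne_zero ev3).2 hz)
  obtain ⟨c1, hc1, hc1'⟩ := hB1.norm _ _ _ hs1
  obtain ⟨c2, hc2, hc2'⟩ := hB2.norm _ _ _ hs2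
  obtain ⟨c3, hc3, hc3'⟩ := hB3.norm _ _ _ hs3
  have hfin1 : FiniteDimensional (kp P) (AdjoinRoot ((X - C θ₁ : O[X]).map ρ)) :=
    ((hXm θ₁).map ρ).finite_adjoinRoot
  have hfin2 : FiniteDimensional (kp P) (AdjoinRoot ((X - C θ₂ : O[X]).map ρ)) :=
    ((hXm θ₂).map ρ).finite_adjoinRoot
  have hfin3 : FiniteDimensional (kp P) (AdjoinRoot (g₂.map ρ)) := (hg₂.map ρ).finite_adjoinRoot
  have hc10 : ρ c1 ≠ 0 := by rw [hc1]; exact Algebra.norm_ne_zero_iff.2 hs1.1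
  have hc20 : ρ c2 ≠ 0 := by rw [hc2]; exact Algebra.norm_ne_zero_iff.2 hs2.1
  have hc30 : ρ c3 ≠ 0 := by rw [hc3]; exact Algebra.norm_ne_zero_iff.2 hs3.1
  have hdg : g₂.natDegree = 2 * g := by
    rw [← hg₂.natDegree_map ρ, hg₂ρ, hT.pdeg]
  have hnorm : Even (e1 + e2 + e3 * (2 * g : ℕ)) := by
    refine (Pool.Agent.Helper54.HL.H94.sq_lemma (k := k) hπ (c := c1 * c2 * c3)
      (n := e1 + e2 + e3 * (2 * g : ℕ)) ?_ ?_).1
    · rw [← hker, map_mul, map_mul]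
      exact mul_ne_zero (mul_ne_zero hc10 hc20) hc30
    · obtain ⟨pz', hpz⟩ := AdjoinRoot.mk_surjective z
      have h11 : IsSquare (Algebra.norm k (baseChange j (fK f) z)) := by
        rw [← hpz, Pool.Agent.Helper54.HQ.Q3.bc_mk, ← h5 ℚ k j (fK f) pz' (hf.map _), hpz]
        exact hzN.map j
      have h12 := norm3_En3 h6 (k := k) ((hXm θ₁).map _) ((hXm θ₂).map _) (hg₂.map _) hprod
        hd1 hd2 hd3 (baseChange j (fK f) z)
      have h13 : Algebra.norm k (pr hd1 (baseChange j (fK f) z)) =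
          algebraMap O k π ^ (e1 * (X - C θ₁ : O[X]).natDegree) *
            algebraMap O k c1 := hc1'
      have h14 : Algebra.norm k (pr hd2 (baseChange j (fK f) z)) =
          algebraMap O k π ^ (e2 * (X - C θ₂ : O[X]).natDegree) *
            algebraMap O k c2 := hc2'
      have h15 : Algebra.norm k (pr hd3 (baseChange j (fK f) z)) =
          algebraMap O k π ^ (e3 * g₂.natDegree) *
            algebraMap O k c3 := hc3'
      rw [h12, h13, h14, h15, hdg, natDegree_X_sub_C, natDegree_X_sub_C] at h11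
      convert h11 using 1
      rw [map_mul, map_mul, zpow_add₀ (Pool.Agent.Helper54.HL.H94.am_ne hπ),
        zpow_add₀ (Pool.Agent.Helper54.HL.H94.am_ne hπ)]
      push_cast
      rw [mul_one, mul_one]
      ring
  have he12 : Even (e1 + e2) := by
    have h11 : Even (e3 * (2 * g : ℕ)) := ⟨e3 * g, by push_cast; ring⟩
    have h12 := hnorm.sub h11
    rwa [add_sub_cancel_right] at h12
  -- lifts
  have hredsurj : Function.Surjective (red P) := by
    intro x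
    obtain ⟨m, rfl⟩ := ZMod.intCast_surjective x
    exact ⟨m, rfl⟩
  obtain ⟨a0, ha0⟩ := hredsurj a
  obtain ⟨b0, hb0⟩ := hredsurj b
  have hva := h3 f hf P O k i j ρ hLD (X - C θ₁) (hXm θ₁) (hXirr θ₁)
    (by rw [hf₀, mul_assoc]; exact dvd_mul_right _ _) hd1 (X - C a0)
    (by rw [hmap, Polynomial.map_sub, map_X, map_C, ha0, hθ₁]) qa hT.oa
    (hT.ma _ (by rw [Polynomial.map_sub, map_X, map_C, ha0])) z e1 s1 hs1
  have hvb := h3 f hf P O k i j ρ hLD (X - C θ₂) (hXm θ₂) (hXirr θ₂)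
    (by rw [hf₀]; exact dvd_mul_of_dvd_left (dvd_mul_left _ _) _) hd2 (X - C b0)
    (by rw [hmap, Polynomial.map_sub, map_X, map_C, hb0, hθ₂]) qb hT.ob
    (hT.mb _ (by rw [Polynomial.map_sub, map_X, map_C, hb0])) z e2 s2 hs2
  have hiff : EvenAt qa z ↔ EvenAt qb z := by
    unfold EvenAt
    rw [hva, hvb]
    constructor
    · intro h
      have h11 := Pool.Agent.Helper54.HQ.Q3.even_of_isSquare_exp h
      apply Pool.Agent.Helper54.HQ.Q3.isSquare_exp
      rw [even_neg] at h11 ⊢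
      exact (Int.even_add.1 he12).1 h11
    · intro h
      have h11 := Pool.Agent.Helper54.HQ.Q3.even_of_isSquare_exp h
      apply Pool.Agent.Helper54.HQ.Q3.isSquare_exp
      rw [even_neg] at h11 ⊢
      exact (Int.even_add.1 he12).2 h11
  unfold om
  by_cases h : EvenAt qa z
  · rw [if_pos h, if_pos (hiff.1 h)]
  · rw [if_neg h, if_neg fun h' => h (hiff.2 h')]

theorem hEn3 (h1 : Pool.Agent.Helper54.HL.StRA) (h2 : Pool.Agent.Helper54.HL.StRB)
    (h3 : Pool.Agent.Helper54.HQ.StCV) (h4 : Pool.Agent.Helper54.HQ.StLD)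
    (h5 : Pool.Agent.Helper54.HL.StNB) (h6 : Pool.Agent.Helper54.HL.StNM) (h7 : StEfa) :
    StEn3 := by
  intro g hg f hf _ _ _ P h2F a b p qa qb q hT z hz hzN
  obtain ⟨i, ρ, hLD, hRL, -⟩ := h4 P
  have hev0 : ∀ c : kp P, p.eval c ≠ 0 := by
    intro c h0
    have h11 : p.natDegree = 1 := natDegree_eq_of_degree_eq_some
      (degree_eq_one_of_irreducible_of_root hT.pirr (x := c) h0)
    rw [hT.pdeg] at h11
    omega
  obtain ⟨θ₁, θ₂, g₂, hg₂, hθ₁, hθ₂, hf₀, hg₂ρ⟩ := h7 ℤ_[(P : ℕ)] (kp P) ρ hLD.surj hRL (f.map i)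
    a b p (hf.map i) hT.pm hT.hab (hev0 a) (hev0 b) (by rw [hLD.map_red, hT.fac])
  exact core_En3 h1 h2 h3 h5 h6 hf hLD hT hg₂ hθ₁ hθ₂ hf₀ hg₂ρ z hz hzN

end Pool.Agent.Helper54.EVL
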