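import Pool.Agent.Helper54.EVL.StL
import Pool.Agent.Helper54.HQ.Base

/-!
# EVL, module Enz: global normalisation
-/

set_option autoImplicit false

namespace Pool.Agent.Helper54.EVL

open Polynomial Finset IsDedekindDomain
open Pool.Agent.Helper54.HQ (Prm pz factPrm fK RR LL algRL th kp red Bf NearOne LocSq TwAt EvenAt om ep
  Over IsQ LD At2)

private theorem over_unique_Enz {f : ℤ[X]} [Fact (Irreducible (fK f))]
    [IsDedekindDomain (RR f)] [IsFractionRing (RR f) (LL f)] {P P' : Prm}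
    {v : HeightOneSpectrum (RR f)} (h : Over P v) (h' : Over P' v) : P = P' := by
  by_contra hne
  have hcop : IsCoprime (pz P) (pz P') := by
    rw [Int.isCoprime_iff_gcd_eq_one]
    have h1 : Nat.Coprime (P : ℕ) (P' : ℕ) :=
      (Nat.coprime_primes P.2 P'.2).2 fun h => hne (Subtype.ext h)
    simpa [pz] using h1
  obtain ⟨u, w, huw⟩ := hcop
  have h2 : Int.castRingHom (RR f) 1 ∈ v.asIdeal := by
    rw [← huw, map_add, map_mul, map_mul]
    exact v.asIdeal.add_mem (v.asIdeal.mul_mem_left _ h) (v.asIdeal.mul_mem_left _ h')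
  rw [map_one] at h2
  exact v.isPrime.ne_top ((Ideal.eq_top_iff_one _).2 h2)

private theorem val_one_Enz {f : ℤ[X]} [Fact (Irreducible (fK f))]
    [IsDedekindDomain (RR f)] [IsFractionRing (RR f) (LL f)] {P P' : Prm}
    {v : HeightOneSpectrum (RR f)} (h : Over P v) (hne : P' ≠ P) :
    v.valuation (LL f) ((pz P' : ℤ) : LL f) = 1 := by
  have h1 : ((pz P' : ℤ) : LL f) = algebraMap (RR f) (LL f) (Int.castRingHom (RR f) (pz P')) := by
    rw [HQ.algebraMap_castRingHom]
    rfl
  rw [h1, v.valuation_eq_one_iff_notMem]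
  intro h2
  exact hne (over_unique_Enz (P := P') (P' := P) h2 h)

theorem hEnz (h1 : Pool.Agent.Helper54.HQ.StOver) : StEnz := by
  classical
  intro f hm hirr hD hF E z hz hE
  have hov : ∀ v : HeightOneSpectrum (RR f), ∃ P : Prm, Over P v := (h1 f hm).2
  choose pr hpr using hov
  choose j hj using hE
  have hfin1 := HeightOneSpectrum.Support.finite (RR f) z
  have hfin2 := HeightOneSpectrum.Support.finite (RR f) z⁻¹
  let S : Finset Prm := (hfin1.toFinset ∪ hfin2.toFinset).image pr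
  have hz0 : ∀ v : HeightOneSpectrum (RR f), v.valuation (LL f) z ≠ 0 := fun v =>
    (Valuation.ne_zero_iff _).2 hz
  refine ⟨∏ P ∈ S, (P : ℕ) ^ j P, ?_, fun v hv => ?_⟩
  · exact Finset.prod_ne_zero_iff.2 fun P _ => pow_ne_zero _ P.2.ne_zero
  have hcast : ((∏ P ∈ S, (P : ℕ) ^ j P : ℕ) : LL f) = ∏ P ∈ S, ((pz P : ℤ) : LL f) ^ j P := by
    push_cast
    rfl
  rw [hcast]
  by_cases hS : pr v ∈ S
  · rw [← Finset.mul_prod_erase S _ hS]
    have h2 : v.valuation (LL f) (∏ P ∈ S.erase (pr v), ((pz P : ℤ) : LL f) ^ j P) = 1 := by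
      rw [map_prod]
      refine Finset.prod_eq_one fun P hP => ?_
      rw [map_pow, val_one_Enz (hpr v) (Finset.mem_erase.1 hP).1, one_pow]
    have h3 := hj (pr v) v (hpr v) hv
    unfold EvenAt at h3 ⊢
    rw [mul_right_comm, map_mul, h2, mul_one]
    exact h3
  · have hv1 : v ∉ hfin1.toFinset ∪ hfin2.toFinset := fun h => hS (Finset.mem_image_of_mem pr h)
    rw [Finset.mem_union, not_or, Set.Finite.mem_toFinset, Set.Finite.mem_toFinset] at hv1
    have h2 : v.valuation (LL f) z = 1 := by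
      have ha : ¬ (1 < v.valuation (LL f) z) := hv1.1
      have hb : ¬ (1 < v.valuation (LL f) z⁻¹) := hv1.2
      rw [map_inv₀, one_lt_inv₀ (zero_lt_iff.2 (hz0 v))] at hb
      exact le_antisymm (not_lt.1 ha) (not_lt.1 hb)
    have h3 : v.valuation (LL f) (∏ P ∈ S, ((pz P : ℤ) : LL f) ^ j P) = 1 := by
      rw [map_prod]
      refine Finset.prod_eq_one fun P hP => ?_
      rw [map_pow, val_one_Enz (hpr v) (fun h => hS (h ▸ hP)), one_pow]
    unfold EvenAt
    rw [map_mul, h2, h3, mul_one]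
    exact ⟨1, (mul_one 1).symm⟩

end Pool.Agent.Helper54.EVL
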