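import Pool.Agent.Helper54.EVL.StL

/-!
# EV module Eom: `om` is a homomorphism
-/

set_option autoImplicit false

namespace Pool.Agent.Helper54.EVL

open Polynomial Finset IsDedekindDomain
open Pool.Agent.Helper54.HQ (Prm pz factPrm fK RR LL algRL th kp red Bf NearOne LocSq TwAt EvenAt om ep
  Over IsQ LD At2)

theorem isSquare_exp_Eom (n : ℤ) : IsSquare (WithZero.exp n) ↔ Even n := by
  constructor
  · rintro ⟨r, hr⟩
    have hr0 : r ≠ 0 := by
      rintro rfl
      rw [mul_zero] at hr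
      exact WithZero.exp_ne_zero hr
    refine ⟨WithZero.log r, ?_⟩
    rw [← WithZero.exp_log hr0, ← WithZero.exp_add] at hr
    exact WithZero.exp_injective hr
  · rintro ⟨m, rfl⟩
    exact ⟨WithZero.exp m, WithZero.exp_add _ _⟩

theorem zmod2_Eom {a b c : ZMod 2} (h : c = 0 ↔ (a = 0 ↔ b = 0)) : c = a + b := by
  revert h
  revert a b c
  decide

theorem om_eq_zero_Eom {f : ℤ[X]} [Fact (Irreducible (fK f))] [IsDedekindDomain (RR f)]
    [IsFractionRing (RR f) (LL f)] (q : HeightOneSpectrum (RR f)) (z : LL f) :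
    om q z = 0 ↔ EvenAt q z := by
  unfold om
  by_cases h : EvenAt q z
  · rw [if_pos h]
    exact ⟨fun _ => h, fun _ => rfl⟩
  · rw [if_neg h]
    exact ⟨fun h1 => absurd h1 one_ne_zero, fun h1 => absurd h1 h⟩

theorem hEom : StEom := by
  intro f hf _ _ _ q z w hz hw
  have hz' : q.valuation (LL f) z ≠ 0 := (Valuation.ne_zero_iff _).2 hz
  have hw' : q.valuation (LL f) w ≠ 0 := (Valuation.ne_zero_iff _).2 hw
  refine zmod2_Eom ?_
  rw [om_eq_zero_Eom, om_eq_zero_Eom, om_eq_zero_Eom]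
  unfold EvenAt
  rw [map_mul, ← WithZero.exp_log hz', ← WithZero.exp_log hw', ← WithZero.exp_add,
    isSquare_exp_Eom, isSquare_exp_Eom, isSquare_exp_Eom, Int.even_add]

end Pool.Agent.Helper54.EVL
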