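import Pool.Agent.Helper54.EVL.StL
import Pool.Agent.Helper54.HQ.Base

/-!
# EV, module Eqp: the prime `q` contains `p(θ)` (two linear factors)
-/

set_option autoImplicit false

namespace Pool.Agent.Helper54.EVL

open Polynomial IsDedekindDomain
open Pool.Agent.Helper54.HQ (Prm pz factPrm fK RR LL algRL th kp red Bf NearOne LocSq TwAt EvenAt om ep
  Over IsQ LD At2 red_eq_zero red_surj of_eq_castRingHom)

private theorem lift_Eqp (P : Prm) {a b : ℤ[X]}
    (h : a.map (red P) = b.map (red P)) : ∃ c, a = b + C (pz P) * c := by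
  have h1 : C (pz P) ∣ a - b := by
    rw [Polynomial.C_dvd_iff_dvd_coeff]
    intro i
    have h2 := congrArg (fun r => r.coeff i) h
    simp only [coeff_map] at h2
    rw [coeff_sub, ← red_eq_zero, map_sub, h2, sub_self]
  obtain ⟨c, hc⟩ := h1
  exact ⟨c, by rw [← hc]; ring⟩

private theorem surj_Eqp (P : Prm) (r : (kp P)[X]) : ∃ s : ℤ[X], s.map (red P) = r :=
  Polynomial.map_surjective (red P) (red_surj P) r

private theorem over_Eqp {f : ℤ[X]} [IsDedekindDomain (RR f)] {P : Prm}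
    {q : HeightOneSpectrum (RR f)} (hq : Over P q) (c : ℤ[X]) :
    AdjoinRoot.mk f (C (pz P) * c) ∈ q.asIdeal := by
  rw [map_mul, AdjoinRoot.mk_C, of_eq_castRingHom]
  exact Ideal.mul_mem_right _ _ hq

private theorem mem_congr_Eqp {f : ℤ[X]} [IsDedekindDomain (RR f)] {P : Prm}
    {q : HeightOneSpectrum (RR f)} (hq : Over P q) {a b : ℤ[X]}
    (h : a.map (red P) = b.map (red P)) (hb : AdjoinRoot.mk f b ∈ q.asIdeal) :
    AdjoinRoot.mk f a ∈ q.asIdeal := by
  obtain ⟨c, rfl⟩ := lift_Eqp P h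
  rw [map_add]
  exact Ideal.add_mem _ hb (over_Eqp hq c)

private theorem lin_Eqp {g : ℕ} (hg : 1 ≤ g) {f : ℤ[X]} [IsDedekindDomain (RR f)] {P : Prm}
    {q : HeightOneSpectrum (RR f)} (hov : Over P q) {p₁ : ℤ[X]}
    (hp1i : Irreducible (p₁.map (red P))) (hp1d : (p₁.map (red P)).natDegree = 2 * g)
    (hp1q : AdjoinRoot.mk f p₁ ∈ q.asIdeal) (a : kp P) (a₀ : ℤ) (ha₀ : red P a₀ = a)
    (h2 : AdjoinRoot.mk f (X - C a₀) ∈ q.asIdeal) : False := by
  have h3 : ¬ (X - C a) ∣ p₁.map (red P) := by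
    rintro ⟨c, hc⟩
    have h4 : IsUnit c := (hp1i.isUnit_or_isUnit hc).resolve_left (not_isUnit_X_sub_C a)
    have h5 := hp1d
    rw [hc, natDegree_mul (X_sub_C_ne_zero a) h4.ne_zero, natDegree_X_sub_C,
      natDegree_eq_zero_of_isUnit h4] at h5
    omega
  have h4 : IsCoprime (X - C a) (p₁.map (red P)) :=
    ((irreducible_X_sub_C a).isCoprime_or_dvd _).resolve_right h3
  obtain ⟨u, w, huw⟩ := h4
  obtain ⟨u₀, rfl⟩ := surj_Eqp P u
  obtain ⟨w₀, rfl⟩ := surj_Eqp P w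
  have h5 : (1 : ℤ[X]).map (red P) = (u₀ * (X - C a₀) + w₀ * p₁).map (red P) := by
    rw [Polynomial.map_one, Polynomial.map_add, Polynomial.map_mul, Polynomial.map_mul,
      Polynomial.map_sub, map_X, map_C, ha₀, huw]
  have h6 : AdjoinRoot.mk f (1 : ℤ[X]) ∈ q.asIdeal := by
    refine mem_congr_Eqp hov h5 ?_
    rw [map_add, map_mul, map_mul]
    exact Ideal.add_mem _ (Ideal.mul_mem_left _ _ h2) (Ideal.mul_mem_left _ _ hp1q)
  rw [map_one] at h6
  exact q.isPrime.ne_top ((Ideal.eq_top_iff_one _).2 h6)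

theorem hEqp : StEqp := by
  intro g hg f hf _ _ _ P a b p hfac hab hpm hpi hpd q hq p₀ hp₀
  obtain ⟨hov, p₁, hp1m, hp1i, hp1d, hp1q⟩ := hq
  obtain ⟨a₀, ha₀⟩ := red_surj P a
  obtain ⟨b₀, hb₀⟩ := red_surj P b
  have h1 : AdjoinRoot.mk f ((X - C a₀) * (X - C b₀) * p₀) ∈ q.asIdeal := by
    refine mem_congr_Eqp hov (b := f) ?_ ?_
    · rw [Polynomial.map_mul, Polynomial.map_mul, Polynomial.map_sub, Polynomial.map_sub, map_X,
        map_C, map_C, hp₀, hfac, ha₀, hb₀]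
    · rw [AdjoinRoot.mk_self]; exact Ideal.zero_mem _
  rw [map_mul, map_mul] at h1
  rcases q.isPrime.mem_or_mem h1 with h2 | h2
  · rcases q.isPrime.mem_or_mem h2 with h3 | h3
    · exact (lin_Eqp hg hov hp1i hp1d hp1q a a₀ ha₀ h3).elim
    · exact (lin_Eqp hg hov hp1i hp1d hp1q b b₀ hb₀ h3).elim
  · exact h2

end Pool.Agent.Helper54.EVL
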