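import Pool.Agent.Helper54.EVL.StL
import Pool.Agent.Helper54.HQ.M_Over

/-!
# EV, local part, module Etri: the primes above a place of `T`
-/

set_option autoImplicit false

namespace Pool.Agent.Helper54.EVL

open Polynomial Finset IsDedekindDomain
open Pool.Agent.Helper54
open Pool.Agent.Helper54.HQ (Prm pz factPrm fK RR LL algRL th kp red Bf NearOne LocSq TwAt EvenAt om ep
  Over IsQ LD At2 red_surj red_eq_zero pz_ne_zero of_eq_castRingHom inj_Over castRingHom_Over
  mk_map_Over)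
open Pool.Agent.Helper3.EV (Jx TType AType IType)

private theorem lift_Etri (P : Prm) {a b : ℤ[X]}
    (h : a.map (red P) = b.map (red P)) : ∃ c, a = b + C (pz P) * c := by
  have h1 : C (pz P) ∣ a - b := by
    rw [Polynomial.C_dvd_iff_dvd_coeff]
    intro i
    have h2 := congrArg (fun r => r.coeff i) h
    simp only [coeff_map] at h2
    rw [coeff_sub, ← red_eq_zero, map_sub, h2, sub_self]
  obtain ⟨c, hc⟩ := h1
  exact ⟨c, by rw [← hc]; ring⟩

private theorem surj_Etri (P : Prm) (r : (kp P)[X]) : ∃ s : ℤ[X], s.map (red P) = r :=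
  Polynomial.map_surjective (red P) (red_surj P) r

private theorem mem_congr_Etri {f : ℤ[X]} [IsDedekindDomain (RR f)] {P : Prm}
    {q : HeightOneSpectrum (RR f)} (hq : Over P q) {a b : ℤ[X]}
    (h : a.map (red P) = b.map (red P)) (hb : AdjoinRoot.mk f b ∈ q.asIdeal) :
    AdjoinRoot.mk f a ∈ q.asIdeal := by
  obtain ⟨c, rfl⟩ := lift_Etri P h
  rw [map_add]
  refine Ideal.add_mem _ hb ?_
  rw [map_mul, AdjoinRoot.mk_C, of_eq_castRingHom]
  exact Ideal.mul_mem_right _ _ hq

/-- existence of a prime over `P` containing the lifts of an irreducible factor -/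
private theorem ex_Etri {f : ℤ[X]} (hi : Irreducible (fK f)) [IsDedekindDomain (RR f)] (P : Prm)
    (p : (kp P)[X]) (hpi : Irreducible p) (hd : p ∣ f.map (red P)) :
    ∃ q : HeightOneSpectrum (RR f), Over P q ∧
      ∀ p₀ : ℤ[X], p₀.map (red P) = p → AdjoinRoot.mk f p₀ ∈ q.asIdeal := by
  have hinj := inj_Over hi
  have hfact2 : Fact (Irreducible p) := ⟨hpi⟩
  let φ : RR f →+* AdjoinRoot p := AdjoinRoot.map (red P) f p hd
  have hφP : φ (Int.castRingHom (RR f) (pz P)) = 0 := by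
    rw [castRingHom_Over]
    show AdjoinRoot.map (red P) f p hd (AdjoinRoot.of f (pz P)) = 0
    rw [AdjoinRoot.map_of, red_eq_zero.2 dvd_rfl, map_zero]
  have hne : RingHom.ker φ ≠ ⊥ := by
    intro h
    have h1 : Int.castRingHom (RR f) (pz P) ∈ RingHom.ker φ := (RingHom.mem_ker).2 hφP
    rw [h, Ideal.mem_bot] at h1
    exact pz_ne_zero P (hinj (h1.trans (map_zero _).symm))
  refine ⟨⟨RingHom.ker φ, RingHom.ker_isPrime φ, hne⟩, ?_, ?_⟩
  · exact (RingHom.mem_ker).2 hφP
  · intro p₀ hp₀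
    show AdjoinRoot.mk f p₀ ∈ RingHom.ker φ
    rw [RingHom.mem_ker]
    show AdjoinRoot.map (red P) f p hd (AdjoinRoot.mk f p₀) = 0
    rw [mk_map_Over, hp₀, AdjoinRoot.mk_self]

/-- a prime over `P` cannot contain the lifts of two coprime polynomials -/
private theorem both_Etri {f : ℤ[X]} [IsDedekindDomain (RR f)] {P : Prm}
    {q : HeightOneSpectrum (RR f)} (hq : Over P q) {r s : ℤ[X]}
    (h : IsCoprime (r.map (red P)) (s.map (red P))) (hr : AdjoinRoot.mk f r ∈ q.asIdeal)
    (hs : AdjoinRoot.mk f s ∈ q.asIdeal) : False := by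
  obtain ⟨u, w, huw⟩ := h
  obtain ⟨u₀, rfl⟩ := surj_Etri P u
  obtain ⟨w₀, rfl⟩ := surj_Etri P w
  have h5 : (1 : ℤ[X]).map (red P) = (u₀ * r + w₀ * s).map (red P) := by
    rw [Polynomial.map_one, Polynomial.map_add, Polynomial.map_mul, Polynomial.map_mul, huw]
  have h6 : AdjoinRoot.mk f (1 : ℤ[X]) ∈ q.asIdeal := by
    refine mem_congr_Etri hq h5 ?_
    rw [map_add, map_mul, map_mul]
    exact Ideal.add_mem _ (Ideal.mul_mem_left _ _ hr) (Ideal.mul_mem_left _ _ hs)
  rw [map_one] at h6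
  exact q.isPrime.ne_top ((Ideal.eq_top_iff_one _).2 h6)

private theorem cop_Etri {k : Type} [Field k] (a : k) (p : k[X]) (hpi : Irreducible p)
    (hpd : 2 ≤ p.natDegree) : IsCoprime (X - C a) p := by
  refine ((irreducible_X_sub_C a).isCoprime_or_dvd _).resolve_right ?_
  rintro ⟨c, hc⟩
  have h4 : IsUnit c := (hpi.isUnit_or_isUnit hc).resolve_left (not_isUnit_X_sub_C a)
  rw [hc, natDegree_mul (X_sub_C_ne_zero a) h4.ne_zero, natDegree_X_sub_C,
    natDegree_eq_zero_of_isUnit h4] at hpd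
  omega

theorem hEtri (h1 : StEqp) (h2 : HQ.StUQ) : StEtri := by
  intro g hg f hf hfact hD hF P hP
  have hi : Irreducible (fK f) := hfact.out
  obtain ⟨a, b, p, hab, hpm, hpi, hpd, hfac⟩ := hP
  obtain ⟨a₀, ha₀⟩ := red_surj P a
  obtain ⟨b₀, hb₀⟩ := red_surj P b
  obtain ⟨p₀, hp₀⟩ := surj_Etri P p
  have hXa : (X - C a₀ : ℤ[X]).map (red P) = X - C a := by
    rw [Polynomial.map_sub, map_X, map_C, ha₀]
  have hXb : (X - C b₀ : ℤ[X]).map (red P) = X - C b := by
    rw [Polynomial.map_sub, map_X, map_C, hb₀]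
  have da : (X - C a) ∣ f.map (red P) := by
    rw [hfac, mul_assoc]; exact dvd_mul_right _ _
  have db : (X - C b) ∣ f.map (red P) := by
    rw [hfac, mul_comm (X - C a), mul_assoc]; exact dvd_mul_right _ _
  have dp : p ∣ f.map (red P) := by
    rw [hfac]; exact dvd_mul_left _ _
  constructor
  · obtain ⟨q, hq, hqm⟩ := ex_Etri hi P p hpi dp
    refine ⟨q, hq, p₀, ?_, ?_, ?_, hqm p₀ hp₀⟩
    · rw [hp₀]; exact hpm
    · rw [hp₀]; exact hpi
    · rw [hp₀]; exact hpd
  · intro q hq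
    obtain ⟨qa, hoa, hma⟩ := ex_Etri hi P (X - C a) (irreducible_X_sub_C a) da
    obtain ⟨qb, hob, hmb⟩ := ex_Etri hi P (X - C b) (irreducible_X_sub_C b) db
    have hmq : ∀ p₁ : ℤ[X], p₁.map (red P) = p → AdjoinRoot.mk f p₁ ∈ q.asIdeal :=
      fun p₁ hp₁ => h1 g hg f hf P a b p hfac hab hpm hpi hpd q hq p₁ hp₁
    have hoq : Over P q := hq.1
    have cab : IsCoprime ((X - C a₀ : ℤ[X]).map (red P)) ((X - C b₀ : ℤ[X]).map (red P)) := by
      rw [hXa, hXb]
      exact isCoprime_X_sub_C_of_isUnit_sub (sub_ne_zero.2 hab).isUnit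
    have cap : IsCoprime ((X - C a₀ : ℤ[X]).map (red P)) (p₀.map (red P)) := by
      rw [hXa, hp₀]
      exact cop_Etri a p hpi (by omega)
    have cbp : IsCoprime ((X - C b₀ : ℤ[X]).map (red P)) (p₀.map (red P)) := by
      rw [hXb, hp₀]
      exact cop_Etri b p hpi (by omega)
    refine ⟨a, b, p, qa, qb, hfac, hab, hpm, hpi, hpd, hq, hoa, hob, hma, hmb, hmq, ?_, ?_, ?_, ?_⟩
    · intro v hv
      have hprod : AdjoinRoot.mk f ((X - C a₀) * (X - C b₀) * p₀) ∈ v.asIdeal := by
        refine mem_congr_Etri hv (b := f) ?_ ?_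
        · rw [Polynomial.map_mul, Polynomial.map_mul, hXa, hXb, hp₀, hfac]
        · rw [AdjoinRoot.mk_self]; exact Ideal.zero_mem _
      rw [map_mul, map_mul] at hprod
      rcases v.isPrime.mem_or_mem hprod with h | h
      · rcases v.isPrime.mem_or_mem h with h | h
        · left
          exact h2 f hf P v qa hv hoa (X - C a₀) (X - C a₀)
            (by rw [hXa]; exact irreducible_X_sub_C a) rfl h (hma _ hXa)
        · right; left
          exact h2 f hf P v qb hv hob (X - C b₀) (X - C b₀)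
            (by rw [hXb]; exact irreducible_X_sub_C b) rfl h (hmb _ hXb)
      · right; right
        exact h2 f hf P v q hv hoq p₀ p₀ (by rw [hp₀]; exact hpi) rfl h (hmq _ hp₀)
    · intro h
      exact both_Etri hoa cab (hma _ hXa) (h ▸ hmb _ hXb)
    · intro h
      exact both_Etri hoa cap (hma _ hXa) (h ▸ hmq _ hp₀)
    · intro h
      exact both_Etri hob cbp (hmb _ hXb) (h ▸ hmq _ hp₀)

end Pool.Agent.Helper54.EVL
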