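import Pool.Agent.Helper54.EVL.StI

/-!
# EV module F2
-/

set_option autoImplicit false

namespace Pool.Agent.Helper54.EVL

open Polynomial
open Pool.Agent.Helper54.HQ (fK LL)

theorem hF2 (h1 : StEco) (h2 : HQ.StTwo) : StF2 := by
  intro f D hf _ hD z hz
  obtain ⟨c, u, hc, hu, hT⟩ := h1 f hf D 2 z hz
  exact ⟨c, u, hc, hu, h2 f D hf hD u hT⟩

end Pool.Agent.Helper54.EVL
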