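import Pool.Agent.Helper54.EVL.StI
import Pool.Agent.Helper3.EV.M_Cg

/-! # EV, module Fcg: discriminant (the same statement as `Pool.Agent.Helper3.EV.StCg`) -/

set_option autoImplicit false

namespace Pool.Agent.Helper54.EVL

theorem hFcg : StFcg := Pool.Agent.Helper3.EV.hCg

end Pool.Agent.Helper54.EVL
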