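import Pool.Agent.Helper54.EVL.StI
import Pool.Agent.Helper54.HQ.Base

/-!
# EV, module Fg: even valuations, unit norms
-/

set_option autoImplicit false

namespace Pool.Agent.Helper54.EVL

open Polynomial Finset Filter Topology Matrix IsDedekindDomain
open Pool.Agent.Helper3.HY (co tau baseChange descentGroup IsPointValue IsTwPoint twGroup co_mk)
open Pool.Agent.Helper54.HL (tk IrrInt IrrBig Nr Rep RepA RepB pr pr_mk IsTwIrr RootLift)
open Pool.Agent.Helper54.HQ (Prm pz factPrm fK RR LL algRL th kp red Bf NearOne LocSq TwAt EvenAt om ep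
  Over IsQ LD At2 IsSym hasse IsOrth lg ur v2 hs hs2 hsR InR co_algebraMap algebraMap_root Bf_apply
  natDegree_fK)
open Pool.Agent.Helper3.EV (Jx TType AType IType Reg Good)

private lemma bc_mk_Fg {K K' : Type} [Field K] [Field K'] (j : K →+* K') (h p : K[X]) :
    baseChange j h (AdjoinRoot.mk h p) = AdjoinRoot.mk (h.map j) (p.map j) := by
  induction p using Polynomial.induction_on' with
  | add p q hp hq => rw [map_add, map_add, hp, hq, Polynomial.map_add, map_add]
  | monomial n a =>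
    rw [← C_mul_X_pow_eq_monomial, map_mul, map_pow, AdjoinRoot.mk_X, AdjoinRoot.mk_C, map_mul,
      map_pow, Polynomial.map_mul, Polynomial.map_pow, map_X, map_C, map_mul,
      map_pow, AdjoinRoot.mk_X, AdjoinRoot.mk_C]
    unfold baseChange
    rw [AdjoinRoot.map_root, AdjoinRoot.map_of]

private lemma tau_bc_Fg {K K' : Type} [Field K] [Field K'] (i : K →+* K') {h : K[X]}
    (hm : h.Monic) (z : AdjoinRoot h) :
    tau (hm.map i) (baseChange i h z) = i (tau hm z) := by
  obtain ⟨p, rfl⟩ := AdjoinRoot.mk_surjective z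
  rw [bc_mk_Fg]
  unfold tau
  rw [co_mk, co_mk, natDegree_map, ← map_modByMonic _ hm, coeff_map]

private lemma bc_root_Fg {K K' : Type} [Field K] [Field K'] (i : K →+* K') (h : K[X]) :
    baseChange i h (AdjoinRoot.root h) = AdjoinRoot.root (h.map i) := by
  unfold baseChange
  rw [AdjoinRoot.map_root]

/-- The trace form is integral on `R`. -/
private lemma tau_int_Fg {f : ℤ[X]} (hm : f.Monic) {z : LL f} (hz : InR z) :
    ∃ a : ℤ, tau (hm.map (Int.castRingHom ℚ)) z = a := by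
  obtain ⟨r, rfl⟩ := hz
  refine ⟨co hm ((fK f).natDegree - 1) r, ?_⟩
  unfold tau
  rw [co_algebraMap, eq_intCast]

private lemma InR_mul_Fg {f : ℤ[X]} {z w : LL f} (hz : InR z) (hw : InR w) : InR (z * w) := by
  obtain ⟨r, rfl⟩ := hz
  obtain ⟨s, rfl⟩ := hw
  exact ⟨r * s, by rw [map_mul]⟩

private lemma InR_th_Fg {f : ℤ[X]} (n : ℕ) : InR (th f ^ n) :=
  ⟨AdjoinRoot.root f ^ n, by rw [map_pow, algebraMap_root]⟩

/-- Rational numbers with denominator prime to `P`. -/
private lemma norm_le_Fg (P : Prm) {r : ℚ} {c a : ℤ} (hc : ¬ pz P ∣ c) (h : (c : ℚ) * r = a) :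
    ‖(r : ℚ_[(P : ℕ)])‖ ≤ 1 := by
  have h1 : ‖((c : ℤ) : ℚ_[(P : ℕ)])‖ = 1 := by
    have h2 := Padic.norm_int_le_one (p := (P : ℕ)) c
    have h3 : ¬ ‖((c : ℤ) : ℚ_[(P : ℕ)])‖ < 1 := by
      rw [Padic.norm_intCast_lt_one_iff]
      exact hc
    exact le_antisymm h2 (not_lt.1 h3)
  have h4 : ‖((c : ℤ) : ℚ_[(P : ℕ)]) * (r : ℚ_[(P : ℕ)])‖ ≤ 1 := by
    have e : ((c : ℤ) : ℚ_[(P : ℕ)]) * (r : ℚ_[(P : ℕ)]) = ((a : ℤ) : ℚ_[(P : ℕ)]) := by
      have := congrArg (fun t : ℚ => (t : ℚ_[(P : ℕ)])) h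
      push_cast at this
      exact this
    rw [e]
    exact Padic.norm_int_le_one a
  rwa [norm_mul, h1, one_mul] at h4

/-- The Gram matrix of `x` in the power basis is integral at `P`. -/
private lemma gram_Fg {f : ℤ[X]} (hm : f.Monic) (P : Prm) {x : LL f} {c : ℤ} (hc : ¬ pz P ∣ c)
    (hx : InR ((c : LL f) * x)) (i j : ℕ) :
    ‖((tau (hm.map (Int.castRingHom ℚ)) (x * th f ^ i * th f ^ j) : ℚ) : ℚ_[(P : ℕ)])‖ ≤ 1 := by
  obtain ⟨a, ha⟩ := tau_int_Fg hm (InR_mul_Fg (InR_mul_Fg hx (InR_th_Fg i)) (InR_th_Fg j))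
  refine norm_le_Fg P (a := a) hc ?_
  rw [← ha]
  have e : (c : LL f) * x * th f ^ i * th f ^ j = (c : ℚ) • (x * th f ^ i * th f ^ j) := by
    rw [Algebra.smul_def, map_intCast]; ring
  rw [e, map_smul, smul_eq_mul]

/-- Gram determinants of inverse elements. -/
private lemma det_Fg (h3 : StFcg) {g : ℕ} {f : ℤ[X]} (hm : f.Monic) (hdeg : f.natDegree = 2 * g + 2)
    {x w : LL f} (hxw : x * w = 1) :
    (Matrix.of fun i k : Jx g => tau (hm.map (Int.castRingHom ℚ))
      (x * th f ^ (i : ℕ) * th f ^ (k : ℕ))).det *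
    (Matrix.of fun i k : Jx g => tau (hm.map (Int.castRingHom ℚ))
      (w * th f ^ (i : ℕ) * th f ^ (k : ℕ))).det = 1 := by
  obtain ⟨b, hb, hdet⟩ := h3 g f hm hdeg x
  obtain ⟨b', hb', hdet'⟩ := h3 g f hm hdeg w
  have e1 : (Matrix.of fun i k : Jx g => tau (hm.map (Int.castRingHom ℚ))
      (x * th f ^ (i : ℕ) * th f ^ (k : ℕ))) = Matrix.of fun i j => Bf hm x (b i) (b j) := by
    ext i k
    simp only [Matrix.of_apply, Bf_apply, hb]
  have e2 : (Matrix.of fun i k : Jx g => tau (hm.map (Int.castRingHom ℚ))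
      (w * th f ^ (i : ℕ) * th f ^ (k : ℕ))) = Matrix.of fun i j => Bf hm w (b' i) (b' j) := by
    ext i k
    simp only [Matrix.of_apply, Bf_apply, hb']
  rw [e1, e2, hdet, hdet']
  have e : (-1) ^ (g + 1) * Algebra.norm ℚ x * ((-1) ^ (g + 1) * Algebra.norm ℚ w) =
      ((-1) ^ (g + 1) * (-1) ^ (g + 1)) * Algebra.norm ℚ (x * w) := by rw [map_mul]; ring
  rw [e, hxw, map_one, ← mul_pow]
  norm_num

theorem hFg (_h1 : Pool.Agent.Helper54.HQ.StLD) (h1 : Pool.Agent.Helper54.HQ.StHg0)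
    (h2 : Pool.Agent.Helper54.HQ.StHg1) (h3 : StFcg) : StFg := by
  intro g hg f hm hdeg _ _ _ P z hP hz hev
  obtain ⟨y, w, c, c', hy, hzw, hc, hc', hI, hI'⟩ := h2 f hm P z hz hev
  set j := algebraMap ℚ ℚ_[(P : ℕ)] with hj
  -- Gram matrices over `ℤ_[P]`
  set x := z * y ^ 2 with hx
  have hG := gram_Fg hm P hc hI
  have hG' := gram_Fg hm P hc' hI'
  let M : Matrix (Jx g) (Jx g) ℤ_[(P : ℕ)] := Matrix.of fun i k => ⟨_, hG (i : ℕ) (k : ℕ)⟩
  let M' : Matrix (Jx g) (Jx g) ℤ_[(P : ℕ)] := Matrix.of fun i k => ⟨_, hG' (i : ℕ) (k : ℕ)⟩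
  let ι : ℤ_[(P : ℕ)] →+* ℚ_[(P : ℕ)] := PadicInt.Coe.ringHom
  have hMdet : ι M.det = j (Matrix.of fun i k : Jx g => tau (hm.map (Int.castRingHom ℚ))
      (x * th f ^ (i : ℕ) * th f ^ (k : ℕ))).det := by
    rw [RingHom.map_det, RingHom.map_det]
    rfl
  have hMdet' : ι M'.det = j (Matrix.of fun i k : Jx g => tau (hm.map (Int.castRingHom ℚ))
      (w * th f ^ (i : ℕ) * th f ^ (k : ℕ))).det := by
    rw [RingHom.map_det, RingHom.map_det]
    rfl
  have hunit : IsUnit M.det := by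
    refine IsUnit.of_mul_eq_one M'.det ?_
    have hinj : Function.Injective ι := Subtype.coe_injective
    apply hinj
    rw [map_mul, hMdet, hMdet', ← map_mul, map_one, det_Fg h3 hm hdeg hzw, map_one]
  have hsymm : M.IsSymm := by
    ext i k
    have e : x * th f ^ (k : ℕ) * th f ^ (i : ℕ) = x * th f ^ (i : ℕ) * th f ^ (k : ℕ) := by ring
    apply Subtype.ext
    change j (tau (hm.map (Int.castRingHom ℚ)) (x * th f ^ (k : ℕ) * th f ^ (i : ℕ))) =
      j (tau (hm.map (Int.castRingHom ℚ)) (x * th f ^ (i : ℕ) * th f ^ (k : ℕ)))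
    rw [e]
  have h2u : IsUnit (2 : ℤ_[(P : ℕ)]) := by
    rw [PadicInt.isUnit_iff]
    have h4 : ¬ ‖((2 : ℤ) : ℤ_[(P : ℕ)])‖ < 1 := by
      rw [PadicInt.norm_int_lt_one_iff_dvd]
      intro h5
      have h6 : (P : ℕ) ∣ 2 := by exact_mod_cast h5
      exact hP ((Nat.prime_dvd_prime_iff_eq P.2 Nat.prime_two).1 h6)
    have h7 := PadicInt.norm_le_one ((2 : ℤ) : ℤ_[(P : ℕ)])
    have h8 := le_antisymm h7 (not_lt.1 h4)
    simpa using h8
  obtain ⟨Q, a, hQ, ha, hdiag⟩ := h1 ℤ_[(P : ℕ)] h2u (2 * g + 2) M hsymm hunit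
  set h := (fK f).map j with hh
  have hmh : h.Monic := (hm.map (Int.castRingHom ℚ)).map j
  have hdh : h.natDegree = 2 * g + 2 := by
    rw [hh, natDegree_map, natDegree_fK hm, hdeg]
  let v : Jx g → AdjoinRoot h := fun k => ∑ i : Jx g, ι (Q i k) •
    (baseChange j (fK f) y * AdjoinRoot.root h ^ (i : ℕ))
  have hform : ∀ k l, tau hmh (baseChange j (fK f) z * v k * v l) =
      if k = l then ι (a k) else 0 := by
    intro k l
    have e1 : tau hmh (baseChange j (fK f) z * v k * v l) =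
        ∑ i : Jx g, ∑ m : Jx g, ι (Q i k) * ι (Q m l) * ι (M i m) := by
      have e2 : baseChange j (fK f) z * v k * v l = ∑ i : Jx g, ∑ m : Jx g,
          (ι (Q i k) * ι (Q m l)) • baseChange j (fK f) (x * th f ^ (i : ℕ) * th f ^ (m : ℕ)) := by
        simp only [v]
        rw [mul_assoc, Finset.sum_mul_sum, Finset.mul_sum]
        refine Finset.sum_congr rfl fun i _ => ?_
        rw [Finset.mul_sum]
        refine Finset.sum_congr rfl fun m _ => ?_
        rw [hx, map_mul, map_mul, map_mul, map_pow, map_pow, map_pow, bc_root_Fg, smul_mul_smul_comm,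
          mul_smul_comm]
        congr 1
        ring
      rw [e2, map_sum]
      refine Finset.sum_congr rfl fun i _ => ?_
      rw [map_sum]
      refine Finset.sum_congr rfl fun m _ => ?_
      rw [map_smul, smul_eq_mul]
      congr 1
      exact tau_bc_Fg j (hm.map (Int.castRingHom ℚ)) _
    have e3 : (Qᵀ * M * Q) k l = ∑ i : Jx g, ∑ m : Jx g, Q i k * Q m l * M i m := by
      rw [Matrix.mul_apply]
      simp only [Matrix.mul_apply, Matrix.transpose_apply, Finset.sum_mul]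
      rw [Finset.sum_comm]
      refine Finset.sum_congr rfl fun i _ => Finset.sum_congr rfl fun m _ => ?_
      ring
    rw [e1]
    have e4 := congrArg ι e3
    rw [hdiag, map_sum] at e4
    simp only [map_sum, map_mul] at e4
    rw [← e4, Matrix.diagonal_apply]
    split_ifs <;> simp
  have hane : ∀ k, ι (a k) ≠ 0 := by
    intro k h0
    have := (ha k).map ι
    rw [h0] at this
    exact not_isUnit_zero this
  have hli : LinearIndependent ℚ_[(P : ℕ)] v := by
    rw [Fintype.linearIndependent_iff]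
    intro d hd k
    have key : ∀ V : AdjoinRoot h, baseChange j (fK f) z * (∑ i, d i • v i) * V =
        ∑ i, d i • (baseChange j (fK f) z * v i * V) := by
      intro V
      rw [Finset.mul_sum, Finset.sum_mul]
      refine Finset.sum_congr rfl fun i _ => ?_
      rw [mul_smul_comm, smul_mul_assoc]
    have e1 : tau hmh (baseChange j (fK f) z * (∑ i, d i • v i) * v k) = d k * ι (a k) := by
      rw [key, map_sum, Finset.sum_eq_single k]
      · rw [map_smul, hform, if_pos rfl, smul_eq_mul]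
      · intro i _ hik
        rw [map_smul, hform, if_neg hik, smul_zero]
      · intro hk; exact absurd (Finset.mem_univ k) hk
    rw [hd, mul_zero, zero_mul, map_zero] at e1
    exact (mul_eq_zero.1 e1.symm).resolve_right (hane k)
  have hfin : Fintype.card (Jx g) = Module.finrank ℚ_[(P : ℕ)] (AdjoinRoot h) := by
    rw [(AdjoinRoot.powerBasis' hmh).finrank, AdjoinRoot.powerBasis'_dim, hdh]
    simp [Jx]
  have hne : Nonempty (Jx g) := ⟨0⟩
  let e := basisOfLinearIndependentOfCardEqFinrank hli hfin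
  have he : ∀ k, e k = v k := fun k => by
    simp [e]
  refine ⟨e, fun k => ι (a k), ⟨?_, ?_, hane⟩, ?_⟩
  · intro k l hkl
    rw [he, he]
    exact (hform k l).trans (if_neg hkl)
  · intro k
    rw [he]
    exact (hform k k).trans (if_pos rfl)
  · intro k
    exact PadicInt.isUnit_iff.1 (ha k)

end Pool.Agent.Helper54.EVL
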