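import Pool.Agent.Helper54.EVL.StI

/-!
# EV module Fh3: the Hasse invariant of `p ⟨u_i⟩ ⊕ ⟨u, u'⟩`
-/


set_option autoImplicit false

namespace Pool.Agent.Helper54.EVL

open Pool.Agent.Helper3.EV (Jx)
open Pool.Agent.Helper54.HQ (lg ur v2 hs hasse)

namespace Fh3

private lemma two_Fh3 : (2 : ZMod 2) = 0 := rfl

private lemma sum_pairs (n : ℕ) (F : ℕ → ℕ → ZMod 2) :
    (∑ p : Fin n × Fin n, if p.1 < p.2 then F p.1 p.2 else 0) =
      ∑ j ∈ Finset.range n, ∑ i ∈ Finset.range j, F i j := by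
  rw [Fintype.sum_prod_type_right]
  have h1 : ∀ j : Fin n, (∑ i : Fin n, if (i, j).1 < (i, j).2 then F (i, j).1 (i, j).2 else 0) =
      (fun j : ℕ => ∑ i ∈ Finset.range n, if i < j then F i j else 0) (j : ℕ) := by
    intro j
    exact Fin.sum_univ_eq_sum_range (fun i : ℕ => if i < (j : ℕ) then F i j else 0) n
  rw [Finset.sum_congr rfl fun j _ => h1 j, Fin.sum_univ_eq_sum_range
    (fun j : ℕ => ∑ i ∈ Finset.range n, if i < j then F i j else 0) n]
  refine Finset.sum_congr rfl fun j hj => ?_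
  rw [← Finset.sum_filter]
  refine Finset.sum_congr ?_ fun _ _ => rfl
  ext i
  rw [Finset.mem_range] at hj
  rw [Finset.mem_filter, Finset.mem_range, Finset.mem_range]
  omega

private lemma sum_two (lam : ZMod 2) (l : ℕ → ZMod 2) (g : ℕ) :
    ∑ j ∈ Finset.range (2 * g), ∑ i ∈ Finset.range j, (lam + l i + l j) =
      g * lam + ∑ i ∈ Finset.range (2 * g), l i := by
  induction g with
  | zero => simp
  | succ g ih =>
    have e : 2 * (g + 1) = 2 * g + 1 + 1 := by ring
    rw [e, Finset.sum_range_succ, Finset.sum_range_succ, ih]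
    simp only [Finset.sum_add_distrib, Finset.sum_const, Finset.card_range, nsmul_eq_mul,
      Finset.sum_range_succ]
    push_cast
    linear_combination (2 * (g : ZMod 2) * lam + (∑ x ∈ Finset.range (2 * g), l x) +
      g * l (2 * g) + g * l (2 * g + 1)) * two_Fh3

variable {p : ℕ} [Fact p.Prime]

private lemma lg_mul {u v : ZMod p} (hu : u ≠ 0) (hv : v ≠ 0) : lg (u * v) = lg u + lg v := by
  have h1 : quadraticChar (ZMod p) (u * v) =
      quadraticChar (ZMod p) u * quadraticChar (ZMod p) v := map_mul _ _ _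
  have hs := quadraticChar_one_iff_isSquare hu
  have hs' := quadraticChar_one_iff_isSquare hv
  have hs'' := quadraticChar_one_iff_isSquare (mul_ne_zero hu hv)
  have hn := quadraticChar_neg_one_iff_not_isSquare (F := ZMod p) (a := u)
  have hn' := quadraticChar_neg_one_iff_not_isSquare (F := ZMod p) (a := v)
  have hn'' := quadraticChar_neg_one_iff_not_isSquare (F := ZMod p) (a := u * v)
  unfold lg
  by_cases h2 : IsSquare u <;> by_cases h3 : IsSquare v
  · rw [hs.2 h2, hs'.2 h3, mul_one] at h1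
    rw [if_pos h2, if_pos h3, if_pos (hs''.1 h1), add_zero]
  · rw [hs.2 h2, hn'.2 h3, one_mul] at h1
    rw [if_pos h2, if_neg h3, if_neg (hn''.1 h1), zero_add]
  · rw [hn.2 h2, hs'.2 h3, mul_one] at h1
    rw [if_neg h2, if_pos h3, if_neg (hn''.1 h1), add_zero]
  · rw [hn.2 h2, hn'.2 h3, neg_mul_neg, one_mul] at h1
    rw [if_neg h2, if_neg h3, if_pos (hs''.1 h1)]
    rfl

private noncomputable def el (x : ℚ_[p]) : ZMod 2 := lg (PadicInt.toZMod (ur p x))

private lemma ur_ne (H : HQ.StHc0) {x : ℚ_[p]} (hx : x ≠ 0) :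
    (PadicInt.toZMod (ur p x) : ZMod p) ≠ 0 :=
  (((H p).1 x hx).1.map (PadicInt.toZMod (p := p))).ne_zero

private lemma el_mul (H : HQ.StHc0) {x y : ℚ_[p]} (hx : x ≠ 0) (hy : y ≠ 0) :
    el (x * y) = el x + el y := by
  unfold el
  rw [((H p).2.1 x y hx hy).1, map_mul, lg_mul (ur_ne H hx) (ur_ne H hy)]

private lemma ur_coe (H : HQ.StHc0) {x : ℚ_[p]} (hx : x ≠ 0) (hv : x.valuation = 0) (y : ℤ_[p])
    (hy : (y : ℚ_[p]) = x) : ur p x = y := by
  apply Subtype.coe_injective
  show (ur p x : ℚ_[p]) = (y : ℚ_[p])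
  rw [(H p).2.2 x hx hv, hy]

private lemma el_one (H : HQ.StHc0) : el (1 : ℚ_[p]) = 0 := by
  have h1 : el (1 : ℚ_[p]) = el (1 : ℚ_[p]) + el (1 : ℚ_[p]) := by
    conv_lhs => rw [← mul_one (1 : ℚ_[p])]
    exact el_mul H one_ne_zero one_ne_zero
  exact (left_eq_add.1 h1)

private lemma el_neg_one (H : HQ.StHc0) : el (-1 : ℚ_[p]) = lg (-1 : ZMod p) := by
  unfold el
  have hv : (-1 : ℚ_[p]).valuation = 0 := by
    have h1 := Padic.valuation_intCast (p := p) (-1)
    rw [Int.cast_neg, Int.cast_one] at h1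
    rw [h1]
    simp [padicValInt]
  rw [ur_coe H (neg_ne_zero.2 one_ne_zero) hv (-1) (by simp), map_neg, map_one]

private lemma el_prod (H : HQ.StHc0) {ι : Type} (s : Finset ι) (a : ι → ℚ_[p])
    (ha : ∀ i, a i ≠ 0) : el (∏ i ∈ s, a i) = ∑ i ∈ s, el (a i) := by
  classical
  induction s using Finset.induction_on with
  | empty => rw [Finset.prod_empty, Finset.sum_empty, el_one H]
  | insert i s hi ih =>
    rw [Finset.prod_insert hi, Finset.sum_insert hi, el_mul H (ha i)
      (Finset.prod_ne_zero_iff.2 fun j _ => ha j), ih]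

private lemma el_pow (H : HQ.StHc0) {x : ℚ_[p]} (hx : x ≠ 0) (n : ℕ) : el (x ^ n) = n * el x := by
  induction n with
  | zero => rw [pow_zero, el_one H, Nat.cast_zero, zero_mul]
  | succ n ih =>
    rw [pow_succ, el_mul H (pow_ne_zero _ hx) hx, ih]
    push_cast
    ring

end Fh3

open Fh3

theorem hFh3 (H : Pool.Agent.Helper54.HQ.StHc0) : StFh3 := by
  intro p _ hp2 g hg a ha hodd heven hdisc i₀ i₁ hi₀ hi₁
  obtain ⟨c, hc, hcp⟩ := hdisc
  have hsum : ∑ i, el (a i) = (g + 1) * lg (-1 : ZMod p) := by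
    rw [← el_prod H Finset.univ a ha, hcp, el_mul H (pow_ne_zero _ (neg_ne_zero.2 one_ne_zero))
      (pow_ne_zero _ hc), el_pow H (neg_ne_zero.2 one_ne_zero), el_pow H hc, el_neg_one H]
    push_cast
    linear_combination el c * two_Fh3
  set l : ℕ → ZMod 2 := fun i => if h : i < 2 * g + 2 then el (a ⟨i, h⟩) else 0 with hl
  have hla : ∀ i : Jx g, l i = el (a i) := by
    intro i
    have hi : (i : ℕ) < 2 * g + 2 := i.2
    simp only [hl, dif_pos hi]
  set lam : ZMod 2 := lg (-1 : ZMod p) with hlam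
  have e1 : hasse (hs p) a = ∑ q : Fin (2 * g + 2) × Fin (2 * g + 2),
      if q.1 < q.2 then (fun i j : ℕ => if j < 2 * g then lam + l i + l j else
        if i < 2 * g then l j else 0) q.1 q.2 else 0 := by
    unfold hasse
    refine Finset.sum_congr rfl fun q _ => ?_
    by_cases hq : q.1 < q.2
    · rw [if_pos hq, if_pos hq]
      have hq' : (q.1 : ℕ) < q.2 := hq
      have hq2 : (q.2 : ℕ) < 2 * g + 2 := q.2.2
      show v2 p (a q.1) * v2 p (a q.2) * lg (-1 : ZMod p) + v2 p (a q.2) * el (a q.1) +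
        v2 p (a q.1) * el (a q.2) = if (q.2 : ℕ) < 2 * g then lam + l q.1 + l q.2 else
          if (q.1 : ℕ) < 2 * g then l q.2 else 0
      rw [← hla q.1, ← hla q.2, ← hlam]
      by_cases h2 : (q.2 : ℕ) < 2 * g
      · rw [if_pos h2, hodd q.1 (by omega), hodd q.2 h2]
        ring
      · rw [if_neg h2, heven q.2 (by omega)]
        by_cases h1 : (q.1 : ℕ) < 2 * g
        · rw [if_pos h1, hodd q.1 h1]
          ring
        · rw [if_neg h1, heven q.1 (by omega)]
          ring
    · rw [if_neg hq, if_neg hq]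
  rw [e1, sum_pairs (2 * g + 2) (fun i j : ℕ => if j < 2 * g then lam + l i + l j else
      if i < 2 * g then l j else 0),
    Finset.sum_range_succ, Finset.sum_range_succ]
  have e2 : ∑ j ∈ Finset.range (2 * g), ∑ i ∈ Finset.range j,
      (fun i j : ℕ => if j < 2 * g then lam + l i + l j else
        if i < 2 * g then l j else 0) i j =
      ∑ j ∈ Finset.range (2 * g), ∑ i ∈ Finset.range j, (lam + l i + l j) := by
    refine Finset.sum_congr rfl fun j hj => Finset.sum_congr rfl fun i _ => ?_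
    rw [Finset.mem_range] at hj
    show (if j < 2 * g then lam + l i + l j else if i < 2 * g then l j else 0) = _
    rw [if_pos hj]
  have e3 : ∀ k : ℕ, 2 * g ≤ k → ∑ i ∈ Finset.range (2 * g),
      (fun i j : ℕ => if j < 2 * g then lam + l i + l j else
        if i < 2 * g then l j else 0) i k = (2 * g : ZMod 2) * l k := by
    intro k hk
    have h1 : ∀ i ∈ Finset.range (2 * g), (fun i j : ℕ => if j < 2 * g then lam + l i + l j else
        if i < 2 * g then l j else 0) i k = l k := by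
      intro i hi
      rw [Finset.mem_range] at hi
      show (if k < 2 * g then lam + l i + l k else if i < 2 * g then l k else 0) = _
      rw [if_neg (by omega), if_pos hi]
    rw [Finset.sum_congr rfl h1, Finset.sum_const, Finset.card_range, nsmul_eq_mul]
    push_cast
    ring
  have e4 : ∑ i ∈ Finset.range (2 * g + 1),
      (fun i j : ℕ => if j < 2 * g then lam + l i + l j else
        if i < 2 * g then l j else 0) i (2 * g + 1) = (2 * g : ZMod 2) * l (2 * g + 1) := by
    rw [Finset.sum_range_succ, e3 (2 * g + 1) (by omega)]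
    show _ + (if 2 * g + 1 < 2 * g then lam + l (2 * g) + l (2 * g + 1) else
      if 2 * g < 2 * g then l (2 * g + 1) else 0) = _
    rw [if_neg (by omega), if_neg (lt_irrefl _), add_zero]
  rw [e2, e3 (2 * g) le_rfl, e4, sum_two]
  have hs1 : ∑ i ∈ Finset.range (2 * g + 2), l i = (g + 1) * lam := by
    rw [← hsum, ← Fin.sum_univ_eq_sum_range l (2 * g + 2)]
    exact Finset.sum_congr rfl fun i _ => hla i
  rw [Finset.sum_range_succ, Finset.sum_range_succ] at hs1
  have h5 : l (2 * g) = lg (PadicInt.toZMod (ur p (a i₀))) := by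
    rw [← hi₀, hla i₀]
    rfl
  have h6 : l (2 * g + 1) = lg (PadicInt.toZMod (ur p (a i₁))) := by
    rw [← hi₁, hla i₁]
    rfl
  rw [← h5, ← h6]
  linear_combination hs1 + (g * lam + g * l (2 * g) + g * l (2 * g + 1) - l (2 * g) -
    l (2 * g + 1)) * two_Fh3

end Pool.Agent.Helper54.EVL
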