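import Pool.Agent.Helper54.EVL.StI
import Pool.Agent.Helper54.HQ.M_Hi

/-!
# EV, module Fi: the descent group is isotropic (degree 2 g + 2)
-/

set_option autoImplicit false

namespace Pool.Agent.Helper54.EVL

open Polynomial Finset Filter Topology Matrix IsDedekindDomain
open Pool.Agent.Helper3.HY (co tau co_mk descentGroup IsPointValue)

theorem hFi (hFi1 : StFi1) (hFi2 : StFi2) (hHi3 : Pool.Agent.Helper54.HQ.StHi3) : StFi := by
  intro k _ _ h2 g hg h hm hsep hd z hz
  obtain ⟨U, V, y, hc, hdv, he⟩ :=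
    Pool.Agent.Helper54.HQ.form_Hi h2 hHi3 h hm hsep (by omega) z hz
  obtain ⟨X, hX1, hX2⟩ := hFi2 hFi1 k h2 g hg h U V hm hsep hd hc hdv
  have hyy : (y : AdjoinRoot h) * ((y⁻¹ : (AdjoinRoot h)ˣ) : AdjoinRoot h) = 1 := y.mul_inv
  set yi := ((y⁻¹ : (AdjoinRoot h)ˣ) : AdjoinRoot h)
  have hinj : Function.Injective (LinearMap.mulLeft k yi) := by
    intro a b hab
    have h1 : yi * a = yi * b := hab
    have h2 : (y : AdjoinRoot h) * (yi * a) = y * (yi * b) := by rw [h1]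
    rwa [← mul_assoc, ← mul_assoc, hyy, one_mul, one_mul] at h2
  refine ⟨X.map (LinearMap.mulLeft k yi), ?_, ?_⟩
  · rw [← (Submodule.equivMapOfInjective _ hinj X).finrank_eq, hX1]
  · rintro _ ⟨a, ha, rfl⟩ _ ⟨b, hb, rfl⟩
    rw [LinearMap.mulLeft_apply, LinearMap.mulLeft_apply]
    rw [show (z : AdjoinRoot h) * (yi * a) * (yi * b) = AdjoinRoot.mk h U * a * b from ?_]
    · exact hX2 a ha b hb
    · rw [he]
      linear_combination (AdjoinRoot.mk h U * a * b * ((y : AdjoinRoot h) * yi + 1)) * hyy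

end Pool.Agent.Helper54.EVL
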