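import Pool.Agent.Helper54.EVL.StI
import Pool.Agent.Helper54.HQ.M_Hi1

/-!
# EVL, module Fi1: binary quadratic forms over `k[x]`, even degree
-/

set_option autoImplicit false

namespace Pool.Agent.Helper54.EVL

open Polynomial Finset
open Pool.Agent.Helper54.HQ (pf_Hi1 sh_Hi1 sw_Hi1 finrank_Hi1 deg3_Hi1)

/-- the existence of the space -/
private def Gd_Fi1 {k : Type} [Field k] (g : ℕ) (U V W : k[X]) : Prop :=
  ∃ Y : Submodule k (k[X] × k[X]), Module.finrank k Y = g ∧ ∀ y ∈ Y, ∀ y' ∈ Y,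
    (pf_Hi1 U V W y y').degree < (2 * g + 1 : ℕ)

private lemma transfer_Fi1 {k : Type} [Field k] {g : ℕ} {U V W U' V' W' : k[X]}
    (e : (k[X] × k[X]) ≃ₗ[k] (k[X] × k[X]))
    (he : ∀ y y', pf_Hi1 U V W (e y) (e y') = pf_Hi1 U' V' W' y y') (h : Gd_Fi1 g U' V' W') :
    Gd_Fi1 g U V W := by
  obtain ⟨Y, h1, h2⟩ := h
  refine ⟨Y.map (e : (k[X] × k[X]) →ₗ[k] (k[X] × k[X])), ?_, ?_⟩
  · rw [LinearEquiv.finrank_map_eq, h1]
  · rintro _ ⟨y, hy, rfl⟩ _ ⟨y', hy', rfl⟩
    change (pf_Hi1 U V W (e y) (e y')).degree < _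
    rw [he]
    exact h2 y hy y' hy'

private lemma small_Fi1 {k : Type} [Field k] {g : ℕ} (hg : 1 ≤ g) {U V W : k[X]}
    (hm : U.natDegree ≤ g + 1) (hV : V.degree < U.degree) (hU : U ≠ 0)
    (hW : W.degree < ((2 * g + 3 - U.natDegree : ℕ) : WithBot ℕ)) :
    Gd_Fi1 g U V W := by
  set m := U.natDegree with hmdef
  obtain ⟨Y, h1, h2⟩ := finrank_Hi1 (k := k) (g - m / 2) (m / 2)
  refine ⟨Y, by rw [h1]; omega, fun y hy y' hy' => ?_⟩
  obtain ⟨hy1, hy2⟩ := h2 y hy
  obtain ⟨hy1', hy2'⟩ := h2 y' hy'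
  have hU' : U.degree < ((m + 1 : ℕ) : WithBot ℕ) := by
    rw [← natDegree_lt_iff_degree_lt hU]
    omega
  have hV' : V.degree < ((m : ℕ) : WithBot ℕ) := by
    rwa [degree_eq_natDegree hU] at hV
  unfold pf_Hi1
  refine lt_of_le_of_lt (degree_sub_le _ _) (max_lt (lt_of_le_of_lt (degree_add_le _ _)
    (max_lt ?_ ?_)) ?_)
  · exact deg3_Hi1 hy1 hy1' hU' (by omega)
  · rw [add_mul]
    refine lt_of_le_of_lt (degree_add_le _ _) (max_lt ?_ ?_)
    · exact deg3_Hi1 hy1 hy2' hV' (by omega)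
    · exact deg3_Hi1 hy1' hy2 hV' (by omega)
  · exact deg3_Hi1 hy2 hy2' hW (by omega)

private theorem main_Fi1 {k : Type} [Field k] (g : ℕ) (hg : 1 ≤ g) (h : k[X])
    (hd : h.natDegree = 2 * g + 2) (hns : ¬ IsSquare h) :
    ∀ n : ℕ, ∀ U V W : k[X], U.natDegree = n → U ≠ 0 → V ^ 2 + U * W = h → Gd_Fi1 g U V W := by
  intro n
  induction n using Nat.strong_induction_on with
  | _ n ih =>
  intro U V W hn hU hUVW
  -- reduce `V` modulo `U`
  set c := V / U with hc
  set V' := V - c * U with hV'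
  set W' := W + 2 * c * V - c ^ 2 * U with hW'
  have hVd : V'.degree < U.degree := by
    have h1 : V' = V % U := by
      have := EuclideanDomain.div_add_mod V U
      rw [hV', hc]
      linear_combination -this
    rw [h1]
    exact EuclideanDomain.mod_lt V hU
  have hrel : V' ^ 2 + U * W' = h := by
    rw [← hUVW, hV', hW']
    ring
  refine transfer_Fi1 (U' := U) (V' := V') (W' := W') (sh_Hi1 (-c)) ?_ ?_
  · intro y y'
    simp only [pf_Hi1, sh_Hi1, LinearEquiv.coe_mk, LinearMap.coe_mk, AddHom.coe_mk, hV', hW']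
    ring
  have hh0 : h ≠ 0 := fun h0 => by
    rw [h0, natDegree_zero] at hd
    omega
  -- the degree of `U * W'`
  have hUW : U * W' = h - V' ^ 2 := by linear_combination hrel
  have hW0 : W' ≠ 0 := by
    intro h0
    rw [h0, mul_zero, add_zero] at hrel
    exact hns ⟨V', by rw [← hrel, sq]⟩
  have hVn : V' = 0 ∨ V'.natDegree < U.natDegree := by
    by_cases hV0 : V' = 0
    · exact Or.inl hV0
    · right
      rw [degree_eq_natDegree hV0, degree_eq_natDegree hU] at hVd
      exact_mod_cast hVd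
  have hV2 : (V' ^ 2).natDegree ≤ 2 * (U.natDegree - 1) := by
    rw [natDegree_pow]
    rcases hVn with h0 | h0
    · rw [h0, natDegree_zero]
      omega
    · omega
  have hle : U.natDegree + W'.natDegree ≤ max (2 * g + 2) (2 * (U.natDegree - 1)) := by
    rw [← natDegree_mul hU hW0, hUW]
    refine (natDegree_sub_le _ _).trans (max_le_max hd.le hV2)
  by_cases hm : U.natDegree ≤ g + 1
  · refine small_Fi1 hg hm hVd hU ?_
    rw [← natDegree_lt_iff_degree_lt hW0]
    rw [max_eq_left (by omega)] at hle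
    omega
  · have hlt : W'.natDegree < U.natDegree := by
      rcases le_total (2 * g + 2) (2 * (U.natDegree - 1)) with h1 | h1
      · rw [max_eq_right h1] at hle
        omega
      · rw [max_eq_left h1] at hle
        omega
    have h1 := ih W'.natDegree (by omega) (-W') (-V') (-U) (natDegree_neg _) (neg_ne_zero.2 hW0)
      (by rw [← hrel]; ring)
    refine transfer_Fi1 (sw_Hi1 (k := k)) ?_ h1
    intro y y'
    simp only [pf_Hi1, sw_Hi1, LinearEquiv.coe_mk, LinearMap.coe_mk, AddHom.coe_mk]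
    ring

theorem hFi1 : StFi1 := by
  intro k _ _ g hg h U V W hd hns hU hUVW
  exact main_Fi1 g hg h hd hns _ U V W rfl hU hUVW

end Pool.Agent.Helper54.EVL
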