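import Pool.Agent.Helper54.EVL.StI
import Pool.Agent.Helper54.HQ.M_Hi2

/-!
# EVL, module Fi2: isotropic subspaces, even degree
-/

set_option autoImplicit false

namespace Pool.Agent.Helper54.EVL

open Polynomial Finset
open Pool.Agent.Helper3.HY (co tau co_mk)
open Pool.Agent.Helper54.HQ (ph_Hi2)

private theorem notSq_Fi2 {k : Type} [Field k] {h : k[X]} {g : ℕ} (hs : h.Separable)
    (hd : h.natDegree = 2 * g + 2) : ¬ IsSquare h := by
  rintro ⟨r, hr⟩
  have h1 : Squarefree h := hs.squarefree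
  have h2 : IsUnit r := h1 r ⟨1, by rw [hr, mul_one]⟩
  have h3 := natDegree_eq_zero_of_isUnit h2
  rw [hr, natDegree_mul' (by
    rw [← leadingCoeff_mul, ← hr]
    exact leadingCoeff_ne_zero.2 hs.ne_zero), h3] at hd
  omega

theorem hFi2 : StFi2 := by
  intro hFi1 k _ h2 g hg h U V hm hsep hd hcop hdvd
  have hh0 : h ≠ 0 := hm.ne_zero
  have hns : ¬ IsSquare h := notSq_Fi2 hsep hd
  have hU : U ≠ 0 := by
    intro h0
    rw [h0, isCoprime_zero_left] at hcop
    have := natDegree_eq_zero_of_isUnit hcop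
    omega
  obtain ⟨W, hW⟩ := hdvd
  have hrel : V ^ 2 + U * W = h := by rw [← hW]; ring
  obtain ⟨Y, hY1, hY2⟩ := hFi1 k h2 g hg h U V W hd hns hU hrel
  obtain ⟨a, b, hab⟩ := hcop
  -- the inverse of `u`
  have hui : AdjoinRoot.mk h a * AdjoinRoot.mk h U = 1 := by
    rw [← map_mul, ← map_one (AdjoinRoot.mk h), AdjoinRoot.mk_eq_mk]
    exact ⟨-b, by linear_combination hab⟩
  set u := AdjoinRoot.mk h U with hu
  set ui := AdjoinRoot.mk h a with hui'
  set w : AdjoinRoot h := AdjoinRoot.mk h V * ui with hw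
  have hVW : AdjoinRoot.mk h V ^ 2 + u * AdjoinRoot.mk h W = 0 := by
    rw [hu, ← map_pow, ← map_mul, ← map_add, hrel, AdjoinRoot.mk_self]
  have key : ∀ y y' : k[X] × k[X], u * ph_Hi2 h w y * ph_Hi2 h w y' =
      AdjoinRoot.mk h (y.1 * y'.1 * U + (y.1 * y'.2 + y'.1 * y.2) * V - y.2 * y'.2 * W) := by
    intro y y'
    simp only [ph_Hi2, LinearMap.coe_mk, AddHom.coe_mk, map_add, map_sub, map_mul, ← hu, hw]
    set p := AdjoinRoot.mk h y.1
    set p' := AdjoinRoot.mk h y'.1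
    set q := AdjoinRoot.mk h y.2
    set q' := AdjoinRoot.mk h y'.2
    set v := AdjoinRoot.mk h V
    set ww := AdjoinRoot.mk h W
    -- `ui * u = 1`, `v ^ 2 = - u * ww`
    linear_combination (p * q' * v + q * p' * v + q * q' * v ^ 2 * ui -
      q * q' * ww) * hui + (q * q' * ui) * hVW
  have hsmall : ∀ F : k[X], F.degree < (2 * g + 1 : ℕ) → tau hm (AdjoinRoot.mk h F) = 0 := by
    intro F hF
    rw [tau, co_mk, hd, (modByMonic_eq_self_iff hm).2]
    · refine coeff_eq_zero_of_degree_lt (hF.trans_le ?_)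
      exact_mod_cast (by omega : 2 * g + 1 ≤ 2 * g + 2 - 1)
    · rw [degree_eq_natDegree hh0, hd]
      exact hF.trans (by exact_mod_cast (by omega : 2 * g + 1 < 2 * g + 2))
  have hinj : Function.Injective ((ph_Hi2 h w).domRestrict Y) := by
    rw [injective_iff_map_eq_zero]
    rintro ⟨y, hy⟩ hy0
    have hy0' : ph_Hi2 h w y = 0 := hy0
    have h3 := key y y
    rw [hy0', mul_zero, eq_comm, AdjoinRoot.mk_eq_zero] at h3
    set F := y.1 * y.1 * U + (y.1 * y.2 + y.1 * y.2) * V - y.2 * y.2 * W with hF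
    have hF0 : F = 0 := by
      by_contra hne
      have h4 := natDegree_le_of_dvd h3 hne
      have h5 := hY2 y hy y hy
      change F.degree < _ at h5
      rw [← natDegree_lt_iff_degree_lt hne] at h5
      omega
    have hsq : (y.1 * U + y.2 * V) ^ 2 = y.2 ^ 2 * h := by
      have h4 : U * F = 0 := by rw [hF0, mul_zero]
      rw [← hrel]
      rw [hF] at h4
      linear_combination h4
    have hq : y.2 = 0 := by
      by_contra hne
      have h4 : y.2 ∣ y.1 * U + y.2 * V :=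
        (UniqueFactorizationMonoid.pow_dvd_pow_iff_dvd two_ne_zero).1 ⟨h, hsq⟩
      obtain ⟨r, hr⟩ := h4
      rw [hr, mul_pow] at hsq
      exact hns ⟨r, by rw [← mul_left_cancel₀ (pow_ne_zero 2 hne) hsq, sq]⟩
    have hp : y.1 = 0 := by
      rw [hq, zero_mul, add_zero, zero_pow two_ne_zero, zero_mul] at hsq
      exact (mul_eq_zero.1 (pow_eq_zero_iff two_ne_zero |>.1 hsq)).resolve_right hU
    exact Subtype.ext (Prod.ext hp hq)
  refine ⟨LinearMap.range ((ph_Hi2 h w).domRestrict Y), ?_, ?_⟩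
  · rw [LinearMap.finrank_range_of_inj hinj, hY1]
  · rintro _ ⟨⟨y, hy⟩, rfl⟩ _ ⟨⟨y', hy'⟩, rfl⟩
    change tau hm (u * ph_Hi2 h w y * ph_Hi2 h w y') = 0
    rw [key]
    exact hsmall _ (hY2 y hy y' hy')

end Pool.Agent.Helper54.EVL
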