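import Pool.Agent.Helper54.EVL.StI
import Pool.Agent.Helper54.HQ.M_Hj

/-!
# EV: Fj, the real place
-/

set_option autoImplicit false

namespace Pool.Agent.Helper54.EVL

open Polynomial Finset Filter Topology Matrix IsDedekindDomain
open Pool.Agent.Helper3.HY (co tau baseChange descentGroup IsPointValue IsTwPoint twGroup)
open Pool.Agent.Helper54.HQ (Prm pz factPrm fK RR LL algRL th kp red Bf NearOne LocSq TwAt EvenAt om ep
  Over IsQ LD At2 IsSym hasse IsOrth lg ur v2 hs hs2 hsR)
open Pool.Agent.Helper3.EV (Jx TType AType IType Reg Good)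
open Pool.Agent.Helper54.HQ.HjAux (crt mem_crt crt_spec exists_poly conj_mem_crt aeval_conj')

/-- For every set of `g` roots in the upper half plane there is an isotropic subspace of dimension `g`. -/
theorem isotropic_Fj {F : ℝ[X]} (hm : F.Monic) (hsep : F.Separable) (g : ℕ) (hN : 1 ≤ F.natDegree)
    (S : Finset ℂ) (hSc : S.card = g) (hS : ∀ ρ ∈ S, ρ ∈ crt F ∧ 0 < ρ.im) (z : AdjoinRoot F) :
    ∃ X : Submodule ℝ (AdjoinRoot F), Module.finrank ℝ X = g ∧
      ∀ x ∈ X, ∀ y ∈ X, tau hm (z * x * y) = 0 := by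
  classical
  obtain ⟨hcard, hder, hE⟩ := crt_spec hm hsep
  have hE := hE hN
  obtain ⟨Z, rfl⟩ := AdjoinRoot.mk_surjective z
  have hSm : ∀ ρ : S, (ρ : ℂ) ∈ crt F := fun ρ => (hS ρ ρ.2).1
  have hSi : ∀ ρ : S, 0 < (ρ : ℂ).im := fun ρ => (hS ρ ρ.2).2
  have hex := fun ρ : S => exists_poly hm hsep Z (hSm ρ) (hSi ρ)
  choose P hP0 hPre hPz using hex
  set v : S → AdjoinRoot F := fun ρ => AdjoinRoot.mk F (P ρ) with hv
  have hzero : ∀ (ρ σ : S), ρ ≠ σ → ∀ τ ∈ crt F, aeval τ (P ρ) * aeval τ (P σ) = 0 := by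
    intro ρ σ hne τ hτ
    by_cases h1 : τ = ρ
    · rw [hPz σ τ hτ, mul_zero]
      · rw [h1]
        exact fun h => hne (Subtype.ext h)
      · intro h
        have h2 := hSi ρ
        have h3 := hSi σ
        rw [← h1, h, Complex.conj_im] at h2
        linarith
    by_cases h2 : τ = (starRingEnd ℂ) ρ
    · rw [hPz σ τ hτ, mul_zero]
      · intro h
        have h3 := hSi ρ
        have h4 := hSi σ
        rw [← h, h2, Complex.conj_im] at h4
        linarith
      · rw [h2]
        intro h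
        exact hne (Subtype.ext ((starRingEnd ℂ).injective h))
    · rw [hPz ρ τ hτ h1 h2, zero_mul]
  have hvi : LinearIndependent ℝ v := by
    rw [Fintype.linearIndependent_iff]
    intro c hc ρ
    have h1 : AdjoinRoot.mk F (∑ σ, C (c σ) * P σ) = 0 := by
      rw [map_sum, ← hc]
      apply Finset.sum_congr rfl
      intro σ _
      rw [map_mul, AdjoinRoot.mk_C, Algebra.smul_def]
      rfl
    have h2 : aeval (ρ : ℂ) (∑ σ, C (c σ) * P σ) = 0 := by
      obtain ⟨Q, hQ⟩ := AdjoinRoot.mk_eq_zero.1 h1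
      rw [hQ, map_mul, (mem_crt hm _).1 (hSm ρ), zero_mul]
    rw [map_sum, Finset.sum_eq_single ρ] at h2
    · rw [map_mul, aeval_C] at h2
      rcases mul_eq_zero.1 h2 with h3 | h3
      · exact Complex.ofReal_eq_zero.1 h3
      · exact absurd h3 (hP0 ρ)
    · intro σ _ hσ
      rw [map_mul]
      have h3 := hzero σ ρ hσ ρ (hSm ρ)
      rcases mul_eq_zero.1 h3 with h4 | h4
      · rw [h4, mul_zero]
      · exact absurd h4 (hP0 ρ)
    · intro h
      exact absurd (Finset.mem_univ ρ) h
  have hgen : ∀ ρ σ : S, tau hm (AdjoinRoot.mk F Z * v ρ * v σ) = 0 := by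
    intro ρ σ
    have h1 : AdjoinRoot.mk F Z * v ρ * v σ = AdjoinRoot.mk F (Z * P ρ * P σ) := by
      rw [map_mul, map_mul]
    have h2 := hE (Z * P ρ * P σ)
    rw [← h1] at h2
    have h3 : ∑ τ ∈ crt F, aeval τ (Z * P ρ * P σ) / aeval τ (derivative F) = 0 := by
      by_cases hne : ρ = σ
      · subst hne
        have hne2 : (ρ : ℂ) ≠ (starRingEnd ℂ) ρ := by
          intro h
          have h3 := hSi ρ
          rw [h, Complex.conj_im] at h3
          linarith [hSi ρ]
        rw [← Finset.sum_subset (s₁ := {(ρ : ℂ), (starRingEnd ℂ) ρ}), Finset.sum_pair hne2]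
        · have h4 : ∀ τ : ℂ, aeval τ (Z * P ρ * P ρ) / aeval τ (derivative F) =
              aeval τ (P ρ) ^ 2 * (aeval τ Z / aeval τ (derivative F)) := by
            intro τ
            rw [map_mul, map_mul]
            ring
          rw [h4, h4]
          have h5 : aeval ((starRingEnd ℂ) (ρ : ℂ)) (P ρ) ^ 2 *
              (aeval ((starRingEnd ℂ) (ρ : ℂ)) Z /
                aeval ((starRingEnd ℂ) (ρ : ℂ)) (derivative F)) =
              (starRingEnd ℂ) (aeval (ρ : ℂ) (P ρ) ^ 2 *
                (aeval (ρ : ℂ) Z / aeval (ρ : ℂ) (derivative F))) := by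
            rw [aeval_conj', aeval_conj', aeval_conj', map_mul, map_pow, map_div₀]
          rw [h5, Complex.add_conj, hPre ρ]
          simp
        · intro τ hτ
          rw [Finset.mem_insert, Finset.mem_singleton] at hτ
          rcases hτ with rfl | rfl
          · exact hSm ρ
          · exact conj_mem_crt hm (hSm ρ)
        · intro τ hτ hτ'
          rw [Finset.mem_insert, Finset.mem_singleton, not_or] at hτ'
          rw [map_mul, hPz ρ τ hτ hτ'.1 hτ'.2, mul_zero, zero_div]
      · apply Finset.sum_eq_zero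
        intro τ hτ
        rw [map_mul, map_mul, mul_assoc, hzero ρ σ hne τ hτ, mul_zero, zero_div]
    rw [h3] at h2
    exact Complex.ofReal_eq_zero.1 h2
  refine ⟨Submodule.span ℝ (Set.range v), ?_, ?_⟩
  · rw [finrank_span_eq_card hvi, Fintype.card_coe]
    exact hSc
  · have key : ∀ ρ : S, ∀ y ∈ Submodule.span ℝ (Set.range v),
        tau hm (AdjoinRoot.mk F Z * v ρ * y) = 0 := by
      intro ρ y hy
      induction hy using Submodule.span_induction with
      | mem y hy =>
        obtain ⟨σ, rfl⟩ := hy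
        exact hgen ρ σ
      | zero => rw [mul_zero, map_zero]
      | add x y _ _ hx hy => rw [mul_add, map_add, hx, hy, add_zero]
      | smul a x _ hx => rw [mul_smul_comm, map_smul, hx, smul_zero]
    intro x hx y hy
    induction hx using Submodule.span_induction with
    | mem x hx =>
      obtain ⟨σ, rfl⟩ := hx
      exact key σ y hy
    | zero => rw [mul_zero, zero_mul, map_zero]
    | add a b _ _ ha hb => rw [mul_add, add_mul, map_add, ha, hb, add_zero]
    | smul a x _ hx => rw [mul_smul_comm, smul_mul_assoc, map_smul, hx, smul_zero]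

/-- Without real roots half of the roots lie in the upper half plane. -/
theorem card_Fj {F : ℝ[X]} (hm : F.Monic) (hsep : F.Separable) (g : ℕ)
    (hdeg : F.natDegree = 2 * g + 2) (hno : ∀ a : ℝ, F.eval a ≠ 0) :
    ((crt F).filter (fun ρ : ℂ => 0 < ρ.im)).card = g + 1 := by
  classical
  obtain ⟨hcard, -, -⟩ := crt_spec hm hsep
  have h1 : ((crt F).filter (fun ρ : ℂ => 0 < ρ.im)).card =
      ((crt F).filter (fun ρ : ℂ => ¬ 0 < ρ.im)).card := by
    refine Finset.card_nbij' (fun ρ => (starRingEnd ℂ) ρ) (fun ρ => (starRingEnd ℂ) ρ) ?_ ?_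
      (fun ρ _ => Complex.conj_conj ρ) (fun ρ _ => Complex.conj_conj ρ)
    · intro ρ h
      rw [Finset.mem_coe, Finset.mem_filter] at h ⊢
      refine ⟨conj_mem_crt hm h.1, ?_⟩
      rw [Complex.conj_im]
      have := h.2
      intro h'
      linarith
    · intro ρ h
      rw [Finset.mem_coe, Finset.mem_filter] at h ⊢
      refine ⟨conj_mem_crt hm h.1, ?_⟩
      rw [Complex.conj_im]
      rcases lt_or_eq_of_le (not_lt.1 h.2) with h5 | h5
      · linarith
      · exfalso
        have h3 : ρ = ((ρ.re : ℝ) : ℂ) := by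
          apply Complex.ext
          · simp
          · simp [h5]
        have h4 := (mem_crt hm ρ).1 h.1
        rw [h3, aeval_def, ← Complex.coe_algebraMap, eval₂_at_apply] at h4
        exact hno _ (Complex.ofReal_eq_zero.1 h4)
  have h3 := Finset.card_filter_add_card_filter_not (s := crt F) (fun ρ : ℂ => 0 < ρ.im)
  rw [hcard, hdeg] at h3
  omega

/-- The value of a polynomial of the region is positive (scaled variable). -/
theorem pos_Fj (n : ℕ) (c : ℕ → ℝ) (hn : Even (n + 1))
    (h1 : ∀ i, 1 ≤ i → i ≤ n → 2 ^ (n + 5) * |c i| ≤ 1) (h0 : 1 / 2 ≤ c 0) (t : ℝ) :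
    0 < t ^ (n + 1) + ∑ i ∈ range (n + 1), c i * t ^ i := by
  have hb : (n : ℝ) < 2 ^ n := by
    exact_mod_cast Nat.lt_two_pow_self
  have hc : ∀ i, 1 ≤ i → i ≤ n → |c i| ≤ 1 / 2 ^ (n + 5) := by
    intro i hi hi'
    rw [le_div_iff₀ (by positivity), mul_comm]
    exact h1 i hi hi'
  have hM : 1 ≤ max 1 |t| := le_max_left _ _
  have hsum : |∑ i ∈ range n, c (i + 1) * t ^ (i + 1)| ≤ (1 / 32) * max 1 |t| ^ (n + 1) := by
    calc |∑ i ∈ range n, c (i + 1) * t ^ (i + 1)|
        ≤ ∑ i ∈ range n, |c (i + 1) * t ^ (i + 1)| := abs_sum_le_sum_abs _ _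
      _ ≤ ∑ i ∈ range n, (1 / 2 ^ (n + 5)) * max 1 |t| ^ (n + 1) := by
          apply sum_le_sum
          intro i hi
          rw [mem_range] at hi
          rw [abs_mul, abs_pow]
          apply mul_le_mul (hc _ (by omega) (by omega)) _ (by positivity) (by positivity)
          calc |t| ^ (i + 1) ≤ max 1 |t| ^ (i + 1) :=
                pow_le_pow_left₀ (abs_nonneg t) (le_max_right _ _) _
            _ ≤ max 1 |t| ^ (n + 1) := pow_le_pow_right₀ hM (by omega)
      _ = (n / 2 ^ n) * (1 / 32) * max 1 |t| ^ (n + 1) := by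
          rw [sum_const, card_range, nsmul_eq_mul, pow_add]
          field_simp
          norm_num
      _ ≤ 1 * (1 / 32) * max 1 |t| ^ (n + 1) := by
          have : (n : ℝ) / 2 ^ n ≤ 1 := by
            rw [div_le_one (by positivity)]
            exact hb.le
          gcongr
      _ = (1 / 32) * max 1 |t| ^ (n + 1) := by ring
  rw [sum_range_succ']
  simp only [pow_zero, mul_one]
  have h3 := (abs_le.1 hsum).1
  have h4 : t ^ (n + 1) = |t| ^ (n + 1) := (hn.pow_abs t).symm
  rcases le_total |t| 1 with h | h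
  · rw [max_eq_left h, one_pow] at h3
    have h5 : 0 ≤ |t| ^ (n + 1) := by positivity
    rw [h4]
    linarith
  · rw [max_eq_right h] at h3
    have h5 : 0 < |t| ^ (n + 1) := by positivity
    linarith

/-- The polynomials of the region have no real roots. -/
theorem noroot_Fj {g H : ℕ} (hH : 1 ≤ H) {f : ℤ[X]} (hf : f ∈ Reg g H) (x : ℝ) :
    ((fK f).map (algebraMap ℚ ℝ)).eval x ≠ 0 := by
  intro hx
  obtain ⟨hm, hdeg, hc, hc0, -⟩ := hf
  have hH0 : (0 : ℝ) < H := by exact_mod_cast hH
  set d : ℕ → ℝ := fun i => (f.coeff i : ℝ) / (H : ℝ) ^ (2 * g + 2 - i) with hd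
  have h1 : ∀ i, 1 ≤ i → i ≤ 2 * g + 1 → 2 ^ (2 * g + 1 + 5) * |d i| ≤ 1 := by
    intro i hi hi'
    have h2 := hc i hi hi'
    have h3 : (2 : ℝ) ^ (2 * g + 6) * |(f.coeff i : ℝ)| ≤ (H : ℝ) ^ (2 * g + 2 - i) := by
      exact_mod_cast h2
    rw [hd]
    simp only
    rw [abs_div, abs_of_pos (by positivity : (0 : ℝ) < (H : ℝ) ^ (2 * g + 2 - i)), ← mul_div_assoc,
      div_le_one (by positivity)]
    exact h3
  have h0 : 1 / 2 ≤ d 0 := by
    have h3 : (H : ℝ) ^ (2 * g + 2) ≤ 2 * (f.coeff 0 : ℝ) := by exact_mod_cast hc0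
    rw [hd]
    simp only [Nat.sub_zero]
    rw [le_div_iff₀ (by positivity)]
    linarith
  have hpos := pos_Fj (2 * g + 1) d ⟨g + 1, by ring⟩ h1 h0 (x / H)
  have hF : (fK f).map (algebraMap ℚ ℝ) = f.map (Int.castRingHom ℝ) := by
    rw [fK, Polynomial.map_map]
    congr 1
  have hFd : (f.map (Int.castRingHom ℝ)).natDegree = 2 * g + 2 := by
    rw [hm.natDegree_map, hdeg]
  rw [hF, eval_eq_sum_range, hFd, sum_range_succ] at hx
  have hlc : (f.map (Int.castRingHom ℝ)).coeff (2 * g + 2) = 1 := by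
    rw [coeff_map, ← hdeg]
    have : f.coeff f.natDegree = 1 := hm
    rw [this]
    simp
  rw [hlc, one_mul] at hx
  have h3 : (H : ℝ) ^ (2 * g + 2) * ((x / H) ^ (2 * g + 2) +
      ∑ i ∈ range (2 * g + 2), d i * (x / H) ^ i) = 0 := by
    rw [mul_add, mul_sum, ← hx, add_comm]
    congr 1
    · apply sum_congr rfl
      intro i hi
      rw [mem_range] at hi
      rw [coeff_map, hd]
      simp only
      have h4 : (H : ℝ) ^ (2 * g + 2) = (H : ℝ) ^ (2 * g + 2 - i) * (H : ℝ) ^ i := by
        rw [← pow_add]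
        congr 1
        omega
      rw [h4, div_pow]
      have h5 : (Int.castRingHom ℝ) (f.coeff i) = (f.coeff i : ℝ) := rfl
      rw [h5]
      field_simp
    · rw [div_pow]
      field_simp
  rcases mul_eq_zero.1 h3 with h4 | h4
  · exact absurd h4 (by positivity)
  · exact hpos.ne' h4

theorem hFj : StFj := by
  intro g H hg hH f hf hm hirr z
  have h1 : ((fK f).map (algebraMap ℚ ℝ)).natDegree = 2 * g + 2 := by
    rw [(hf.1.map (Int.castRingHom ℚ)).natDegree_map _, hf.1.natDegree_map, hf.2.1]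
  have hsep : ((fK f).map (algebraMap ℚ ℝ)).Separable := hirr.separable.map
  have hc := card_Fj hm hsep g h1 (noroot_Fj hH hf)
  obtain ⟨S, hSs, hSc⟩ := Finset.exists_subset_card_eq
    (s := (crt ((fK f).map (algebraMap ℚ ℝ))).filter (fun ρ : ℂ => 0 < ρ.im)) (n := g)
    (by rw [hc]; omega)
  exact isotropic_Fj hm hsep g (by omega) S hSc (fun ρ h => Finset.mem_filter.1 (hSs h)) z

end Pool.Agent.Helper54.EVL
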