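import Pool.Agent.Helper54.EVL.StI
import Pool.Agent.Helper54.HQ.Base

/-!
# EV module Fl: rational diagonalisation
-/

set_option autoImplicit false

namespace Pool.Agent.Helper54.EVL

open Polynomial Finset Filter Topology Matrix IsDedekindDomain
open Pool.Agent.Helper3.HY (co tau baseChange descentGroup IsPointValue IsTwPoint twGroup)
open Pool.Agent.Helper54.HQ (Prm pz factPrm fK RR LL algRL th kp red Bf NearOne LocSq TwAt EvenAt om ep
  Over IsQ LD At2 IsSym hasse IsOrth lg ur v2 hs hs2 hsR Bf_apply)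
open Pool.Agent.Helper3.EV (Jx TType AType IType Reg Good)

theorem hFl (h1 : StFcg) : StFl := by
  intro g f hm hdeg _ z hz hsq
  obtain ⟨b, -, hdet⟩ := h1 g f hm hdeg z
  have hsymm : LinearMap.IsSymm (Bf hm z) := ⟨fun x y => by
    rw [RingHom.id_apply, Bf_apply, Bf_apply, mul_assoc, mul_comm x y, ← mul_assoc]⟩
  have hfr : Module.finrank ℚ (LL f) = 2 * g + 2 := by
    rw [Module.finrank_eq_card_basis b, Fintype.card_fin]
  have hfin : Module.Finite ℚ (LL f) := Module.Finite.of_basis b
  have h2 : Invertible (2 : ℚ) := invertibleOfNonzero two_ne_zero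
  obtain ⟨v0, hv0⟩ := LinearMap.BilinForm.exists_orthogonal_basis hsymm
  let v : Module.Basis (Jx g) ℚ (LL f) := v0.reindex (finCongr hfr)
  have hv : ∀ i j, i ≠ j → Bf hm z (v i) (v j) = 0 := by
    intro i j hij
    simp only [v, Module.Basis.reindex_apply]
    exact hv0 (fun h => hij ((finCongr hfr).symm.injective h))
  let a : Jx g → ℚ := fun i => Bf hm z (v i) (v i)
  have hMb : LinearMap.BilinForm.toMatrix b (Bf hm z) =
      Matrix.of fun i j => Bf hm z (b i) (b j) := by
    ext i j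
    rw [LinearMap.BilinForm.toMatrix_apply, Matrix.of_apply]
  have hMv : LinearMap.BilinForm.toMatrix v (Bf hm z) = Matrix.diagonal a := by
    ext i j
    rw [LinearMap.BilinForm.toMatrix_apply, Matrix.diagonal_apply]
    split_ifs with h
    · subst h; rfl
    · exact hv i j h
  have hprod : ∏ i, a i = (b.toMatrix v).det ^ 2 * ((-1) ^ (g + 1) * Algebra.norm ℚ z) := by
    rw [← Matrix.det_diagonal, ← hMv, ← LinearMap.BilinForm.toMatrix_mul_basis_toMatrix b v,
      Matrix.det_mul, Matrix.det_mul, Matrix.det_transpose, hMb, hdet]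
    have key : ∀ D M : ℚ, D * M * D = D ^ 2 * M := fun D M => by ring
    exact key _ _
  obtain ⟨s, hs⟩ := hsq
  have hnz : Algebra.norm ℚ z ≠ 0 := Algebra.norm_ne_zero_iff.2 hz
  have hs0 : s ≠ 0 := by
    rintro rfl
    exact hnz (by rw [hs]; ring)
  have hP : (b.toMatrix v).det ≠ 0 := by
    have h1 : b.toMatrix v * v.toMatrix b = 1 := b.toMatrix_mul_toMatrix_flip v
    intro h0
    have h3 := congrArg Matrix.det h1
    rw [Matrix.det_mul, h0, zero_mul, Matrix.det_one] at h3
    exact zero_ne_one h3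
  have hpc : ∏ i, a i = (-1) ^ (g + 1) * ((b.toMatrix v).det * s) ^ 2 := by
    rw [hprod, hs]; ring
  have hc0 : (b.toMatrix v).det * s ≠ 0 := mul_ne_zero hP hs0
  refine ⟨v, a, (b.toMatrix v).det * s, ⟨fun i j hij => hv i j hij, fun i => rfl, ?_⟩, hc0, hpc⟩
  intro i
  have h1 : ∏ i, a i ≠ 0 := by
    rw [hpc]
    exact mul_ne_zero (pow_ne_zero _ (by norm_num)) (pow_ne_zero _ hc0)
  exact Finset.prod_ne_zero_iff.1 h1 i (Finset.mem_univ i)

end Pool.Agent.Helper54.EVL

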