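import Pool.Agent.Helper54.EVL.StI
import Pool.Agent.Helper54.HQ.Base

/-!
# EV, module Fm: the quadratic relation (assembly)
-/

set_option autoImplicit false

namespace Pool.Agent.Helper54.EVL

open Polynomial Finset Filter Topology Matrix IsDedekindDomain
open Pool.Agent.Helper3.HY (co tau baseChange descentGroup)
open Pool.Agent.Helper54.HQ (Prm pz factPrm fK RR LL algRL th kp red Bf EvenAt om ep
  Over IsQ At2 IsSym hasse IsOrth lg ur v2 hs hs2 hsR StHa1 StHa StHc StHd StHe StHf StHk natDegree_fK)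
open Pool.Agent.Helper3.EV (Jx TType AType IType Reg Good)

/-- the form `τ(z x y)` -/
private noncomputable def bf_Fm {K : Type} [Field K] {h : K[X]} (hm : h.Monic)
    (z : AdjoinRoot h) : LinearMap.BilinForm K (AdjoinRoot h) :=
  LinearMap.mk₂ K (fun x y => tau hm (z * x * y))
    (by intro a b c; rw [mul_add, add_mul, map_add])
    (by intro c a b; rw [mul_smul_comm, smul_mul_assoc, map_smul])
    (by intro a b c; rw [mul_add, map_add])
    (by intro c a b; rw [mul_smul_comm, map_smul])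

private theorem bf_apply_Fm {K : Type} [Field K] {h : K[X]} (hm : h.Monic)
    (z x y : AdjoinRoot h) : bf_Fm hm z x y = tau hm (z * x * y) := rfl

private theorem bf_symm_Fm {K : Type} [Field K] {h : K[X]} (hm : h.Monic)
    (z x y : AdjoinRoot h) : bf_Fm hm z x y = bf_Fm hm z y x := by
  rw [bf_apply_Fm, bf_apply_Fm, mul_assoc, mul_comm x y, ← mul_assoc]

private theorem hasse_eq_Fm (h1 : StHa1) (h2 : StHa) {K : Type} [Field K]
    {s : K → K → ZMod 2} (hs : IsSym K s) (h20 : (2 : K) ≠ 0) {h : K[X]} (hm : h.Monic)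
    (z : AdjoinRoot h) {n : ℕ} {e e' : Module.Basis (Fin n) K (AdjoinRoot h)}
    {a a' : Fin n → K} (he : IsOrth hm z e a) (he' : IsOrth hm z e' a') :
    hasse s a = hasse s a' := by
  have h3 := h2 h1 K s hs h20 (AdjoinRoot h) (bf_Fm hm z) (bf_symm_Fm hm z) n e e'
    he.orth he'.orth (fun i => by rw [bf_apply_Fm, he.norm]; exact he.ne i)
    (fun i => by rw [bf_apply_Fm, he'.norm]; exact he'.ne i)
  have e1 : (fun i => bf_Fm hm z (e i) (e i)) = a := funext fun i => he.norm i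
  have e2 : (fun i => bf_Fm hm z (e' i) (e' i)) = a' := funext fun i => he'.norm i
  rwa [e1, e2] at h3

private theorem hasse_split_Fm (h3 : StFb) {K : Type} [Field K]
    {s : K → K → ZMod 2} (hs : IsSym K s) (h20 : (2 : K) ≠ 0) {h : K[X]} (hm : h.Monic)
    (z : AdjoinRoot h) {g : ℕ} {e : Module.Basis (Jx g) K (AdjoinRoot h)}
    {a : Jx g → K} (he : IsOrth hm z e a) {c : K} (hc : c ≠ 0)
    (hac : ∏ i, a i = (-1) ^ (g + 1) * c ^ 2)
    (hX : ∃ X : Submodule K (AdjoinRoot h), Module.finrank K X = g ∧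
      ∀ x ∈ X, ∀ y ∈ X, tau hm (z * x * y) = 0) :
    hasse s a = ((g + 1).choose 2 : ZMod 2) * s (-1) (-1) := by
  have e1 : (fun i => bf_Fm hm z (e i) (e i)) = a := funext fun i => he.norm i
  have h4 := h3 K s hs h20 (AdjoinRoot h) (bf_Fm hm z) (bf_symm_Fm hm z) g e
    he.orth (fun i => by rw [bf_apply_Fm, he.norm]; exact he.ne i)
    ⟨c, hc, by rw [← hac]; exact Finset.prod_congr rfl fun i _ => he.norm i⟩ hX
  rwa [e1] at h4

private theorem v2_unit_Fm (p : ℕ) [hp : Fact p.Prime] {x : ℚ_[p]} (hx : ‖x‖ = 1) :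
    v2 p x = 0 := by
  have hx0 : x ≠ 0 := by
    intro h
    rw [h, norm_zero] at hx
    exact zero_ne_one hx
  have h1 := Padic.norm_eq_zpow_neg_valuation hx0
  rw [hx] at h1
  have hp1 : (1 : ℝ) < p := by exact_mod_cast hp.out.one_lt
  have h2 : x.valuation = 0 := by
    have h3 := (zpow_eq_one_iff_right₀ (by positivity : (0 : ℝ) ≤ p) (ne_of_gt hp1)).1 h1.symm
    omega
  unfold v2
  rw [h2]
  rfl

private theorem hs_unit_Fm (p : ℕ) [hp : Fact p.Prime] {x y : ℚ_[p]} (hx : ‖x‖ = 1)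
    (hy : ‖y‖ = 1) : hs p x y = 0 := by
  unfold hs
  rw [v2_unit_Fm p hx, v2_unit_Fm p hy]
  ring

private theorem hasse_unit_Fm (p : ℕ) [hp : Fact p.Prime] {n : ℕ} {a : Fin n → ℚ_[p]}
    (ha : ∀ i, ‖a i‖ = 1) : hasse (hs p) a = 0 := by
  unfold hasse
  refine Finset.sum_eq_zero fun x _ => ?_
  split_ifs
  · exact hs_unit_Fm p (ha _) (ha _)
  · rfl

private theorem over_unique_Fm {f : ℤ[X]} [Fact (Irreducible (fK f))]
    [IsDedekindDomain (RR f)] [IsFractionRing (RR f) (LL f)] {P P' : Prm}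
    {v : HeightOneSpectrum (RR f)} (h : Over P v) (h' : Over P' v) : P = P' := by
  by_contra hne
  have hcop : IsCoprime (pz P) (pz P') := by
    rw [Int.isCoprime_iff_gcd_eq_one]
    have h1 : Nat.Coprime (P : ℕ) (P' : ℕ) :=
      (Nat.coprime_primes P.2 P'.2).2 fun h => hne (Subtype.ext h)
    simpa [pz] using h1
  obtain ⟨u, w, huw⟩ := hcop
  have h2 : Int.castRingHom (RR f) 1 ∈ v.asIdeal := by
    rw [← huw, map_add, map_mul, map_mul]
    exact v.asIdeal.add_mem (v.asIdeal.mul_mem_left _ h) (v.asIdeal.mul_mem_left _ h')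
  rw [map_one] at h2
  exact v.isPrime.ne_top ((Ideal.eq_top_iff_one _).2 h2)

private theorem val_zero_Fm (P : Prm) {x : ℚ}
    (hP : ¬ (P : ℕ) ∣ x.num.natAbs * x.den) : padicValRat (P : ℕ) x = 0 := by
  have h1 : ¬ (P : ℕ) ∣ x.num.natAbs := fun h => hP (h.mul_right _)
  have h2 : ¬ (P : ℕ) ∣ x.den := fun h => hP (h.mul_left _)
  rw [padicValRat, padicValInt, padicValNat.eq_zero_of_not_dvd h1,
    padicValNat.eq_zero_of_not_dvd h2]
  simp

open Classical in
/-- the set of primes -/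
private noncomputable def S_Fm (T : Finset Prm) {n : ℕ} (a : Fin n → ℚ) : Finset Prm :=
  T ∪ ((univ.biUnion fun i => ((a i).num.natAbs * (a i).den).primeFactors).subtype
    Nat.Prime).filter (fun P => (P : ℕ) ≠ 2)

private theorem subset_S_Fm (T : Finset Prm) {n : ℕ} (a : Fin n → ℚ) : T ⊆ S_Fm T a :=
  Finset.subset_union_left

private theorem odd_S_Fm {T : Finset Prm} {n : ℕ} (a : Fin n → ℚ)
    (hT : ∀ P ∈ T, (P : ℕ) ≠ 2) : ∀ P ∈ S_Fm T a, (P : ℕ) ≠ 2 := by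
  intro P hP
  unfold S_Fm at hP
  rcases Finset.mem_union.1 hP with h | h
  · exact hT P h
  · exact (Finset.mem_filter.1 h).2

private theorem mem_S_Fm {T : Finset Prm} {n : ℕ} {a : Fin n → ℚ} (ha : ∀ i, a i ≠ 0)
    {P : Prm} (hP : (P : ℕ) ≠ 2) {i : Fin n} (h : padicValRat (P : ℕ) (a i) ≠ 0) :
    P ∈ S_Fm T a := by
  unfold S_Fm
  refine Finset.mem_union_right _ (Finset.mem_filter.2 ⟨Finset.mem_subtype.2
    (Finset.mem_biUnion.2 ⟨i, Finset.mem_univ _, ?_⟩), hP⟩)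
  rw [Nat.mem_primeFactors]
  refine ⟨P.2, ?_, ?_⟩
  · by_contra hd
    exact h (val_zero_Fm P hd)
  · exact mul_ne_zero (Int.natAbs_ne_zero.2 (Rat.num_ne_zero.2 (ha i))) (Rat.den_ne_zero _)

private theorem prod_formula_Fm (h7 : StHf) {T : Finset Prm} {n : ℕ} {a : Fin n → ℚ}
    (ha : ∀ i, a i ≠ 0) (hT : ∀ P ∈ T, (P : ℕ) ≠ 2) :
    ∑ P ∈ S_Fm T a, hasse (hs (P : ℕ)) (fun i => (a i : ℚ_[(P : ℕ)])) +
      hasse hs2 (fun i => (a i : ℚ_[2])) + hasse hsR (fun i => (a i : ℝ)) = 0 := by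
  unfold hasse
  rw [Finset.sum_comm, ← Finset.sum_add_distrib, ← Finset.sum_add_distrib]
  refine Finset.sum_eq_zero fun x _ => ?_
  by_cases hx : x.1 < x.2
  · simp only [if_pos hx]
    refine h7 (a x.1) (a x.2) (ha _) (ha _) (S_Fm T a) (odd_S_Fm a hT) ?_
    intro P hP hor
    rcases hor with h | h
    · exact mem_S_Fm ha hP h
    · exact mem_S_Fm ha hP h
  · simp only [if_neg hx, Finset.sum_const_zero, add_zero]

private theorem bc_orth_Fm (h12 : StHk) {K' : Type} [Field K'] (j : ℚ →+* K') {f : ℤ[X]}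
    (hm : f.Monic) {g : ℕ} {z : LL f} {e : Module.Basis (Jx g) ℚ (LL f)} {a : Jx g → ℚ}
    (hO : IsOrth (hm.map (Int.castRingHom ℚ)) z e a) :
    ∃ e' : Module.Basis (Jx g) K' (AdjoinRoot ((fK f).map j)),
      IsOrth ((hm.map (Int.castRingHom ℚ)).map j) (baseChange j (fK f) z) e'
        (fun i => j (a i)) :=
  h12 ℚ K' j (fK f) (hm.map (Int.castRingHom ℚ)) z _ e a hO

private theorem split_Fm (h3 : StFb) (h12 : StHk) {K' : Type} [Field K'] (j : ℚ →+* K')
    {s : K' → K' → ZMod 2} (hs : IsSym K' s) (h20 : (2 : K') ≠ 0) (h11 : s (-1) (-1) = 1)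
    {f : ℤ[X]} (hm : f.Monic) {g : ℕ} {z : LL f} {e : Module.Basis (Jx g) ℚ (LL f)}
    {a : Jx g → ℚ} (hO : IsOrth (hm.map (Int.castRingHom ℚ)) z e a) {c : ℚ} (hc : c ≠ 0)
    (hprod : ∏ i, a i = (-1) ^ (g + 1) * c ^ 2)
    (hX : ∃ X : Submodule K' (AdjoinRoot ((fK f).map j)), Module.finrank K' X = g ∧
      ∀ x ∈ X, ∀ y ∈ X, tau ((hm.map (Int.castRingHom ℚ)).map j)
        (baseChange j (fK f) z * x * y) = 0) :
    hasse s (fun i => j (a i)) = ((g + 1).choose 2 : ZMod 2) := by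
  obtain ⟨e', he'⟩ := bc_orth_Fm h12 j hm hO
  rw [hasse_split_Fm h3 hs h20 _ _ he' (c := j c) ((map_ne_zero j).2 hc)
    (by rw [← map_prod, hprod, map_mul, map_pow, map_pow, map_neg, map_one]) hX, h11, mul_one]

private theorem loc_Fm (h1 : StHa1) (h2 : StHa) (h12 : StHk) {K' : Type} [Field K']
    (j : ℚ →+* K') {s : K' → K' → ZMod 2} (hs : IsSym K' s) (h20 : (2 : K') ≠ 0)
    {f : ℤ[X]} (hm : f.Monic) {g : ℕ} {z : LL f} {e : Module.Basis (Jx g) ℚ (LL f)}
    {a : Jx g → ℚ} (hO : IsOrth (hm.map (Int.castRingHom ℚ)) z e a)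
    {e' : Module.Basis (Jx g) K' (AdjoinRoot ((fK f).map j))} {a' : Jx g → K'}
    (hO' : IsOrth ((hm.map (Int.castRingHom ℚ)).map j) (baseChange j (fK f) z) e' a') :
    hasse s (fun i => j (a i)) = hasse s a' := by
  obtain ⟨e'', he''⟩ := bc_orth_Fm h12 j hm hO
  exact hasse_eq_Fm h1 h2 hs h20 _ _ he'' hO'

private theorem two_Fm (h10 : StFi) {f : ℤ[X]} (hm : f.Monic) {g : ℕ} (hg : 1 ≤ g)
    (hirr : Irreducible (fK f)) (hdeg : f.natDegree = 2 * g + 2) (z : (LL f)ˣ) (hz : At2E z) :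
    ∃ X : Submodule ℚ_[2] (AdjoinRoot ((fK f).map (algebraMap ℚ ℚ_[2]))),
      Module.finrank ℚ_[2] X = g ∧ ∀ x ∈ X, ∀ y ∈ X,
        tau ((hm.map (Int.castRingHom ℚ)).map (algebraMap ℚ ℚ_[2]))
        (baseChange (algebraMap ℚ ℚ_[2]) (fK f) (z : LL f) * x * y) = 0 := by
  have h1 : ((fK f).map (algebraMap ℚ ℚ_[2])).natDegree = 2 * g + 2 := by
    rw [natDegree_map, natDegree_fK hm, hdeg]
  obtain ⟨c, u, hc, hu, hu2⟩ := hz
  unfold At2 at hu2
  obtain ⟨X, hX1, hX2⟩ := h10 ℚ_[2] two_ne_zero g hg ((fK f).map (algebraMap ℚ ℚ_[2]))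
    ((hm.map (Int.castRingHom ℚ)).map (algebraMap ℚ ℚ_[2])) hirr.separable.map h1 _ hu2
  refine ⟨X, hX1, fun x hx y hy => ?_⟩
  have h3 := hX2 x hx y hy
  rw [Units.coe_map] at h3
  have h4 : ((baseChange (algebraMap ℚ ℚ_[2]) (fK f) : LL f →* _) (u : LL f)) =
      (c : ℚ_[2]) • baseChange (algebraMap ℚ ℚ_[2]) (fK f) (z : LL f) := by
    show baseChange (algebraMap ℚ ℚ_[2]) (fK f) (u : LL f) = _
    rw [hu, map_mul, map_intCast, Algebra.smul_def, map_intCast]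
  rw [h4, smul_mul_assoc, smul_mul_assoc, map_smul, smul_eq_mul] at h3
  exact (mul_eq_zero.1 h3).resolve_left (Int.cast_ne_zero.2 hc)

theorem hFm (h1 : Pool.Agent.Helper54.HQ.StHa1) (h2 : Pool.Agent.Helper54.HQ.StHa) (h3 : StFb)
    (h4 : Pool.Agent.Helper54.HQ.StHc) (h5 : Pool.Agent.Helper54.HQ.StHd)
    (h6 : Pool.Agent.Helper54.HQ.StHe) (h7 : Pool.Agent.Helper54.HQ.StHf) (h8 : StFg) (h9 : StFh)
    (h10 : StFi) (h11 : StFj) (h12 : Pool.Agent.Helper54.HQ.StHk) (h13 : StFl) : StFm := by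
  classical
  intro g H hg hH f hf _ _ _ T hT q hq
  have hirr : Irreducible (fK f) := Fact.out
  have hm : f.Monic := hf.1
  have hdeg : f.natDegree = 2 * g + 2 := hf.2.1
  have hcP : ∀ P : Prm, ∃ cP : ZMod 2, P ∈ T → ∀ z : LL f, z ≠ 0 →
      IsSquare (Algebra.norm ℚ z) → (∀ v, Over P v → v ≠ q P → EvenAt v z) → om (q P) z = 1 →
      ∃ (e : Module.Basis (Jx g) ℚ_[(P : ℕ)]
        (AdjoinRoot ((fK f).map (algebraMap ℚ ℚ_[(P : ℕ)])))) (a : Jx g → ℚ_[(P : ℕ)]),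
      IsOrth ((hm.map (Int.castRingHom ℚ)).map (algebraMap ℚ ℚ_[(P : ℕ)]))
        (baseChange (algebraMap ℚ ℚ_[(P : ℕ)]) (fK f) z) e a ∧
      hasse (hs (P : ℕ)) a = ep P (q P) z + cP := by
    intro P
    by_cases hP : P ∈ T
    · obtain ⟨cP, hc⟩ := h9 g hg f hm hdeg P (hT P hP).1 (hT P hP).2 (q P) (hq P hP)
      exact ⟨cP, fun _ => hc⟩
    · exact ⟨0, fun h => absurd h hP⟩
  choose c hc using hcP
  refine ⟨c, ?_⟩
  intro z hsq hev hAt2
  have hz : (z : LL f) ≠ 0 := z.ne_zero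
  obtain ⟨e, a, c0, hO, hc0, hprod⟩ := h13 g f hm hdeg (z : LL f) hz hsq
  have hpf := prod_formula_Fm h7 (T := T) hO.ne fun P hP => (hT P hP).1
  have h2Q : ∀ (p : ℕ) [Fact p.Prime], (2 : ℚ_[p]) ≠ 0 := fun p _ => two_ne_zero
  have hcast : ∀ (K' : Type) [Field K'] [Algebra ℚ K'],
      (fun i => ((a i : ℚ) : K')) = fun i => algebraMap ℚ K' (a i) :=
    fun K' _ _ => funext fun i => (eq_ratCast _ _).symm
  have hcg : (((g + 1).choose 2 : ZMod 2)) + ((g + 1).choose 2 : ZMod 2) = 0 := CharTwo.add_self_eq_zero _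
  have hA : hasse hs2 (fun i => (a i : ℚ_[2])) = ((g + 1).choose 2 : ZMod 2) := by
    rw [hcast ℚ_[2]]
    exact split_Fm h3 h12 _ h5.1 (h2Q 2) h5.2 hm hO hc0 hprod
      (two_Fm h10 hm hg hirr hdeg z hAt2)
  have hB : hasse hsR (fun i => (a i : ℝ)) = ((g + 1).choose 2 : ZMod 2) := by
    rw [hcast ℝ]
    exact split_Fm h3 h12 _ h6.1 two_ne_zero h6.2 hm hO hc0 hprod
      (h11 g H hg hH f hf ((hm.map (Int.castRingHom ℚ)).map (algebraMap ℚ ℝ)) hirr _)
  rw [hA, hB, add_assoc, hcg, add_zero] at hpf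
  -- the odd primes
  have hC : ∀ P ∈ S_Fm T a, hasse (hs (P : ℕ)) (fun i => (a i : ℚ_[(P : ℕ)])) =
      if P ∈ T then om (q P) (z : LL f) * (ep P (q P) (z : LL f) + c P) else 0 := by
    intro P hPS
    have hP2 : (P : ℕ) ≠ 2 := odd_S_Fm a (fun P hP => (hT P hP).1) P hPS
    rw [hcast ℚ_[(P : ℕ)]]
    have hunit : (∀ v, Over P v → EvenAt v (z : LL f)) →
        hasse (hs (P : ℕ)) (fun i => algebraMap ℚ ℚ_[(P : ℕ)] (a i)) = 0 := by
      intro hv
      obtain ⟨e'', a'', hO'', hn⟩ := h8 g hg f hm hdeg P (z : LL f) hP2 hz hv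
      rw [loc_Fm h1 h2 h12 _ (h4 (P : ℕ) hP2) (h2Q (P : ℕ)) hm hO hO'']
      exact hasse_unit_Fm (P : ℕ) hn
    by_cases hPT : P ∈ T
    · rw [if_pos hPT]
      have hoth : ∀ v, Over P v → v ≠ q P → EvenAt v (z : LL f) := by
        intro v hv hvq
        refine hev v fun P' hP' hvq' => hvq ?_
        have h21 : Over P' v := by rw [hvq']; exact (hq P' hP').1
        rw [hvq', over_unique_Fm hv h21]
      by_cases hE : EvenAt (q P) (z : LL f)
      · have hom : om (q P) (z : LL f) = 0 := by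
          unfold om
          rw [if_pos hE]
        rw [hom, zero_mul]
        refine hunit fun v hv => ?_
        by_cases hvq : v = q P
        · rw [hvq]; exact hE
        · exact hoth v hv hvq
      · have hom : om (q P) (z : LL f) = 1 := by
          unfold om
          rw [if_neg hE]
        obtain ⟨e'', a'', hO'', hh⟩ := hc P hPT (z : LL f) hz hsq hoth hom
        rw [hom, one_mul, ← hh]
        exact loc_Fm h1 h2 h12 _ (h4 (P : ℕ) hP2) (h2Q (P : ℕ)) hm hO hO''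
    · rw [if_neg hPT]
      refine hunit fun v hv => hev v fun P' hP' hvq => hPT ?_
      have h21 : Over P' v := by rw [hvq]; exact (hq P' hP').1
      rw [over_unique_Fm hv h21]
      exact hP'
  rw [Finset.sum_congr rfl hC, ← Finset.sum_filter, Finset.filter_mem_eq_inter,
    Finset.inter_eq_right.2 (subset_S_Fm T a)] at hpf
  exact hpf

end Pool.Agent.Helper54.EVL
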