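import Pool.Agent.Helper54.EVL.StI

/-!
# EV module Fo: polarisation
-/

set_option autoImplicit false

namespace Pool.Agent.Helper54.EVL

open Polynomial Finset IsDedekindDomain
open Pool.Agent.Helper54.HQ (Prm pz fK RR LL kp red EvenAt om ep Over IsQ At2)
open Pool.Agent.Helper3.EV (TType Reg)

theorem hFo (h1 : StFm) (h2 : StEi5) : StFo := by
  intro g H hg hH f hf _ _ _ T hT q hq z w hzn hwn hz hw hz2 hw2
  obtain ⟨c, hc⟩ := h1 g H hg hH f hf T hT q hq
  have hzw := hc (z * w) (by rw [Units.val_mul, map_mul]; exact hzn.mul hwn)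
    (by
      intro v hv
      have a := hz v hv
      have b := hw v hv
      unfold EvenAt at a b ⊢
      rw [Units.val_mul, map_mul]
      exact a.mul b)
    (by
      obtain ⟨c1, u1, hc1, hu1, ha1⟩ := hz2
      obtain ⟨c2, u2, hc2, hu2, ha2⟩ := hw2
      refine ⟨c1 * c2, u1 * u2, mul_ne_zero hc1 hc2, ?_, ?_⟩
      · rw [Units.val_mul, Units.val_mul, hu1, hu2]
        push_cast
        ring
      · unfold At2 at ha1 ha2 ⊢
        rw [map_mul]
        exact mul_mem ha1 ha2)
  have e1 := hc z hzn hz hz2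
  have e2 := hc w hwn hw hw2
  have key : ∑ P ∈ T, (om (q P) (z : LL f) * ep P (q P) (w : LL f) +
        om (q P) (w : LL f) * ep P (q P) (z : LL f)) =
      ∑ P ∈ T, om (q P) ((z * w : (LL f)ˣ) : LL f) *
          (ep P (q P) ((z * w : (LL f)ˣ) : LL f) + c P) -
        ∑ P ∈ T, om (q P) (z : LL f) * (ep P (q P) (z : LL f) + c P) -
        ∑ P ∈ T, om (q P) (w : LL f) * (ep P (q P) (w : LL f) + c P) := by
    rw [← Finset.sum_sub_distrib, ← Finset.sum_sub_distrib]
    refine Finset.sum_congr rfl fun P hP => ?_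
    obtain ⟨k1, k2⟩ := h2 g hg f hf.1 P (hT P hP).1 (hT P hP).2 (q P) (hq P hP) z w z.ne_zero
      w.ne_zero
    rw [Units.val_mul, k1, k2]
    ring
  rw [key, hzw, e1, e2]
  ring

end Pool.Agent.Helper54.EVL
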