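import Pool.Agent.Helper54.EVL.StI
import Pool.Agent.Helper54.HQ.Base
import Pool.Agent.Helper3.HY.Tw

/-!
# EV, module Ft: the twist with trivial Selmer group
-/

set_option autoImplicit false

namespace Pool.Agent.Helper54.EVL

open Polynomial Finset Filter Topology Matrix IsDedekindDomain
open Pool.Agent.Helper3.HY (co tau baseChange descentGroup IsPointValue IsTwPoint twGroup coord_lemma)
open Pool.Agent.Helper54.HL (tk IrrInt IrrBig Nr Rep RepA RepB pr pr_mk IsTwIrr RootLift)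
open Pool.Agent.Helper54.HQ (Prm pz factPrm fK RR LL algRL th kp red Bf NearOne LocSq TwAt EvenAt om ep
  Over IsQ LD At2 IsSym hasse IsOrth lg ur v2 hs hs2 hsR pz_ne_zero pz_prime natDegree_fK)
open Pool.Agent.Helper3.EV (Jx TType AType IType Reg Good)

private lemma prm_eq_Ft {P Q : Prm} (h : pz P ∣ pz Q) : P = Q := by
  have h1 : (P : ℕ) ∣ (Q : ℕ) := by exact_mod_cast h
  exact Subtype.ext ((Nat.prime_dvd_prime_iff_eq P.2 Q.2).1 h1)

private theorem over_unique_Ft {f : ℤ[X]} [Fact (Irreducible (fK f))]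
    [IsDedekindDomain (RR f)] [IsFractionRing (RR f) (LL f)] {P P' : Prm}
    {v : HeightOneSpectrum (RR f)} (h : Over P v) (h' : Over P' v) : P = P' := by
  by_contra hne
  have hcop : IsCoprime (pz P) (pz P') := by
    rw [Int.isCoprime_iff_gcd_eq_one]
    have h1 : Nat.Coprime (P : ℕ) (P' : ℕ) :=
      (Nat.coprime_primes P.2 P'.2).2 fun h => hne (Subtype.ext h)
    simpa [pz] using h1
  obtain ⟨u, w, huw⟩ := hcop
  have h2 : Int.castRingHom (RR f) 1 ∈ v.asIdeal := by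
    rw [← huw, map_add, map_mul, map_mul]
    exact v.asIdeal.add_mem (v.asIdeal.mul_mem_left _ h) (v.asIdeal.mul_mem_left _ h')
  rw [map_one] at h2
  exact v.isPrime.ne_top ((Ideal.eq_top_iff_one _).2 h2)

/-- `TType` and `IType` are disjoint. -/
private lemma disj_Ft {k : Type} [Field k] {g : ℕ} (hg : 1 ≤ g) {h : k[X]}
    (h1 : h ∈ TType k g) (h2 : h ∈ IType k g) : False := by
  obtain ⟨a, b, p, -, hp, -, hpd, he⟩ := h1
  obtain ⟨-, hirr, hd⟩ := h2
  rw [he] at hirr hd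
  rcases hirr.isUnit_or_isUnit rfl with h | h
  · rcases (isUnit_of_mul_isUnit_left h) |> natDegree_eq_zero_of_isUnit with h3
    rw [natDegree_X_sub_C] at h3
    exact one_ne_zero h3
  · have h3 := natDegree_eq_zero_of_isUnit h
    omega

/-- Norms of natural numbers times an element. -/
private lemma norm_sq_Ft {f : ℤ[X]} (hm : f.Monic) [Fact (Irreducible (fK f))] {g : ℕ}
    (hdeg : f.natDegree = 2 * g + 2) (c : ℕ) {z : LL f} (hz : IsSquare (Algebra.norm ℚ z)) :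
    IsSquare (Algebra.norm ℚ ((c : LL f) * z)) := by
  have hmK : (fK f).Monic := hm.map (Int.castRingHom ℚ)
  have hfin : Module.finrank ℚ (LL f) = 2 * g + 2 := by
    change Module.finrank ℚ (AdjoinRoot (fK f)) = _
    rw [(AdjoinRoot.powerBasis' hmK).finrank, AdjoinRoot.powerBasis'_dim, natDegree_fK hm, hdeg]
  have e : (c : LL f) = algebraMap ℚ (LL f) (c : ℚ) := by rw [map_natCast]
  rw [map_mul, e, Algebra.norm_algebraMap, hfin]
  refine IsSquare.mul ⟨(c : ℚ) ^ (g + 1), ?_⟩ hz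
  rw [← pow_add]
  congr 1
  omega

/-- Multiplication by constants in the group of the twist. -/
private lemma tw_mul_Ft {f : ℤ[X]} [Fact (Irreducible (fK f))] {D : ℤ} {p : ℕ} [Fact p.Prime]
    {c : ℕ} {z u : (LL f)ˣ} (hu : (u : LL f) = (c : LL f) * (z : LL f)) (h : TwAtE f D p z) :
    TwAtE f D p u := by
  have hc0 : (c : LL f) ≠ 0 := by
    intro h0
    rw [h0, zero_mul] at hu
    exact u.ne_zero hu
  have e : u = Units.mk0 (c : LL f) hc0 * z := Units.ext (by rw [Units.val_mul, Units.val_mk0, hu])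
  unfold TwAtE at *
  rw [e, map_mul]
  refine Subgroup.mul_mem _ (Subgroup.subset_closure (Or.inl (Or.inr ⟨(c : ℚ_[p]), ?_⟩))) h
  change baseChange (algebraMap ℚ ℚ_[p]) (fK f) (c : LL f) = _
  rw [map_natCast, map_natCast]

open Classical in
theorem hFt (h1 : Pool.Agent.Helper54.HQ.StOver) (h2 : StEtri) (h3 : StEi1) (h4 : StEi2)
    (h5 : StEi3) (h6 : StEi4) (h7 : StEat) (h8 : StEit) (h9 : StEnz) (h10 : StEls) (h11 : StFo)
    (h12 : StF2) : StFt := by
  intro g H hg hH P₀ hP8 T hT8 f hf _ _ _ htriv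
  obtain ⟨hreg, hA2, hI0, hT, -⟩ := hf
  have hm : f.Monic := hreg.1
  have hdeg : f.natDegree = 2 * g + 2 := hreg.2.1
  have hT2 : ∀ P ∈ T, (P : ℕ) ≠ 2 := by
    intro P hP h
    have := hT8 P hP
    rw [h] at this
    omega
  have hP2 : (P₀ : ℕ) ≠ 2 := by
    intro h
    rw [h] at hP8
    omega
  have hP0T : P₀ ∉ T := fun h => disj_Ft hg (hT P₀ h) hI0
  have hqex : ∀ P : Prm, ∃ q : HeightOneSpectrum (RR f), P ∈ T → IsQ g P q := by
    intro P
    by_cases hP : P ∈ T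
    · obtain ⟨q, hq⟩ := (h2 g hg f hm P (hT P hP)).1
      exact ⟨q, fun _ => hq⟩
    · exact ⟨(h1 f hm).1.some, fun h => absurd h hP⟩
  choose q hq using hqex
  have hηex : ∀ P : Prm, ∃ η : ZMod 2, P ∈ T → ∀ D : ℤ, ¬ pz P ∣ D →
      ∀ z : (LL f)ˣ, TwAtE f (pz P * D) (P : ℕ) z →
      (∀ v, Over P v → v ≠ q P → EvenAt v (z : LL f)) →
      (om (q P) (z : LL f) = 0 ∧ ep P (q P) (z : LL f) = 0) ∨
        (om (q P) (z : LL f) = 1 ∧ ep P (q P) (z : LL f) = η) := by
    intro P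
    by_cases hP : P ∈ T
    · obtain ⟨η, hη⟩ := h6 g hg f hm P (hT2 P hP) (hT P hP) (q P) (hq P hP)
      exact ⟨η, fun _ => hη⟩
    · exact ⟨0, fun h => absurd h hP⟩
  choose η hη using hηex
  let X : Set (T → ZMod 2 × ZMod 2) := {x | ∃ z : (LL f)ˣ,
    IsSquare (Algebra.norm ℚ (z : LL f)) ∧ (∀ v, (∀ P ∈ T, v ≠ q P) → EvenAt v (z : LL f)) ∧
    At2E z ∧ ∀ P : T, x P = (om (q P) (z : LL f), ep P.1 (q P) (z : LL f))}
  have hXiso : ∀ x ∈ X, ∀ y ∈ X, ∑ i, ((x i).1 * (y i).2 + (y i).1 * (x i).2) = 0 := by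
    rintro x ⟨z, hzN, hze, hz2, hzx⟩ y ⟨w, hwN, hwe, hw2, hwy⟩
    have := h11 g H hg hH f hreg T (fun P hP => ⟨hT2 P hP, hT P hP⟩) q hq z w hzN hwN hze hwe hz2
      hw2
    rw [← this, ← sum_coe_sort T]
    exact sum_congr rfl fun P _ => by rw [hzx P, hwy P]
  obtain ⟨R₀, hR₀⟩ := coord_lemma X hXiso fun P => η P.1
  set R : Finset Prm := R₀.map (Function.Embedding.subtype _) with hR
  have hRT : R ⊆ T := by
    intro P hP
    obtain ⟨Q, -, rfl⟩ := Finset.mem_map.1 hP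
    exact Q.2
  have hmemR : ∀ P : T, P.1 ∈ R ↔ P ∈ R₀ := by
    intro P
    rw [hR, Finset.mem_map]
    constructor
    · rintro ⟨Q, hQ1, hQ2⟩
      have : Q = P := Subtype.ext hQ2
      rwa [← this]
    · intro h; exact ⟨P, h, rfl⟩
  refine ⟨R, hRT, ?_⟩
  set D : ℤ := pz P₀ * ∏ P ∈ R, pz P with hD
  have hD8 : D % 8 = 1 := by
    have key : ∀ S : Finset Prm, S ⊆ T → (∏ P ∈ S, pz P) % 8 = 1 := by
      intro S
      induction S using Finset.induction_on with
      | empty => intro _; simp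
      | insert a s ha ih =>
        intro hs
        rw [prod_insert ha, Int.mul_emod, ih fun P hP => hs (mem_insert_of_mem hP)]
        have h3 : pz a % 8 = 1 := by
          have := hT8 a (hs (mem_insert_self a s))
          have h4 : (((a : ℕ) % 8 : ℕ) : ℤ) = 1 := by rw [this]; rfl
          push_cast at h4
          exact h4
        rw [h3]
        norm_num
    have h3 : pz P₀ % 8 = 1 := by
      have h4 : (((P₀ : ℕ) % 8 : ℕ) : ℤ) = 1 := by rw [hP8]; rfl
      push_cast at h4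
      exact h4
    rw [hD, Int.mul_emod, key R hRT, h3]
    norm_num
  intro z hzN hzv
  have hz0 : (z : LL f) ≠ 0 := z.ne_zero
  -- divisibility of D
  have hnd : ∀ P : Prm, P ≠ P₀ → P ∉ R → ¬ pz P ∣ D := by
    intro P hP0 hP h
    rw [hD] at h
    rcases (pz_prime P).dvd_or_dvd h with h | h
    · exact hP0 (prm_eq_Ft h)
    · obtain ⟨Q, hQ1, hQ2⟩ := (pz_prime P).exists_mem_finset_dvd h
      exact hP (prm_eq_Ft hQ2 ▸ hQ1)
  have hsplit : ∀ P ∈ R, ∃ D' : ℤ, D = pz P * D' ∧ ¬ pz P ∣ D' := by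
    intro P hP
    refine ⟨pz P₀ * ∏ Q ∈ R.erase P, pz Q, ?_, ?_⟩
    · rw [hD, ← mul_prod_erase R (fun Q => pz Q) hP]
      ring
    · intro h
      rcases (pz_prime P).dvd_or_dvd h with h | h
      · exact hP0T (prm_eq_Ft h ▸ hRT hP)
      · obtain ⟨Q, hQ1, hQ2⟩ := (pz_prime P).exists_mem_finset_dvd h
        exact (mem_erase.1 hQ1).1 (prm_eq_Ft hQ2).symm
  -- normalisation
  let E : Set (HeightOneSpectrum (RR f)) := {v | ∃ P ∈ T, v = q P}
  have hnorm : ∀ P : Prm, ∃ j : ℕ, ∀ v, Over P v → v ∉ E →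
      EvenAt v (((pz P : ℤ) : LL f) ^ j * (z : LL f)) := by
    intro P
    by_cases hPT : P ∈ T
    · obtain ⟨j, hj⟩ := h3 g hg f hm P (hT2 P hPT) (hT P hPT) (q P) (hq P hPT) z hz0 hzN
      exact ⟨j, fun v hv hvE => hj v hv fun h => hvE ⟨P, hPT, h⟩⟩
    by_cases hPP : P = P₀
    · subst hPP
      obtain ⟨j, hj⟩ := h8 g hg f hm P hI0 z hz0
      exact ⟨j, fun v hv _ => hj v hv⟩
    by_cases hPtwo : (P : ℕ) = 2
    · obtain rfl : P = ⟨2, Nat.prime_two⟩ := Subtype.ext hPtwo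
      obtain ⟨j, hj⟩ := h7 g hg f hm ⟨2, Nat.prime_two⟩ hA2 z hz0 hzN
      exact ⟨j, fun v hv _ => hj v hv⟩
    · obtain ⟨j, hj⟩ := h4 f hm P D hPtwo (hnd P hPP fun h => hPT (hRT h)) z (hzv P)
      exact ⟨j, fun v hv _ => hj v hv⟩
  obtain ⟨c, hc0, hcE⟩ := h9 f hm E z hz0 hnorm
  have hcL : (c : LL f) ≠ 0 := by
    have e : (c : LL f) = algebraMap ℚ (LL f) (c : ℚ) := by rw [map_natCast]
    rw [e]
    exact (map_ne_zero_iff _ (algebraMap ℚ (LL f)).injective).2 (Nat.cast_ne_zero.2 hc0)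
  let u : (LL f)ˣ := Units.mk0 ((c : LL f) * (z : LL f)) (mul_ne_zero hcL hz0)
  have huz : (u : LL f) = (c : LL f) * (z : LL f) := rfl
  have hu0 : (u : LL f) ≠ 0 := u.ne_zero
  have huN : IsSquare (Algebra.norm ℚ (u : LL f)) := by
    rw [huz]
    exact norm_sq_Ft hm hdeg c hzN
  have huv : ∀ (p : ℕ) [Fact p.Prime], TwAtE f D p u := fun p _ => tw_mul_Ft huz (hzv p)
  have hu2 : At2E u := h12 f D hm hD8 u (huv 2)
  have heven : ∀ v, (∀ P ∈ T, v ≠ q P) → EvenAt v (u : LL f) := by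
    intro v hv
    rw [huz]
    refine hcE v ?_
    rintro ⟨P, hP, h⟩
    exact hv P hP h
  have hloc : ∀ P ∈ T, ∀ v, Over P v → v ≠ q P → EvenAt v (u : LL f) := by
    intro P hP v hv hne
    refine heven v fun Q hQ h => hne ?_
    have hOQ : Over Q v := by rw [h]; exact (hq Q hQ).1
    rw [over_unique_Ft hv hOQ]
    exact h
  have hx0 := hR₀ (fun P => (om (q P) (u : LL f), ep P.1 (q P) (u : LL f)))
    ⟨u, huN, heven, hu2, fun P => rfl⟩
    (by
      intro P hP
      have hPR : P.1 ∉ R := fun h => hP ((hmemR P).1 h)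
      have hP0 : P.1 ≠ P₀ := fun h => hP0T (h ▸ P.2)
      have h13 := h4 f hm P.1 D (hT2 P P.2) (hnd P.1 hP0 hPR) u (huv P.1)
      have := h5 g hg f hm P.1 (hT2 P P.2) (hT P P.2) (q P) (hq P P.2) u hu0
        (hloc P.1 P.2) h13
      simp only [om, if_pos this])
    (by
      intro P hP
      obtain ⟨D', hD', hD''⟩ := hsplit P.1 ((hmemR P).2 hP)
      have hz' := huv (P.1 : ℕ)
      rw [hD'] at hz'
      rcases hη P P.2 D' hD'' u hz' (hloc P.1 P.2) with h | h
      · left; exact Prod.ext h.1 h.2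
      · right; exact Prod.ext h.1 h.2)
  have hx0' : ∀ P (hP : P ∈ T), om (q P) (u : LL f) = 0 ∧ ep P (q P) (u : LL f) = 0 := by
    intro P hP
    have := congrFun hx0 ⟨P, hP⟩
    exact ⟨congrArg Prod.fst this, congrArg Prod.snd this⟩
  have hall : ∀ v, EvenAt v (u : LL f) := by
    intro v
    by_cases h : ∀ P ∈ T, v ≠ q P
    · exact heven v h
    · push Not at h
      obtain ⟨P, hP, rfl⟩ := h
      by_contra hne
      have := (hx0' P hP).1
      rw [om, if_neg hne] at this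
      exact one_ne_zero this
  obtain ⟨c', β, hβ⟩ := htriv u hu0 huN hall fun P hP =>
    h10 g hg f hm P (hT2 P hP) (hT P hP) (q P) (hq P hP) u hu0 huN (fun v _ => hall v)
      (hx0' P hP).2
  refine ⟨(c : ℤ) * c', β / (c : LL f), ?_⟩
  rw [huz] at hβ
  have e : (z : LL f) = (c' : LL f) * β ^ 2 / (c : LL f) := by
    rw [← hβ]
    field_simp
  rw [e]
  push_cast
  field_simp

end Pool.Agent.Helper54.EVL
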