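import Pool.Agent.Helper54.EVL.StL

/-!
# EV: isotropy of the Selmer classes (statements)

Hasse invariants of the forms `τ(z x²)` on `L`, `dim L = 2 g + 2`.  The symbols `hs`, `hs2`, `hsR`, `hasse`,
`IsOrth` and the product formula `StHf` are those of `HQ/StI.lean`.
-/

set_option autoImplicit false

namespace Pool.Agent.Helper54.EVL

open Polynomial Finset Filter Topology Matrix IsDedekindDomain
open Pool.Agent.Helper3.HY (co tau baseChange descentGroup IsPointValue IsTwPoint twGroup)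
open Pool.Agent.Helper54.HL (tk IrrInt IrrBig Nr Rep RepA RepB pr pr_mk IsTwIrr RootLift)
open Pool.Agent.Helper54.HQ (Prm pz factPrm fK RR LL algRL th kp red Bf NearOne LocSq TwAt EvenAt om ep
  Over IsQ LD At2 IsSym hasse IsOrth lg ur v2 hs hs2 hsR)
open Pool.Agent.Helper3.EV (Jx TType AType IType Reg Good)

/-- (Fb) Split forms.  `X` is totally isotropic of dimension `g` in a nondegenerate space of dimension
`2 g + 2` with discriminant `(-1)^(g+1)`.  As in `HQ.hHb` (`HQ/M_Hb.lean`): by induction on `g` there is an orthogonal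
basis with norms `1, -1, .., 1, -1` (`g` pairs) and `a, b`, `a b = - c²` up to squares; `HQ.StHa` (invariance).
`s(a, b) = s(a, -a) = 0` (squares drop out; `s(a, -a) = 0` follows from Steinberg),
`s(-1, a) + s(-1, b) = s(-1, -1)` for each of the `g` entries `-1`, so the invariant is
`(C(g,2) + g) s(-1,-1) = C(g+1,2) s(-1,-1)`.  (It is possible to reduce to `HQ.StHb`-style lemmas: the proof there
contains the hyperbolic plane splitting.) -/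
def StFb : Prop :=
  ∀ (K : Type) [Field K] (s : K → K → ZMod 2), IsSym K s → (2 : K) ≠ 0 →
    ∀ (V : Type) [AddCommGroup V] [Module K V] (B : LinearMap.BilinForm K V),
    (∀ x y, B x y = B y x) → ∀ (g : ℕ) (e : Module.Basis (Jx g) K V),
    (∀ i j, i ≠ j → B (e i) (e j) = 0) → (∀ i, B (e i) (e i) ≠ 0) →
    (∃ c : K, c ≠ 0 ∧ ∏ i, B (e i) (e i) = (-1) ^ (g + 1) * c ^ 2) →
    (∃ X : Submodule K V, Module.finrank K X = g ∧ ∀ x ∈ X, ∀ y ∈ X, B x y = 0) →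
    hasse s (fun i => B (e i) (e i)) = ((g + 1).choose 2 : ZMod 2) * s (-1) (-1)

/-- (Fcg) Discriminant.  `det (τ(θ^(i+j)))` is `(-1)^(N(N-1)/2)` (antitriangular with ones), `N = 2 g + 2`,
`N(N-1)/2 = (g+1)(2g+1) ≡ g + 1`.  Adapt `HQ/M_Cg.lean`. -/
def StFcg : Prop :=
  ∀ (g : ℕ) (f : ℤ[X]) (hm : f.Monic), f.natDegree = 2 * g + 2 →
    ∀ α : LL f, ∃ b : Module.Basis (Jx g) ℚ (LL f), (∀ i, b i = th f ^ (i : ℕ)) ∧
      (Matrix.of fun i j => Bf hm α (b i) (b j)).det = (-1) ^ (g + 1) * Algebra.norm ℚ α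

/-- (Fg) Even valuations: an orthogonal basis with unit norms.  Adapt `HQ.hHg` (`HQ/M_Hg.lean`) with Fcg
instead of `HQ.StCg` (`HQ.StHg0`, `HQ.StHg1` do not use the degree). -/
def StFg : Prop :=
  ∀ (g : ℕ), 1 ≤ g → ∀ (f : ℤ[X]) (hm : f.Monic), f.natDegree = 2 * g + 2 →
    ∀ [Fact (Irreducible (fK f))] [IsDedekindDomain (RR f)] [IsFractionRing (RR f) (LL f)]
      (P : Prm) (z : LL f), (P : ℕ) ≠ 2 → z ≠ 0 → (∀ v, Over P v → EvenAt v z) →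
    ∃ (e : Module.Basis (Jx g) ℚ_[(P : ℕ)]
        (AdjoinRoot ((fK f).map (algebraMap ℚ ℚ_[(P : ℕ)])))) (a : Jx g → ℚ_[(P : ℕ)]),
      IsOrth ((hm.map (Int.castRingHom ℚ)).map (algebraMap ℚ ℚ_[(P : ℕ)]))
        (baseChange (algebraMap ℚ ℚ_[(P : ℕ)]) (fK f) z) e a ∧ ∀ i, ‖a i‖ = 1

/-- (Fh1) Splitting off a root, in any degree.  As `HQ.hHh1` (`HQ/M_Hh1.lean`), with `2 g` replaced by `m`:
`h = (X - θ₀) g₂`, `deg g₂ = m ≥ 1`. -/
def StFh1 : Prop :=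
  ∀ (k : Type) [Field k] (m : ℕ), 1 ≤ m → ∀ (θ₀ : k) (g₂ : k[X]) (hg₂ : g₂.Monic),
    g₂.natDegree = m → g₂.eval θ₀ ≠ 0 → ∀ (h : k[X]) (hh : h.Monic) (hd₁ : X - C θ₀ ∣ h)
      (hd₂ : g₂ ∣ h), h = (X - C θ₀) * g₂ →
    ∀ (z : AdjoinRoot h) (z₁ : k), pr hd₁ z = algebraMap k _ z₁ → z₁ ≠ 0 →
    ∀ (e₂ : Module.Basis (Fin m) k (AdjoinRoot g₂)) (a₂ : Fin m → k),
    IsOrth hg₂ (pr hd₂ z * (AdjoinRoot.root g₂ - algebraMap k _ θ₀)) e₂ a₂ →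
    ∃ e : Module.Basis (Fin (m + 1)) k (AdjoinRoot h),
      IsOrth hh z e (fun i => if hi : (i : ℕ) < m then a₂ ⟨i, hi⟩ else z₁ * g₂.eval θ₀)

/-- (Fh3) Hasse invariant of `p ⟨u_i⟩ ⊕ ⟨u, u'⟩`.  With `l_i = lg (ur a_i)`: pairs `i < j < 2 g`:
`g (2g-1) lg(-1) + (2g-1) ∑_(i<2g) l_i = g lg(-1) + ∑_(i<2g) l_i`; pairs with one of the last two indices:
`2 g l = 0`; the pair of the last two: `0`.  The discriminant gives `∑_i l_i = (g+1) lg(-1)`.  Total: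
`lg(-1) + l_(2g) + l_(2g+1)`.  Adapt `HQ/M_Hh3.lean`. -/
def StFh3 : Prop :=
  ∀ (p : ℕ) [Fact p.Prime], p ≠ 2 → ∀ (g : ℕ), 1 ≤ g → ∀ a : Jx g → ℚ_[p], (∀ i, a i ≠ 0) →
    (∀ i : Jx g, (i : ℕ) < 2 * g → v2 p (a i) = 1) →
    (∀ i : Jx g, 2 * g ≤ (i : ℕ) → v2 p (a i) = 0) →
    (∃ c : ℚ_[p], c ≠ 0 ∧ ∏ i, a i = (-1) ^ (g + 1) * c ^ 2) →
    ∀ i₀ i₁ : Jx g, (i₀ : ℕ) = 2 * g → (i₁ : ℕ) = 2 * g + 1 → hasse (hs p) a =
      lg (-1 : ZMod p) + lg (PadicInt.toZMod (ur p (a i₀))) + lg (PadicInt.toZMod (ur p (a i₁)))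

/-- (Fh) The primes of `T`.  `f.map i = (X - θ₁)(X - θ₂) g₂` over `ℤ_[P]` (Efa).  `z ↦ (z₁, z₂, z₃)`, `z₁`, `z₂` of
even valuation, `z₃` with `Rep` `(e, s)`, `e` odd, `ep = 0` iff `s` is a square (`HQ.StCV`, `HQ.StCM`).
`HQ.StHh2` for `w = z₃ (θ₃ - θ₁)(θ₃ - θ₂)` gives `2 g` norms `π^e u_i`; Fh1 for `(X - θ₂) g₂` and the element
`z' (θ' - θ₁)`: norm `z₂ (θ₂ - θ₁) g₂(θ₂)`; Fh1 for `h`: norm `z₁ (θ₁ - θ₂) g₂(θ₁)`.  The discriminant is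
`(-1)^(g+1) N(z)` up to squares (compare the determinant of the Gram matrix of the basis `θ^i`, Fcg, or
`HQ/M_Hh.lean`).  `N(z) = z₁ z₂ N(z₃)` is a square and `N(z₃) = π^(2ge) c`, `ρ(c) = N(s)`, so
`lg(ur z₁) + lg(ur z₂) = lg(N s) = ep` (`HL.StFS`).  With Fh3: the invariant is `ep + c_P`,
`c_P = lg(-1) + lg(-(a-b)² p(a) p(b)) = lg(p(a) p(b))`.  Adapt `HQ/M_Hh.lean`. -/
def StFh : Prop :=
  ∀ (g : ℕ), 1 ≤ g → ∀ (f : ℤ[X]) (hm : f.Monic), f.natDegree = 2 * g + 2 →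
    ∀ [Fact (Irreducible (fK f))] [IsDedekindDomain (RR f)] [IsFractionRing (RR f) (LL f)]
      (P : Prm), (P : ℕ) ≠ 2 → f.map (red P) ∈ TType (kp P) g →
    ∀ q : HeightOneSpectrum (RR f), IsQ g P q → ∃ cP : ZMod 2,
    ∀ z : LL f, z ≠ 0 → IsSquare (Algebra.norm ℚ z) → (∀ v, Over P v → v ≠ q → EvenAt v z) →
      om q z = 1 →
    ∃ (e : Module.Basis (Jx g) ℚ_[(P : ℕ)]
        (AdjoinRoot ((fK f).map (algebraMap ℚ ℚ_[(P : ℕ)])))) (a : Jx g → ℚ_[(P : ℕ)]),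
      IsOrth ((hm.map (Int.castRingHom ℚ)).map (algebraMap ℚ ℚ_[(P : ℕ)]))
        (baseChange (algebraMap ℚ ℚ_[(P : ℕ)]) (fK f) z) e a ∧
      hasse (hs (P : ℕ)) a = ep P q z + cP

/-- (Fi1) Binary forms over `k[x]`.  `V² + U W = h`, `deg h = 2 g + 2`, `h` not a square, `U ≠ 0`,
`Q(p, q) = p² U + 2 p q V - q² W`: there is a subspace `Y ⊆ k[x]²` of dimension `g` with
`deg Q(y, y') ≤ 2 g` on `Y`.  As `HQ.hHi1` (`HQ/M_Hi1.lean`).  Strong induction on `m = deg U`.  (a) Reduce `V` modulo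
`U`.  (b) `m ≤ g + 1`: `deg W = 2 g + 2 - m`; `p` with `2 deg p + m ≤ 2 g`, `q` with `2 deg q + 2 g + 2 - m ≤ 2 g`:
`(2g - m)/2 + 1 + m/2 ≥ g` parameters (integer divisions; `m ≤ 2 g` since `g ≥ 1`); the mixed term has degree
`≤ (2g - m)/2 + (m - 2)/2 + m - 1 ≤ 2 g - 1`.  (c) `m ≥ g + 2`: `deg W ≤ max (2 g + 2 - m) (m - 2) < m`, `W ≠ 0` (`h` is not a
square); replace `(U, V, W)` by `(-W, -V, -U)`. -/
def StFi1 : Prop :=
  ∀ (k : Type) [Field k], (2 : k) ≠ 0 → ∀ (g : ℕ), 1 ≤ g → ∀ (h U V W : k[X]),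
    h.natDegree = 2 * g + 2 → ¬ IsSquare h → U ≠ 0 → V ^ 2 + U * W = h →
    ∃ Y : Submodule k (k[X] × k[X]), Module.finrank k Y = g ∧ ∀ y ∈ Y, ∀ y' ∈ Y,
      (y.1 * y'.1 * U + (y.1 * y'.2 + y'.1 * y.2) * V - y.2 * y'.2 * W).degree < (2 * g + 1 : ℕ)

/-- (Fi2) Isotropic subspace.  As `HQ.hHi2` (`HQ/M_Hi2.lean`); for the injectivity:
`U Q(y, y) = (p U + q V)² - q² h = 0` and `h` is separable of positive degree, hence not a square (if `q ≠ 0` then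
`h = ((pU+qV)/q)²` and `q ∣ p U + q V` by unique factorisation). -/
def StFi2 : Prop :=
  StFi1 → ∀ (k : Type) [Field k], (2 : k) ≠ 0 → ∀ (g : ℕ), 1 ≤ g → ∀ (h U V : k[X]) (hm : h.Monic),
    h.Separable → h.natDegree = 2 * g + 2 → IsCoprime U h → U ∣ h - V ^ 2 →
    ∃ X : Submodule k (AdjoinRoot h), Module.finrank k X = g ∧
      ∀ x ∈ X, ∀ y ∈ X, tau hm (AdjoinRoot.mk h U * x * y) = 0

/-- (Fi) The descent group is isotropic: as `HQ.hHi` (`HQ/M_Hi.lean`), with `HQ.StHi3` (composition, valid for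
all degrees) and Fi2. -/
def StFi : Prop :=
  ∀ (k : Type) [Field k] [Infinite k], (2 : k) ≠ 0 → ∀ (g : ℕ), 1 ≤ g → ∀ (h : k[X]) (hm : h.Monic),
    h.Separable → h.natDegree = 2 * g + 2 → ∀ z ∈ descentGroup h,
    ∃ X : Submodule k (AdjoinRoot h), Module.finrank k X = g ∧
      ∀ x ∈ X, ∀ y ∈ X, tau hm ((z : AdjoinRoot h) * x * y) = 0

/-- (Fj) The real place.  For `f` in the region and real `x`, `t = |x| / H`:
`f(x) ≥ H^N (t^N + 1/2 - ∑_(0<i<N) t^i / 2^(N+4)) > 0` (for `t ≤ 1` the sum is at most `N / 2^(N+4) < 1/2`, for `t ≥ 1` it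
is at most `t^N N / 2^(N+4)`).  So there are `g + 1` pairs `ρ, ρ̄` of simple non-real roots (`fK f` is irreducible).
For `g` of the pairs take `v = λ e_ρ + λ̄ e_ρ̄` with `λ² z(ρ)/f'(ρ) ∈ i ℝ`, `λ ≠ 0` as in `HQ.hHj` (`HQ/M_Hj.lean`): the
vectors are orthogonal to each other and isotropic, and independent. -/
def StFj : Prop :=
  ∀ (g H : ℕ), 1 ≤ g → 1 ≤ H → ∀ f ∈ Reg g H, ∀ (hm : ((fK f).map (algebraMap ℚ ℝ)).Monic),
    Irreducible (fK f) → ∀ z : AdjoinRoot ((fK f).map (algebraMap ℚ ℝ)),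
    ∃ X : Submodule ℝ (AdjoinRoot ((fK f).map (algebraMap ℚ ℝ))), Module.finrank ℝ X = g ∧
      ∀ x ∈ X, ∀ y ∈ X, tau hm (z * x * y) = 0

/-- (Fl) Rational diagonalisation.  Adapt `HQ/M_Hl.lean` with Fcg. -/
def StFl : Prop :=
  ∀ (g : ℕ) (f : ℤ[X]) (hm : f.Monic), f.natDegree = 2 * g + 2 → ∀ [Fact (Irreducible (fK f))]
    (z : LL f), z ≠ 0 → IsSquare (Algebra.norm ℚ z) →
    ∃ (e : Module.Basis (Jx g) ℚ (LL f)) (a : Jx g → ℚ) (c : ℚ),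
      IsOrth (hm.map (Int.castRingHom ℚ)) z e a ∧ c ≠ 0 ∧ ∏ i, a i = (-1) ^ (g + 1) * c ^ 2

/-- An integer multiple of `z` lies in the descent group over `ℚ_2`. -/
def At2E {f : ℤ[X]} (z : (LL f)ˣ) : Prop :=
  ∃ (c : ℤ) (u : (LL f)ˣ), c ≠ 0 ∧ (u : LL f) = (c : LL f) * (z : LL f) ∧ At2 u

/-- (F2) `D ≡ 1 mod 8`: Eco and `HQ.StTwo`. -/
def StF2 : Prop :=
  ∀ (f : ℤ[X]) (D : ℤ), f.Monic → ∀ [Fact (Irreducible (fK f))], D % 8 = 1 → ∀ z : (LL f)ˣ,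
    TwAtE f D 2 z → At2E z

/-- (Fm) Quadratic relation.  As `HQ.hHm` (`HQ/M_Hm.lean`): rational norms by Fl, product formula `HQ.StHf`,
invariance `HQ.StHa`, base change `HQ.StHk`; at 2: `u = c z` has an isotropic subspace of dimension `g` (Fi), the
same for `z`; Fb: `C(g+1,2)`; at `∞`: Fj, Fb: `C(g+1,2)`: they cancel.  Odd `P`: all valuations of `z` above `P` even:
Fg, `0`; `P ∈ T`, `om = 1`: Fh. -/
def StFm : Prop :=
  ∀ (g H : ℕ), 1 ≤ g → 1 ≤ H → ∀ f ∈ Reg g H,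
    ∀ [Fact (Irreducible (fK f))] [IsDedekindDomain (RR f)] [IsFractionRing (RR f) (LL f)]
      (T : Finset Prm), (∀ P ∈ T, (P : ℕ) ≠ 2 ∧ f.map (red P) ∈ TType (kp P) g) →
    ∀ q : Prm → HeightOneSpectrum (RR f), (∀ P ∈ T, IsQ g P (q P)) → ∃ c : Prm → ZMod 2,
    ∀ z : (LL f)ˣ, IsSquare (Algebra.norm ℚ (z : LL f)) →
      (∀ v, (∀ P ∈ T, v ≠ q P) → EvenAt v (z : LL f)) → At2E z →
      ∑ P ∈ T, om (q P) (z : LL f) * (ep P (q P) (z : LL f) + c P) = 0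

/-- (Fo) Isotropy: polarise Fm (Ei5; the conditions on `z` are multiplicative).  See `HQ/M_Iso.lean`. -/
def StFo : Prop :=
  ∀ (g H : ℕ), 1 ≤ g → 1 ≤ H → ∀ f ∈ Reg g H,
    ∀ [Fact (Irreducible (fK f))] [IsDedekindDomain (RR f)] [IsFractionRing (RR f) (LL f)]
      (T : Finset Prm), (∀ P ∈ T, (P : ℕ) ≠ 2 ∧ f.map (red P) ∈ TType (kp P) g) →
    ∀ q : Prm → HeightOneSpectrum (RR f), (∀ P ∈ T, IsQ g P (q P)) →
    ∀ z w : (LL f)ˣ, IsSquare (Algebra.norm ℚ (z : LL f)) → IsSquare (Algebra.norm ℚ (w : LL f)) →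
      (∀ v, (∀ P ∈ T, v ≠ q P) → EvenAt v (z : LL f)) →
      (∀ v, (∀ P ∈ T, v ≠ q P) → EvenAt v (w : LL f)) → At2E z → At2E w →
      ∑ P ∈ T, (om (q P) (z : LL f) * ep P (q P) (w : LL f) +
        om (q P) (w : LL f) * ep P (q P) (z : LL f)) = 0

/-- (Ft) The twist with trivial Selmer group.  `X` is the set of the vectors `(om, ep)_(P ∈ T)` of the units `z`
with square norm, even valuations away from the `q P` and `At2E z`; it is isotropic (Fo);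
`HY.coord_lemma` with the lines `η_P` of Ei4 gives `R`.  `D = P₀ ∏_(P ∈ R) P ≡ 1 mod 8`.  Let `z` have square norm and
`TwAtE f D p z` for all `p`.  For every `P` there is an exponent `j` such that `P^j z` is even at all `v ∣ P`
which are not one of the `q P'`, `P' ∈ T`: `P ∈ T`: Ei1; `P = P₀`: Eit; `P = 2`: Eat; the others: Ei2.
Enz: `c z` is even at all `v ∉ {q P}`.  `c z` has square norm (`N(c) = c^N`, `N` even), is `TwAtE` (constants are in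
`twG`), `At2E` (F2).  For `P ∈ T \ R`: Ei2 (`P ∤ D`), Ei3: `om = 0`.  `P ∈ R`: `D = P D'`, `P ∤ D'` (`P ≠ P₀` because
`TType` and `IType` are disjoint), Ei4.  So the vector of `c z` is `0`; all valuations are even, `ep = 0`, Els gives
`LocSqC`, and the hypothesis gives `c z = c' β²`, `z = c c' (β / c)²`.  See `HQ/M_Tw.lean`. -/
def StFt : Prop :=
  ∀ (g H : ℕ), 1 ≤ g → 1 ≤ H → ∀ P₀ : Prm, (P₀ : ℕ) % 8 = 1 →
    ∀ T : Finset Prm, (∀ P ∈ T, (P : ℕ) % 8 = 1) → ∀ f ∈ Good g H P₀ T,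
    ∀ [Fact (Irreducible (fK f))] [IsDedekindDomain (RR f)] [IsFractionRing (RR f) (LL f)],
      (∀ α : LL f, α ≠ 0 → IsSquare (Algebra.norm ℚ α) → (∀ v, EvenAt v α) →
        (∀ P ∈ T, LocSqC P α) → ∃ (c : ℤ) (β : LL f), α = (c : LL f) * β ^ 2) →
      ∃ R ⊆ T, ∀ z : (LL f)ˣ, IsSquare (Algebra.norm ℚ (z : LL f)) →
        (∀ (p : ℕ) [Fact p.Prime], TwAtE f (pz P₀ * ∏ P ∈ R, pz P) p z) →
        ∃ (c : ℤ) (β : LL f), (z : LL f) = (c : LL f) * β ^ 2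

end Pool.Agent.Helper54.EVL
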