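import Pool.Agent.Helper3.EV.Defs
import Pool.Agent.Helper54.HQ.StI

/-!
# EV: even degree hyperelliptic Jacobians over `ℚ`, definitions of the local part and of the isotropy part

`f` is monic over `ℤ` of degree `N = 2 g + 2`; the twist is `D y² = f(x)`.
-/

set_option autoImplicit false

namespace Pool.Agent.Helper54.EVL

open Polynomial Finset IsDedekindDomain
open Pool.Agent.Helper3.HY (co tau baseChange descentGroup IsPointValue IsTwPoint twGroup)
open Pool.Agent.Helper54.HL (tk IrrInt IrrBig Nr Rep RepA RepB pr pr_mk IsTwIrr RootLift)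
open Pool.Agent.Helper54.HQ (Prm pz factPrm fK RR LL algRL th kp red Bf NearOne LocSq TwAt EvenAt om ep
  Over IsQ LD At2)
open Pool.Agent.Helper3.EV (Jx TType AType IType)

/-- The full group of the twist `D y² = h`: generated by the values of `x - T` at all points given by
`U ∣ D h - V²` (`U` of any degree), the squares and the constants. -/
noncomputable def twG {k : Type} [Field k] (h : k[X]) (D : k) : Subgroup (AdjoinRoot h)ˣ :=
  Subgroup.closure ({z | IsTwPoint h D (z : AdjoinRoot h)} ∪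
    {z | ∃ c : k, (z : AdjoinRoot h) = algebraMap k (AdjoinRoot h) c} ∪ Set.range fun z => z ^ 2)

/-- `z` lies in the full group of the twist by `D` over `ℚ_p`. -/
def TwAtE (f : ℤ[X]) (D : ℤ) (p : ℕ) [Fact p.Prime] (z : (LL f)ˣ) : Prop :=
  Units.map (baseChange (algebraMap ℚ ℚ_[p]) (fK f) : LL f →* _) z ∈
    twG ((fK f).map (algebraMap ℚ ℚ_[p])) (algebraMap ℚ ℚ_[p] (Int.castRingHom ℚ D))

/-- `z` is a unit of `ℤ_(P)` times a square locally at `P`. -/
def LocSqC (P : Prm) {f : ℤ[X]} (z : LL f) : Prop :=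
  ∃ (c : ℤ) (β : LL f), ¬ pz P ∣ c ∧ β ≠ 0 ∧ NearOne P ((c : LL f) * z * β ^ 2)

section val

variable {f : ℤ[X]} [Fact (Irreducible (fK f))] [IsDedekindDomain (RR f)]
  [IsFractionRing (RR f) (LL f)]

/-- `z` times a power of `P` has even valuation at all primes above `P`. -/
def EvenUp (P : Prm) (z : LL f) : Prop :=
  ∃ j : ℕ, ∀ q : HeightOneSpectrum (RR f), Over P q → EvenAt q (((pz P : ℤ) : LL f) ^ j * z)

/-- The primes above `P` if `f ≡ (x - a) (x - b) p` modulo `P`: `qa ∋ θ - a`, `qb ∋ θ - b` and `q`. -/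
structure Tri (g : ℕ) (P : Prm) (a b : kp P) (p : (kp P)[X]) (qa qb q : HeightOneSpectrum (RR f)) :
    Prop where
  fac : f.map (red P) = (X - C a) * (X - C b) * p
  hab : a ≠ b
  pm : p.Monic
  pirr : Irreducible p
  pdeg : p.natDegree = 2 * g
  isQ : IsQ g P q
  oa : Over P qa
  ob : Over P qb
  ma : ∀ p₀ : ℤ[X], p₀.map (red P) = X - C a → AdjoinRoot.mk f p₀ ∈ qa.asIdeal
  mb : ∀ p₀ : ℤ[X], p₀.map (red P) = X - C b → AdjoinRoot.mk f p₀ ∈ qb.asIdeal
  mq : ∀ p₀ : ℤ[X], p₀.map (red P) = p → AdjoinRoot.mk f p₀ ∈ q.asIdeal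
  all : ∀ v : HeightOneSpectrum (RR f), Over P v → v = qa ∨ v = qb ∨ v = q
  nab : qa ≠ qb
  naq : qa ≠ q
  nbq : qb ≠ q

end val

/-- The relation at a point of the twist by a uniformizer: valuations `e₁`, `e₂`, `e` of the components and
`s · (x - a)^(e₁ + e) · (x - b)^(e₂ + e)` is a square in `κ[x] / ḡ₂`. -/
def LineEq {O k κ : Type} [CommRing O] [Field k] [Algebra O k] [Field κ] (π : O) (ρ : O →+* κ)
    (θ₁ θ₂ : O) (g₂ : O[X]) {h : k[X]} (hd₁ : tk k (X - C θ₁) ∣ h) (hd₂ : tk k (X - C θ₂) ∣ h)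
    (hd : tk k g₂ ∣ h) (y : AdjoinRoot h) : Prop :=
  ∃ (e₁ e₂ e : ℤ) (s₁ : AdjoinRoot ((X - C θ₁ : O[X]).map ρ))
    (s₂ : AdjoinRoot ((X - C θ₂ : O[X]).map ρ)) (s : AdjoinRoot (g₂.map ρ)),
    Rep π ρ (X - C θ₁) (pr hd₁ y) e₁ s₁ ∧ Rep π ρ (X - C θ₂) (pr hd₂ y) e₂ s₂ ∧
    Rep π ρ g₂ (pr hd y) e s ∧
    IsSquare (s * AdjoinRoot.mk (g₂.map ρ)
      ((X - C (ρ θ₁)) ^ (e₁ + e).natAbs * (X - C (ρ θ₂)) ^ (e₂ + e).natAbs))

end Pool.Agent.Helper54.EVL
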