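import Pool.Agent.Helper54.EVL.StL
import Pool.Agent.Helper54.HQ.Base

/-!
# EV, local part, module Ebig: points with a pole
-/

set_option autoImplicit false

namespace Pool.Agent.Helper54.EVL

open Polynomial IsDedekindDomain
open Pool.Agent.Helper3.HY (co tau baseChange descentGroup IsPointValue IsTwPoint twGroup)
open Pool.Agent.Helper54.HL (tk IrrInt IrrBig Nr Rep RepA RepB pr pr_mk IsTwIrr RootLift)
open Pool.Agent.Helper54.HQ (Prm pz factPrm fK RR LL algRL th kp red Bf NearOne LocSq TwAt EvenAt om ep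
  Over IsQ LD At2 red_eq_zero)

private lemma big_form_Ebig {O k : Type} [CommRing O] [Field k] [Algebra O k] (π : O) (U : k[X])
    (h : ∀ l : ℕ, 1 ≤ l → ∃ c : O, U.coeff l = U.coeff 0 * algebraMap O k (π * c)) :
    ∃ p : O[X], U = C (U.coeff 0) * (1 + C (algebraMap O k π) * tk k p) := by
  choose! c hc using h
  refine ⟨∑ l ∈ Finset.Icc 1 U.natDegree, C (c l) * X ^ l, ?_⟩
  ext l
  rw [coeff_C_mul, coeff_add, coeff_C_mul, tk, coeff_map, finsetSum_coeff]
  simp only [coeff_C_mul_X_pow]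
  rw [Finset.sum_ite_eq (Finset.Icc 1 U.natDegree) l (fun i => c i), coeff_one]
  by_cases hl : l = 0
  · subst hl; simp
  · rw [if_neg hl, zero_add]
    by_cases hl2 : l ≤ U.natDegree
    · rw [if_pos (Finset.mem_Icc.2 ⟨by omega, hl2⟩), ← map_mul, hc l (by omega)]
    · rw [if_neg (fun h => hl2 (Finset.mem_Icc.1 h).2), map_zero, mul_zero, mul_zero,
        coeff_eq_zero_of_natDegree_lt (by omega)]

private lemma form_Ebig {O k : Type} [CommRing O] [IsDomain O] [IsDiscreteValuationRing O]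
    [Field k] [Algebra O k] [IsFractionRing O k] {π : O} (hπ : Irreducible π) (c : k) (hc : c ≠ 0) :
    ∃ (e : ℤ) (u : Oˣ), c = algebraMap O k π ^ e * algebraMap O k (u : O) := by
  have hinj : Function.Injective (algebraMap O k) := IsFractionRing.injective O k
  have hπ0 : algebraMap O k π ≠ 0 := by
    intro h
    exact hπ.ne_zero ((map_eq_zero_iff _ hinj).1 h)
  obtain ⟨a, b, hb, hx⟩ := IsFractionRing.div_surjective (A := O) c
  have hb0 : b ≠ 0 := nonZeroDivisors.ne_zero hb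
  have ha0 : a ≠ 0 := by
    rintro rfl
    apply hc
    rw [← hx, map_zero, zero_div]
  obtain ⟨n, u, hu⟩ := IsDiscreteValuationRing.eq_unit_mul_pow_irreducible ha0 hπ
  obtain ⟨m, v, hv⟩ := IsDiscreteValuationRing.eq_unit_mul_pow_irreducible hb0 hπ
  have hv0 : algebraMap O k (v : O) ≠ 0 := by
    intro h
    exact v.ne_zero ((map_eq_zero_iff _ hinj).1 h)
  have hinv : algebraMap O k ((v⁻¹ : Oˣ) : O) = (algebraMap O k (v : O))⁻¹ := by
    apply eq_inv_of_mul_eq_one_left
    rw [← map_mul, Units.inv_mul, map_one]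
  refine ⟨(n : ℤ) - m, u * v⁻¹, ?_⟩
  rw [← hx, hu, hv, map_mul, map_mul, map_pow, map_pow, Units.val_mul, map_mul, hinv,
    zpow_sub₀ hπ0, zpow_natCast, zpow_natCast]
  field_simp

private lemma baseChange_mk_Ebig {K K' : Type} [Field K] [Field K'] (j : K →+* K') (h a : K[X]) :
    baseChange j h (AdjoinRoot.mk h a) = AdjoinRoot.mk (h.map j) (a.map j) := by
  induction a using Polynomial.induction_on' with
  | add p q hp hq => rw [map_add, map_add, hp, hq, Polynomial.map_add, map_add]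
  | monomial n x =>
    rw [← C_mul_X_pow_eq_monomial, map_mul, map_pow, AdjoinRoot.mk_X, AdjoinRoot.mk_C, map_mul,
      map_pow, Polynomial.map_mul, Polynomial.map_pow, map_X, map_C, map_mul, map_pow,
      AdjoinRoot.mk_X, AdjoinRoot.mk_C]
    congr 1
    · rw [baseChange, AdjoinRoot.map_of]
    · rw [baseChange, AdjoinRoot.map_root]

private lemma cast_Ebig (f : ℤ[X]) [Fact (Irreducible (fK f))] (x a : ℤ) (e : ℤ) :
    (x : LL f) ^ e * (a : LL f) = AdjoinRoot.mk (fK f) (C ((x : ℚ) ^ e * (a : ℚ))) := by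
  have h1 : AdjoinRoot.mk (fK f) (C ((x : ℚ) ^ e * (a : ℚ))) =
      algebraMap ℚ (LL f) ((x : ℚ) ^ e * (a : ℚ)) := rfl
  rw [h1, map_mul, map_zpow₀, map_intCast, map_intCast]

theorem hEbig (h1 : HL.StNG) : StEbig := by
  intro f hf _ P O k _ _ _ _ _ _ i j ρ hLD D hD U hU hbig y' hy
  obtain ⟨hU0, hbig⟩ := hbig
  have hirr : Irreducible (i (pz P)) := hLD.unif
  obtain ⟨hmul, hinv, -⟩ := h1 O k (i (pz P)) hirr (f.map i) (hf.map i) ((fK f).map j) (hLD.map f)
  obtain ⟨p, hp⟩ := big_form_Ebig (i (pz P)) U hbig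
  have hc0 : (-D) ^ U.natDegree * U.coeff 0 ≠ 0 :=
    mul_ne_zero (pow_ne_zero _ (neg_ne_zero.2 hD)) hU0
  have hw : Nr (h := (fK f).map j) (i (pz P)) (1 + AdjoinRoot.mk ((fK f).map j)
      (C (algebraMap O k (i (pz P))) * tk k p)) := ⟨p, rfl⟩
  obtain ⟨w', hww, hw'⟩ := hinv _ hw
  have hval : AdjoinRoot.mk ((fK f).map j) (C (-D) ^ U.natDegree * U) =
      AdjoinRoot.mk ((fK f).map j) (C ((-D) ^ U.natDegree * U.coeff 0)) *
      (1 + AdjoinRoot.mk ((fK f).map j) (C (algebraMap O k (i (pz P))) * tk k p)) := by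
    have h2 : C (-D) ^ U.natDegree * U = C ((-D) ^ U.natDegree * U.coeff 0) *
        (1 + C (algebraMap O k (i (pz P))) * tk k p) := by
      rw [C_mul, C_pow, mul_assoc, ← hp]
    rw [h2, map_mul, map_add, map_one]
  rw [hval] at hy
  have hcy : AdjoinRoot.mk ((fK f).map j) (C ((-D) ^ U.natDegree * U.coeff 0)) * y' = w' := by
    calc _ = AdjoinRoot.mk ((fK f).map j) (C ((-D) ^ U.natDegree * U.coeff 0)) * y' *
        ((1 + AdjoinRoot.mk ((fK f).map j) (C (algebraMap O k (i (pz P))) * tk k p)) * w') := by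
          rw [hww, mul_one]
      _ = (AdjoinRoot.mk ((fK f).map j) (C ((-D) ^ U.natDegree * U.coeff 0)) *
        (1 + AdjoinRoot.mk ((fK f).map j) (C (algebraMap O k (i (pz P))) * tk k p)) * y') * w' := by
          ring
      _ = w' := by rw [hy, one_mul]
  obtain ⟨e, u, hu⟩ := form_Ebig hirr _ hc0
  obtain ⟨a, t, hat⟩ := hLD.dense (u : O) 1
  rw [pow_one] at hat
  refine ⟨e, a, ?_, ?_⟩
  · rintro ⟨b, rfl⟩
    rw [map_mul] at hat
    have h3 : (u : O) = i (pz P) * (t + i b) := by linear_combination hat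
    exact hirr.not_isUnit (isUnit_of_mul_isUnit_left (h3 ▸ u.isUnit))
  · have hia : i a = (u : O) * (1 + i (pz P) * (-(t * ((u⁻¹ : Oˣ) : O)))) := by
      have h4 : (u : O) * ((u⁻¹ : Oˣ) : O) = 1 := Units.mul_inv u
      linear_combination -hat + (i (pz P) * t) * h4
    have hb : baseChange j (fK f) (((pz P : ℤ) : LL f) ^ e * (a : LL f)) =
        AdjoinRoot.mk ((fK f).map j) (C (algebraMap O k (1 + i (pz P) *
          (-(t * ((u⁻¹ : Oˣ) : O)))))) *
        AdjoinRoot.mk ((fK f).map j) (C ((-D) ^ U.natDegree * U.coeff 0)) := by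
      rw [cast_Ebig, baseChange_mk_Ebig, map_C, ← map_mul, ← C_mul]
      congr 2
      rw [map_mul, map_zpow₀, hu]
      have h5 : j ((pz P : ℤ) : ℚ) = algebraMap O k (i (pz P)) := by
        rw [hLD.comp, eq_intCast]
      have h6 : j ((a : ℤ) : ℚ) = algebraMap O k (i a) := by
        rw [hLD.comp, eq_intCast]
      rw [h5, h6, hia, map_mul]
      ring
    rw [hb, mul_assoc, hcy]
    refine hmul _ _ ⟨C (-(t * ((u⁻¹ : Oˣ) : O))), ?_⟩ hw'
    rw [tk, map_C, ← C_mul, ← map_mul, map_add, map_one, C_add, C_1, map_add, map_one]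

end Pool.Agent.Helper54.EVL
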