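import Pool.Agent.Helper54.EVL.StL
import Pool.Agent.Helper54.HQ.Base
import Pool.Agent.Helper54.HQ.M_Hom

/-!
# EV module Eli: the relation for the twist by `P D` at a place of `T`
-/

set_option autoImplicit false

namespace Pool.Agent.Helper54.EVL

open Polynomial Finset IsDedekindDomain
open Pool.Agent.Helper3.HY (co tau baseChange descentGroup IsPointValue IsTwPoint twGroup)
open Pool.Agent.Helper54.HL (tk IrrInt IrrBig Nr Rep RepA RepB pr pr_mk IsTwIrr RootLift)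
open Pool.Agent.Helper54.HQ (Prm pz factPrm fK RR LL algRL th kp red Bf NearOne LocSq TwAt EvenAt om ep
  Over IsQ LD At2 isSquare_exp_Hom isSquare_mul_Hom zmod2_Hom red_surj red_eq_zero two_ne_zero_kp)
open Pool.Agent.Helper3.EV (Jx TType AType IType)

section aux

private noncomputable def sg {K : Type} [Field K] (x : K) : ZMod 2 := by
  classical exact if IsSquare x then 0 else 1

private lemma sg_zero {K : Type} [Field K] (x : K) : sg x = 0 ↔ IsSquare x := by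
  unfold sg
  split_ifs with h <;> simp [h]

private lemma zeq_Eli {a b : ZMod 2} (h : a = 0 ↔ b = 0) : a = b := by
  revert h; revert a b; decide

private lemma sg_mul {κ : Type} [Field κ] [Finite κ] {a b : κ} (ha : a ≠ 0) (hb : b ≠ 0) :
    sg (a * b) = sg a + sg b :=
  zmod2_Hom (by rw [sg_zero, sg_zero, sg_zero, isSquare_mul_Hom ha hb])

private lemma sg_pow {κ : Type} [Field κ] [Finite κ] {a : κ} (ha : a ≠ 0) (n : ℕ) :
    sg (a ^ n) = (n : ZMod 2) * sg a := by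
  induction n with
  | zero =>
    rw [pow_zero, Nat.cast_zero, zero_mul, sg_zero]
    exact IsSquare.one
  | succ n ih =>
    rw [pow_succ, sg_mul (pow_ne_zero _ ha) ha, ih, Nat.cast_succ]
    ring

private lemma cast_zero_Eli (e : ℤ) : (e : ZMod 2) = 0 ↔ Even e := by
  rw [ZMod.intCast_zmod_eq_zero_iff_dvd, even_iff_two_dvd]
  rfl

private lemma natAbs_Eli (e : ℤ) : ((e.natAbs : ℕ) : ZMod 2) = (e : ZMod 2) := by
  apply zeq_Eli
  rw [cast_zero_Eli, ← Int.natAbs_even, ZMod.natCast_eq_zero_iff_even]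

private lemma two_Eli : ∀ a : ZMod 2, a + a = 0 := by decide

private lemma om_Eli {f : ℤ[X]} [Fact (Irreducible (fK f))] [IsDedekindDomain (RR f)]
    [IsFractionRing (RR f) (LL f)] (q : HeightOneSpectrum (RR f)) (z : LL f) (e : ℤ)
    (h : q.valuation (LL f) z = WithZero.exp (-e)) : om q z = (e : ZMod 2) := by
  apply zeq_Eli
  rw [cast_zero_Eli]
  have h8 : EvenAt q z ↔ Even e := by
    unfold EvenAt
    rw [h, isSquare_exp_Hom, even_neg]
  rw [← h8]
  unfold om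
  split_ifs with h9 <;> simp [h9]

private lemma om_one_Eli {f : ℤ[X]} [Fact (Irreducible (fK f))] [IsDedekindDomain (RR f)]
    [IsFractionRing (RR f) (LL f)] (q : HeightOneSpectrum (RR f)) (z : LL f)
    (h : q.valuation (LL f) z = 1) : om q z = 0 := by
  have := om_Eli q z 0 (by rw [h, neg_zero, WithZero.exp_zero])
  rw [this, Int.cast_zero]

private lemma sq_congr_Eli {κ : Type} [Field κ] {p p' x x' : κ[X]} (h : p = p') (hx : x = x') :
    IsSquare (AdjoinRoot.mk p x) ↔ IsSquare (AdjoinRoot.mk p' x') := by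
  subst h; subst hx; rfl

end aux

theorem hEli (h1 : Pool.Agent.Helper54.HQ.StLD) (h2 : Pool.Agent.Helper54.HQ.StIN) (h3 : StElp)
    (h4 : Pool.Agent.Helper54.HQ.StCM) (h4' : Pool.Agent.Helper54.HQ.StCV)
    (h5 : Pool.Agent.Helper54.HQ.StNV) (h6 : Pool.Agent.Helper54.HQ.StDE)
    (_h7 : Pool.Agent.Helper54.HL.StNG) (h8 : StEhom) (h9 : StEfa)
    (h11 : Pool.Agent.Helper54.HL.StRA) (h12 : StEom) : StEli := by
  classical
  intro g hg f hf _ _ _ P hP2 a b p qa qb q hT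
  have hpa : ∀ x : kp P, p.eval x ≠ 0 := by
    intro x h
    have h12 := Polynomial.degree_eq_one_of_irreducible_of_root hT.pirr h
    rw [degree_eq_natDegree hT.pirr.ne_zero, hT.pdeg] at h12
    have h13 : 2 * g = 1 := by exact_mod_cast h12
    omega
  have hpf : Fact (Irreducible p) := ⟨hT.pirr⟩
  refine ⟨sg (AdjoinRoot.mk p (X - C a)), sg (AdjoinRoot.mk p (X - C b)), ?_⟩
  set ηa : ZMod 2 := sg (AdjoinRoot.mk p (X - C a)) with hηa
  set ηb : ZMod 2 := sg (AdjoinRoot.mk p (X - C b)) with hηb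
  intro D hD z hz
  obtain ⟨i, ρ, hLD, hRL, hIrr⟩ := h1 P
  set j : ℚ →+* ℚ_[(P : ℕ)] := algebraMap ℚ ℚ_[(P : ℕ)] with hj
  obtain ⟨θ₁, θ₂, g₂, hg2m, hθ₁, hθ₂, hfac, hg2⟩ := h9 ℤ_[(P : ℕ)] (kp P) ρ hLD.surj hRL (f.map i)
    a b p (hf.map i) hT.pm hT.hab (hpa a) (hpa b) (by rw [hLD.map_red, hT.fac])
  have hmap : (fK f).map j = tk ℚ_[(P : ℕ)] ((X - C θ₁) * (X - C θ₂) * g₂) := by
    rw [hLD.map f, hfac]
  have hd : tk ℚ_[(P : ℕ)] g₂ ∣ (fK f).map j := by
    rw [hmap]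
    exact Polynomial.map_dvd _ (Dvd.intro_left _ rfl)
  have hdvd1 : (X - C θ₁) ∣ f.map i := by
    rw [hfac, mul_assoc]; exact Dvd.intro _ rfl
  have hdvd2 : (X - C θ₂) ∣ f.map i := by
    rw [hfac, mul_comm (X - C θ₁), mul_assoc]; exact Dvd.intro _ rfl
  have hdvd : g₂ ∣ f.map i := by
    rw [hfac]; exact Dvd.intro_left _ rfl
  have hd₁ : tk ℚ_[(P : ℕ)] (X - C θ₁) ∣ (fK f).map j := by
    rw [hLD.map f]
    exact Polynomial.map_dvd _ hdvd1
  have hd₂ : tk ℚ_[(P : ℕ)] (X - C θ₂) ∣ (fK f).map j := by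
    rw [hLD.map f]
    exact Polynomial.map_dvd _ hdvd2
  have hρunit : ∀ c : ℤ_[(P : ℕ)], ρ c ≠ 0 → IsUnit c := by
    intro c hc
    by_contra hcu
    apply hc
    rw [hLD.ker]
    have h12 : c ∈ IsLocalRing.maximalIdeal ℤ_[(P : ℕ)] := (IsLocalRing.mem_maximalIdeal c).2 hcu
    rw [(IsDiscreteValuationRing.irreducible_iff_uniformizer _).1 hLD.unif,
      Ideal.mem_span_singleton] at h12
    exact h12
  have hiD : IsUnit (i D) := by
    apply hρunit
    rw [hLD.rho]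
    intro h
    exact hD (red_eq_zero.1 h)
  have hDv : j (Int.castRingHom ℚ ((pz P) * D)) =
      algebraMap ℤ_[(P : ℕ)] ℚ_[(P : ℕ)] (i (pz P) * i D) := by
    rw [← hLD.comp, map_mul i]
  have hDv0 : j (Int.castRingHom ℚ ((pz P) * D)) ≠ 0 := by
    rw [hDv, map_ne_zero_iff _ (IsFractionRing.injective ℤ_[(P : ℕ)] ℚ_[(P : ℕ)])]
    exact mul_ne_zero hLD.unif.ne_zero hiD.ne_zero
  obtain ⟨hep, -, -⟩ := h8 g hg f hf P hP2 a b p qa qb q hT
  have hom := h12 f hf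
  -- the relation
  let Rl : LL f → Prop := fun z => ep P q z = (om qa z + om q z) * ηa + (om qb z + om q z) * ηb
  have hRlmul : ∀ x y : LL f, x ≠ 0 → y ≠ 0 → Rl x → Rl y → Rl (x * y) := by
    intro x y hx hy h13 h14
    change ep P q (x * y) = (om qa (x * y) + om q (x * y)) * ηa +
      (om qb (x * y) + om q (x * y)) * ηb
    rw [hep x y hx hy, hom qa x y hx hy, hom qb x y hx hy, hom q x y hx hy,
      show ep P q x = _ from h13, show ep P q y = _ from h14]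
    ring
  have hdbl : ∀ c : ZMod 2, c + c = 0 := by decide
  have hRlone : Rl (1 : LL f) := by
    have e1 := hep 1 1 one_ne_zero one_ne_zero
    have e2 := hom qa 1 1 one_ne_zero one_ne_zero
    have e3 := hom qb 1 1 one_ne_zero one_ne_zero
    have e4 := hom q 1 1 one_ne_zero one_ne_zero
    rw [mul_one, hdbl] at e1
    rw [mul_one, hdbl] at e2
    rw [mul_one, hdbl] at e3
    rw [mul_one, hdbl] at e4
    change ep P q (1 : LL f) = (om qa (1 : LL f) + om q (1 : LL f)) * ηa +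
      (om qb (1 : LL f) + om q (1 : LL f)) * ηb
    rw [e1, e2, e3, e4]
    ring
  have hsq : ∀ x : LL f, x ≠ 0 → Rl (x ^ 2) := by
    intro x hx
    change ep P q (x ^ 2) = (om qa (x ^ 2) + om q (x ^ 2)) * ηa +
      (om qb (x ^ 2) + om q (x ^ 2)) * ηb
    rw [sq, hep x x hx hx, hom qa x x hx hx, hom qb x x hx hx, hom q x x hx hx,
      hdbl (ep P q x), hdbl (om qa x), hdbl (om qb x), hdbl (om q x)]
    ring
  let Cl : Subgroup (LL f)ˣ :=
    { carrier := {z | Rl (z : LL f)}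
      mul_mem' := by
        intro x y hx hy
        rw [Set.mem_ofPred_eq, Units.val_mul]
        exact hRlmul _ _ x.ne_zero y.ne_zero hx hy
      one_mem' := by
        rw [Set.mem_ofPred_eq, Units.val_one]
        exact hRlone
      inv_mem' := by
        intro x hx
        have h13 : ((x⁻¹ : (LL f)ˣ) : LL f) = (x : LL f) * (((x⁻¹ : (LL f)ˣ) : LL f)) ^ 2 := by
          rw [sq, ← mul_assoc, ← Units.val_mul, mul_inv_cancel, Units.val_one, one_mul]
        rw [Set.mem_ofPred_eq, h13]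
        exact hRlmul _ _ x.ne_zero (pow_ne_zero _ (x⁻¹).ne_zero) hx (hsq _ (x⁻¹).ne_zero) }
  have hClmem : ∀ x : (LL f)ˣ, x ∈ Cl ↔ Rl (x : LL f) := fun x => Iff.rfl
  refine (hClmem z).1 (h2 f hf P ℤ_[(P : ℕ)] ℚ_[(P : ℕ)] i j ρ hLD _ hDv0 Cl ?_ ?_ ?_ z hz)
  · intro x hx
    rw [hClmem]
    have e1 := om_one_Eli qa _ (h5 f hf P qa hT.oa (x : LL f) hx).2
    have e2 := om_one_Eli qb _ (h5 f hf P qb hT.ob (x : LL f) hx).2
    obtain ⟨h13, h14⟩ := h5 f hf P q hT.isQ.1 (x : LL f) hx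
    have e3 := om_one_Eli q _ h14
    have e4 : ep P q (x : LL f) = 0 := by
      rw [ep, if_pos]
      refine ⟨0, 1, one_ne_zero, ?_⟩
      rw [pow_zero, mul_one, one_pow, mul_one]
      exact h13
    change ep P q (x : LL f) = (om qa (x : LL f) + om q (x : LL f)) * ηa +
      (om qb (x : LL f) + om q (x : LL f)) * ηb
    rw [e1, e2, e3, e4]
    ring
  · intro x
    rw [hClmem, Units.val_pow_eq_pow_val]
    exact hsq _ x.ne_zero
  · intro y y' hyy hy
    obtain ⟨z₁, hz1, hw⟩ := h6 f hf P ℤ_[(P : ℕ)] ℚ_[(P : ℕ)] i j ρ hLD y y' hyy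
    refine ⟨Units.mk0 z₁ hz1, ?_, hw⟩
    rw [hClmem, Units.val_mk0]
    have hg2d : g₂.natDegree = 2 * g := by
      rw [← hT.pdeg, ← hg2, hg2m.natDegree_map]
    have h2κ : (2 : kp P) ≠ 0 := two_ne_zero_kp hP2
    have : Finite (kp P) := inferInstance
    have hg2i : Irreducible (g₂.map ρ) := by rw [hg2]; exact hT.pirr
    have hlin : ∀ θ : ℤ_[(P : ℕ)], (X - C θ : ℤ_[(P : ℕ)][X]).map ρ = X - C (ρ θ) := by
      intro θ
      rw [Polynomial.map_sub, map_X, map_C]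
    have hLP := h3 ℤ_[(P : ℕ)] ℚ_[(P : ℕ)] (kp P) (i (pz P)) ρ hLD.unif hLD.surj hLD.ker h2κ hIrr g
      θ₁ θ₂ g₂ hg hg2m hg2i hg2d (by rw [hθ₁, hθ₂]; exact hT.hab) _ hmap hd₁ hd₂ hd (i D) hiD y
      (by rw [← hDv]; exact hy)
    obtain ⟨e₁, e₂, e, s₁, s₂, s, hrep1, hrep2, hrep, hS⟩ := hLP
    -- transfer from `y` to `z₁`
    have trans : ∀ (g₀ : ℤ_[(P : ℕ)][X]) (hg₀ : g₀.Monic) (hi₀ : Irreducible (g₀.map ρ))
        (hd₀ : tk ℚ_[(P : ℕ)] g₀ ∣ (fK f).map j) (e₀ : ℤ) (s₀ : AdjoinRoot (g₀.map ρ)),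
        Rep (i (pz P)) ρ g₀ (pr hd₀ y) e₀ s₀ →
        Rep (i (pz P)) ρ g₀ (pr hd₀ (baseChange j (fK f) z₁)) e₀ s₀ := by
      intro g₀ hg₀ hi₀ hd₀ e₀ s₀ hrep₀
      have hRA := h11 ℤ_[(P : ℕ)] ℚ_[(P : ℕ)] (kp P) (i (pz P)) ρ hLD.unif hLD.surj hLD.ker g₀ hg₀
        hi₀
      have hrepw : Rep (i (pz P)) ρ g₀ (pr hd₀ (baseChange j (fK f) z₁ * y')) 0 1 := by
        obtain ⟨r, hr⟩ := hw
        have h12 : (1 + C (i (pz P)) * r : ℤ_[(P : ℕ)][X]).map ρ = 1 := by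
          rw [Polynomial.map_add, Polynomial.map_one, Polynomial.map_mul, map_C,
            (hLD.ker (i (pz P))).2 dvd_rfl, C_0, zero_mul, add_zero]
        have h13 := hRA.int (1 + C (i (pz P)) * r) (by
          rw [h12, map_one]
          have : Fact (Irreducible (g₀.map ρ)) := ⟨hi₀⟩
          exact one_ne_zero)
        rw [h12, map_one] at h13
        have h14 : tk ℚ_[(P : ℕ)] (1 + C (i (pz P)) * r) =
            1 + C (algebraMap ℤ_[(P : ℕ)] ℚ_[(P : ℕ)] (i (pz P))) * tk ℚ_[(P : ℕ)] r := by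
          rw [show tk ℚ_[(P : ℕ)] (1 + C (i (pz P)) * r) =
            (1 + C (i (pz P)) * r).map (algebraMap ℤ_[(P : ℕ)] ℚ_[(P : ℕ)]) from rfl,
            Polynomial.map_add, Polynomial.map_one, Polynomial.map_mul, map_C]
        rw [h14, map_add, map_one] at h13
        rw [hr, map_add, map_one, pr_mk]
        exact h13
      have h12 := hRA.mul _ _ _ _ _ _ hrepw hrep₀
      rw [← map_mul, mul_assoc, mul_comm y' y, hyy, mul_one, zero_add, one_mul] at h12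
      exact h12
    have hi1 : Irreducible ((X - C θ₁ : ℤ_[(P : ℕ)][X]).map ρ) := by
      rw [hlin]; exact irreducible_X_sub_C _
    have hi2 : Irreducible ((X - C θ₂ : ℤ_[(P : ℕ)][X]).map ρ) := by
      rw [hlin]; exact irreducible_X_sub_C _
    have hr1 := trans _ (monic_X_sub_C θ₁) hi1 hd₁ e₁ s₁ hrep1
    have hr2 := trans _ (monic_X_sub_C θ₂) hi2 hd₂ e₂ s₂ hrep2
    have hr3 := trans g₂ hg2m hg2i hd e s hrep
    obtain ⟨pa, hpa'⟩ := Polynomial.map_surjective (red P) (red_surj P) (X - C a)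
    obtain ⟨pb, hpb'⟩ := Polynomial.map_surjective (red P) (red_surj P) (X - C b)
    obtain ⟨p₀, hp0⟩ := Polynomial.map_surjective (red P) (red_surj P) p
    have hva := h4' f hf P ℤ_[(P : ℕ)] ℚ_[(P : ℕ)] i j ρ hLD (X - C θ₁) (monic_X_sub_C θ₁) hi1
      hdvd1 hd₁ pa (by rw [hpa', hlin, hθ₁]) qa hT.oa (hT.ma pa hpa') z₁ e₁ s₁ hr1
    have hvb := h4' f hf P ℤ_[(P : ℕ)] ℚ_[(P : ℕ)] i j ρ hLD (X - C θ₂) (monic_X_sub_C θ₂) hi2
      hdvd2 hd₂ pb (by rw [hpb', hlin, hθ₂]) qb hT.ob (hT.mb pb hpb') z₁ e₂ s₂ hr2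
    have hCM := h4 f hf P ℤ_[(P : ℕ)] ℚ_[(P : ℕ)] i j ρ hP2 hLD g₂ hg2m hg2i hdvd hd p₀
      (by rw [hp0, hg2]) q hT.isQ.1 (hT.mq p₀ hp0) z₁ e s hr3
    have hfact : Fact (Irreducible (g₂.map ρ)) := ⟨hg2i⟩
    have hfin : Finite (AdjoinRoot (g₂.map ρ)) := by
      have : Module.Finite (kp P) (AdjoinRoot (g₂.map ρ)) :=
        (AdjoinRoot.powerBasis hg2i.ne_zero).finite
      exact Module.finite_of_finite (kp P)
    have hXne : ∀ x : kp P, AdjoinRoot.mk (g₂.map ρ) (X - C x) ≠ 0 := by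
      intro x h
      rw [AdjoinRoot.mk_eq_zero] at h
      obtain ⟨r, hr⟩ := h
      have h13 := congrArg natDegree hr
      rw [natDegree_X_sub_C] at h13
      have hr0 : r ≠ 0 := by
        rintro rfl
        rw [mul_zero] at hr
        exact X_sub_C_ne_zero x hr
      rw [natDegree_mul hg2i.ne_zero hr0, hg2m.natDegree_map, hg2d] at h13
      omega
    have hA : sg (AdjoinRoot.mk (g₂.map ρ) (X - C (ρ θ₁))) = ηa := by
      apply zeq_Eli
      rw [sg_zero, hηa, sg_zero]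
      exact sq_congr_Eli hg2 (by rw [hθ₁])
    have hB : sg (AdjoinRoot.mk (g₂.map ρ) (X - C (ρ θ₂))) = ηb := by
      apply zeq_Eli
      rw [sg_zero, hηb, sg_zero]
      exact sq_congr_Eli hg2 (by rw [hθ₂])
    have hs : ep P q z₁ = sg s := by
      apply zeq_Eli
      rw [sg_zero, hCM.2]
    have hS' := (sg_zero _).2 hS
    rw [map_mul, map_pow, map_pow, sg_mul hrep.1 (mul_ne_zero (pow_ne_zero _ (hXne _))
      (pow_ne_zero _ (hXne _))), sg_mul (pow_ne_zero _ (hXne _)) (pow_ne_zero _ (hXne _)),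
      sg_pow (hXne _), sg_pow (hXne _), hA, hB, natAbs_Eli, natAbs_Eli] at hS'
    change ep P q z₁ = (om qa z₁ + om q z₁) * ηa + (om qb z₁ + om q z₁) * ηb
    rw [hs, om_Eli qa _ _ hva, om_Eli qb _ _ hvb, om_Eli q _ _ hCM.1]
    push_cast at hS'
    have hneg : ∀ u v : ZMod 2, u + v = 0 → u = v := by decide
    exact hneg _ _ hS'

end Pool.Agent.Helper54.EVL
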