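import Pool.Agent.Helper54.EVL.StI
import Pool.Agent.Helper54.HQ.M_Hh

/-!
# EVL module Fh: the primes of `T` (adapted from `HQ/M_Hh.lean`)
-/

set_option autoImplicit false

namespace Pool.Agent.Helper54.EVL

open Polynomial Finset Filter Topology Matrix IsDedekindDomain
open Pool.Agent.Helper3.HY (co tau baseChange co_mk)
open Pool.Agent.Helper54.HL (tk Rep RepA RepB pr pr_mk RootLift unit_of_rho_LC hNMB hNR)
open Pool.Agent.Helper54.HQ (Prm pz factPrm fK RR LL algRL th kp red Bf EvenAt om ep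
  Over IsQ LD hasse IsOrth lg ur v2 hs red_surj two_ne_zero_kp Bf_apply bil_Hh bil_apply_Hh tau_bc_Hh
  coe_zero_Hh val_unit_Hh lg_one_Hh lg_mul_Hh rho_Hh)
open Pool.Agent.Helper3.EV (Jx TType)

/-- the discriminant of an orthogonal basis of the base change -/
theorem disc_Fh (hCg : StFcg) {g : ℕ} {f : ℤ[X]} (hm : f.Monic) (hN : f.natDegree = 2 * g + 2)
    (k : Type) [Field k] (j : ℚ →+* k) (z : LL f) (hz : IsSquare (Algebra.norm ℚ z))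
    (e : Module.Basis (Jx g) k (AdjoinRoot ((fK f).map j))) (a : Jx g → k)
    (he : IsOrth ((hm.map (Int.castRingHom ℚ)).map j) (baseChange j (fK f) z) e a) :
    ∃ c : k, c ≠ 0 ∧ ∏ i, a i = (-1) ^ (g + 1) * c ^ 2 := by
  obtain ⟨b, hb, hbd⟩ := hCg g f hm hN z
  obtain ⟨r, hr⟩ := hz
  have hmh : ((fK f).map j).Monic := (hm.map (Int.castRingHom ℚ)).map j
  have hdim : (AdjoinRoot.powerBasis' hmh).dim = 2 * g + 2 := by
    rw [AdjoinRoot.powerBasis'_dim, (hm.map (Int.castRingHom ℚ)).natDegree_map, hm.natDegree_map,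
      hN]
  obtain ⟨pb, hpb⟩ : ∃ pb : Module.Basis (Jx g) k (AdjoinRoot ((fK f).map j)),
      ∀ i, pb i = AdjoinRoot.root ((fK f).map j) ^ (i : ℕ) := by
    refine ⟨(AdjoinRoot.powerBasis' hmh).basis.reindex (finCongr hdim), fun i => ?_⟩
    rw [Module.Basis.reindex_apply, PowerBasis.coe_basis, AdjoinRoot.powerBasis'_gen]
    rfl
  have h1 := LinearMap.BilinForm.toMatrix_mul_basis_toMatrix pb e
    (bil_Hh hmh (baseChange j (fK f) z))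
  have h2 : LinearMap.BilinForm.toMatrix e (bil_Hh hmh (baseChange j (fK f) z)) =
      Matrix.diagonal a := by
    ext i i'
    rw [LinearMap.BilinForm.toMatrix_apply, bil_apply_Hh]
    by_cases hii : i = i'
    · subst hii
      rw [Matrix.diagonal_apply_eq, he.norm]
    · rw [Matrix.diagonal_apply_ne _ hii, he.orth i i' hii]
  have h3 : LinearMap.BilinForm.toMatrix pb (bil_Hh hmh (baseChange j (fK f) z)) =
      (Matrix.of fun i i' => Bf hm z (b i) (b i')).map j := by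
    ext i i'
    rw [LinearMap.BilinForm.toMatrix_apply, bil_apply_Hh, Matrix.map_apply, Matrix.of_apply,
      Bf_apply, ← tau_bc_Hh j, map_mul (baseChange j (fK f)), map_mul (baseChange j (fK f)), hb, hb,
      hpb, hpb, map_pow (baseChange j (fK f)), map_pow (baseChange j (fK f))]
    have h4 : baseChange j (fK f) (th f) = AdjoinRoot.root ((fK f).map j) := by
      have := HQ.Q3.bc_mk j (fK f) Polynomial.X
      rw [Polynomial.map_X, AdjoinRoot.mk_X, AdjoinRoot.mk_X] at this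
      exact this
    rw [h4]
  have h4 : ((Matrix.of fun i i' => Bf hm z (b i) (b i')).map j).det =
      j ((Matrix.of fun i i' => Bf hm z (b i) (b i')).det) := (j.map_det _).symm
  have h5 := congrArg Matrix.det h1
  rw [h2, h3, Matrix.det_mul, Matrix.det_mul, Matrix.det_transpose, h4, hbd, hr,
    Matrix.det_diagonal] at h5
  refine ⟨(pb.toMatrix e).det * j r, ?_, ?_⟩
  · intro h0
    have h6 : ∏ i, a i = 0 := by
      rw [← h5]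
      simp only [map_mul, map_pow, map_neg, map_one]
      linear_combination ((-1) ^ (g + 1) * ((pb.toMatrix e).det * j r)) * h0
    exact Finset.prod_ne_zero_iff.2 (fun i _ => he.ne i) h6
  · rw [← h5]
    simp only [map_mul, map_pow, map_neg, map_one]
    ring

/-! ### projections -/

theorem pr_root_Fh {K : Type} [Field K] {h A : K[X]} (hd : A ∣ h) :
    pr hd (AdjoinRoot.root h) = AdjoinRoot.root A := by
  rw [← AdjoinRoot.mk_X, ← AdjoinRoot.mk_X, pr_mk]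

theorem pr_alg_Fh {K : Type} [Field K] {h A : K[X]} (hd : A ∣ h) (c : K) :
    pr hd (algebraMap K _ c) = algebraMap K _ c := by
  rw [AdjoinRoot.algebraMap_eq, AdjoinRoot.algebraMap_eq, ← AdjoinRoot.mk_C, ← AdjoinRoot.mk_C,
    pr_mk]

theorem pr_pr_Fh {K : Type} [Field K] {h A B : K[X]} (h1 : A ∣ h) (h2 : B ∣ A) (h3 : B ∣ h)
    (x : AdjoinRoot h) : pr h2 (pr h1 x) = pr h3 x := by
  obtain ⟨p, rfl⟩ := AdjoinRoot.mk_surjective x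
  rw [pr_mk, pr_mk, pr_mk]

/-- the value at a root -/
theorem val_Fh {K : Type} [Field K] {h : K[X]} (t : K) (hd : X - C t ∣ h) (x : AdjoinRoot h) :
    ∃ x₁ : K, pr hd x = algebraMap K _ x₁ := by
  obtain ⟨p, rfl⟩ := AdjoinRoot.mk_surjective x
  refine ⟨p.eval t, ?_⟩
  rw [pr_mk, AdjoinRoot.algebraMap_eq, ← AdjoinRoot.mk_C, AdjoinRoot.mk_eq_mk]
  exact X_sub_C_dvd_sub_C_eval

theorem root_sub_Fh {K : Type} [Field K] (t t' : K) :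
    AdjoinRoot.root (X - C t) - algebraMap K (AdjoinRoot (X - C t)) t' =
      algebraMap K (AdjoinRoot (X - C t)) (t - t') := by
  have h1 : AdjoinRoot.root (X - C t) = algebraMap K (AdjoinRoot (X - C t)) t := by
    rw [AdjoinRoot.algebraMap_eq, ← AdjoinRoot.mk_C, ← AdjoinRoot.mk_X, AdjoinRoot.mk_eq_mk]
  rw [h1, map_sub]

theorem norm_lin_Fh {K : Type} [Field K] (t x₁ : K) :
    Algebra.norm K (algebraMap K (AdjoinRoot (X - C t)) x₁) = x₁ := by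
  rw [Algebra.norm_algebraMap]
  have h22 : Module.finrank K (AdjoinRoot (X - C t)) = 1 := by
    rw [(AdjoinRoot.powerBasis' (monic_X_sub_C t)).finrank, AdjoinRoot.powerBasis'_dim,
      natDegree_X_sub_C]
  rw [h22, pow_one]

theorem norm_mul_Fh (h4 : HL.StNM) {K : Type} [Field K] {A B h : K[X]} (hA : A.Monic)
    (hB : B.Monic) (hh : h = A * B) (dA : A ∣ h) (dB : B ∣ h) (x : AdjoinRoot h) :
    Algebra.norm K x = Algebra.norm K (pr dA x) * Algebra.norm K (pr dB x) := by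
  subst hh
  obtain ⟨px, rfl⟩ := AdjoinRoot.mk_surjective x
  rw [h4 K _ _ px hA hB, pr_mk, pr_mk]

/-- the linear places -/
theorem lin_Fh (hCV : HQ.StCV) (hRA : HL.StRA) (hRB : HL.StRB) {f : ℤ[X]} (hm : f.Monic)
    [Fact (Irreducible (fK f))] [IsDedekindDomain (RR f)] [IsFractionRing (RR f) (LL f)]
    (P : Prm) (i : ℤ →+* ℤ_[(P : ℕ)]) (ρ : ℤ_[(P : ℕ)] →+* kp P)
    (hLD : LD P i (algebraMap ℚ ℚ_[(P : ℕ)]) ρ) (θ : ℤ_[(P : ℕ)]) (hdO : X - C θ ∣ f.map i)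
    (hd : X - C (algebraMap ℤ_[(P : ℕ)] ℚ_[(P : ℕ)] θ) ∣ (fK f).map (algebraMap ℚ ℚ_[(P : ℕ)]))
    (v : HeightOneSpectrum (RR f)) (hv : Over P v)
    (hmem : ∀ p₀ : ℤ[X], p₀.map (red P) = X - C (ρ θ) → AdjoinRoot.mk f p₀ ∈ v.asIdeal)
    (z : LL f) (hz : z ≠ 0) (hev : EvenAt v z) :
    ∃ (x₁ : ℚ_[(P : ℕ)]) (m : ℤ) (c : ℤ_[(P : ℕ)]), IsUnit c ∧
      pr hd (baseChange (algebraMap ℚ ℚ_[(P : ℕ)]) (fK f) z) = algebraMap _ _ x₁ ∧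
      x₁ = algebraMap ℤ_[(P : ℕ)] ℚ_[(P : ℕ)] (i (pz P)) ^ (2 * m) *
        algebraMap ℤ_[(P : ℕ)] ℚ_[(P : ℕ)] c := by
  have hmon : (X - C θ : ℤ_[(P : ℕ)][X]).Monic := monic_X_sub_C θ
  have hmapρ : (X - C θ : ℤ_[(P : ℕ)][X]).map ρ = X - C (ρ θ) := by
    rw [Polynomial.map_sub, map_X, map_C]
  have hirr : Irreducible ((X - C θ : ℤ_[(P : ℕ)][X]).map ρ) := by
    rw [hmapρ]
    exact irreducible_X_sub_C _
  have hA := hRA ℤ_[(P : ℕ)] ℚ_[(P : ℕ)] (kp P) (i (pz P)) ρ hLD.unif hLD.surj hLD.ker (X - C θ)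
    hmon hirr
  have hB := hRB ℤ_[(P : ℕ)] ℚ_[(P : ℕ)] (kp P) (i (pz P)) ρ hLD.unif hLD.surj hLD.ker (X - C θ)
    hmon hirr
  have htk : tk ℚ_[(P : ℕ)] (X - C θ : ℤ_[(P : ℕ)][X]) =
      X - C (algebraMap ℤ_[(P : ℕ)] ℚ_[(P : ℕ)] θ) := by
    rw [tk, Polynomial.map_sub, map_X, map_C]
  have hd' : tk ℚ_[(P : ℕ)] (X - C θ : ℤ_[(P : ℕ)][X]) ∣ (fK f).map (algebraMap ℚ ℚ_[(P : ℕ)]) := by
    rw [htk]
    exact hd
  have : Fact (Irreducible (tk ℚ_[(P : ℕ)] (X - C θ : ℤ_[(P : ℕ)][X]))) := ⟨hA.irr⟩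
  have : Fact (Irreducible ((X - C θ : ℤ_[(P : ℕ)][X]).map ρ)) := ⟨hirr⟩
  let ev : LL f →+* AdjoinRoot (tk ℚ_[(P : ℕ)] (X - C θ : ℤ_[(P : ℕ)][X])) :=
    (pr hd').comp (baseChange (algebraMap ℚ ℚ_[(P : ℕ)]) (fK f))
  obtain ⟨e, s, hs⟩ := hA.ex (ev z) ((map_ne_zero ev).2 hz)
  obtain ⟨c, hc, hc'⟩ := hB.norm _ _ _ hs
  obtain ⟨p₀, hp₀⟩ := Polynomial.map_surjective (red P) (red_surj P)
    ((X - C θ : ℤ_[(P : ℕ)][X]).map ρ)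
  have hval := hCV f hm P ℤ_[(P : ℕ)] ℚ_[(P : ℕ)] i (algebraMap ℚ ℚ_[(P : ℕ)]) ρ hLD (X - C θ) hmon
    hirr hdO hd' p₀ hp₀ v hv (hmem p₀ (hp₀.trans hmapρ)) z e s hs
  have heven : Even e := by
    have h20 : IsSquare (WithZero.exp (-e) : WithZero (Multiplicative ℤ)) := by
      rw [← hval]
      exact hev
    simpa using (HQ.Q3.even_of_isSquare_exp h20).neg
  obtain ⟨m, hm'⟩ := heven
  obtain ⟨x₁, hx₁⟩ := val_Fh _ hd (baseChange (algebraMap ℚ ℚ_[(P : ℕ)]) (fK f) z)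
  have key : ∀ (A : ℚ_[(P : ℕ)][X]) (_ : A = X - C (algebraMap ℤ_[(P : ℕ)] ℚ_[(P : ℕ)] θ))
      (dA : A ∣ (fK f).map (algebraMap ℚ ℚ_[(P : ℕ)])) (x : AdjoinRoot _),
      Algebra.norm ℚ_[(P : ℕ)] (pr dA x) = Algebra.norm ℚ_[(P : ℕ)] (pr hd x) := by
    rintro _ rfl dA x
    rfl
  have hnorm : x₁ = algebraMap ℤ_[(P : ℕ)] ℚ_[(P : ℕ)] (i (pz P)) ^ (2 * m) *
        algebraMap ℤ_[(P : ℕ)] ℚ_[(P : ℕ)] c := by
    have h20 := key _ htk hd' (baseChange (algebraMap ℚ ℚ_[(P : ℕ)]) (fK f) z)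
    rw [hx₁, norm_lin_Fh] at h20
    rw [← h20]
    have h21 : e * ((X - C θ : ℤ_[(P : ℕ)][X]).natDegree : ℕ) = 2 * m := by
      rw [natDegree_X_sub_C, hm']
      push_cast
      ring
    rw [← h21]
    exact hc'
  have hsn : Algebra.norm (kp P) s ≠ 0 := by
    have hfin2 : FiniteDimensional (kp P) (AdjoinRoot ((X - C θ : ℤ_[(P : ℕ)][X]).map ρ)) :=
      (hmon.map ρ).finite_adjoinRoot
    exact Algebra.norm_ne_zero_iff.2 hs.1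
  refine ⟨x₁, m, c, ?_, hx₁, hnorm⟩
  apply unit_of_rho_LC hLD.unif hLD.ker
  rw [hc]
  exact hsn

theorem hFh (h1 : HQ.StLD) (h2 : StEfa) (h3 : HQ.StCM) (hCV : HQ.StCV) (h4 : HL.StNM)
    (h5 : HL.StRB) (h6 : HL.StFS) (h7 : HL.StRA) (h8 : StEtri) (h9 : StFh1) (h10 : HQ.StHh2)
    (h11 : StFh3) (h12 : StFcg) (h13 : HQ.StHc0) : StFh := by
  intro g hg f hm hN _ _ _ P hP2 hT q hq
  obtain ⟨-, hE⟩ := h8 g hg f hm P hT
  obtain ⟨aP, bP, p, qa, qb, tri⟩ := hE q hq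
  obtain ⟨i, ρ, hLD, hRL, -⟩ := h1 P
  have hpm := tri.pm
  have hpirr := tri.pirr
  have hpdeg := tri.pdeg
  have hfp := tri.fac
  have hpa : ∀ a : kp P, p.eval a ≠ 0 := by
    intro a h0
    have h11 : p.natDegree = 1 := natDegree_eq_of_degree_eq_some
      (degree_eq_one_of_irreducible_of_root hpirr (x := a) h0)
    rw [hpdeg] at h11
    omega
  obtain ⟨θ₁, θ₂, g₂, hg₂, hθ₁, hθ₂, hf₀, hg₂ρ⟩ := h2 ℤ_[(P : ℕ)] (kp P) ρ hLD.surj hRL (f.map i)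
    aP bP p (hm.map i) hpm tri.hab (hpa _) (hpa _) (by rw [hLD.map_red, hfp])
  subst hg₂ρ
  have hirr : Irreducible (g₂.map ρ) := hpirr
  have hπ : Irreducible (i (pz P)) := hLD.unif
  have hsurj := hLD.surj
  have hker := hLD.ker
  have hfin : Finite (kp P) := inferInstance
  have h2κ : (2 : kp P) ≠ 0 := two_ne_zero_kp hP2
  obtain ⟨c01, c02, c03⟩ := h13 (P : ℕ)
  -- the two additive functions
  have hur : ∀ c : ℤ_[(P : ℕ)], IsUnit c → ur (P : ℕ) (c : ℚ_[(P : ℕ)]) = c := by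
    intro c hc
    have hc0 : (c : ℚ_[(P : ℕ)]) ≠ 0 := by
      intro h0
      have h20 : c = 0 := coe_zero_Hh h0
      rw [h20] at hc
      exact not_isUnit_zero hc
    have h20 := c03 _ hc0 (val_unit_Hh hc)
    exact Subtype.ext h20
  have hu0 : ∀ c : ℤ_[(P : ℕ)], IsUnit c → (c : ℚ_[(P : ℕ)]) ≠ 0 := by
    intro c hc h0
    have h20 : c = 0 := coe_zero_Hh h0
    rw [h20] at hc
    exact not_isUnit_zero hc
  obtain ⟨L, hL⟩ : ∃ L : ℚ_[(P : ℕ)] → ZMod 2, ∀ x, L x = lg (PadicInt.toZMod (ur (P : ℕ) x)) :=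
    ⟨_, fun x => rfl⟩
  have hLm : ∀ x y : ℚ_[(P : ℕ)], x ≠ 0 → y ≠ 0 → L (x * y) = L x + L y := by
    intro x y hx hy
    rw [hL, hL, hL, (c02 x y hx hy).1, map_mul]
    exact lg_mul_Hh hP2
      (((c01 x hx).1).map (PadicInt.toZMod : ℤ_[(P : ℕ)] →+* ZMod (P : ℕ))).ne_zero
      (((c01 y hy).1).map (PadicInt.toZMod : ℤ_[(P : ℕ)] →+* ZMod (P : ℕ))).ne_zero
  have hLs : ∀ x : ℚ_[(P : ℕ)], x ≠ 0 → L (x * x) = 0 := by
    intro x hx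
    rw [hLm x x hx hx, CharTwo.add_self_eq_zero]
  have hvm : ∀ x y : ℚ_[(P : ℕ)], x ≠ 0 → y ≠ 0 → v2 (P : ℕ) (x * y) = v2 (P : ℕ) x + v2 (P : ℕ) y :=
    fun x y hx hy => (c02 x y hx hy).2
  have hvs : ∀ x : ℚ_[(P : ℕ)], x ≠ 0 → v2 (P : ℕ) (x * x) = 0 := by
    intro x hx
    rw [hvm x x hx hx, CharTwo.add_self_eq_zero]
  have hvu : ∀ c : ℤ_[(P : ℕ)], IsUnit c → v2 (P : ℕ) (c : ℚ_[(P : ℕ)]) = 0 := by
    intro c hc
    rw [v2, val_unit_Hh hc]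
    rfl
  have hπ0 : algebraMap ℤ_[(P : ℕ)] ℚ_[(P : ℕ)] (i (pz P)) ≠ 0 := HL.H94.am_ne hπ
  have hpow : ∀ n : ℤ, L (algebraMap ℤ_[(P : ℕ)] ℚ_[(P : ℕ)] (i (pz P)) ^ (2 * n)) = 0 ∧
      v2 (P : ℕ) (algebraMap ℤ_[(P : ℕ)] ℚ_[(P : ℕ)] (i (pz P)) ^ (2 * n)) = 0 := by
    intro n
    rw [two_mul, zpow_add₀ hπ0]
    exact ⟨hLs _ (zpow_ne_zero _ hπ0), hvs _ (zpow_ne_zero _ hπ0)⟩
  -- the factorisation
  set π := i (pz P) with hπdef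
  set j := algebraMap ℚ ℚ_[(P : ℕ)] with hj
  set t₁ : ℚ_[(P : ℕ)] := algebraMap ℤ_[(P : ℕ)] ℚ_[(P : ℕ)] θ₁ with ht₁
  set t₂ : ℚ_[(P : ℕ)] := algebraMap ℤ_[(P : ℕ)] ℚ_[(P : ℕ)] θ₂ with ht₂
  set G : ℚ_[(P : ℕ)][X] := tk ℚ_[(P : ℕ)] g₂ with hG
  have hGm : G.Monic := hg₂.map _
  have hdeg₂ : g₂.natDegree = 2 * g := by rw [← hg₂.natDegree_map ρ, hpdeg]
  have hGdeg : G.natDegree = 2 * g := by rw [hG, tk, hg₂.natDegree_map, hdeg₂]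
  have hgθ : ∀ θ : ℤ_[(P : ℕ)], IsUnit (g₂.eval θ) := by
    intro θ
    apply unit_of_rho_LC hπ hker
    have h20 : (g₂.map ρ).eval (ρ θ) ≠ 0 := hpa _
    rwa [eval_map, eval₂_hom] at h20
  have hGeval : ∀ θ : ℤ_[(P : ℕ)], G.eval (algebraMap ℤ_[(P : ℕ)] ℚ_[(P : ℕ)] θ) =
      ((g₂.eval θ : ℤ_[(P : ℕ)]) : ℚ_[(P : ℕ)]) := by
    intro θ
    rw [hG, tk, eval_map, eval₂_hom]
    rfl
  have hG1 : G.eval t₁ ≠ 0 := by rw [ht₁, hGeval]; exact hu0 _ (hgθ _)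
  have hG2 : G.eval t₂ ≠ 0 := by rw [ht₂, hGeval]; exact hu0 _ (hgθ _)
  have huθ : IsUnit (θ₁ - θ₂) := by
    apply unit_of_rho_LC hπ hker
    rw [map_sub, hθ₁, hθ₂, sub_ne_zero]
    exact tri.hab
  have huθ' : IsUnit (θ₂ - θ₁) := by
    rw [← neg_sub]
    exact huθ.neg
  have ht12 : t₁ - t₂ = ((θ₁ - θ₂ : ℤ_[(P : ℕ)]) : ℚ_[(P : ℕ)]) := by
    rw [ht₁, ht₂, ← map_sub]
    rfl
  have ht21 : t₂ - t₁ = ((θ₂ - θ₁ : ℤ_[(P : ℕ)]) : ℚ_[(P : ℕ)]) := by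
    rw [ht₁, ht₂, ← map_sub]
    rfl
  have ht12n : t₁ - t₂ ≠ 0 := by rw [ht12]; exact hu0 _ huθ
  have ht21n : t₂ - t₁ ≠ 0 := by rw [ht21]; exact hu0 _ huθ'
  obtain ⟨H₁, hH₁⟩ : ∃ H₁ : ℚ_[(P : ℕ)][X], H₁ = (X - C t₂) * G := ⟨_, rfl⟩
  have hH₁m : H₁.Monic := by rw [hH₁]; exact (monic_X_sub_C _).mul hGm
  have hH₁deg : H₁.natDegree = 2 * g + 1 := by
    rw [hH₁, (monic_X_sub_C _).natDegree_mul hGm, natDegree_X_sub_C, hGdeg, add_comm]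
  have hH₁eval : H₁.eval t₁ = (t₁ - t₂) * G.eval t₁ := by
    rw [hH₁, eval_mul, eval_sub, eval_X, eval_C]
  have hH₁0 : H₁.eval t₁ ≠ 0 := by
    rw [hH₁eval]
    exact mul_ne_zero ht12n hG1
  have hh : (fK f).map j = (X - C t₁) * H₁ := by
    rw [hLD.map, hf₀, hH₁, tk, Polynomial.map_mul, Polynomial.map_mul, Polynomial.map_sub,
      Polynomial.map_sub, map_X, map_C, map_C, mul_assoc]
  have hhm : ((fK f).map j).Monic := (hm.map (Int.castRingHom ℚ)).map j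
  have hd1 : X - C t₁ ∣ (fK f).map j := by rw [hh]; exact dvd_mul_right _ _
  have hdH : H₁ ∣ (fK f).map j := by rw [hh]; exact dvd_mul_left _ _
  have hd2' : X - C t₂ ∣ H₁ := by rw [hH₁]; exact dvd_mul_right _ _
  have hdG' : G ∣ H₁ := by rw [hH₁]; exact dvd_mul_left _ _
  have hd2 : X - C t₂ ∣ (fK f).map j := hd2'.trans hdH
  have hdG : G ∣ (fK f).map j := hdG'.trans hdH
  have hdO1 : X - C θ₁ ∣ f.map i := by rw [hf₀, mul_assoc]; exact dvd_mul_right _ _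
  have hdO2 : X - C θ₂ ∣ f.map i := by
    rw [hf₀, mul_comm (X - C θ₁), mul_assoc]
    exact dvd_mul_right _ _
  have hA2 := h7 ℤ_[(P : ℕ)] ℚ_[(P : ℕ)] (kp P) π ρ hπ hsurj hker g₂ hg₂ hirr
  have hB2 := h5 ℤ_[(P : ℕ)] ℚ_[(P : ℕ)] (kp P) π ρ hπ hsurj hker g₂ hg₂ hirr
  have : Fact (Irreducible (tk ℚ_[(P : ℕ)] g₂)) := ⟨hA2.irr⟩
  have : Fact (Irreducible G) := ⟨hA2.irr⟩
  have : Fact (Irreducible (g₂.map ρ)) := ⟨hirr⟩
  obtain ⟨H0, hH0⟩ := Polynomial.map_surjective (red P) (red_surj P) (g₂.map ρ)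
  have hH0q : AdjoinRoot.mk f H0 ∈ q.asIdeal := tri.mq H0 hH0
  refine ⟨lg (-1 : ZMod (P : ℕ)) + L (t₂ - t₁) + L (G.eval t₂) + L (t₁ - t₂) + L (G.eval t₁), ?_⟩
  intro z hz hzN hev hom
  -- the linear places
  obtain ⟨x₁, m₁, c₁, hc₁u, hx₁, hx₁'⟩ := lin_Fh hCV h7 h5 hm P i ρ hLD θ₁ hdO1 hd1 qa tri.oa
    (by rw [hθ₁]; exact tri.ma) z hz (hev qa tri.oa tri.naq)
  obtain ⟨x₂, m₂, c₂, hc₂u, hx₂, hx₂'⟩ := lin_Fh hCV h7 h5 hm P i ρ hLD θ₂ hdO2 hd2 qb tri.ob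
    (by rw [hθ₂]; exact tri.mb) z hz (hev qb tri.ob tri.nbq)
  have hx₁0 : x₁ ≠ 0 := by
    rw [hx₁']
    exact mul_ne_zero (zpow_ne_zero _ hπ0) (hu0 _ hc₁u)
  have hx₂0 : x₂ ≠ 0 := by
    rw [hx₂']
    exact mul_ne_zero (zpow_ne_zero _ hπ0) (hu0 _ hc₂u)
  have hv₁ : v2 (P : ℕ) x₁ = 0 := by
    rw [hx₁']
    exact (hvm _ _ (zpow_ne_zero _ hπ0) (hu0 _ hc₁u)).trans
      (by rw [(hpow m₁).2, hvu _ hc₁u, add_zero])
  have hv₂ : v2 (P : ℕ) x₂ = 0 := by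
    rw [hx₂']
    exact (hvm _ _ (zpow_ne_zero _ hπ0) (hu0 _ hc₂u)).trans
      (by rw [(hpow m₂).2, hvu _ hc₂u, add_zero])
  -- the place `q`
  let ev2 : LL f →+* AdjoinRoot (tk ℚ_[(P : ℕ)] g₂) := (pr hdG).comp (baseChange j (fK f))
  obtain ⟨e2, s2, hs2⟩ := hA2.ex (ev2 z) ((map_ne_zero ev2).2 hz)
  obtain ⟨c3, hc3, hc3'⟩ := hB2.norm _ _ _ hs2
  obtain ⟨hval, hep⟩ := h3 f hm P ℤ_[(P : ℕ)] ℚ_[(P : ℕ)] i j ρ hP2 hLD g₂ hg₂ hirr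
    (by rw [hf₀]; exact dvd_mul_left _ _) hdG H0 hH0 q hq.1 hH0q z e2 s2 hs2
  have he2 : ¬ Even e2 := by
    intro h20
    have h21 : EvenAt q z := by
      change IsSquare _
      rw [hval]
      exact HQ.Q3.isSquare_exp h20.neg
    rw [om, if_pos h21] at hom
    exact zero_ne_one hom
  have hfin2 : FiniteDimensional (kp P) (AdjoinRoot (g₂.map ρ)) := hpm.finite_adjoinRoot
  have hc30 : ρ c3 ≠ 0 := by rw [hc3]; exact Algebra.norm_ne_zero_iff.2 hs2.1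
  have hc3u : IsUnit c3 := unit_of_rho_LC hπ hker hc30
  have hLep : L (c3 : ℚ_[(P : ℕ)]) = ep P q z := by
    rw [hL, hur c3 hc3u]
    have h20 : IsSquare (PadicInt.toZMod c3 : ZMod (P : ℕ)) ↔ IsSquare s2 := by
      rw [← rho_Hh hLD, hc3]
      exact (h6 (kp P) h2κ _ hpm hirr).1 s2
    rw [← h20] at hep
    by_cases h21 : IsSquare (PadicInt.toZMod c3 : ZMod (P : ℕ))
    · rw [hep.2 h21]
      exact lg_one_Hh h21
    · have h22 : ep P q z ≠ 0 := fun h => h21 (hep.1 h)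
      have h23 : ∀ t : ZMod 2, t ≠ 0 → t = 1 := by decide
      rw [h23 _ h22]
      unfold lg
      rw [if_neg h21]
  -- the norm
  have hNz : IsSquare (x₁ * (x₂ * (algebraMap ℤ_[(P : ℕ)] ℚ_[(P : ℕ)] π ^ (e2 * (2 * g : ℕ)) *
      algebraMap ℤ_[(P : ℕ)] ℚ_[(P : ℕ)] c3))) := by
    obtain ⟨pz', hpz⟩ := AdjoinRoot.mk_surjective z
    have h20 : IsSquare (Algebra.norm ℚ_[(P : ℕ)] (baseChange j (fK f) z)) := by
      have hNB := (hNMB hNR).2.1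
      rw [← hpz, HQ.Q3.bc_mk, ← hNB ℚ ℚ_[(P : ℕ)] j (fK f) pz' (hm.map _), hpz]
      exact hzN.map j
    rw [norm_mul_Fh h4 (monic_X_sub_C _) hH₁m hh hd1 hdH,
      norm_mul_Fh h4 (monic_X_sub_C _) hGm hH₁ hd2' hdG', pr_pr_Fh hdH hd2' hd2,
      pr_pr_Fh hdH hdG' hdG, hx₁, hx₂, norm_lin_Fh, norm_lin_Fh] at h20
    have h23 : Algebra.norm ℚ_[(P : ℕ)] (pr hdG (baseChange j (fK f) z)) =
        algebraMap ℤ_[(P : ℕ)] ℚ_[(P : ℕ)] π ^ (e2 * (2 * g : ℕ)) *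
          algebraMap ℤ_[(P : ℕ)] ℚ_[(P : ℕ)] c3 := by
      rw [← hdeg₂]
      exact hc3'
    rwa [h23] at h20
  have hLx : L x₁ + L x₂ = ep P q z := by
    obtain ⟨r, hr⟩ := hNz
    have hc30' : algebraMap ℤ_[(P : ℕ)] ℚ_[(P : ℕ)] c3 ≠ 0 := hu0 _ hc3u
    have h20 : e2 * ((2 * g : ℕ) : ℤ) = 2 * (e2 * g) := by
      push_cast
      ring
    rw [h20] at hr
    have hp0 : algebraMap ℤ_[(P : ℕ)] ℚ_[(P : ℕ)] π ^ (2 * (e2 * (g : ℤ))) ≠ 0 := zpow_ne_zero _ hπ0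
    have hr0 : r ≠ 0 := by
      rintro rfl
      rw [mul_zero] at hr
      exact mul_ne_zero hx₁0 (mul_ne_zero hx₂0 (mul_ne_zero hp0 hc30')) hr
    have h21 := congrArg L hr
    rw [hLs r hr0, hLm _ _ hx₁0 (mul_ne_zero hx₂0 (mul_ne_zero hp0 hc30')),
      hLm _ _ hx₂0 (mul_ne_zero hp0 hc30'), hLm _ _ hp0 hc30', (hpow _).1, zero_add,
      ← add_assoc] at h21
    rw [← hLep]
    exact CharTwo.add_eq_zero.1 h21
  -- the orthogonal basis of the unramified factor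
  have hlin : ∀ θ : ℤ_[(P : ℕ)], AdjoinRoot.mk (g₂.map ρ) ((X - C θ : ℤ_[(P : ℕ)][X]).map ρ) ≠ 0 := by
    intro θ
    rw [Ne, AdjoinRoot.mk_eq_zero]
    intro h12'
    have h13' := natDegree_le_of_dvd h12' (by
      rw [Polynomial.map_sub, map_X, map_C]; exact X_sub_C_ne_zero _)
    rw [hpdeg, Polynomial.map_sub, map_X, map_C, natDegree_X_sub_C] at h13'
    omega
  have hw := hA2.mul _ _ _ _ _ _ (hA2.mul _ _ _ _ _ _ hs2 (hA2.int (X - C θ₁) (hlin θ₁)))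
    (hA2.int (X - C θ₂) (hlin θ₂))
  rw [add_zero, add_zero] at hw
  have hw' : ∀ θ : ℤ_[(P : ℕ)], AdjoinRoot.mk (tk ℚ_[(P : ℕ)] g₂) (tk ℚ_[(P : ℕ)] (X - C θ)) =
      AdjoinRoot.root G - algebraMap ℚ_[(P : ℕ)] _ (algebraMap ℤ_[(P : ℕ)] ℚ_[(P : ℕ)] θ) := by
    intro θ
    have h20 : tk ℚ_[(P : ℕ)] (X - C θ) = X - C (algebraMap ℤ_[(P : ℕ)] ℚ_[(P : ℕ)] θ) := by
      rw [tk, Polynomial.map_sub, map_X, map_C]
    rw [h20, map_sub, AdjoinRoot.mk_X, AdjoinRoot.mk_C]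
    rfl
  rw [hw', hw'] at hw
  obtain ⟨b₂, u, huu, hb₂⟩ := h10 ℤ_[(P : ℕ)] ℚ_[(P : ℕ)] (kp P) π ρ hπ hsurj hker h2κ g₂ hGm hg₂
    hirr _ _ _ hw (2 * g) hdeg₂
  -- splitting off `θ₂`
  obtain ⟨w, hwdef⟩ : ∃ w : AdjoinRoot H₁, w = pr hdH (baseChange j (fK f) z) *
      (AdjoinRoot.root H₁ - algebraMap ℚ_[(P : ℕ)] _ t₁) := ⟨_, rfl⟩
  have hw2 : pr hd2' w = algebraMap ℚ_[(P : ℕ)] _ (x₂ * (t₂ - t₁)) := by
    rw [hwdef, map_mul, pr_pr_Fh hdH hd2' hd2, hx₂, map_sub, pr_root_Fh, pr_alg_Fh, root_sub_Fh,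
      ← map_mul]
  have hwG : pr hdG' w * (AdjoinRoot.root G - algebraMap ℚ_[(P : ℕ)] _ t₂) =
      ev2 z * (AdjoinRoot.root G - algebraMap ℚ_[(P : ℕ)] _ t₁) *
        (AdjoinRoot.root G - algebraMap ℚ_[(P : ℕ)] _ t₂) := by
    rw [hwdef, map_mul, pr_pr_Fh hdH hdG' hdG, map_sub, pr_root_Fh, pr_alg_Fh]
    rfl
  rw [← hwG] at hb₂
  obtain ⟨e₁, he₁⟩ := h9 ℚ_[(P : ℕ)] (2 * g) (by omega) t₂ G hGm hGdeg hG2 H₁ hH₁m hd2' hdG' hH₁ w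
    (x₂ * (t₂ - t₁)) hw2 (mul_ne_zero hx₂0 ht21n) b₂ _ hb₂
  rw [hwdef] at he₁
  -- splitting off `θ₁`
  obtain ⟨e, he⟩ := h9 ℚ_[(P : ℕ)] (2 * g + 1) (by omega) t₁ H₁ hH₁m hH₁deg hH₁0 ((fK f).map j) hhm
    hd1 hdH hh (baseChange j (fK f) z) x₁ hx₁ hx₁0 e₁ _ he₁
  refine ⟨e, _, he, ?_⟩
  have hπk : algebraMap ℤ_[(P : ℕ)] ℚ_[(P : ℕ)] π = ((P : ℕ) : ℚ_[(P : ℕ)]) := by
    rw [hπdef, hLD.comp, eq_intCast, Int.cast_natCast, map_natCast]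
  obtain ⟨c, hc0, hc⟩ := disc_Fh h12 hm hN ℚ_[(P : ℕ)] j z hzN e _ he
  have hi₀ : 2 * g < 2 * g + 2 := by omega
  have hi₁ : 2 * g + 1 < 2 * g + 2 := by omega
  rw [h11 (P : ℕ) hP2 g hg _ he.ne ?_ ?_ ⟨c, hc0, hc⟩ ⟨2 * g, hi₀⟩ ⟨2 * g + 1, hi₁⟩ rfl rfl]
  · have h20 : ((⟨2 * g, hi₀⟩ : Jx g) : ℕ) < 2 * g + 1 := by simp
    have h21 : ¬ ((⟨2 * g + 1, hi₁⟩ : Jx g) : ℕ) < 2 * g + 1 := by simp
    rw [dif_pos h20, dif_neg h21]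
    have h22 : ¬ ((⟨2 * g, h20⟩ : Fin (2 * g + 1)) : ℕ) < 2 * g := by simp
    rw [dif_neg h22, ← hL, ← hL, hH₁eval, hLm _ _ (mul_ne_zero hx₂0 ht21n) hG2,
      hLm _ _ hx₂0 ht21n, hLm _ _ hx₁0 (mul_ne_zero ht12n hG1), hLm _ _ ht12n hG1, ← hLx]
    ring
  · intro i' hi'
    have h20 : (i' : ℕ) < 2 * g + 1 := by omega
    rw [dif_pos h20, dif_pos (show ((⟨(i' : ℕ), h20⟩ : Fin (2 * g + 1)) : ℕ) < 2 * g from hi'), hπk]
    have hPk : ((P : ℕ) : ℚ_[(P : ℕ)]) ≠ 0 := by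
      rw [← hπk]
      exact hπ0
    change v2 (P : ℕ) (((P : ℕ) : ℚ_[(P : ℕ)]) ^ e2 * ((u ⟨i', hi'⟩ : ℤ_[(P : ℕ)]) : ℚ_[(P : ℕ)])) = 1
    rw [hvm _ _ (zpow_ne_zero _ hPk) (hu0 _ (huu _)), hvu _ (huu _), add_zero, v2,
      Padic.valuation_zpow, Padic.valuation_p, mul_one]
    have h22 : Odd e2 := Int.not_even_iff_odd.1 he2
    obtain ⟨m, rfl⟩ := h22
    push_cast
    have h23 : (2 : ZMod 2) = 0 := rfl
    rw [h23, zero_mul, zero_add]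
  · intro i' hi'
    by_cases h20 : (i' : ℕ) < 2 * g + 1
    · rw [dif_pos h20, dif_neg (show ¬ ((⟨(i' : ℕ), h20⟩ : Fin (2 * g + 1)) : ℕ) < 2 * g by
        simp; omega), hvm _ _ (mul_ne_zero hx₂0 ht21n) hG2, hvm _ _ hx₂0 ht21n, hv₂, ht21, hvu _ huθ',
        ht₂, hGeval, hvu _ (hgθ _)]
      rfl
    · rw [dif_neg h20, hH₁eval, hvm _ _ hx₁0 (mul_ne_zero ht12n hG1), hvm _ _ ht12n hG1, hv₁, ht12,
        hvu _ huθ, ht₁, hGeval, hvu _ (hgθ _)]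
      rfl

end Pool.Agent.Helper54.EVL
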