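import Pool.Agent.Helper54.EVL.M_Eat
import Pool.Agent.Helper54.EVL.M_Ebig
import Pool.Agent.Helper54.EVL.M_Eco
import Pool.Agent.Helper54.EVL.M_Ecz
import Pool.Agent.Helper54.EVL.M_Eev
import Pool.Agent.Helper54.EVL.M_Efa
import Pool.Agent.Helper54.EVL.M_Ehom
import Pool.Agent.Helper54.EVL.M_Ei
import Pool.Agent.Helper54.EVL.M_Eit
import Pool.Agent.Helper54.EVL.M_Elb
import Pool.Agent.Helper54.EVL.M_Elb2
import Pool.Agent.Helper54.EVL.M_Elc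
import Pool.Agent.Helper54.EVL.M_Ela
import Pool.Agent.Helper54.EVL.M_Eli
import Pool.Agent.Helper54.EVL.M_Elp
import Pool.Agent.Helper54.EVL.M_Els
import Pool.Agent.Helper54.EVL.M_En3
import Pool.Agent.Helper54.EVL.M_Enz
import Pool.Agent.Helper54.EVL.M_Eom
import Pool.Agent.Helper54.EVL.M_Eqp
import Pool.Agent.Helper54.EVL.M_Etri
import Pool.Agent.Helper54.EVL.M_F2
import Pool.Agent.Helper54.EVL.M_Fb
import Pool.Agent.Helper54.EVL.M_Fcg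
import Pool.Agent.Helper54.EVL.M_Fg
import Pool.Agent.Helper54.EVL.M_Fh
import Pool.Agent.Helper54.EVL.M_Fh1
import Pool.Agent.Helper54.EVL.M_Fh3
import Pool.Agent.Helper54.EVL.M_Fi
import Pool.Agent.Helper54.EVL.M_Fi1
import Pool.Agent.Helper54.EVL.M_Fi2
import Pool.Agent.Helper54.EVL.M_Fj
import Pool.Agent.Helper54.EVL.M_Fl
import Pool.Agent.Helper54.EVL.M_Fm
import Pool.Agent.Helper54.EVL.M_Fo
import Pool.Agent.Helper54.EVL.M_Ft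
import Pool.Agent.Helper54.HQ.All

/-!
# EV, local part and isotropy part: all modules together
-/

set_option autoImplicit false

namespace Pool.Agent.Helper54.EVL

open Pool.Agent.Helper54

theorem a_Eom : StEom := hEom

theorem a_Eco : StEco := hEco

theorem a_Ecz : StEcz := hEcz

theorem a_Ebig : StEbig := hEbig HL.aNG

theorem a_Eev : StEev := hEev HQ.a_LD HQ.a_IN HQ.a_EI HQ.a_NV HL.aNG a_Ebig

theorem a_Eqp : StEqp := hEqp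

theorem a_Etri : StEtri := hEtri a_Eqp HQ.a_UQ

theorem a_Efa : StEfa := hEfa HL.hFA

theorem a_Ehom : StEhom := hEhom HL.hRA HQ.a_CM HQ.a_LD a_Efa HQ.a_CV HL.hFS a_Eom

theorem a_Els : StEls :=
  hEls HL.hRA HL.aRB HQ.a_CV HQ.a_CM HQ.a_LD HL.aNB HL.aNM HL.hFS HQ.a_NO a_Efa a_Etri

theorem a_Eat : StEat := hEat HL.hRA HL.aRB HQ.a_CV HQ.a_LD HL.aNB HL.aNM HL.hFA

theorem a_Elb : StElb := hElb HL.hRA HL.aRB HL.aOP HL.hOS HL.hFS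

theorem a_Elb' : StElb' := hElb' a_Elb

theorem a_Elc : StElc :=
  hElc HL.hRA HL.aRB HL.aOP HL.hOS HL.hFS HL.hNR HL.aNM HL.aNS

theorem a_Eit : StEit := hEit HL.hRA HQ.a_CV HQ.a_LD

theorem a_Ei2 : StEi2 := hEi2 a_Eco a_Eev a_Ecz

theorem a_Ei3 : StEi3 := hEi3 a_Etri a_Ehom a_Eom

theorem a_Ei5 : StEi5 := hEi5 a_Etri a_Ehom a_Eom

theorem a_Enz : StEnz := hEnz HQ.a_Over

theorem a_Fcg : StFcg := hFcg

theorem a_Fg : StFg := hFg HQ.a_LD HQ.a_Hg0 HQ.a_Hg1 a_Fcg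

theorem a_Fh1 : StFh1 := hFh1

theorem a_Fh3 : StFh3 := hFh3 HQ.a_Hc0

theorem a_Fi1 : StFi1 := hFi1

theorem a_Fi2 : StFi2 := hFi2

theorem a_Fi : StFi := hFi a_Fi1 a_Fi2 HQ.a_Hi3

theorem a_Fj : StFj := hFj

theorem a_Fl : StFl := hFl a_Fcg

theorem a_F2 : StF2 := hF2 a_Eco HQ.a_Two

theorem a_Ela : StEla := hEla HL.hRA HL.aOP

theorem a_Elp : StElp := hElp a_Ela a_Elb a_Elb' a_Elc HL.hFS

theorem a_Eli : StEli :=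
  hEli HQ.a_LD HQ.a_IN a_Elp HQ.a_CM HQ.a_CV HQ.a_NV HQ.a_DE HL.aNG a_Ehom a_Efa HL.hRA a_Eom

theorem a_En3 : StEn3 := hEn3 HL.hRA HL.aRB HQ.a_CV HQ.a_LD HL.aNB HL.aNM a_Efa

theorem a_Ei1 : StEi1 := hEi1 a_Etri a_En3 a_Ehom a_Eom

theorem a_Ei4 : StEi4 := hEi4 a_Eco a_Eli a_Etri a_Ehom a_Eom

theorem a_Fb : StFb := hFb HQ.a_Ha1 HQ.a_Ha

theorem a_Fh : StFh :=
  hFh HQ.a_LD a_Efa HQ.a_CM HQ.a_CV HL.aNM HL.aRB HL.hFS HL.hRA a_Etri a_Fh1 HQ.a_Hh2 a_Fh3 a_Fcg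
    HQ.a_Hc0

theorem a_Fm : StFm :=
  hFm HQ.a_Ha1 HQ.a_Ha a_Fb HQ.a_Hc HQ.a_Hd HQ.a_He HQ.a_Hf a_Fg a_Fh a_Fi a_Fj HQ.a_Hk a_Fl

theorem a_Fo : StFo := hFo a_Fm a_Ei5

theorem a_Ft : StFt :=
  hFt HQ.a_Over a_Etri a_Ei1 a_Ei2 a_Ei3 a_Ei4 a_Eat a_Eit a_Enz a_Els a_Fo a_F2

end Pool.Agent.Helper54.EVL
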