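import Pool.Agent.Helper54.EVL.Defs

/-!
# EV, local part (statements)

The statements `HQ.StX` are proved in `Pool/Agent/Helper54/HQ/M_X.lean`, the statements `HL.StX` in
`Pool/Agent/Helper54/HL/M_X.lean`; they may be used as hypotheses.
-/

set_option autoImplicit false

namespace Pool.Agent.Helper54.EVL

open Polynomial Finset IsDedekindDomain
open Pool.Agent.Helper3.HY (co tau baseChange descentGroup IsPointValue IsTwPoint twGroup)
open Pool.Agent.Helper54.HL (tk IrrInt IrrBig Nr Rep RepA RepB pr pr_mk IsTwIrr RootLift)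
open Pool.Agent.Helper54.HQ (Prm pz factPrm fK RR LL algRL th kp red Bf NearOne LocSq TwAt EvenAt om ep
  Over IsQ LD At2)
open Pool.Agent.Helper3.EV (Jx TType AType IType)

/-! ### Parities, constants -/

/-- (Eom) `om` is a homomorphism: `EvenAt q z` means that `v_q(z)` is a square in `ℤᵐ⁰`, that is (`z ≠ 0`)
that the exponent is even (`HQ.isSquare_exp_Hom`). -/
def StEom : Prop :=
  ∀ (f : ℤ[X]), f.Monic →
    ∀ [Fact (Irreducible (fK f))] [IsDedekindDomain (RR f)] [IsFractionRing (RR f) (LL f)]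
      (q : HeightOneSpectrum (RR f)) (z w : LL f), z ≠ 0 → w ≠ 0 →
      om q (z * w) = om q z + om q w

/-- (Eco) Constants.  (1) If `z ∈ twG h D` then `c z ∈ twGroup h D` for some `c ∈ k^*` (closure induction: the
set of such `z` is a subgroup containing the generators; a constant `c` is `c⁻¹ c = 1`; squares are in
`twGroup`).  (2) For `c ∈ ℚ_p^*` there is an integer `c₀ ≠ 0` with `c₀ / c` a square in `ℚ_p`: `c = p^e u`, `u` a unit
of `ℤ_p`; take `c₀ = p^(e mod 2) a` with `a ≡ u mod p^3` (`p^3` is enough for all `p`, see `exists_sqrt_Two` in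
`HQ/M_Two.lean` for `p = 2`, `hensels_lemma`).  (3) `c₀ z = (c₀/c) (c z)`. -/
def StEco : Prop :=
  ∀ (f : ℤ[X]), f.Monic → ∀ [Fact (Irreducible (fK f))] (D : ℤ) (p : ℕ) [Fact p.Prime]
    (z : (LL f)ˣ), TwAtE f D p z →
    ∃ (c : ℤ) (u : (LL f)ˣ), c ≠ 0 ∧ (u : LL f) = (c : LL f) * (z : LL f) ∧ TwAt f D p u

/-- (Ecz) Multiplication by integers.  `c = P^j c'`, `P ∤ c'`, and `c'` is a unit at all primes above `P`. -/
def StEcz : Prop :=
  ∀ (f : ℤ[X]), f.Monic →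
    ∀ [Fact (Irreducible (fK f))] [IsDedekindDomain (RR f)] [IsFractionRing (RR f) (LL f)]
      (P : Prm) (z : LL f) (c : ℤ), z ≠ 0 → c ≠ 0 → (EvenUp P ((c : LL f) * z) ↔ EvenUp P z)

/-! ### The regular places -/

/-- (Ebig) Points with a pole.  `U = U(0) (1 + π ∑_(l ≥ 1) c_l x^l)`; so the value is `c w` with
`c = (-D)^(deg U) U(0) ∈ k^*` and `w ∈ Nr π`.  `c = π^e u`, `u ∈ O` a unit; `LD.dense`: `a ∈ ℤ` with `u ≡ a mod π`.
Then `P^e a / c ∈ 1 + π O` and `HL.StNG` (`Nr` is closed under products and inverses). -/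
def StEbig : Prop :=
  ∀ (f : ℤ[X]), f.Monic → ∀ [Fact (Irreducible (fK f))] (P : Prm)
    (O k : Type) [CommRing O] [IsDomain O] [IsDiscreteValuationRing O] [Field k] [Algebra O k]
    [IsFractionRing O k] (i : ℤ →+* O) (j : ℚ →+* k) (ρ : O →+* kp P), LD P i j ρ →
    ∀ D : k, D ≠ 0 → ∀ U : k[X], U.Monic → IrrBig (i (pz P)) U → ∀ y' : AdjoinRoot ((fK f).map j),
    AdjoinRoot.mk _ (C (-D) ^ U.natDegree * U) * y' = 1 →
    ∃ (e a : ℤ), ¬ pz P ∣ a ∧
      Nr (i (pz P)) (baseChange j (fK f) (((pz P : ℤ) : LL f) ^ e * (a : LL f)) * y')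

/-- (Eev) Even valuations up to a power of `P` at the regular places.  As `HQ.hEven` (`HQ/M_Even.lean`), with
the subgroup `{z | EvenUp P z}` in `HQ.StIN`; the integral points by `HQ.StEI` (no parity of the degree
is used there), the other points by Ebig. -/
def StEev : Prop :=
  ∀ (f : ℤ[X]), f.Monic →
    ∀ [Fact (Irreducible (fK f))] [IsDedekindDomain (RR f)] [IsFractionRing (RR f) (LL f)]
      (P : Prm) (D : ℤ), P.1 ≠ 2 → ¬ pz P ∣ D → ∀ z : (LL f)ˣ, TwAt f D (P : ℕ) z →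
      EvenUp P (z : LL f)

/-! ### The primes above the places of `T` -/

/-- (Eqp) The prime `q` contains `p(θ)`.  `(θ - a₀)(θ - b₀) p₀(θ) ∈ q`.  As `HQ.hQP`, `HQ/M_QP.lean`. -/
def StEqp : Prop :=
  ∀ (g : ℕ), 1 ≤ g → ∀ (f : ℤ[X]), f.Monic →
    ∀ [Fact (Irreducible (fK f))] [IsDedekindDomain (RR f)] [IsFractionRing (RR f) (LL f)]
    (P : Prm) (a b : kp P) (p : (kp P)[X]), f.map (red P) = (X - C a) * (X - C b) * p → a ≠ b →
    p.Monic → Irreducible p → p.natDegree = 2 * g →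
    ∀ q : HeightOneSpectrum (RR f), IsQ g P q → ∀ p₀ : ℤ[X], p₀.map (red P) = p →
    AdjoinRoot.mk f p₀ ∈ q.asIdeal

/-- (Etri) The primes above `P`.  (1) Existence of a prime containing `P` and `φ(θ)` for every irreducible
factor `φ` of `f mod P`: kernel of `R → κ[x]/φ` (`HQ/M_Over.lean`, `q_Over`).  (2) Every prime above `P` contains
one of `θ - a₀`, `θ - b₀`, `p₀(θ)`, since the product is in `P R`; `HQ.StUQ` for the uniqueness.  (3) They are
different: the factors are coprime modulo `P`. -/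
def StEtri : Prop :=
  ∀ (g : ℕ), 1 ≤ g → ∀ (f : ℤ[X]), f.Monic →
    ∀ [Fact (Irreducible (fK f))] [IsDedekindDomain (RR f)] [IsFractionRing (RR f) (LL f)]
      (P : Prm), f.map (red P) ∈ TType (kp P) g → (∃ q : HeightOneSpectrum (RR f), IsQ g P q) ∧
      ∀ q : HeightOneSpectrum (RR f), IsQ g P q → ∃ (a b : kp P) (p : (kp P)[X])
        (qa qb : HeightOneSpectrum (RR f)), Tri g P a b p qa qb q

/-- (Efa) Factorisation over `O`: `HL.StFA` (for any monic `p` with `p(a) ≠ 0`) twice. -/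
def StEfa : Prop :=
  ∀ (O κ : Type) [CommRing O] [IsDomain O] [IsDiscreteValuationRing O] [Field κ] (ρ : O →+* κ),
    Function.Surjective ρ → RootLift ρ → ∀ (f₀ : O[X]) (a b : κ) (p : κ[X]), f₀.Monic → p.Monic →
    a ≠ b → p.eval a ≠ 0 → p.eval b ≠ 0 → f₀.map ρ = (X - C a) * (X - C b) * p →
    ∃ (θ₁ θ₂ : O) (g₂ : O[X]), g₂.Monic ∧ ρ θ₁ = a ∧ ρ θ₂ = b ∧
      f₀ = (X - C θ₁) * (X - C θ₂) * g₂ ∧ g₂.map ρ = p

/-- (Ehom) `ep` is a homomorphism at `q`; nonzero integers have `ep = 0` and the same `om` at the three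
primes; `om q P = 1`.  First part: as `HQ.hHom` (`HQ/M_Hom.lean`) with the factorisation Efa and `HQ.StCM` for the factor
`g₂`.  Second part: `c = P^j c'`; `c'` is a unit at all primes above `P`, and its residue in `κ[x]/p` is a
square since the degree of `p` is even (`HL.StFS`); the image of `P` has `Rep` `(1, 1)` for the factors
`X - θ₁`, `X - θ₂`, `g₂`, so `om = 1` at the three primes (`HQ.StCV`), and `ep P q (P) = 0` (take `j = 1`, `β = P⁻¹` in the
definition). -/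
def StEhom : Prop :=
  ∀ (g : ℕ), 1 ≤ g → ∀ (f : ℤ[X]), f.Monic →
    ∀ [Fact (Irreducible (fK f))] [IsDedekindDomain (RR f)] [IsFractionRing (RR f) (LL f)]
      (P : Prm), P.1 ≠ 2 → ∀ (a b : kp P) (p : (kp P)[X]) (qa qb q : HeightOneSpectrum (RR f)),
    Tri g P a b p qa qb q →
    (∀ z w : LL f, z ≠ 0 → w ≠ 0 → ep P q (z * w) = ep P q z + ep P q w) ∧
      om q ((pz P : ℤ) : LL f) = 1 ∧
      ∀ c : ℤ, c ≠ 0 → ep P q (c : LL f) = 0 ∧ om qa (c : LL f) = om q (c : LL f) ∧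
        om qb (c : LL f) = om q (c : LL f)

/-- (En3) The norm.  `z ↦ (z₁, z₂, z₃)` with `Rep` `(e₁, s₁)`, `(e₂, s₂)`, `(e₃, s₃)`;
`N(z) = N(z₁) N(z₂) N(z₃)` (`HL.StNM` twice) has valuation `e₁ + e₂ + 2 g e₃` (`HL.StRB`).  Compare the first half
of `Q3.core` in `HQ/M_Q3.lean`. -/
def StEn3 : Prop :=
  ∀ (g : ℕ), 1 ≤ g → ∀ (f : ℤ[X]), f.Monic →
    ∀ [Fact (Irreducible (fK f))] [IsDedekindDomain (RR f)] [IsFractionRing (RR f) (LL f)]
      (P : Prm), P.1 ≠ 2 → ∀ (a b : kp P) (p : (kp P)[X]) (qa qb q : HeightOneSpectrum (RR f)),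
    Tri g P a b p qa qb q → ∀ z : LL f, z ≠ 0 → IsSquare (Algebra.norm ℚ z) → om qa z = om qb z

/-- (Els) Local squares up to units.  All valuations of `z` above `P` are even and `ep = 0`:
`z₁ = π^(e₁) s₁..`, with `s₁ s₂ N(s₃)` a square (norm) and `s₃` a square, so `s₁ s₂` is a square in `κ^*`.  Choose
`c ∈ ℤ` with residue `s₁` (so `c s₁`, `c s₂`, `c s₃` are squares; `c` is a square in `κ[x]/p`, `HL.StFS`).  Then as in
the second half of `Q3.core` (`HQ/M_Q3.lean`) with three factors instead of two: first an element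
`β₀ = ∏ P^(..) (θ - a₁)^(..) (θ - b₁)^(..)` with the valuations `-e_i/2` at the three primes (`θ - a₁` with
`a₁ ≡ θ₁ + π mod π²` has `Rep` `(1, ·)` at `X - θ₁` and `(0, ·)` at the others), then an integral element with given
residues modulo `X - a`, `X - b`, `p` (Chinese remainder theorem), and glue. -/
def StEls : Prop :=
  ∀ (g : ℕ), 1 ≤ g → ∀ (f : ℤ[X]), f.Monic →
    ∀ [Fact (Irreducible (fK f))] [IsDedekindDomain (RR f)] [IsFractionRing (RR f) (LL f)]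
      (P : Prm), P.1 ≠ 2 → f.map (red P) ∈ TType (kp P) g →
    ∀ q : HeightOneSpectrum (RR f), IsQ g P q →
    ∀ z : LL f, z ≠ 0 → IsSquare (Algebra.norm ℚ z) → (∀ v, Over P v → EvenAt v z) →
      ep P q z = 0 → LocSqC P z

/-! ### The places of `R`: the image of the twist -/

/-- The common hypotheses for La, Lb, Lc. -/
def StEX (good : ∀ {κ : Type} [Field κ], κ → κ → κ[X] → κ[X] → Prop) : Prop :=
  ∀ (O k κ : Type) [CommRing O] [IsDomain O] [IsDiscreteValuationRing O] [Field k] [Algebra O k]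
    [IsFractionRing O k] [Field κ] [Finite κ] (π : O) (ρ : O →+* κ), Irreducible π →
    Function.Surjective ρ → (∀ c, ρ c = 0 ↔ π ∣ c) → (2 : κ) ≠ 0 →
    ∀ (g : ℕ) (θ₁ θ₂ : O) (g₂ : O[X]), 1 ≤ g → g₂.Monic → Irreducible (g₂.map ρ) →
    g₂.natDegree = 2 * g → ρ θ₁ ≠ ρ θ₂ →
    ∀ h : k[X], h = tk k ((X - C θ₁) * (X - C θ₂) * g₂) →
    ∀ (hd₁ : tk k (X - C θ₁) ∣ h) (hd₂ : tk k (X - C θ₂) ∣ h) (hd : tk k g₂ ∣ h),
    ∀ D' : O, IsUnit D' → ∀ (U₀ : O[X]) (V : k[X]) (ψ : κ[X]) (n : ℕ), U₀.Monic →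
    Irreducible (tk k U₀) → IsCoprime (tk k U₀) h →
    tk k U₀ ∣ C (algebraMap O k (π * D')) * h - V ^ 2 → ψ.Monic → Irreducible ψ → 1 ≤ n →
    U₀.map ρ = ψ ^ n → good (ρ θ₁) (ρ θ₂) (g₂.map ρ) ψ →
    LineEq π ρ θ₁ θ₂ g₂ hd₁ hd₂ hd (AdjoinRoot.mk h
      (C (-algebraMap O k (π * D')) ^ (tk k U₀).natDegree * tk k U₀))

/-- (Ela) `ψ` is different from `x - a`, `x - b`, `ḡ₂`.  As `HL.hLA` (`HL/M_LA.lean`): `U₀(θ)` is a unit of
`O[x]/f₀` (`unit_of_coprime_LA`), so its order is `0` and `HL.StOP` (with `D = π D'`, `e = 1`) gives that `n` is even.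
Let `m = deg U₀ = n deg ψ` (even).  `e₁ = e₂ = e = m` (`rep_pt_LA`, also for the factors `X - θ₁`, `X - θ₂`), and
`s = (-D')^m ψ^n` is a square, `e₁ + e = e₂ + e = 2 m`. -/
def StEla : Prop := StEX fun a b h ψ => ψ ≠ X - C a ∧ ψ ≠ X - C b ∧ ψ ≠ h

/-- (Elb) `ψ = x - a`, `m = deg U₀ = n`.  At `X - θ₂` and `g₂` the element `U₀(θ)` is a unit: `e₂ = e = n`,
`s = (-D')^n (x - a)^n` (`rep_pt_LA`).  At `X - θ₁`: `e₁ = n + m₁`, `m₁ = v(U₀(θ₁))`.  The order of `U₀(θ)` in `O[x]/f₀`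
equals the order of `(X - θ₁)(X - θ₂) g₂` in `O[x]/U₀` (`HL.StOS`), where `X - θ₂` and `g₂` are units (coprime
reductions, `unit_of_coprime_LA` with `f₀ := U₀`), so it is `m₁` (`HL.StRB`, `ord`, for the factor `X - θ₁`; see
`HL/M_LC.lean`).  `HL.StOP`: `m₁ + n` is even.  So `e₁ + e = 2 n + m₁ ≡ n`, `e₂ + e = 2 n`, and the element
`(-D')^n (x-a)^n (x-a)^|e₁+e| (x-b)^(2n)` is a square (`HL.StFS` for the constant). -/
def StElb : Prop := StEX fun a _ _ ψ => ψ = X - C a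

/-- (Elb') `ψ = x - b`.  Exchange the roles of `θ₁` and `θ₂` in Elb. -/
def StElb' : Prop := StEX fun _ b _ ψ => ψ = X - C b

/-- (Elc) `ψ = ḡ₂`.  As `HL.hLC` (`HL/M_LC.lean`) with `(X - θ₁)(X - θ₂)` instead of `X - θ`: `m = deg U₀ = 2 g n`,
`e₁ = e₂ = m` (`U₀(θ₁)`, `U₀(θ₂)` are units), `e = m + m₀`, `m₀ ≡ n` (`StOP`), and
`s = (-D')^m s₀` where `s₀ t^n` is a square, `t = (x - a)(x - b)`: norms: `N_U(π D' h) = □` and
`N_U(h) = ± N_h(U) = U(θ₁) U(θ₂) N(U(θ))`, `N(t) = ḡ₂(a) ḡ₂(b)` and `HL.StFS`. -/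
def StElc : Prop := StEX fun _ _ h ψ => ψ = h

/-- (Elp) All points.  As `HL.hLP` (`HL/M_LP.lean`): integral points by Ela, Elb, Elb', Elc.  Otherwise
(`IrrBig`) the value is `c w` with `c ∈ k^*`, `w ∈ Nr π` (see Ebig, no parity needed): `c = π^e u`, all three
valuations are `e`, and `s` is the class of the constant `ρ(u)`, a square by `HL.StFS` (`deg ḡ₂` even),
`e₁ + e = e₂ + e = 2 e`. -/
def StElp : Prop :=
  ∀ (O k κ : Type) [CommRing O] [IsDomain O] [IsDiscreteValuationRing O] [Field k] [Algebra O k]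
    [IsFractionRing O k] [Field κ] [Finite κ] (π : O) (ρ : O →+* κ), Irreducible π →
    Function.Surjective ρ → (∀ c, ρ c = 0 ↔ π ∣ c) → (2 : κ) ≠ 0 →
    (∀ U : k[X], U.Monic → Irreducible U → IrrInt ρ U ∨ IrrBig π U) →
    ∀ (g : ℕ) (θ₁ θ₂ : O) (g₂ : O[X]), 1 ≤ g → g₂.Monic → Irreducible (g₂.map ρ) →
    g₂.natDegree = 2 * g → ρ θ₁ ≠ ρ θ₂ →
    ∀ h : k[X], h = tk k ((X - C θ₁) * (X - C θ₂) * g₂) →
    ∀ (hd₁ : tk k (X - C θ₁) ∣ h) (hd₂ : tk k (X - C θ₂) ∣ h) (hd : tk k g₂ ∣ h),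
    ∀ D' : O, IsUnit D' → ∀ y : AdjoinRoot h, IsTwIrr h (algebraMap O k (π * D')) y →
    LineEq π ρ θ₁ θ₂ g₂ hd₁ hd₂ hd y

/-- (Eli) The relation for the twist by `P D`.  `η_a = 0` iff the class of `x - a` in `κ[x]/p` is a square,
similarly `η_b`.  The set of the `z` which satisfy the relation is a subgroup of `L^*` (Eom, Ehom); `HQ.StIN` as
in `HQ.hLine` (`HQ/M_Line.lean`): elements near one satisfy it (all `om`, `ep` vanish), squares too, and
for the values at points choose `z` by `HQ.StDE`; Elp gives `LineEq`, and `HQ.StCV` (for `X - θ₁`, `X - θ₂`), `HQ.StCM`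
(for `g₂`) translate: `om qa z = e₁`, `om qb z = e₂`, `om q z = e` modulo 2, `ep P q z = 0` iff `s` is a square. -/
def StEli : Prop :=
  ∀ (g : ℕ), 1 ≤ g → ∀ (f : ℤ[X]), f.Monic →
    ∀ [Fact (Irreducible (fK f))] [IsDedekindDomain (RR f)] [IsFractionRing (RR f) (LL f)]
      (P : Prm), P.1 ≠ 2 → ∀ (a b : kp P) (p : (kp P)[X]) (qa qb q : HeightOneSpectrum (RR f)),
    Tri g P a b p qa qb q → ∃ ηa ηb : ZMod 2, ∀ D : ℤ, ¬ pz P ∣ D → ∀ z : (LL f)ˣ,
      TwAt f (pz P * D) (P : ℕ) z →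
      ep P q (z : LL f) = (om qa (z : LL f) + om q (z : LL f)) * ηa +
        (om qb (z : LL f) + om q (z : LL f)) * ηb

/-! ### The places 2 and `P₀` -/

/-- (Eat) Type `(1)(2g+1)`.  `f ≡ (x - a) p` modulo `P` (`P = 2` is allowed): factorisation
`(X - θ) g₂` (`HL.StFA`, `HQ.StLD`), `Rep` `(e₁, ·)`, `(e₂, ·)`; the norm has valuation `e₁ + (2g+1) e₂`, so
`e₁ ≡ e₂`; `HQ.StCV` for both factors; the element `P` has `Rep` `(1, 1)` at both.  Every prime above `P` contains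
`θ - a₀` or `p₀(θ)`.  Compare `HQ/M_I1.lean` and `HQ/M_Q3.lean`. -/
def StEat : Prop :=
  ∀ (g : ℕ), 1 ≤ g → ∀ (f : ℤ[X]), f.Monic →
    ∀ [Fact (Irreducible (fK f))] [IsDedekindDomain (RR f)] [IsFractionRing (RR f) (LL f)]
      (P : Prm), f.map (red P) ∈ AType (kp P) g →
    ∀ z : LL f, z ≠ 0 → IsSquare (Algebra.norm ℚ z) → EvenUp P z

/-- (Eit) Type `(2g+2)`: `f.map i` is irreducible modulo `π`, there is one prime above `P` and `P` is a
uniformizer there: `HQ.StCV` for `g₀ = f.map i` (see `HQ/M_I1.lean`), `Rep` of `P` is `(1, 1)`.  No condition on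
the norm. -/
def StEit : Prop :=
  ∀ (g : ℕ), 1 ≤ g → ∀ (f : ℤ[X]), f.Monic →
    ∀ [Fact (Irreducible (fK f))] [IsDedekindDomain (RR f)] [IsFractionRing (RR f) (LL f)]
      (P : Prm), f.map (red P) ∈ IType (kp P) g → ∀ z : LL f, z ≠ 0 → EvenUp P z

/-! ### The interface -/

/-- (Ei1) Normalisation at the places of `T`: with `j = 0` or `1` according to `om qa z = om qb z` (En3); `P`
has odd valuation at `qa`, `qb` (Ehom with `c = P`, Eom).  Etri for the primes above `P`. -/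
def StEi1 : Prop :=
  ∀ (g : ℕ), 1 ≤ g → ∀ (f : ℤ[X]), f.Monic →
    ∀ [Fact (Irreducible (fK f))] [IsDedekindDomain (RR f)] [IsFractionRing (RR f) (LL f)]
      (P : Prm), P.1 ≠ 2 → f.map (red P) ∈ TType (kp P) g →
    ∀ q : HeightOneSpectrum (RR f), IsQ g P q →
    ∀ z : LL f, z ≠ 0 → IsSquare (Algebra.norm ℚ z) →
      ∃ j : ℕ, ∀ v, Over P v → v ≠ q → EvenAt v (((pz P : ℤ) : LL f) ^ j * z)

/-- (Ei2) Regular places: Eco, Eev, Ecz. -/
def StEi2 : Prop :=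
  ∀ (f : ℤ[X]), f.Monic →
    ∀ [Fact (Irreducible (fK f))] [IsDedekindDomain (RR f)] [IsFractionRing (RR f) (LL f)]
      (P : Prm) (D : ℤ), P.1 ≠ 2 → ¬ pz P ∣ D → ∀ z : (LL f)ˣ, TwAtE f D (P : ℕ) z →
      EvenUp P (z : LL f)

/-- (Ei3) `P ∈ T`, `P ∤ D`: `z` normalised (even at `qa`, `qb`) and `EvenUp`: then `z` is even at `q`: the exponent
`j` is even, since `P` has odd valuation at `qa`. -/
def StEi3 : Prop :=
  ∀ (g : ℕ), 1 ≤ g → ∀ (f : ℤ[X]), f.Monic →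
    ∀ [Fact (Irreducible (fK f))] [IsDedekindDomain (RR f)] [IsFractionRing (RR f) (LL f)]
      (P : Prm), P.1 ≠ 2 → f.map (red P) ∈ TType (kp P) g →
    ∀ q : HeightOneSpectrum (RR f), IsQ g P q → ∀ z : LL f, z ≠ 0 →
      (∀ v, Over P v → v ≠ q → EvenAt v z) → EvenUp P z → EvenAt q z

/-- (Ei4) The fixed line, `η = η_a + η_b`.  Eco: `u = c z` with `TwAt`; Eli for `u`; by Eom and Ehom the relation
holds for `z` (`om` of `c` is the same at the three primes, `ep` of `c` is `0`); `om qa z = om qb z = 0`. -/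
def StEi4 : Prop :=
  ∀ (g : ℕ), 1 ≤ g → ∀ (f : ℤ[X]), f.Monic →
    ∀ [Fact (Irreducible (fK f))] [IsDedekindDomain (RR f)] [IsFractionRing (RR f) (LL f)]
      (P : Prm), P.1 ≠ 2 → f.map (red P) ∈ TType (kp P) g →
    ∀ q : HeightOneSpectrum (RR f), IsQ g P q →
    ∃ η : ZMod 2, ∀ D : ℤ, ¬ pz P ∣ D → ∀ z : (LL f)ˣ, TwAtE f (pz P * D) (P : ℕ) z →
      (∀ v, Over P v → v ≠ q → EvenAt v (z : LL f)) →
      (om q (z : LL f) = 0 ∧ ep P q (z : LL f) = 0) ∨
        (om q (z : LL f) = 1 ∧ ep P q (z : LL f) = η)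

/-- (Ei5) `ep` and `om` at `q`: homomorphisms, `ep` of integers is `0`. -/
def StEi5 : Prop :=
  ∀ (g : ℕ), 1 ≤ g → ∀ (f : ℤ[X]), f.Monic →
    ∀ [Fact (Irreducible (fK f))] [IsDedekindDomain (RR f)] [IsFractionRing (RR f) (LL f)]
      (P : Prm), P.1 ≠ 2 → f.map (red P) ∈ TType (kp P) g →
    ∀ q : HeightOneSpectrum (RR f), IsQ g P q →
    ∀ z w : LL f, z ≠ 0 → w ≠ 0 → om q (z * w) = om q z + om q w ∧
      ep P q (z * w) = ep P q z + ep P q w

/-- (Enz) Global normalisation.  `E` is a set of primes.  The set of `v` with `v(z) ≠ 1` is finite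
(`HeightOneSpectrum.Support`-type lemma, or: `z = r / s` with `r, s ∈ R` nonzero and finitely many primes
contain `r s`); let `S` be the finite set of primes `P` below them, `j_P` the exponents, `c = ∏_(P ∈ S) P^(j_P)`.  For
`v` above `P`: the `P'` different from `P` are units at `v` (`Over` for two different primes is impossible, see
`over_unique_Hm` in `HQ/M_Hm.lean`), and for `P ∉ S` all valuations of `z` above `P` are `1`. -/
def StEnz : Prop :=
  ∀ (f : ℤ[X]), f.Monic →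
    ∀ [Fact (Irreducible (fK f))] [IsDedekindDomain (RR f)] [IsFractionRing (RR f) (LL f)]
      (E : Set (HeightOneSpectrum (RR f))) (z : LL f), z ≠ 0 →
      (∀ P : Prm, ∃ j : ℕ, ∀ v, Over P v → v ∉ E → EvenAt v (((pz P : ℤ) : LL f) ^ j * z)) →
      ∃ c : ℕ, c ≠ 0 ∧ ∀ v, v ∉ E → EvenAt v ((c : LL f) * z)

end Pool.Agent.Helper54.EVL
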